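import Pool.Agent.Y915.Cur3
import Pool.Agent.Y870.PC.Etale
import Pool.Agent.Y68.PC.Tay

set_option autoImplicit false

/-!
# Connections of any rank on curves étale over the line: Taylor series
-/

namespace Pool.Agent.Y915.Cur

open scoped PowerSeries Polynomial
open Finset

section tay

variable {A : Type} [CommRing A] {D : A → A} {e : A →+* ℤ} {τ : A →+* ℤ⟦X⟧}

theorem tau_iter (hτD : ∀ g, τ (D g) = PowerSeries.derivative ℤ (τ g)) (m : ℕ) (g : A) :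
    τ (D^[m] g) = (PowerSeries.derivative ℤ)^[m] (τ g) := by
  induction m with
  | zero => rfl
  | succ m ih => rw [Function.iterate_succ_apply', hτD, ih, Function.iterate_succ_apply']

theorem tau_taylor (hτe : ∀ g, PowerSeries.constantCoeff (τ g) = e g)
    (hτD : ∀ g, τ (D g) = PowerSeries.derivative ℤ (τ g)) (g : A) :
    cst ℂ (τ g) = PowerSeries.mk fun m => ((e (D^[m] g) : ℤ) : ℂ) / (m.factorial : ℂ) := by
  ext m
  rw [PowerSeries.coeff_mk, PowerSeries.coeff_map, ← hτe, tau_iter hτD,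
    ← PowerSeries.coeff_zero_eq_constantCoeff_apply, PowerSeries.coeff_iterate_derivative]
  have h1 : (m.factorial : ℂ) ≠ 0 := by exact_mod_cast m.factorial_ne_zero
  rw [eq_div_iff h1, zero_add, Nat.one_ascFactorial]
  simp only [eq_intCast, zero_add]
  push_cast
  ring

end tay

/-- `φ` is a map from the disc along which the connection matrix `A` is holomorphic. -/
structure Unif {A : Type} [CommRing A] [Algebra ℤ[X] A] {r : ℕ} (D : A → A) (e : A →+* ℤ)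
    (C : Matrix (Fin r) (Fin r) A) (φ : ℂ⟦X⟧) : Prop where
  dx : D (algebraMap ℤ[X] A Polynomial.X) = 1
  ex : e (algebraMap ℤ[X] A Polynomial.X) = 0
  const : PowerSeries.constantCoeff φ = 0
  conv : Gd 1 φ
  hol : ∀ i j, Gd 1 (PowerSeries.derivative ℂ φ * PowerSeries.subst φ
    (PowerSeries.mk fun m => ((e (D^[m] (C i j)) : ℤ) : ℂ) / (m.factorial : ℂ) : ℂ⟦X⟧))

theorem critEt {A : Type} [CommRing A] [IsDomain A] [Algebra ℤ[X] A] [Algebra.Etale ℤ[X] A]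
    {D : Derivation ℤ A A} {e : A →+* ℤ} {r : ℕ} {M : ℤ} {C : Matrix (Fin r) (Fin r) A}
    {φ : ℂ⟦X⟧} (hU : Unif D e C φ) (hM : M ≠ 0) (h1 : PowerSeries.coeff 1 φ ≠ 0) {t : ℝ}
    (hlt : t < Real.log ‖PowerSeries.coeff 1 φ‖) {k : ℕ → ℕ}
    (hk : ∀ p : ℕ, p.Prime → k p = 0 ∨ (k p = 1 ∧ PCurvZero D (M • C) p) ∨
      (p : ℤ) ^ (∑ i ∈ range (k p), p ^ i) ∣ M)
    (hsum : ∀ m : ℕ, ∑ p ∈ (range (m + 1)).filter Nat.Prime,
      Real.log p / ((p : ℝ) ^ k p * ((p : ℝ) - 1)) ≤ t) : AlgSol D (M • C) := by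
  obtain ⟨h0, D', hT, huniq⟩ := Pool.Agent.Y870.PC.etale A e hU.ex
  obtain rfl : D = D' := huniq D hU.dx
  obtain ⟨τ, hτi, hτx, hτe, hτD⟩ := Pool.Agent.Y68.PC.tay A D _ e hT
  refine crit hT hτi hτx hτD hM C hU.const hU.conv h1 ?_ hlt hk hsum
  intro i j
  have h2 := hU.hol i j
  rw [← tau_taylor hτe hτD] at h2
  rw [sub_apply]
  exact h2

theorem uniformEt {δ : ℝ} (hδ : 0 < δ) : ∃ M₀ : ℕ, 0 < M₀ ∧
    ∀ (A : Type) [CommRing A] [IsDomain A] [Algebra ℤ[X] A] [Algebra.Etale ℤ[X] A]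
      (D : Derivation ℤ A A) (e : A →+* ℤ) (r : ℕ) (M : ℤ) (C : Matrix (Fin r) (Fin r) A)
      (φ : ℂ⟦X⟧), Unif D e C φ → M ≠ 0 → (M₀ : ℤ) ∣ M →
      (∀ S : Finset ℕ, (∀ p ∈ S, p.Prime ∧ ¬ (p : ℤ) ∣ M ∧ ¬ PCurvZero D (M • C) p) →
        ∑ p ∈ S, Real.log p / p ≤ Real.log ‖PowerSeries.coeff 1 φ‖ - δ) →
      AlgSol D (M • C) := by
  obtain ⟨M₀, h0, H⟩ := uniform hδ
  refine ⟨M₀, h0, ?_⟩
  intro A _ _ _ _ D e r M C φ hU hM hdvd hS
  obtain ⟨h0, D', hT, huniq⟩ := Pool.Agent.Y870.PC.etale A e hU.ex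
  obtain rfl : D = D' := huniq D hU.dx
  obtain ⟨τ, hτi, hτx, hτe, hτD⟩ := Pool.Agent.Y68.PC.tay A D _ e hT
  refine H A D _ e τ r M C φ hU.const hT hτi hτx hτD hM hdvd hU.conv ?_ hS
  intro i j
  have h2 := hU.hol i j
  rw [← tau_taylor hτe hτD] at h2
  rw [sub_apply]
  exact h2

end Pool.Agent.Y915.Cur
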