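import Pool.Agent.Y915.Mer
import Pool.Agent.Y915.Cur4

set_option autoImplicit false

/-!
# Connections on curves étale over the line with meromorphic solutions on a disc
-/

namespace Pool.Agent.Y915.Mero

open scoped PowerSeries Polynomial
open Finset Pool.Agent.Y915.Cur

section main

variable {A : Type} [CommRing A] [IsDomain A] [CharZero A] {D : A → A} {x : A} {e : A →+* ℤ}
  {τ : A →+* ℤ⟦X⟧} {r : ℕ}

omit [IsDomain A] [CharZero A] in
/-- The formal solutions are algebraic. -/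
theorem formal' (h : IsTay A D x e) (hτD : ∀ g, τ (D g) = PowerSeries.derivative ℤ (τ g))
    {M : ℤ} (hM : M ≠ 0) (C : Matrix (Fin r) (Fin r) A)
    {φ : ℂ⟦X⟧} (hφ : PowerSeries.constantCoeff φ = 0) (mφ : Mer φ)
    (h1 : PowerSeries.coeff 1 φ ≠ 0) {V : Matrix (Fin r) (Fin r) ℂ⟦X⟧}
    (hV : ∀ i j, Mer (V i j)) (hV0 : V.map PowerSeries.constantCoeff = 1)
    (hVs : dM V = (Matrix.of fun i j =>
      PowerSeries.derivative ℂ φ * sub φ hφ (cst ℂ ((M • (-(C.map τ))) i j))) * V)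
    {t : ℝ} (hlt : t < Real.log ‖PowerSeries.coeff 1 φ‖) {k : ℕ → ℕ}
    (hk : ∀ p : ℕ, p.Prime → k p = 0 ∨ (k p = 1 ∧ PCurvZero D (M • C) p) ∨
      (p : ℤ) ^ (∑ i ∈ range (k p), p ^ i) ∣ M)
    (hsum : ∀ m : ℕ, ∑ p ∈ (range (m + 1)).filter Nat.Prime,
      Real.log p / ((p : ℝ) ^ k p * ((p : ℝ) - 1)) ≤ t) :
    ∃ Y : Matrix (Fin r) (Fin r) ℚ⟦X⟧, dM Y = (M • (-(C.map τ))).map (cst ℚ) * Y ∧
      Y.map PowerSeries.constantCoeff = 1 ∧ ∀ i j, IsAlgebraic ℚ[X] (Y i j) := by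
  obtain ⟨Y, hY, hY0⟩ := Pool.Agent.Y810.PC.ode1 ℚ r ((M • (-(C.map τ))).map (cst ℚ))
  refine ⟨Y, hY, hY0, ?_⟩
  -- the constant `E`
  set E : ℕ := ∏ p ∈ M.natAbs.primeFactors, p ^ vf p (p ^ k p - 1) with hE
  have hE0 : 0 < E := prod_pos fun p hp => pow_pos (Nat.prime_of_mem_primeFactors hp).pos _
  have hE' : ∀ p : ℕ, p.Prime → p ^ vf p (p ^ k p - 1) ∣ E := by
    intro p hp
    by_cases hk2 : k p ≤ 1
    · have h1 : vf p (p ^ k p - 1) = 0 := by
        refine vf_lt ?_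
        have h2 : p ^ k p ≤ p := (Nat.pow_le_pow_right hp.pos hk2).trans_eq (pow_one p)
        have h3 := hp.pos
        omega
      rw [h1, pow_zero]; exact one_dvd _
    · have h1 : (p : ℤ) ^ (∑ i ∈ range (k p), p ^ i) ∣ M := by
        rcases hk p hp with h | h | h
        · omega
        · omega
        · exact h
      have h2 : (p : ℤ) ∣ M := by
        refine dvd_trans (dvd_pow_self _ ?_) h1
        obtain ⟨j, hj⟩ : ∃ j, k p = j + 1 := ⟨k p - 1, by omega⟩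
        rw [hj, sum_range_succ']
        simp
      have h3 : p ∈ M.natAbs.primeFactors := by
        rw [Nat.mem_primeFactors]
        exact ⟨hp, Int.natCast_dvd.1 h2, by simpa using hM⟩
      exact dvd_prod_of_mem _ h3
  have hdiv : ∀ p : ℕ, p.Prime → ∀ H : Matrix (Fin r) (Fin r) ℤ⟦X⟧,
      ∃ H' : Matrix (Fin r) (Fin r) ℤ⟦X⟧,
        (nab (M • (-(C.map τ))))^[p ^ k p] H = ((p : ℤ) ^ (vf p (p ^ k p) - 0)) • H' := by
    intro p hp H
    have hdvd : (p : ℤ) ^ vf p (p ^ k p) ∣ M → ∃ H' : Matrix (Fin r) (Fin r) ℤ⟦X⟧,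
        (nab (M • (-(C.map τ))))^[p ^ k p] H = ((p : ℤ) ^ (vf p (p ^ k p) - 0)) • H' := by
      intro h
      rw [Nat.sub_zero]
      exact Pool.Agent.Y79.PC.NAB.nab1 r (-(C.map τ)) M p (k p) hp h H
    rcases hk p hp with hh | ⟨hh, hf⟩ | hh
    · apply hdvd
      rw [hh]
      simp [vf]
    · obtain ⟨H', hH'⟩ := hdiv_good h.add h.mul hτD (M • C) hp hf H
      rw [neg_map] at hH'
      refine ⟨H', ?_⟩
      have h1 : vf p (p ^ k p) = 1 := by rw [vf_pow hp, hh]; simp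
      rw [h1, hh]
      simpa using hH'
    · apply hdvd
      rw [vf_pow hp]; exact hh
  intro i j
  refine core' hY hY0 (k := k) (d := fun _ => 0) hE0 hE' hdiv (τ := t) ?_ hφ mφ h1 hV hV0 hVs
    hlt i j
  intro m
  refine le_trans (le_of_eq ?_) (hsum m)
  refine sum_congr rfl fun p _ => ?_
  push_cast
  rw [zero_add, mul_one_div, div_div, mul_comm ((p : ℝ) - 1)]

end main

/-- `φ` is a meromorphic map from the disc along which the connection `∂ + N` has a full set of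
meromorphic solutions. -/
structure Unif' {A : Type} [CommRing A] [Algebra ℤ[X] A] {r : ℕ} (D : A → A) (e : A →+* ℤ)
    (N : Matrix (Fin r) (Fin r) A) (φ : ℂ⟦X⟧) : Prop where
  dx : D (algebraMap ℤ[X] A Polynomial.X) = 1
  ex : e (algebraMap ℤ[X] A Polynomial.X) = 0
  const : PowerSeries.constantCoeff φ = 0
  mer : Mer φ
  sol : ∃ V : Matrix (Fin r) (Fin r) ℂ⟦X⟧, (∀ i j, Mer (V i j)) ∧
    V.map PowerSeries.constantCoeff = 1 ∧ ∀ i j, PowerSeries.derivative ℂ (V i j) =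
      -(PowerSeries.derivative ℂ φ * ∑ l, PowerSeries.subst φ
        (PowerSeries.mk fun m => ((e (D^[m] (N i l)) : ℤ) : ℂ) / (m.factorial : ℂ) : ℂ⟦X⟧) *
        V l j)

theorem critEt' {A : Type} [CommRing A] [IsDomain A] [Algebra ℤ[X] A] [Algebra.Etale ℤ[X] A]
    {D : Derivation ℤ A A} {e : A →+* ℤ} {r : ℕ} {M : ℤ} {C : Matrix (Fin r) (Fin r) A}
    {φ : ℂ⟦X⟧} (hU : Unif' D e (M • C) φ) (hM : M ≠ 0) (h1 : PowerSeries.coeff 1 φ ≠ 0) {t : ℝ}
    (hlt : t < Real.log ‖PowerSeries.coeff 1 φ‖) {k : ℕ → ℕ}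
    (hk : ∀ p : ℕ, p.Prime → k p = 0 ∨ (k p = 1 ∧ PCurvZero D (M • C) p) ∨
      (p : ℤ) ^ (∑ i ∈ range (k p), p ^ i) ∣ M)
    (hsum : ∀ m : ℕ, ∑ p ∈ (range (m + 1)).filter Nat.Prime,
      Real.log p / ((p : ℝ) ^ k p * ((p : ℝ) - 1)) ≤ t) : AlgSol D (M • C) := by
  obtain ⟨h0, D', hT, huniq⟩ := Pool.Agent.Y870.PC.etale A e hU.ex
  obtain rfl : D = D' := huniq D hU.dx
  obtain ⟨τ, hτi, hτx, hτe, hτD⟩ := Pool.Agent.Y68.PC.tay A D _ e hT
  obtain ⟨V, hV, hV0, hVs⟩ := hU.sol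
  obtain ⟨Y, hY, hY0, hYa⟩ := formal' hT hτD hM C hU.const hU.mer h1 hV hV0 (by
    ext1 i j
    have h2 : dM V i j = PowerSeries.derivative ℂ (V i j) := rfl
    rw [h2, hVs i j, Matrix.mul_apply, mul_sum, ← sum_neg_distrib]
    refine sum_congr rfl fun l _ => ?_
    have h3 := congrFun (congrFun (neg_map (τ := τ) M C) i) l
    rw [Matrix.neg_apply, Matrix.map_apply] at h3
    rw [Matrix.of_apply, ← h3, map_neg, map_neg, ← tau_taylor hτe hτD, sub_apply]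
    ring) hlt hk hsum
  refine transfer hT hτi hτx hτD (Y := Y) ?_ hY0 hYa
  rw [neg_map]
  exact hY

theorem uniformEt' {δ : ℝ} (hδ : 0 < δ) : ∃ M₀ : ℕ, 0 < M₀ ∧
    ∀ (A : Type) [CommRing A] [IsDomain A] [Algebra ℤ[X] A] [Algebra.Etale ℤ[X] A]
      (D : Derivation ℤ A A) (e : A →+* ℤ) (r : ℕ) (M : ℤ) (C : Matrix (Fin r) (Fin r) A)
      (φ : ℂ⟦X⟧), Unif' D e (M • C) φ → M ≠ 0 → (M₀ : ℤ) ∣ M →
      (∀ S : Finset ℕ, (∀ p ∈ S, p.Prime ∧ ¬ (p : ℤ) ∣ M ∧ ¬ PCurvZero D (M • C) p) →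
        ∑ p ∈ S, Real.log p / p ≤ Real.log ‖PowerSeries.coeff 1 φ‖ - δ) →
      AlgSol D (M • C) := by
  classical
  obtain ⟨P, K, hPK⟩ := Pool.Agent.Y536.PC.num4 (δ / 2) (by linarith)
  refine ⟨∏ p ∈ (range (P + 1)).filter Nat.Prime, p ^ (∑ i ∈ range K, p ^ i),
    prod_pos fun p hp => pow_pos (mem_filter.1 hp).2.pos _, ?_⟩
  intro A _ _ _ _ D e r M C φ hU hM hdvd hS
  obtain ⟨B, hB⟩ : ∃ B : Set ℕ, ∀ p, p ∈ B ↔ (¬ (p : ℤ) ∣ M ∧ ¬ PCurvZero D (M • C) p) :=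
    ⟨{p | ¬ (p : ℤ) ∣ M ∧ ¬ PCurvZero D (M • C) p}, fun _ => Iff.rfl⟩
  have h1 : PowerSeries.coeff 1 φ ≠ 0 := by
    intro h0
    have := hS ∅ (by simp)
    rw [h0, norm_zero, Real.log_zero, sum_empty] at this
    linarith
  refine critEt' hU hM h1
    (t := Real.log ‖PowerSeries.coeff 1 φ‖ - δ / 2) (by linarith)
    (k := fun p => if p ≤ P then K else if p ∈ B then 0 else 1) ?_ ?_
  · intro p hp
    by_cases h1 : p ≤ P
    · right; right
      simp only [h1, if_true]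
      refine dvd_trans ?_ hdvd
      have h2 : p ^ (∑ i ∈ range K, p ^ i) ∣
          ∏ p ∈ (range (P + 1)).filter Nat.Prime, p ^ (∑ i ∈ range K, p ^ i) :=
        dvd_prod_of_mem (fun p => p ^ (∑ i ∈ range K, p ^ i))
          (mem_filter.2 ⟨mem_range.2 (by omega), hp⟩)
      exact_mod_cast h2
    · by_cases h2 : p ∈ B
      · left
        simp only [h1, if_false, h2, if_true]
      · right
        simp only [h1, if_false, h2]
        by_cases h3 : (p : ℤ) ∣ M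
        · right
          simpa using h3
        · left
          refine ⟨trivial, ?_⟩
          by_contra h4
          exact h2 ((hB p).2 ⟨h3, h4⟩)
  · intro m
    refine (hPK B m).trans ?_
    have h1 := hS ((range (m + 1)).filter (fun p => p.Prime ∧ P < p ∧ p ∈ B)) (fun p hp => by
      have h2 := (mem_filter.1 hp).2
      have h3 := (hB p).1 h2.2.2
      exact ⟨h2.1, h3.1, h3.2⟩)
    linarith

end Pool.Agent.Y915.Mero
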