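import Pool.Agent.Y915.Sys
import Pool.Agent.Y240.PC.TR

set_option autoImplicit false

/-!
# From algebraic power series solutions to a full basis of algebraic solutions
-/

namespace Pool.Agent.Y915

open scoped PowerSeries Polynomial
open Finset

variable {n : ℕ} {c : ℤ} {N : ℕ} {M : ℤ} {a : Fin N → ℤ[X]} {s w : ℤ⟦X⟧}

/-- The algebraic power series. -/
noncomputable abbrev AlgB : Subalgebra ℚ[X] ℚ⟦X⟧ := Subalgebra.algebraicClosure ℚ[X] ℚ⟦X⟧

/-- The derivative of an algebraic power series. -/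
noncomputable def dB (f : AlgB) : AlgB :=
  ⟨PowerSeries.derivative ℚ (f : ℚ⟦X⟧), Pool.Agent.Y240.PC.tr1 _ f.2⟩

lemma isAlgebraic_cst_s (hrt : IsRt n c s w) : IsAlgebraic ℚ[X] (cst ℚ s) := by
  have h1 := hrt.sq' ℚ
  have h2 : IsAlgebraic ℚ[X] ((cst ℚ s) ^ 2) := by
    rw [h1]
    have h3 : (1 + 4 * (c : ℚ⟦X⟧) * PowerSeries.X ^ n : ℚ⟦X⟧) =
        algebraMap ℚ[X] ℚ⟦X⟧ (1 + 4 * (c : ℚ[X]) * Polynomial.X ^ n) := by
      rw [map_add, map_one, map_mul, map_mul, map_ofNat, map_intCast, map_pow]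
      congr 2
      show (PowerSeries.X : ℚ⟦X⟧) ^ n = ((Polynomial.X : ℚ[X]) : ℚ⟦X⟧) ^ n
      rw [Polynomial.coe_X]
    rw [h3]
    exact isAlgebraic_algebraMap _
  exact IsAlgebraic.of_pow (by norm_num) h2

lemma isAlgebraic_rows {Y : Matrix (Fin N) (Fin N) ℚ⟦X⟧}
    (hY : dM Y = (M • GT N a s w).map (cst ℚ) * Y) (hrt : IsRt n c s w) (hN : 1 ≤ N) (hM : M ≠ 0)
    (h0 : ∀ j, IsAlgebraic ℚ[X] (Y ⟨0, hN⟩ j)) (i j : Fin N) : IsAlgebraic ℚ[X] (Y i j) := by
  obtain ⟨i, hi⟩ := i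
  induction i with
  | zero => exact h0 j
  | succ i ih =>
    have h1 := row_lt hY hrt hi j
    have h2 : IsAlgebraic ℚ[X] (cst ℚ s * dz ℚ (Y ⟨i, by omega⟩ j)) :=
      (isAlgebraic_cst_s hrt).mul (Pool.Agent.Y240.PC.tr1 _ (ih (by omega)))
    rw [h1] at h2
    have hM' : (M : ℚ) ≠ 0 := by exact_mod_cast hM
    have h3 : Y ⟨i + 1, hi⟩ j = PowerSeries.C ((M : ℚ)⁻¹) * ((M : ℚ⟦X⟧) * Y ⟨i + 1, hi⟩ j) := by
      rw [← mul_assoc]
      have h4 : PowerSeries.C ((M : ℚ)⁻¹) * (M : ℚ⟦X⟧) = 1 := by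
        rw [← map_intCast (PowerSeries.C (R := ℚ)), ← map_mul, inv_mul_cancel₀ hM', map_one]
      rw [h4, one_mul]
    rw [h3]
    refine IsAlgebraic.mul ?_ h2
    have h5 : PowerSeries.C ((M : ℚ)⁻¹) = algebraMap ℚ[X] ℚ⟦X⟧ (Polynomial.C ((M : ℚ)⁻¹)) := by
      show _ = ((Polynomial.C ((M : ℚ)⁻¹) : ℚ[X]) : ℚ⟦X⟧)
      rw [Polynomial.coe_C]
    rw [h5]
    exact isAlgebraic_algebraMap _

/-- A function with the rules of a derivation, as a derivation over `ℤ`. -/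
def intDer {R : Type*} [CommRing R] (f : R → R) (h1 : ∀ a b, f (a + b) = f a + f b)
    (h2 : ∀ a b, f (a * b) = a * f b + b * f a) : Derivation ℤ R R :=
  Derivation.mk' (AddMonoidHom.mk' f h1).toIntLinearMap h2

lemma const_det {N : ℕ} (Y : Matrix (Fin N) (Fin N) ℚ⟦X⟧) :
    PowerSeries.constantCoeff Y.det = (Y.map PowerSeries.constantCoeff).det := by
  rw [Matrix.det_apply', Matrix.det_apply', map_sum]
  refine sum_congr rfl fun τ _ => ?_
  rw [map_mul, map_prod, map_intCast]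
  rfl

section generic

variable {B : Type*} [CommRing B] (ι : B →+* ℚ⟦X⟧) (hι : Function.Injective ι) (d : B → B)
  (hd : ∀ f, ι (d f) = PowerSeries.derivative ℚ (ι f)) {Ω : Type*} [Field Ω] [CharZero Ω]
  (D : Ω → Ω) (hD1 : ∀ a b, D (a + b) = D a + D b)
  (hD2 : ∀ a b, D (a * b) = a * D b + b * D a) (σ : B →+* Ω) (hσ : Function.Injective σ)
  (hσD : ∀ f, σ (d f) = D (σ f)) (YB : Matrix (Fin N) (Fin N) B) (sB : B) (hsB : ι sB = cst ℚ s)

include hι hd hD1 hD2 hσD hsB in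
lemma indep_key (hN : 1 ≤ N) (hM : M ≠ 0) (hrt : IsRt n c s w)
    (hY : dM (YB.map ι) = (M • GT N a s w).map (cst ℚ) * YB.map ι)
    (b : Fin N → Ω) (hb : ∀ j, D (b j) = 0) (hsum : ∑ j, b j * σ (YB ⟨0, hN⟩ j) = 0) :
    ∀ i : ℕ, ∀ hi : i < N, ∑ j, b j * σ (YB ⟨i, hi⟩ j) = 0 := by
  have hD0 : D 0 = 0 := by
    have := hD1 0 0
    rw [add_zero] at this
    exact left_eq_add.1 this
  have hDs : ∀ (t : Finset (Fin N)) (f : Fin N → Ω), D (∑ j ∈ t, f j) = ∑ j ∈ t, D (f j) := by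
    classical
    intro t f
    induction t using Finset.induction_on with
    | empty => rw [sum_empty, sum_empty, hD0]
    | insert x t hx ih => rw [sum_insert hx, sum_insert hx, hD1, ih]
  intro i
  induction i with
  | zero => intro hi; exact hsum
  | succ i ih =>
    intro hi
    have h1 := ih (by omega)
    have h2 := congrArg D h1
    rw [hD0, hDs] at h2
    have h3 : ∀ j, D (b j * σ (YB ⟨i, by omega⟩ j)) = b j * σ (d (YB ⟨i, by omega⟩ j)) := by
      intro j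
      rw [hD2, hb j, mul_zero, add_zero, hσD]
    rw [sum_congr rfl fun j _ => h3 j] at h2
    have h4 : ∀ j, sB * d (YB ⟨i, by omega⟩ j) = (M : B) * YB ⟨i + 1, hi⟩ j := by
      intro j
      apply hι
      have h5 := row_lt hY hrt hi j
      rw [map_mul, map_mul, map_intCast, hd, hsB]
      exact h5
    have h6 : (M : Ω) * ∑ j, b j * σ (YB ⟨i + 1, hi⟩ j) = 0 := by
      have h7 : σ sB * ∑ j, b j * σ (d (YB ⟨i, by omega⟩ j)) = 0 := by rw [h2, mul_zero]
      rw [mul_sum] at h7 ⊢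
      rw [← h7]
      refine sum_congr rfl fun j _ => ?_
      have h8 := congrArg σ (h4 j)
      rw [map_mul, map_mul, map_intCast] at h8
      linear_combination (-b j) * h8
    have hM' : (M : Ω) ≠ 0 := by exact_mod_cast hM
    exact (mul_eq_zero.1 h6).resolve_left hM'

include hι hd hD1 hD2 hσ hσD hsB in
lemma indep (hN : 1 ≤ N) (hM : M ≠ 0) (hrt : IsRt n c s w)
    (hY : dM (YB.map ι) = (M • GT N a s w).map (cst ℚ) * YB.map ι)
    (hY0 : (YB.map ι).map PowerSeries.constantCoeff = 1)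
    (b : Fin N → Ω) (hb : ∀ j, D (b j) = 0) (hsum : ∑ j, b j * σ (YB ⟨0, hN⟩ j) = 0) (j : Fin N) :
    b j = 0 := by
  have key := indep_key ι hι d hd D hD1 hD2 σ hσD YB sB hsB hN hM hrt hY b hb hsum
  have hdet : (YB.map σ).det ≠ 0 := by
    have h1 : (YB.map σ).det = σ YB.det := by
      rw [RingHom.map_det]; rfl
    rw [h1]
    intro h2
    have h3 : YB.det = 0 := hσ (by rw [h2, map_zero])
    have h5 : ι YB.det = (YB.map ι).det := by
      rw [RingHom.map_det]; rfl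
    rw [h3, map_zero] at h5
    have h6 := const_det (YB.map ι)
    rw [hY0, ← h5, map_zero, Matrix.det_one] at h6
    exact zero_ne_one h6
  have hmv : (YB.map σ).mulVec b = 0 := by
    funext i
    rw [Matrix.mulVec, dotProduct, Pi.zero_apply]
    rw [← key i i.2]
    refine sum_congr rfl fun j _ => ?_
    rw [Matrix.map_apply, mul_comm]
  exact congrFun (Matrix.eq_zero_of_mulVec_eq_zero hdet hmv) j

include hι hd hσD in
lemma sols (hN : 1 ≤ N) (hrt : IsRt n c s w) {xB : B} (hxB : ι xB = PowerSeries.X)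
    (hY : dM (YB.map ι) = (M • GT N a s w).map (cst ℚ) * YB.map ι) (j : Fin N) :
    oper n c N M a D (σ xB) (σ (YB ⟨0, hN⟩ j)) = 0 := by
  rw [← map_oper σ hσD rfl n c N M a]
  have h1 : oper n c N M a d xB (YB ⟨0, hN⟩ j) = 0 := by
    apply hι
    rw [map_zero, map_oper ι (D' := PowerSeries.derivative ℚ) hd hxB n c N M a]
    exact oper_row hY hrt hN j
  rw [h1, map_zero]

include hι hd hD1 hD2 hσ hσD hsB in
/-- The generic form of the transfer. -/
theorem full_generic (hN : 1 ≤ N) (hM : M ≠ 0) (hrt : IsRt n c s w) {xB : B}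
    (hxB : ι xB = PowerSeries.X) {xΩ : Ω} (hx : σ xB = xΩ) (hDx : D xΩ = 1)
    (hY : dM (YB.map ι) = (M • GT N a s w).map (cst ℚ) * YB.map ι)
    (hY0 : (YB.map ι).map PowerSeries.constantCoeff = 1) :
    Full N (fun D y => oper n c N M a D xΩ y) xΩ := by
  subst hx
  exact ⟨intDer D hD1 hD2, hDx, fun j => σ (YB ⟨0, hN⟩ j),
    fun j => sols ι hι d hd D σ hσD YB hN hrt hxB hY j,
    fun b hb hsum j => indep ι hι d hd D hD1 hD2 σ hσ hσD YB sB hsB hN hM hrt hY hY0 b hb hsum j⟩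

end generic

/-- Algebraic power series solutions give a full basis of algebraic solutions. -/
theorem fullAlg_of {Y : Matrix (Fin N) (Fin N) ℚ⟦X⟧}
    (hY : dM Y = (M • GT N a s w).map (cst ℚ) * Y) (hY0 : Y.map PowerSeries.constantCoeff = 1)
    (hrt : IsRt n c s w) (hN : 1 ≤ N) (hM : M ≠ 0)
    (h0 : ∀ j, IsAlgebraic ℚ[X] (Y ⟨0, hN⟩ j)) : FullAlg n c N M a := by
  obtain ⟨D, σ, hDx, hinj, hσP, hσD⟩ := Pool.Agent.Y240.PC.tr2
  have hall := isAlgebraic_rows hY hrt hN hM h0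
  have hx : σ (algebraMap ℚ[X] AlgB Polynomial.X) =
      algebraMap (RatFunc ℚ) (AlgebraicClosure (RatFunc ℚ)) RatFunc.X := by
    rw [hσP, RatFunc.algebraMap_X]
  have hιx : AlgB.val.toRingHom (algebraMap ℚ[X] AlgB Polynomial.X) = PowerSeries.X := by
    show ((Polynomial.X : ℚ[X]) : ℚ⟦X⟧) = PowerSeries.X
    rw [Polynomial.coe_X]
  have hD2 : ∀ a b, D (a * b) = a * D b + b * D a := fun a b => D.leibniz a b
  exact full_generic AlgB.val.toRingHom Subtype.val_injective dB (fun _ => rfl) (⇑D) (map_add D)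
    hD2 σ hinj (fun f => hσD f (dB f) rfl) (Matrix.of fun i j => ⟨Y i j, hall i j⟩)
    ⟨cst ℚ s, isAlgebraic_cst_s hrt⟩ rfl hN hM hrt hιx hx hDx hY hY0

end Pool.Agent.Y915
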