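import Pool.Agent.Y915.Pull
import Pool.Agent.Y474.PC.C
import Pool.Agent.Y536.PC.Num
import Pool.Agent.Y79.PC.NAB
import Pool.Agent.Y810.PC.Ode

set_option autoImplicit false

/-!
# Algebraicity of the solutions of systems with a large adelic radius
-/

namespace Pool.Agent.Y915

open scoped PowerSeries Polynomial
open Finset

lemma exists_pow_bound {r : ℝ} (hr : 0 < r) {f : ℂ⟦X⟧} (hf : Gd r f) :
    ∃ A : ℝ, ∀ m : ℕ, ‖PowerSeries.coeff m f‖ ≤ A ^ (m + 1) := by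
  obtain ⟨B, hB0, hB⟩ := hf.nonneg (ρ := r / 2) (by linarith) (by linarith)
  set A : ℝ := max (max B 1) (2 / r) with hA
  have hA1 : 1 ≤ A := le_trans (le_max_right B 1) (le_max_left _ _)
  have hAB : B ≤ A := le_trans (le_max_left B 1) (le_max_left _ _)
  have hAr : 2 / r ≤ A := le_max_right _ _
  refine ⟨A, fun m => ?_⟩
  have h1 : ‖PowerSeries.coeff m f‖ ≤ B * (2 / r) ^ m := by
    have h2 := hB m
    have h3 : (r / 2) ^ m * (2 / r) ^ m = 1 := by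
      rw [← mul_pow]
      have : r / 2 * (2 / r) = 1 := by field_simp
      rw [this, one_pow]
    calc ‖PowerSeries.coeff m f‖ = ‖PowerSeries.coeff m f‖ * (r / 2) ^ m * (2 / r) ^ m := by
          rw [mul_assoc, h3, mul_one]
      _ ≤ B * (2 / r) ^ m := by gcongr
  calc _ ≤ B * (2 / r) ^ m := h1
    _ ≤ A * A ^ m := by gcongr
    _ = A ^ (m + 1) := by rw [pow_succ]; ring

/-- Systems with a large adelic radius have algebraic solutions. -/
theorem core {N : ℕ} {G : Matrix (Fin N) (Fin N) ℤ⟦X⟧} {Y : Matrix (Fin N) (Fin N) ℚ⟦X⟧}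
    (hY : dM Y = G.map (cst ℚ) * Y) (hY0 : Y.map PowerSeries.constantCoeff = 1)
    {k d : ℕ → ℕ} {E : ℕ} (hE : 0 < E) (hE' : ∀ p : ℕ, p.Prime → p ^ vf p (p ^ k p - 1) ∣ E)
    (hdiv : ∀ p : ℕ, p.Prime → ∀ H : Matrix (Fin N) (Fin N) ℤ⟦X⟧,
      ∃ H' : Matrix (Fin N) (Fin N) ℤ⟦X⟧,
        (nab G)^[p ^ k p] H = ((p : ℤ) ^ (vf p (p ^ k p) - d p)) • H')
    {τ : ℝ} (hτ : ∀ m : ℕ, ∑ p ∈ (range (m + 1)).filter Nat.Prime,
      Real.log p * (d p + 1 / ((p : ℝ) - 1)) / (p : ℝ) ^ k p ≤ τ)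
    (hsmall : ∃ r : ℝ, 0 < r ∧ ∀ i j, Gd r (cst ℂ (G i j)))
    {φ : ℂ⟦X⟧} (hφ : PowerSeries.constantCoeff φ = 0) (gφ : Gd 1 φ)
    (hG : ∀ i j, Gd 1 (PowerSeries.derivative ℂ φ * sub φ hφ (cst ℂ (G i j))))
    (hlt : τ < Real.log ‖PowerSeries.coeff 1 φ‖) (i j : Fin N) :
    IsAlgebraic ℚ[X] (Y i j) := by
  obtain ⟨r, hr, hsm⟩ := hsmall
  -- growth
  have hYc : dM (Y.map (PowerSeries.map (algebraMap ℚ ℂ))) =
      G.map (cst ℂ) * Y.map (PowerSeries.map (algebraMap ℚ ℂ)) := by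
    ext1 i j
    have h1 := congrFun (congrFun hY i) j
    have h2 : dM Y i j = PowerSeries.derivative ℚ (Y i j) := rfl
    have h3 : dM (Y.map (PowerSeries.map (algebraMap ℚ ℂ))) i j =
      PowerSeries.derivative ℂ (PowerSeries.map (algebraMap ℚ ℂ) (Y i j)) := rfl
    rw [h2, Matrix.mul_apply] at h1
    rw [h3, derivative_map, h1, map_sum, Matrix.mul_apply]
    refine sum_congr rfl fun l _ => ?_
    rw [map_mul, Matrix.map_apply, Matrix.map_apply, Matrix.map_apply]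
    congr 1
  have hgr := Pool.Agent.Y810.PC.ode3 N r _ _ (fun i j => hsm i j) hYc i j
  obtain ⟨A, hA⟩ := exists_pow_bound hr hgr
  refine Pool.Agent.Y474.PC.crit (Y i j) (wt k d) E τ A (Psi φ hφ) hE ?_
    (Pool.Agent.Y536.PC.num1 k d) ?_ ?_ ?_ (Psi_const φ hφ) ?_ ?_ ?_
  · intro m
    unfold wt
    exact prod_pos fun p hp => pow_pos (mem_filter.1 hp).2.pos _
  · intro m
    refine (Pool.Agent.Y536.PC.num2 k d m).trans ?_
    exact mul_le_mul_of_nonneg_right (hτ m) (Nat.cast_nonneg m)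
  · intro m
    exact Pool.Agent.Y79.PC.NAB.nab2 Pool.Agent.Y536.PC.num3 N G k d E Y hE hE' hdiv hY hY0 m i j
  · intro m
    have h1 := hA m
    rw [Matrix.map_apply, PowerSeries.coeff_map] at h1
    have h2 : ‖(algebraMap ℚ ℂ) (PowerSeries.coeff m (Y i j))‖ =
        |((PowerSeries.coeff m (Y i j) : ℚ) : ℝ)| := by
      have : (algebraMap ℚ ℂ) (PowerSeries.coeff m (Y i j)) =
          (((PowerSeries.coeff m (Y i j) : ℚ) : ℝ) : ℂ) := by
        rw [eq_ratCast]; push_cast; rfl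
      rw [this, Complex.norm_real, Real.norm_eq_abs]
    rwa [h2] at h1
  · rw [Psi_X]; exact gφ
  · exact Pool.Agent.Y810.PC.ode3 N 1 _ _ (fun i j => by rw [Matrix.of_apply]; exact hG i j)
      (Psi_sys hY φ hφ) i j
  · rw [Psi_X]; exact hlt

end Pool.Agent.Y915
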