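import Pool.Agent.Y915.HOp
import Pool.Agent.Y915.Alg
import Pool.Agent.Y915.Core

set_option autoImplicit false

/-!
# General hyperelliptic curves: transfer, radii
-/

namespace Pool.Agent.Y915

open scoped PowerSeries Polynomial
open Finset

/-- The inverse of a convergent series with constant term `1` converges near `0`. -/
lemma Gd.inv_small {r : ℝ} (hr : 0 < r) {g w : ℂ⟦X⟧} (hg : Gd r g)
    (hg0 : PowerSeries.constantCoeff g = 1) (hw : g * w = 1) : ∃ r' : ℝ, 0 < r' ∧ Gd r' w := by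
  obtain ⟨B, hB0, hB⟩ := hg.nonneg (ρ := r / 2) (by linarith) (by linarith)
  set ρ : ℝ := r / 2 with hρ
  have hρ0 : 0 < ρ := by rw [hρ]; linarith
  set A : ℝ := (B + 1) / ρ with hA
  have hA0 : 0 < A := by positivity
  have key : ∀ m : ℕ, ‖PowerSeries.coeff m w‖ ≤ A ^ m := by
    intro m
    induction m using Nat.strong_induction_on with
    | _ m ih =>
      have h1 := congrArg (PowerSeries.coeff m) hw
      rw [PowerSeries.coeff_mul, PowerSeries.coeff_one, Nat.sum_antidiagonal_eq_sum_range_succ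
        (fun i j => PowerSeries.coeff i g * PowerSeries.coeff j w), sum_range_succ'] at h1
      simp only [Nat.sub_zero] at h1
      have h0 : PowerSeries.coeff 0 g = 1 := by
        rw [PowerSeries.coeff_zero_eq_constantCoeff_apply, hg0]
      rw [h0, one_mul] at h1
      by_cases hm : m = 0
      · subst hm
        simp only [range_zero, sum_empty, zero_add, if_true] at h1
        rw [h1]; simp
      · rw [if_neg hm] at h1
        have h2 : PowerSeries.coeff m w =
            -∑ i ∈ range m, PowerSeries.coeff (i + 1) g * PowerSeries.coeff (m - (i + 1)) w := by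
          linear_combination h1
        rw [h2, norm_neg]
        have h3 : ∀ i ∈ range m, ‖PowerSeries.coeff (i + 1) g * PowerSeries.coeff (m - (i + 1)) w‖
            ≤ B * (1 / (B + 1)) ^ (i + 1) * A ^ m := by
          intro i hi
          have hi' := mem_range.1 hi
          rw [norm_mul]
          have h4 := ih (m - (i + 1)) (by omega)
          have h5 := hB (i + 1)
          have h6 : ‖PowerSeries.coeff (i + 1) g‖ ≤ B * (1 / ρ) ^ (i + 1) := by
            rw [one_div, inv_pow, ← div_eq_mul_inv, le_div_iff₀ (by positivity)]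
            exact h5
          have h7 : A ^ m = A ^ (m - (i + 1)) * A ^ (i + 1) := by
            rw [← pow_add]; congr 1; omega
          have h8 : (1 / ρ) ^ (i + 1) = (1 / (B + 1)) ^ (i + 1) * A ^ (i + 1) := by
            rw [← mul_pow, hA]; congr 1; field_simp
          calc _ ≤ (B * (1 / ρ) ^ (i + 1)) * A ^ (m - (i + 1)) := by gcongr
            _ = B * (1 / (B + 1)) ^ (i + 1) * A ^ m := by rw [h8, h7]; ring
        calc _ ≤ ∑ i ∈ range m, B * (1 / (B + 1)) ^ (i + 1) * A ^ m :=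
              (norm_sum_le _ _).trans (sum_le_sum h3)
          _ = (B * ∑ i ∈ range m, (1 / (B + 1)) ^ (i + 1)) * A ^ m := by
              rw [mul_sum, sum_mul]
          _ ≤ 1 * A ^ m := by
              refine mul_le_mul_of_nonneg_right ?_ (by positivity)
              have h9 : ∀ m : ℕ, B * ∑ i ∈ range m, (1 / (B + 1)) ^ (i + 1) =
                  1 - (1 / (B + 1)) ^ m := by
                intro m
                induction m with
                | zero => simp
                | succ m ihm =>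
                  rw [sum_range_succ, mul_add, ihm]
                  have hB1 : B + 1 ≠ 0 := by positivity
                  have h10 : B * (1 / (B + 1)) ^ (m + 1) =
                      (1 / (B + 1)) ^ m - (1 / (B + 1)) ^ (m + 1) := by
                    rw [pow_succ]
                    field_simp
                    ring
                  rw [h10]; ring
              rw [h9]
              have : 0 ≤ (1 / (B + 1)) ^ m := by positivity
              linarith
          _ = A ^ m := one_mul _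
  refine ⟨1 / A, by positivity, fun σ h0 h1 => ⟨1, fun m => ?_⟩⟩
  have h2 : A * σ ≤ 1 := by
    have := (lt_div_iff₀ hA0).1 h1
    linarith
  calc ‖PowerSeries.coeff m w‖ * σ ^ m ≤ A ^ m * σ ^ m := by gcongr; exact key m
    _ = (A * σ) ^ m := by rw [mul_pow]
    _ ≤ 1 := pow_le_one₀ (by positivity) h2

namespace Hyp

variable {f : ℤ[X]} {N : ℕ} {M : ℤ} {a : Fin N → ℤ[X]} {s w : ℤ⟦X⟧}

theorem gd_GT (hrt : IsRt f s w) {φ S g : ℂ⟦X⟧} (hφ : PowerSeries.constantCoeff φ = 0)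
    (gφ : Gd 1 φ) (gS : Gd 1 S) (gg : Gd 1 g) (hS0 : PowerSeries.constantCoeff S = 1)
    (hS : S ^ 2 = 1 + 4 * aevZ φ f) (hd : PowerSeries.derivative ℂ φ = S * g)
    (i j : Fin N) :
    Gd 1 (PowerSeries.derivative ℂ φ * sub φ hφ (cst ℂ ((M • GT N a s w) i j))) := by
  have h1 : sub φ hφ (cst ℂ s) = S := by
    have h2 : (sub φ hφ (cst ℂ s)) ^ 2 = S ^ 2 := by
      rw [← map_pow, hrt.sq', hS, map_add, map_one, map_mul, map_ofNat, ← cst_poly, sub_poly]
    have h3 : (sub φ hφ (cst ℂ s) - S) * (sub φ hφ (cst ℂ s) + S) = 0 := by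
      linear_combination h2
    rcases mul_eq_zero.1 h3 with h4 | h4
    · exact sub_eq_zero.1 h4
    · exfalso
      have h5 := congrArg PowerSeries.constantCoeff h4
      rw [map_add, sub_const, hS0, map_zero] at h5
      have h6 : PowerSeries.constantCoeff (cst ℂ s) = 1 := by
        rw [← PowerSeries.coeff_zero_eq_constantCoeff_apply, PowerSeries.coeff_map,
          PowerSeries.coeff_zero_eq_constantCoeff_apply, hrt.const, map_one]
      rw [h6] at h5
      norm_num at h5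
  have h2 : S * sub φ hφ (cst ℂ w) = 1 := by
    rw [← h1, ← map_mul, hrt.inv', map_one]
  have h3 : cst ℂ ((M • GT N a s w) i j) = ((M • GT N a s w).map (cst ℂ)) i j := rfl
  rw [h3, GT_map]
  have h4 : PowerSeries.derivative ℂ φ * sub φ hφ ((M : ℂ⟦X⟧) * (cst ℂ w *
      (if (i : ℕ) + 1 < N then (if (j : ℕ) = (i : ℕ) + 1 then 1 else 0)
        else - al ℂ a s j))) = (M : ℂ⟦X⟧) * g * sub φ hφ
      (if (i : ℕ) + 1 < N then (if (j : ℕ) = (i : ℕ) + 1 then 1 else 0)
        else - al ℂ a s j) := by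
    rw [map_mul, map_mul, map_intCast, hd]
    linear_combination (g * (M : ℂ⟦X⟧) * sub φ hφ
      (if (i : ℕ) + 1 < N then (if (j : ℕ) = (i : ℕ) + 1 then 1 else 0)
        else - al ℂ a s j)) * h2
  rw [h4]
  refine Gd.mul (Gd.mul (Gd.intCast 1 M) gg) ?_
  split_ifs
  · rw [map_one]; exact Gd.one 1
  · rw [map_zero]; exact Gd.zero 1
  · rw [map_neg]
    refine Gd.neg ?_
    unfold al
    rw [map_mul, ← cst_poly, sub_poly]
    refine Gd.mul (gφ.aevZ _) ?_
    split_ifs
    · rw [map_one]; exact Gd.one 1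
    · rw [h1]; exact gS

theorem gd_small (h3 : StOde3) (hf : f.coeff 0 = 0) (hrt : IsRt f s w) :
    ∃ r : ℝ, 0 < r ∧ Gd r (cst ℂ w) ∧ Gd r (cst ℂ s) := by
  have hsw := hrt.inv' ℂ
  have hsq := hrt.sq' ℂ
  set F : ℂ⟦X⟧ := 1 + 4 * aevZ (PowerSeries.X : ℂ⟦X⟧) f with hF
  have gF : ∀ r, Gd r F := fun r => Gd.add (Gd.one r)
    (Gd.mul (by exact_mod_cast Gd.natCast r 4) ((Gd.X r).aevZ _))
  have hJ : F * (cst ℂ w) ^ 2 = 1 := by
    rw [← hsq]; linear_combination (cst ℂ s * cst ℂ w + 1) * hsw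
  have hF0 : PowerSeries.constantCoeff F = 1 := by
    rw [hF, ← cst_poly, map_add, map_one, map_mul]
    have : PowerSeries.constantCoeff (cst ℂ (f : ℤ⟦X⟧)) = 0 := by
      rw [← PowerSeries.coeff_zero_eq_constantCoeff_apply, PowerSeries.coeff_map,
        Polynomial.coeff_coe, hf, map_zero]
    rw [this, mul_zero, add_zero]
  obtain ⟨r, hr, hG⟩ := Gd.inv_small one_pos (gF 1) hF0 hJ
  have gw : Gd r (cst ℂ w) := by
    set Y : Matrix (Fin 1) (Fin 1) ℂ⟦X⟧ := Matrix.of fun _ _ => cst ℂ w with hY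
    set G : Matrix (Fin 1) (Fin 1) ℂ⟦X⟧ := Matrix.of fun _ _ =>
      -(2 * aevZ (PowerSeries.X : ℂ⟦X⟧) (Polynomial.derivative f) * (cst ℂ w) ^ 2) with hGd
    have h1 : dM Y = G * Y := by
      ext1 i j
      have h2 : dM Y i j = dz ℂ (cst ℂ w) := rfl
      rw [h2, Matrix.mul_apply, Fin.sum_univ_one]
      show dz ℂ (cst ℂ w) = -(2 * aevZ (PowerSeries.X : ℂ⟦X⟧) (Polynomial.derivative f) *
        (cst ℂ w) ^ 2) * cst ℂ w
      have h4 : dz ℂ (cst ℂ s * cst ℂ w) = 0 := by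
        rw [hsw]
        exact (PowerSeries.derivative ℂ).map_one_eq_zero
      rw [dz_mul] at h4
      have h5 := hrt.der' ℂ
      linear_combination (cst ℂ w) * h4 - (cst ℂ w) ^ 2 * (cst ℂ w) * h5 +
        ((cst ℂ w) ^ 2 * dz ℂ (cst ℂ s) - dz ℂ (cst ℂ w)) * hsw
    have h2 := h3 1 r G Y (fun i j => by
      show Gd r (-(2 * aevZ (PowerSeries.X : ℂ⟦X⟧) (Polynomial.derivative f) * (cst ℂ w) ^ 2))
      refine Gd.neg (Gd.mul (Gd.mul ?_ ((Gd.X r).aevZ _)) hG)
      exact_mod_cast Gd.natCast r 2) h1 0 0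
    exact h2
  refine ⟨r, hr, gw, ?_⟩
  have h1 : cst ℂ s = F * cst ℂ w := by
    rw [← hsq]; linear_combination (-cst ℂ s) * hsw
  rw [h1]
  exact Gd.mul (gF r) gw

lemma isAlgebraic_cst_s (hrt : IsRt f s w) : IsAlgebraic ℚ[X] (cst ℚ s) := by
  have h1 := hrt.sq' ℚ
  have h2 : IsAlgebraic ℚ[X] ((cst ℚ s) ^ 2) := by
    rw [h1]
    have h3 : (1 + 4 * aevZ (PowerSeries.X : ℚ⟦X⟧) f : ℚ⟦X⟧) =
        algebraMap ℚ[X] ℚ⟦X⟧ (1 + 4 * f.map (Int.castRingHom ℚ)) := by
      rw [map_add, map_one, map_mul, map_ofNat, ← cst_poly]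
      congr 2
      show cst ℚ (f : ℤ⟦X⟧) = ((f.map (Int.castRingHom ℚ) : ℚ[X]) : ℚ⟦X⟧)
      ext m
      simp
    rw [h3]
    exact isAlgebraic_algebraMap _
  exact IsAlgebraic.of_pow (by norm_num) h2

lemma isAlgebraic_rows {Y : Matrix (Fin N) (Fin N) ℚ⟦X⟧}
    (hY : dM Y = (M • GT N a s w).map (cst ℚ) * Y) (hrt : IsRt f s w) (hN : 1 ≤ N) (hM : M ≠ 0)
    (h0 : ∀ j, IsAlgebraic ℚ[X] (Y ⟨0, hN⟩ j)) (i j : Fin N) : IsAlgebraic ℚ[X] (Y i j) := by
  obtain ⟨i, hi⟩ := i
  induction i with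
  | zero => exact h0 j
  | succ i ih =>
    have h1 := row_lt hY hrt hi j
    have h2 : IsAlgebraic ℚ[X] (cst ℚ s * dz ℚ (Y ⟨i, by omega⟩ j)) :=
      (isAlgebraic_cst_s hrt).mul (Pool.Agent.Y240.PC.tr1 _ (ih (by omega)))
    rw [h1] at h2
    have hM' : (M : ℚ) ≠ 0 := by exact_mod_cast hM
    have h3 : Y ⟨i + 1, hi⟩ j = PowerSeries.C ((M : ℚ)⁻¹) * ((M : ℚ⟦X⟧) * Y ⟨i + 1, hi⟩ j) := by
      rw [← mul_assoc]
      have h4 : PowerSeries.C ((M : ℚ)⁻¹) * (M : ℚ⟦X⟧) = 1 := by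
        rw [← map_intCast (PowerSeries.C (R := ℚ)), ← map_mul, inv_mul_cancel₀ hM', map_one]
      rw [h4, one_mul]
    rw [h3]
    refine IsAlgebraic.mul ?_ h2
    have h5 : PowerSeries.C ((M : ℚ)⁻¹) = algebraMap ℚ[X] ℚ⟦X⟧ (Polynomial.C ((M : ℚ)⁻¹)) := by
      show _ = ((Polynomial.C ((M : ℚ)⁻¹) : ℚ[X]) : ℚ⟦X⟧)
      rw [Polynomial.coe_C]
    rw [h5]
    exact isAlgebraic_algebraMap _

section generic

variable {B : Type*} [CommRing B] (ι : B →+* ℚ⟦X⟧) (hι : Function.Injective ι) (d : B → B)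
  (hd : ∀ f, ι (d f) = PowerSeries.derivative ℚ (ι f)) {Ω : Type*} [Field Ω] [CharZero Ω]
  (D : Ω → Ω) (hD1 : ∀ a b, D (a + b) = D a + D b)
  (hD2 : ∀ a b, D (a * b) = a * D b + b * D a) (σ : B →+* Ω) (hσ : Function.Injective σ)
  (hσD : ∀ f, σ (d f) = D (σ f)) (YB : Matrix (Fin N) (Fin N) B) (sB : B) (hsB : ι sB = cst ℚ s)

include hι hd hD1 hD2 hσD hsB in
lemma indep_key (hN : 1 ≤ N) (hM : M ≠ 0) (hrt : IsRt f s w)
    (hY : dM (YB.map ι) = (M • GT N a s w).map (cst ℚ) * YB.map ι)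
    (b : Fin N → Ω) (hb : ∀ j, D (b j) = 0) (hsum : ∑ j, b j * σ (YB ⟨0, hN⟩ j) = 0) :
    ∀ i : ℕ, ∀ hi : i < N, ∑ j, b j * σ (YB ⟨i, hi⟩ j) = 0 := by
  have hD0 : D 0 = 0 := by
    have := hD1 0 0
    rw [add_zero] at this
    exact left_eq_add.1 this
  have hDs : ∀ (t : Finset (Fin N)) (f : Fin N → Ω), D (∑ j ∈ t, f j) = ∑ j ∈ t, D (f j) := by
    classical
    intro t f
    induction t using Finset.induction_on with
    | empty => rw [sum_empty, sum_empty, hD0]
    | insert x t hx ih => rw [sum_insert hx, sum_insert hx, hD1, ih]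
  intro i
  induction i with
  | zero => intro hi; exact hsum
  | succ i ih =>
    intro hi
    have h1 := ih (by omega)
    have h2 := congrArg D h1
    rw [hD0, hDs] at h2
    have h3 : ∀ j, D (b j * σ (YB ⟨i, by omega⟩ j)) = b j * σ (d (YB ⟨i, by omega⟩ j)) := by
      intro j
      rw [hD2, hb j, mul_zero, add_zero, hσD]
    rw [sum_congr rfl fun j _ => h3 j] at h2
    have h4 : ∀ j, sB * d (YB ⟨i, by omega⟩ j) = (M : B) * YB ⟨i + 1, hi⟩ j := by
      intro j
      apply hι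
      have h5 := row_lt hY hrt hi j
      rw [map_mul, map_mul, map_intCast, hd, hsB]
      exact h5
    have h6 : (M : Ω) * ∑ j, b j * σ (YB ⟨i + 1, hi⟩ j) = 0 := by
      have h7 : σ sB * ∑ j, b j * σ (d (YB ⟨i, by omega⟩ j)) = 0 := by rw [h2, mul_zero]
      rw [mul_sum] at h7 ⊢
      rw [← h7]
      refine sum_congr rfl fun j _ => ?_
      have h8 := congrArg σ (h4 j)
      rw [map_mul, map_mul, map_intCast] at h8
      linear_combination (-b j) * h8
    have hM' : (M : Ω) ≠ 0 := by exact_mod_cast hM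
    exact (mul_eq_zero.1 h6).resolve_left hM'

include hι hd hD1 hD2 hσ hσD hsB in
lemma indep (hN : 1 ≤ N) (hM : M ≠ 0) (hrt : IsRt f s w)
    (hY : dM (YB.map ι) = (M • GT N a s w).map (cst ℚ) * YB.map ι)
    (hY0 : (YB.map ι).map PowerSeries.constantCoeff = 1)
    (b : Fin N → Ω) (hb : ∀ j, D (b j) = 0) (hsum : ∑ j, b j * σ (YB ⟨0, hN⟩ j) = 0) (j : Fin N) :
    b j = 0 := by
  have key := indep_key ι hι d hd D hD1 hD2 σ hσD YB sB hsB hN hM hrt hY b hb hsum
  have hdet : (YB.map σ).det ≠ 0 := by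
    have h1 : (YB.map σ).det = σ YB.det := by
      rw [RingHom.map_det]; rfl
    rw [h1]
    intro h2
    have h3 : YB.det = 0 := hσ (by rw [h2, map_zero])
    have h5 : ι YB.det = (YB.map ι).det := by
      rw [RingHom.map_det]; rfl
    rw [h3, map_zero] at h5
    have h6 := const_det (YB.map ι)
    rw [hY0, ← h5, map_zero, Matrix.det_one] at h6
    exact zero_ne_one h6
  have hmv : (YB.map σ).mulVec b = 0 := by
    funext i
    rw [Matrix.mulVec, dotProduct, Pi.zero_apply]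
    rw [← key i i.2]
    refine sum_congr rfl fun j _ => ?_
    rw [Matrix.map_apply, mul_comm]
  exact congrFun (Matrix.eq_zero_of_mulVec_eq_zero hdet hmv) j

omit [CharZero Ω] in
include hι hd hσD in
lemma sols (hN : 1 ≤ N) (hrt : IsRt f s w) {xB : B} (hxB : ι xB = PowerSeries.X)
    (hY : dM (YB.map ι) = (M • GT N a s w).map (cst ℚ) * YB.map ι) (j : Fin N) :
    oper f N M a D (σ xB) (σ (YB ⟨0, hN⟩ j)) = 0 := by
  rw [← map_oper σ hσD rfl f N M a]
  have h1 : oper f N M a d xB (YB ⟨0, hN⟩ j) = 0 := by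
    apply hι
    rw [map_zero, map_oper ι (D' := PowerSeries.derivative ℚ) hd hxB f N M a]
    exact oper_row hY hrt hN j
  rw [h1, map_zero]

include hι hd hD1 hD2 hσ hσD hsB in
/-- The generic form of the transfer. -/
theorem full_generic (hN : 1 ≤ N) (hM : M ≠ 0) (hrt : IsRt f s w) {xB : B}
    (hxB : ι xB = PowerSeries.X) {xΩ : Ω} (hx : σ xB = xΩ) (hDx : D xΩ = 1)
    (hY : dM (YB.map ι) = (M • GT N a s w).map (cst ℚ) * YB.map ι)
    (hY0 : (YB.map ι).map PowerSeries.constantCoeff = 1) :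
    Full N (fun D y => oper f N M a D xΩ y) xΩ := by
  subst hx
  exact ⟨intDer D hD1 hD2, hDx, fun j => σ (YB ⟨0, hN⟩ j),
    fun j => sols ι hι d hd D σ hσD YB hN hrt hxB hY j,
    fun b hb hsum j => indep ι hι d hd D hD1 hD2 σ hσ hσD YB sB hsB hN hM hrt hY hY0 b hb hsum j⟩

end generic

/-- Algebraic power series solutions give a full basis of algebraic solutions. -/
theorem fullAlg_of {Y : Matrix (Fin N) (Fin N) ℚ⟦X⟧}
    (hY : dM Y = (M • GT N a s w).map (cst ℚ) * Y) (hY0 : Y.map PowerSeries.constantCoeff = 1)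
    (hrt : IsRt f s w) (hN : 1 ≤ N) (hM : M ≠ 0)
    (h0 : ∀ j, IsAlgebraic ℚ[X] (Y ⟨0, hN⟩ j)) : FullAlg f N M a := by
  obtain ⟨D, σ, hDx, hinj, hσP, hσD⟩ := Pool.Agent.Y240.PC.tr2
  have hall := isAlgebraic_rows hY hrt hN hM h0
  have hx : σ (algebraMap ℚ[X] AlgB Polynomial.X) =
      algebraMap (RatFunc ℚ) (AlgebraicClosure (RatFunc ℚ)) RatFunc.X := by
    rw [hσP, RatFunc.algebraMap_X]
  have hιx : AlgB.val.toRingHom (algebraMap ℚ[X] AlgB Polynomial.X) = PowerSeries.X := by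
    show ((Polynomial.X : ℚ[X]) : ℚ⟦X⟧) = PowerSeries.X
    rw [Polynomial.coe_X]
  have hD2 : ∀ a b, D (a * b) = a * D b + b * D a := fun a b => D.leibniz a b
  exact full_generic AlgB.val.toRingHom Subtype.val_injective dB (fun _ => rfl) (⇑D) (map_add D)
    hD2 σ hinj (fun f => hσD f (dB f) rfl) (Matrix.of fun i j => ⟨Y i j, hall i j⟩)
    ⟨cst ℚ s, isAlgebraic_cst_s hrt⟩ rfl hN hM hrt hιx hx hDx hY hY0

end Hyp

end Pool.Agent.Y915
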