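import Pool.Agent.Y915.Main
import Pool.Agent.Y915.HAlg
import Pool.Agent.Y255.PC.Small
import Pool.Agent.Y668.PC.TrO

set_option autoImplicit false

/-!
# Connections of any rank on curves étale over the line
-/

namespace Pool.Agent.Y915.Cur

open scoped PowerSeries Polynomial Nat
open Finset

section leib

variable {R : Type*} [Ring R]

/-- The Leibniz formula. -/
theorem leib (d P Q : R → R) (hd : ∀ a b, d (a + b) = d a + d b)
    (h : ∀ a b, d (a * b) = P a * b + a * Q b) (n : ℕ) (a b : R) :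
    d^[n] (a * b) = ∑ ij ∈ antidiagonal n, n.choose ij.1 • (P^[ij.1] a * Q^[ij.2] b) := by
  have hd0 : d 0 = 0 := by
    have := hd 0 0
    rw [add_zero] at this
    exact left_eq_add.1 this
  have hds : ∀ (s : Finset (ℕ × ℕ)) (f : ℕ × ℕ → R), d (∑ i ∈ s, f i) = ∑ i ∈ s, d (f i) := by
    intro s f
    exact map_sum (AddMonoidHom.mk' d hd) f s
  have hdn : ∀ (m : ℕ) (x : R), d (m • x) = m • d x := fun m x =>
    map_nsmul (AddMonoidHom.mk' d hd) m x
  induction n with
  | zero => simp
  | succ n ih =>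
    rw [Function.iterate_succ_apply', ih, hds]
    have h1 : ∀ ij ∈ antidiagonal n, d (n.choose ij.1 • (P^[ij.1] a * Q^[ij.2] b)) =
        n.choose ij.1 • (P^[ij.1 + 1] a * Q^[ij.2] b) +
        n.choose ij.1 • (P^[ij.1] a * Q^[ij.2 + 1] b) := by
      intro ij _
      rw [hdn, h, smul_add, Function.iterate_succ_apply', Function.iterate_succ_apply']
    rw [sum_congr rfl h1, sum_add_distrib,
      Finset.sum_antidiagonal_choose_succ_nsmul (fun i j => P^[i] a * Q^[j] b) n, add_comm]
    congr 1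
    refine sum_congr rfl fun ij hij => ?_
    rw [HasAntidiagonal.mem_antidiagonal] at hij
    congr 1
    rw [← hij]
    exact Nat.choose_symm_add

theorem leib_p (d P Q : R → R) (hd : ∀ a b, d (a + b) = d a + d b)
    (h : ∀ a b, d (a * b) = P a * b + a * Q b) {p : ℕ} (hp : p.Prime) (a b : R) :
    ∃ c : R, d^[p] (a * b) = P^[p] a * b + a * Q^[p] b + (p : ℤ) • c := by
  have h1 : ∀ ij : ℕ × ℕ, ∃ c : R, ij ∈ antidiagonal p → ij ≠ (p, 0) → ij ≠ (0, p) →
      p.choose ij.1 • (P^[ij.1] a * Q^[ij.2] b) = (p : ℤ) • c := by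
    intro ij
    by_cases hij : ij ∈ antidiagonal p ∧ ij ≠ (p, 0) ∧ ij ≠ (0, p)
    · obtain ⟨h1, h2, h3⟩ := hij
      rw [HasAntidiagonal.mem_antidiagonal] at h1
      have h4 : ij.1 ≠ 0 := by
        intro h5
        apply h3
        rw [h5, zero_add] at h1
        exact Prod.ext h5 h1
      have h5 : ij.1 < p := by
        rcases Nat.lt_or_ge ij.1 p with h6 | h6
        · exact h6
        · exfalso
          apply h2
          exact Prod.ext (by omega) (by omega)
      obtain ⟨c, hc⟩ := hp.dvd_choose_self h4 h5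
      refine ⟨c • (P^[ij.1] a * Q^[ij.2] b), fun _ _ _ => ?_⟩
      rw [hc, natCast_zsmul, mul_smul]
    · refine ⟨0, fun h1 h2 h3 => absurd ⟨h1, h2, h3⟩ hij⟩
  choose c hc using h1
  have hp0 : (p, 0) ∈ antidiagonal p := by simp
  have hp1 : (0, p) ∈ (antidiagonal p).erase (p, 0) := by
    rw [mem_erase]
    refine ⟨?_, by simp⟩
    intro h2
    exact hp.ne_zero (Prod.ext_iff.1 h2).2
  refine ⟨∑ ij ∈ ((antidiagonal p).erase (p, 0)).erase (0, p), c ij, ?_⟩
  rw [leib d P Q hd h, ← add_sum_erase _ _ hp0, ← add_sum_erase _ _ hp1, smul_sum]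
  have h2 : ∑ ij ∈ ((antidiagonal p).erase (p, 0)).erase (0, p),
      p.choose ij.1 • (P^[ij.1] a * Q^[ij.2] b) =
      ∑ ij ∈ ((antidiagonal p).erase (p, 0)).erase (0, p), (p : ℤ) • c ij := by
    refine sum_congr rfl fun ij hij => ?_
    rw [mem_erase, mem_erase] at hij
    exact hc ij hij.2.2 hij.2.1 hij.1
  rw [h2]
  simp [add_assoc]

end leib

section conn

variable {A : Type} [CommRing A] {r : ℕ}

/-- The connection `v ↦ ∂ v + C v` on `A ^ r`. -/
def conn (D : A → A) (C : Matrix (Fin r) (Fin r) A) (v : Fin r → A) : Fin r → A :=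
  fun i => D (v i) + C.mulVec v i

/-- The `p`-curvature of the connection vanishes modulo `p`. -/
def PCurvZero (D : A → A) (C : Matrix (Fin r) (Fin r) A) (p : ℕ) : Prop :=
  ∀ v : Fin r → A, ∃ w : Fin r → A, (conn D C)^[p] v = (p : ℤ) • w

/-- The connection on matrices of column vectors. -/
def cM (D : A → A) (C : Matrix (Fin r) (Fin r) A) (V : Matrix (Fin r) (Fin r) A) :
    Matrix (Fin r) (Fin r) A := V.map D + C * V

/-- The dual connection. -/
def dual (D : A → A) (C : Matrix (Fin r) (Fin r) A) (H : Matrix (Fin r) (Fin r) A) :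
    Matrix (Fin r) (Fin r) A := H.map D - H * C

lemma cM_col (D : A → A) (C : Matrix (Fin r) (Fin r) A) (n : ℕ)
    (V : Matrix (Fin r) (Fin r) A) (j : Fin r) :
    (fun i => (cM D C)^[n] V i j) = (conn D C)^[n] (fun i => V i j) := by
  induction n with
  | zero => rfl
  | succ n ih =>
    rw [Function.iterate_succ_apply', Function.iterate_succ_apply', ← ih]
    ext i
    simp only [cM, conn, Matrix.add_apply, Matrix.map_apply, Matrix.mul_apply, Matrix.mulVec,
      dotProduct]

theorem dual_one {D : A → A} (h1 : ∀ a b, D (a + b) = D a + D b)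
    (h2 : ∀ a b, D (a * b) = a * D b + b * D a) (C : Matrix (Fin r) (Fin r) A) {p : ℕ}
    (hp : p.Prime) (hC : PCurvZero D C p) :
    ∃ H : Matrix (Fin r) (Fin r) A, (dual D C)^[p] 1 = (p : ℤ) • H := by
  have hD0 : D 0 = 0 := by
    have := h1 0 0
    rw [add_zero] at this
    exact left_eq_add.1 this
  have hD1 : D 1 = 0 := by
    have := h2 1 1
    rw [one_mul, one_mul] at this
    exact left_eq_add.1 this
  have hDs : ∀ (s : Finset (Fin r)) (f : Fin r → A), D (∑ i ∈ s, f i) = ∑ i ∈ s, D (f i) := by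
    intro s f
    exact map_sum (AddMonoidHom.mk' D h1) f s
  set d : Matrix (Fin r) (Fin r) A → Matrix (Fin r) (Fin r) A := fun V => V.map D with hd
  have hd1 : d 1 = 0 := by
    ext i j
    rw [hd]
    simp only [Matrix.map_apply, Matrix.one_apply, Matrix.zero_apply]
    split_ifs
    · exact hD1
    · exact hD0
  have hd0 : d 0 = 0 := by
    ext i j
    rw [hd]
    simp only [Matrix.map_apply, Matrix.zero_apply]
    exact hD0
  have hdn : d^[p] 1 = 0 := by
    obtain ⟨q, rfl⟩ : ∃ q, p = q + 1 := ⟨p - 1, by have := hp.pos; omega⟩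
    rw [Function.iterate_succ_apply, hd1]
    exact Function.iterate_fixed hd0 q
  obtain ⟨c, hc⟩ := leib_p d (dual D C) (cM D C) (by
    intro V W
    ext i j
    exact h1 _ _) (by
    intro V W
    ext i j
    simp only [hd, dual, cM, Matrix.map_apply, Matrix.mul_apply, Matrix.add_apply,
      Matrix.sub_mul, Matrix.mul_add, Matrix.sub_apply, hDs, h2, sum_add_distrib]
    have h3 : (V * C * W) i j = (V * (C * W)) i j := by rw [mul_assoc]
    simp only [Matrix.mul_apply] at h3
    rw [h3]
    have h4 : ∑ l, W l j * D (V i l) = ∑ l, D (V i l) * W l j :=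
      sum_congr rfl fun l _ => mul_comm _ _
    rw [h4]
    abel) hp (1 : Matrix (Fin r) (Fin r) A) (1 : Matrix (Fin r) (Fin r) A)
  have h3 : ∀ j, ∃ w : Fin r → A, (conn D C)^[p] (fun i => (1 : Matrix (Fin r) (Fin r) A) i j) =
      (p : ℤ) • w := fun j => hC _
  choose w hw using h3
  have h4 : (cM D C)^[p] (1 : Matrix (Fin r) (Fin r) A) = (p : ℤ) • Matrix.of fun i j => w j i := by
    ext i j
    have h5 := congrFun (cM_col D C p 1 j) i
    rw [hw j] at h5
    simpa using h5
  rw [mul_one, mul_one, one_mul, hdn, h4] at hc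
  refine ⟨-(Matrix.of fun i j => w j i) - c, ?_⟩
  rw [smul_sub, smul_neg]
  have h5 : (dual D C)^[p] 1 = 0 - (p : ℤ) • c - (p : ℤ) • (Matrix.of fun i j => w j i) := by
    rw [hc]
    abel
  rw [h5]
  abel

end conn

end Pool.Agent.Y915.Cur
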