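import Pool.Agent.Y915.Cur

set_option autoImplicit false

/-!
# Connections of any rank on curves étale over the line: the main theorems
-/

namespace Pool.Agent.Y915.Cur

open scoped PowerSeries Polynomial
open Finset

section div

variable {r : ℕ}

/-- Divisibility by `p` at the unit matrix implies divisibility everywhere. -/
theorem nab_of_one {G : Matrix (Fin r) (Fin r) ℤ⟦X⟧} {p : ℕ} (hp : p.Prime)
    {H₀ : Matrix (Fin r) (Fin r) ℤ⟦X⟧} (h : (nab G)^[p] 1 = (p : ℤ) • H₀)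
    (H : Matrix (Fin r) (Fin r) ℤ⟦X⟧) :
    ∃ H' : Matrix (Fin r) (Fin r) ℤ⟦X⟧, (nab G)^[p] H = (p : ℤ) • H' := by
  obtain ⟨c, hc⟩ := leib_p (nab G) dM (nab G) (Pool.Agent.Y79.PC.NAB.nab_add G) (by
    intro V W
    unfold nab
    rw [Pool.Agent.Y79.PC.NAB.dM_mul, Matrix.mul_add, mul_assoc]
    abel) hp H 1
  obtain ⟨B, hB⟩ := Pool.Agent.Y79.PC.NAB.dM_iter_dvd p H
  obtain ⟨q, hq⟩ : p ∣ p.factorial := Nat.dvd_factorial hp.pos le_rfl
  rw [mul_one, mul_one, h, hB, hq] at hc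
  refine ⟨(q : ℤ) • B + H * H₀ + c, ?_⟩
  rw [hc, smul_add, smul_add, smul_smul, Matrix.mul_smul]
  push_cast
  rfl

variable {A : Type} [CommRing A]

/-- The dual connection and the embedding in `ℤ⟦x⟧`. -/
theorem tau_dual {D : A → A} {τ : A →+* ℤ⟦X⟧}
    (hτD : ∀ g, τ (D g) = PowerSeries.derivative ℤ (τ g)) (C : Matrix (Fin r) (Fin r) A) (n : ℕ)
    (H : Matrix (Fin r) (Fin r) A) :
    ((dual D C)^[n] H).map τ = (nab (-(C.map τ)))^[n] (H.map τ) := by
  induction n with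
  | zero => rfl
  | succ n ih =>
    rw [Function.iterate_succ_apply', Function.iterate_succ_apply', ← ih]
    generalize (dual D C)^[n] H = V
    ext1 i j
    unfold dual nab dM
    rw [Matrix.mul_neg]
    simp only [Matrix.map_apply, Matrix.sub_apply, Matrix.add_apply, Matrix.neg_apply,
      Matrix.mul_apply, map_sub, map_sum, map_mul, hτD]
    rw [sub_eq_add_neg]

theorem hdiv_good {D : A → A} (h1 : ∀ a b, D (a + b) = D a + D b)
    (h2 : ∀ a b, D (a * b) = a * D b + b * D a) {τ : A →+* ℤ⟦X⟧}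
    (hτD : ∀ g, τ (D g) = PowerSeries.derivative ℤ (τ g)) (C : Matrix (Fin r) (Fin r) A) {p : ℕ}
    (hp : p.Prime) (hC : PCurvZero D C p) (H : Matrix (Fin r) (Fin r) ℤ⟦X⟧) :
    ∃ H' : Matrix (Fin r) (Fin r) ℤ⟦X⟧, (nab (-(C.map τ)))^[p] H = (p : ℤ) • H' := by
  obtain ⟨H₀, hH₀⟩ := dual_one h1 h2 C hp hC
  have h3 := tau_dual hτD C p (1 : Matrix (Fin r) (Fin r) A)
  rw [hH₀] at h3
  have h4 : (1 : Matrix (Fin r) (Fin r) A).map τ = 1 :=
    Matrix.map_one _ (map_zero _) (map_one _)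
  rw [h4] at h3
  refine nab_of_one hp (H₀ := H₀.map τ) ?_ H
  rw [← h3]
  ext1 i j
  rw [Matrix.map_apply, Matrix.smul_apply, Matrix.smul_apply, Matrix.map_apply, map_zsmul]

end div

section small

/-- Rescaling. -/
lemma Gd.rescale {r : ℝ} (hr : 0 < r) {f : ℂ⟦X⟧} (hf : Gd r f) :
    Gd 1 (PowerSeries.rescale (r : ℂ) f) := by
  intro ρ h0 h1
  obtain ⟨B, hB⟩ := hf (r * ρ) (by positivity) (by nlinarith)
  refine ⟨B, fun m => ?_⟩
  have h2 := hB m
  rw [PowerSeries.coeff_rescale, norm_mul, norm_pow, Complex.norm_real, Real.norm_eq_abs,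
    abs_of_pos hr]
  calc r ^ m * ‖PowerSeries.coeff m f‖ * ρ ^ m = ‖PowerSeries.coeff m f‖ * (r * ρ) ^ m := by
        rw [mul_pow]; ring
    _ ≤ B := h2

lemma rescale_sub (a : ℂ) {φ : ℂ⟦X⟧} (hφ : PowerSeries.constantCoeff φ = 0)
    (hφ' : PowerSeries.constantCoeff (PowerSeries.rescale a φ) = 0) (f : ℂ⟦X⟧) :
    PowerSeries.rescale a (sub φ hφ f) = sub (PowerSeries.rescale a φ) hφ' f := by
  rw [sub_apply, sub_apply, PowerSeries.rescale_eq_subst, PowerSeries.rescale_eq_subst]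
  exact PowerSeries.subst_comp_subst_apply
    (PowerSeries.HasSubst.of_constantCoeff_zero' hφ) (PowerSeries.HasSubst.smul_X' a) f

/-- The coefficients of the connection converge near the base point. -/
theorem small_of {φ : ℂ⟦X⟧} (hφ : PowerSeries.constantCoeff φ = 0) (gφ : Gd 1 φ)
    (h1 : PowerSeries.coeff 1 φ ≠ 0) {f : ℂ⟦X⟧}
    (hf : Gd 1 (PowerSeries.derivative ℂ φ * sub φ hφ f)) : ∃ r : ℝ, 0 < r ∧ Gd r f := by
  set a : ℂ := PowerSeries.coeff 1 φ with ha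
  set g : ℂ⟦X⟧ := PowerSeries.C a⁻¹ * PowerSeries.derivative ℂ φ with hg
  have gg : Gd 1 g := Gd.mul (Gd.const _ _) gφ.deriv
  have hg0 : PowerSeries.constantCoeff g = 1 := by
    rw [hg, map_mul, PowerSeries.constantCoeff_C, ← PowerSeries.coeff_zero_eq_constantCoeff_apply,
      PowerSeries.coeff_derivative]
    simp only [zero_add, Nat.cast_zero, mul_one]
    rw [← ha]
    exact inv_mul_cancel₀ h1
  have hu : g * g⁻¹ = 1 := PowerSeries.mul_inv_cancel g (by rw [hg0]; exact one_ne_zero)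
  obtain ⟨r, hr, gr⟩ := Gd.inv_small one_pos gg hg0 hu
  set ρ : ℝ := min r 1 with hρ
  have hρ0 : 0 < ρ := lt_min hr one_pos
  have h2 : sub φ hφ f = PowerSeries.C a⁻¹ * g⁻¹ * (PowerSeries.derivative ℂ φ * sub φ hφ f) := by
    rw [hg] at hu ⊢
    linear_combination (-sub φ hφ f) * hu
  have h3 : Gd ρ (sub φ hφ f) := by
    rw [h2]
    exact Gd.mul (Gd.mul (Gd.const _ _) (gr.mono (min_le_left _ _))) (hf.mono (min_le_right _ _))
  have h4 : PowerSeries.constantCoeff (PowerSeries.rescale (ρ : ℂ) φ) = 0 := by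
    rw [← PowerSeries.coeff_zero_eq_constantCoeff_apply, PowerSeries.coeff_rescale, pow_zero,
      one_mul, PowerSeries.coeff_zero_eq_constantCoeff_apply, hφ]
  refine Pool.Agent.Y255.PC.small (PowerSeries.rescale (ρ : ℂ) φ) h4 f ?_ ?_ ?_
  · rw [PowerSeries.coeff_rescale, pow_one]
    refine mul_ne_zero ?_ h1
    exact_mod_cast hρ0.ne'
  · exact Gd.rescale hρ0 (gφ.mono (min_le_right _ _))
  · rw [← rescale_sub (ρ : ℂ) hφ h4]
    exact Gd.rescale hρ0 h3

end small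

end Pool.Agent.Y915.Cur
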