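import Pool.Agent.Y915.Cur2
import Pool.Agent.Y536.PC.Num

set_option autoImplicit false

/-!
# Connections of any rank on curves étale over the line: assembly
-/

namespace Pool.Agent.Y915.Cur

open scoped PowerSeries Polynomial
open Finset

section main

variable {A : Type} [CommRing A] [IsDomain A] [CharZero A] {D : A → A} {x : A} {e : A →+* ℤ}
  {τ : A →+* ℤ⟦X⟧} {r : ℕ}

omit [IsDomain A] [CharZero A] in
theorem neg_map (M : ℤ) (C : Matrix (Fin r) (Fin r) A) :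
    -((M • C).map τ) = M • (-(C.map τ)) := by
  ext1 i j
  rw [Matrix.neg_apply, Matrix.map_apply, Matrix.smul_apply, Matrix.smul_apply, Matrix.neg_apply,
    Matrix.map_apply, map_zsmul, smul_neg]

/-- The formal solutions are algebraic. -/
theorem formal (h : IsTay A D x e) (hτD : ∀ g, τ (D g) = PowerSeries.derivative ℤ (τ g))
    {M : ℤ} (hM : M ≠ 0) (C : Matrix (Fin r) (Fin r) A)
    {φ : ℂ⟦X⟧} (hφ : PowerSeries.constantCoeff φ = 0) (gφ : Gd 1 φ)
    (h1 : PowerSeries.coeff 1 φ ≠ 0)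
    (hG : ∀ i j, Gd 1 (PowerSeries.derivative ℂ φ * sub φ hφ (cst ℂ (τ (C i j)))))
    {t : ℝ} (hlt : t < Real.log ‖PowerSeries.coeff 1 φ‖) {k : ℕ → ℕ}
    (hk : ∀ p : ℕ, p.Prime → k p = 0 ∨ (k p = 1 ∧ PCurvZero D (M • C) p) ∨
      (p : ℤ) ^ (∑ i ∈ range (k p), p ^ i) ∣ M)
    (hsum : ∀ m : ℕ, ∑ p ∈ (range (m + 1)).filter Nat.Prime,
      Real.log p / ((p : ℝ) ^ k p * ((p : ℝ) - 1)) ≤ t) :
    ∃ Y : Matrix (Fin r) (Fin r) ℚ⟦X⟧, dM Y = (M • (-(C.map τ))).map (cst ℚ) * Y ∧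
      Y.map PowerSeries.constantCoeff = 1 ∧ ∀ i j, IsAlgebraic ℚ[X] (Y i j) := by
  obtain ⟨Y, hY, hY0⟩ := Pool.Agent.Y810.PC.ode1 ℚ r ((M • (-(C.map τ))).map (cst ℚ))
  refine ⟨Y, hY, hY0, ?_⟩
  -- the constant `E`
  set E : ℕ := ∏ p ∈ M.natAbs.primeFactors, p ^ vf p (p ^ k p - 1) with hE
  have hE0 : 0 < E := prod_pos fun p hp => pow_pos (Nat.prime_of_mem_primeFactors hp).pos _
  have hE' : ∀ p : ℕ, p.Prime → p ^ vf p (p ^ k p - 1) ∣ E := by
    intro p hp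
    by_cases hk2 : k p ≤ 1
    · have h1 : vf p (p ^ k p - 1) = 0 := by
        refine vf_lt ?_
        have h2 : p ^ k p ≤ p := (Nat.pow_le_pow_right hp.pos hk2).trans_eq (pow_one p)
        have h3 := hp.pos
        omega
      rw [h1, pow_zero]; exact one_dvd _
    · have h1 : (p : ℤ) ^ (∑ i ∈ range (k p), p ^ i) ∣ M := by
        rcases hk p hp with h | h | h
        · omega
        · omega
        · exact h
      have h2 : (p : ℤ) ∣ M := by
        refine dvd_trans (dvd_pow_self _ ?_) h1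
        obtain ⟨j, hj⟩ : ∃ j, k p = j + 1 := ⟨k p - 1, by omega⟩
        rw [hj, sum_range_succ']
        simp
      have h3 : p ∈ M.natAbs.primeFactors := by
        rw [Nat.mem_primeFactors]
        exact ⟨hp, Int.natCast_dvd.1 h2, by simpa using hM⟩
      exact dvd_prod_of_mem _ h3
  have hdiv : ∀ p : ℕ, p.Prime → ∀ H : Matrix (Fin r) (Fin r) ℤ⟦X⟧,
      ∃ H' : Matrix (Fin r) (Fin r) ℤ⟦X⟧,
        (nab (M • (-(C.map τ))))^[p ^ k p] H = ((p : ℤ) ^ (vf p (p ^ k p) - 0)) • H' := by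
    intro p hp H
    have hdvd : (p : ℤ) ^ vf p (p ^ k p) ∣ M → ∃ H' : Matrix (Fin r) (Fin r) ℤ⟦X⟧,
        (nab (M • (-(C.map τ))))^[p ^ k p] H = ((p : ℤ) ^ (vf p (p ^ k p) - 0)) • H' := by
      intro h
      rw [Nat.sub_zero]
      exact Pool.Agent.Y79.PC.NAB.nab1 r (-(C.map τ)) M p (k p) hp h H
    rcases hk p hp with hh | ⟨hh, hf⟩ | hh
    · apply hdvd
      rw [hh]
      simp [vf]
    · obtain ⟨H', hH'⟩ := hdiv_good h.add h.mul hτD (M • C) hp hf H
      rw [neg_map] at hH'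
      refine ⟨H', ?_⟩
      have h1 : vf p (p ^ k p) = 1 := by rw [vf_pow hp, hh]; simp
      rw [h1, hh]
      simpa using hH'
    · apply hdvd
      rw [vf_pow hp]; exact hh
  -- convergence
  have hent : ∀ i j, cst ℂ ((M • (-(C.map τ))) i j) = -(M : ℂ⟦X⟧) * cst ℂ (τ (C i j)) := by
    intro i j
    rw [Matrix.smul_apply, Matrix.neg_apply, Matrix.map_apply, zsmul_eq_mul, map_mul, map_neg,
      map_intCast]
    ring
  have hsm : ∀ i j, ∃ ρ : ℝ, 0 < ρ ∧ Gd ρ (cst ℂ (τ (C i j))) := fun i j =>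
    small_of hφ gφ h1 (hG i j)
  choose ρ hρ0 hρ using hsm
  have hsmall : ∃ ρ' : ℝ, 0 < ρ' ∧ ∀ i j, Gd ρ' (cst ℂ ((M • (-(C.map τ))) i j)) := by
    have h2 : ∃ ρ' : ℝ, 0 < ρ' ∧ ∀ ij : Fin r × Fin r, ρ' ≤ ρ ij.1 ij.2 := by
      rcases isEmpty_or_nonempty (Fin r × Fin r) with h3 | h3
      · exact ⟨1, one_pos, fun ij => (h3.false ij).elim⟩
      · obtain ⟨ij, hij⟩ := Finite.exists_min fun ij : Fin r × Fin r => ρ ij.1 ij.2
        exact ⟨ρ ij.1 ij.2, hρ0 _ _, hij⟩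
    obtain ⟨ρ', h3, h4⟩ := h2
    refine ⟨ρ', h3, fun i j => ?_⟩
    rw [hent]
    exact Gd.mul (Gd.neg (Gd.intCast _ M)) ((hρ i j).mono (h4 (i, j)))
  intro i j
  refine core hY hY0 (k := k) (d := fun _ => 0) hE0 hE' hdiv (τ := t) ?_ hsmall hφ gφ ?_ hlt i j
  · intro m
    refine le_trans (le_of_eq ?_) (hsum m)
    refine sum_congr rfl fun p _ => ?_
    push_cast
    rw [zero_add, mul_one_div, div_div, mul_comm ((p : ℝ) - 1)]
  · intro i j
    rw [hent, map_mul, map_neg, map_intCast]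
    have h2 : PowerSeries.derivative ℂ φ * (-(M : ℂ⟦X⟧) * sub φ hφ (cst ℂ (τ (C i j)))) =
        -(M : ℂ⟦X⟧) * (PowerSeries.derivative ℂ φ * sub φ hφ (cst ℂ (τ (C i j)))) := by ring
    rw [h2]
    exact Gd.mul (Gd.neg (Gd.intCast _ M)) (hG i j)

end main

section transfer

/-- Over an algebraic closure of the function field, with a derivation extending `D`, the
connection `v ↦ D v + C v` has an invertible matrix of solutions. -/
def AlgSol {A : Type} [CommRing A] [IsDomain A] {r : ℕ} (D : A → A)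
    (C : Matrix (Fin r) (Fin r) A) : Prop :=
  ∃ (D' : AlgebraicClosure (FractionRing A) → AlgebraicClosure (FractionRing A))
    (Z : Matrix (Fin r) (Fin r) (AlgebraicClosure (FractionRing A))),
    (∀ a b, D' (a + b) = D' a + D' b) ∧ (∀ a b, D' (a * b) = a * D' b + b * D' a) ∧
    (∀ g : A, D' (algebraMap A (AlgebraicClosure (FractionRing A)) g) =
      algebraMap A (AlgebraicClosure (FractionRing A)) (D g)) ∧
    IsUnit Z ∧ Z.map D' + C.map (algebraMap A (AlgebraicClosure (FractionRing A))) * Z = 0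

theorem transfer {A : Type} [CommRing A] [IsDomain A] [CharZero A] {D : A → A} {x : A}
    {e : A →+* ℤ} {τ : A →+* ℤ⟦X⟧} {r : ℕ} (h : IsTay A D x e) (hτi : Function.Injective τ)
    (hτx : τ x = PowerSeries.X) (hτD : ∀ g, τ (D g) = PowerSeries.derivative ℤ (τ g))
    {C : Matrix (Fin r) (Fin r) A} {Y : Matrix (Fin r) (Fin r) ℚ⟦X⟧}
    (hY : dM Y = (-(C.map τ)).map (cst ℚ) * Y) (hY0 : Y.map PowerSeries.constantCoeff = 1)
    (hYa : ∀ i j, IsAlgebraic ℚ[X] (Y i j)) : AlgSol D C := by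
  obtain ⟨D', σ, hD1, hD2, hD3, hσi, hσ, hσD⟩ :=
    Pool.Agent.Y668.PC.trO A D x e τ h hτi hτx hτD
  set ι := algebraMap A (AlgebraicClosure (FractionRing A)) with hι
  let YB : Matrix (Fin r) (Fin r) AlgB := Matrix.of fun i j => ⟨Y i j, hYa i j⟩
  let CB : Matrix (Fin r) (Fin r) AlgB := Matrix.of fun i j =>
    ⟨cst ℚ (τ (C i j)), Pool.Agent.Y668.PC.alg_tau h hτx (C i j)⟩
  refine ⟨D', YB.map σ, hD1, hD2, hD3, ?_, ?_⟩
  · have h1 : (YB.map σ).det ≠ 0 := by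
      have h2 : (YB.map σ).det = σ YB.det := (RingHom.map_det σ YB).symm
      rw [h2, Ne, map_eq_zero_iff σ hσi]
      intro h3
      have h4 : ((YB.det : AlgB) : ℚ⟦X⟧) = Y.det := by
        have h5 : (AlgB.val.toRingHom) YB.det = (YB.map AlgB.val.toRingHom).det :=
          RingHom.map_det _ YB
        have h6 : YB.map AlgB.val.toRingHom = Y := by
          ext1 i j
          rfl
        rw [h6] at h5
        exact h5
      rw [h3] at h4
      have h5 := const_det Y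
      rw [hY0, Matrix.det_one, ← h4] at h5
      simp at h5
    rw [Matrix.isUnit_iff_isUnit_det]
    exact isUnit_iff_ne_zero.2 h1
  · ext1 i j
    have h1 : dB (YB i j) = -(CB * YB) i j := by
      apply Subtype.ext
      have h2 := congrFun (congrFun hY i) j
      have h3 : dM Y i j = PowerSeries.derivative ℚ (Y i j) := rfl
      rw [h3, Matrix.mul_apply] at h2
      show PowerSeries.derivative ℚ (Y i j) = ((-(CB * YB) i j : AlgB) : ℚ⟦X⟧)
      rw [h2, Matrix.mul_apply]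
      push_cast
      rw [← sum_neg_distrib]
      refine sum_congr rfl fun l _ => ?_
      rw [Matrix.map_apply, Matrix.neg_apply, Matrix.map_apply, map_neg, neg_mul]
      rfl
    have h2 : D' (σ (YB i j)) = σ (dB (YB i j)) := (hσD (YB i j) (dB (YB i j)) rfl).symm
    rw [Matrix.add_apply, Matrix.map_apply, Matrix.map_apply, h2, h1, map_neg,
      Matrix.mul_apply, Matrix.mul_apply, map_sum, Matrix.zero_apply, neg_add_eq_zero]
    refine sum_congr rfl fun l _ => ?_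
    rw [map_mul, Matrix.map_apply, Matrix.map_apply]
    congr 1
    exact hσ (C i l) (CB i l) rfl

end transfer

section final

variable {A : Type} [CommRing A] [IsDomain A] [CharZero A] {D : A → A} {x : A} {e : A →+* ℤ}
  {τ : A →+* ℤ⟦X⟧} {r : ℕ}

theorem crit (h : IsTay A D x e) (hτi : Function.Injective τ)
    (hτx : τ x = PowerSeries.X) (hτD : ∀ g, τ (D g) = PowerSeries.derivative ℤ (τ g))
    {M : ℤ} (hM : M ≠ 0) (C : Matrix (Fin r) (Fin r) A)
    {φ : ℂ⟦X⟧} (hφ : PowerSeries.constantCoeff φ = 0) (gφ : Gd 1 φ)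
    (h1 : PowerSeries.coeff 1 φ ≠ 0)
    (hG : ∀ i j, Gd 1 (PowerSeries.derivative ℂ φ * sub φ hφ (cst ℂ (τ (C i j)))))
    {t : ℝ} (hlt : t < Real.log ‖PowerSeries.coeff 1 φ‖) {k : ℕ → ℕ}
    (hk : ∀ p : ℕ, p.Prime → k p = 0 ∨ (k p = 1 ∧ PCurvZero D (M • C) p) ∨
      (p : ℤ) ^ (∑ i ∈ range (k p), p ^ i) ∣ M)
    (hsum : ∀ m : ℕ, ∑ p ∈ (range (m + 1)).filter Nat.Prime,
      Real.log p / ((p : ℝ) ^ k p * ((p : ℝ) - 1)) ≤ t) : AlgSol D (M • C) := by
  obtain ⟨Y, hY, hY0, hYa⟩ := formal h hτD hM C hφ gφ h1 hG hlt hk hsum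
  refine transfer h hτi hτx hτD (Y := Y) ?_ hY0 hYa
  rw [neg_map]
  exact hY

theorem uniform {δ : ℝ} (hδ : 0 < δ) : ∃ M₀ : ℕ, 0 < M₀ ∧
    ∀ (A : Type) [CommRing A] [IsDomain A] [CharZero A] (D : A → A) (x : A) (e : A →+* ℤ)
      (τ : A →+* ℤ⟦X⟧) (r : ℕ) (M : ℤ) (C : Matrix (Fin r) (Fin r) A) (φ : ℂ⟦X⟧)
      (hφ : PowerSeries.constantCoeff φ = 0), IsTay A D x e → Function.Injective τ →
      τ x = PowerSeries.X → (∀ g, τ (D g) = PowerSeries.derivative ℤ (τ g)) →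
      M ≠ 0 → (M₀ : ℤ) ∣ M → Gd 1 φ →
      (∀ i j, Gd 1 (PowerSeries.derivative ℂ φ * sub φ hφ (cst ℂ (τ (C i j))))) →
      (∀ S : Finset ℕ, (∀ p ∈ S, p.Prime ∧ ¬ (p : ℤ) ∣ M ∧ ¬ PCurvZero D (M • C) p) →
        ∑ p ∈ S, Real.log p / p ≤ Real.log ‖PowerSeries.coeff 1 φ‖ - δ) →
      AlgSol D (M • C) := by
  classical
  obtain ⟨P, K, hPK⟩ := Pool.Agent.Y536.PC.num4 (δ / 2) (by linarith)
  refine ⟨∏ p ∈ (range (P + 1)).filter Nat.Prime, p ^ (∑ i ∈ range K, p ^ i),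
    prod_pos fun p hp => pow_pos (mem_filter.1 hp).2.pos _, ?_⟩
  intro A _ _ _ D x e τ r M C φ hφ h hτi hτx hτD hM hdvd gφ hG hS
  obtain ⟨B, hB⟩ : ∃ B : Set ℕ, ∀ p, p ∈ B ↔ (¬ (p : ℤ) ∣ M ∧ ¬ PCurvZero D (M • C) p) :=
    ⟨{p | ¬ (p : ℤ) ∣ M ∧ ¬ PCurvZero D (M • C) p}, fun _ => Iff.rfl⟩
  have h1 : PowerSeries.coeff 1 φ ≠ 0 := by
    intro h0
    have := hS ∅ (by simp)
    rw [h0, norm_zero, Real.log_zero, sum_empty] at this
    linarith
  refine crit h hτi hτx hτD hM C hφ gφ h1 hG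
    (t := Real.log ‖PowerSeries.coeff 1 φ‖ - δ / 2) (by linarith)
    (k := fun p => if p ≤ P then K else if p ∈ B then 0 else 1) ?_ ?_
  · intro p hp
    by_cases h1 : p ≤ P
    · right; right
      simp only [h1, if_true]
      refine dvd_trans ?_ hdvd
      have h2 : p ^ (∑ i ∈ range K, p ^ i) ∣
          ∏ p ∈ (range (P + 1)).filter Nat.Prime, p ^ (∑ i ∈ range K, p ^ i) :=
        dvd_prod_of_mem (fun p => p ^ (∑ i ∈ range K, p ^ i))
          (mem_filter.2 ⟨mem_range.2 (by omega), hp⟩)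
      exact_mod_cast h2
    · by_cases h2 : p ∈ B
      · left
        simp only [h1, if_false, h2, if_true]
      · right
        simp only [h1, if_false, h2]
        by_cases h3 : (p : ℤ) ∣ M
        · right
          simpa using h3
        · left
          refine ⟨trivial, ?_⟩
          by_contra h4
          exact h2 ((hB p).2 ⟨h3, h4⟩)
  · intro m
    refine (hPK B m).trans ?_
    have h1 := hS ((range (m + 1)).filter (fun p => p.Prime ∧ P < p ∧ p ∈ B)) (fun p hp => by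
      have h2 := (mem_filter.1 hp).2
      have h3 := (hB p).1 h2.2.2
      exact ⟨h2.1, h3.1, h3.2⟩)
    linarith

end final

end Pool.Agent.Y915.Cur
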