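import Mathlib

set_option autoImplicit false

/-!
# Operators close to powers of `s ∂`, `s² = 1 + 4 c xⁿ`: definitions
-/

namespace Pool.Agent.Y915

open scoped PowerSeries Polynomial Nat
open Matrix

/-- The coefficients of `f` are `O(ρ^(-m))` for every `ρ < r`. -/
def Gd (r : ℝ) (f : ℂ⟦X⟧) : Prop :=
  ∀ ρ : ℝ, 0 < ρ → ρ < r → ∃ B : ℝ, ∀ m : ℕ, ‖PowerSeries.coeff m f‖ * ρ ^ m ≤ B

/-- Entrywise derivative of a matrix of power series. -/
noncomputable def dM {K : Type} [CommRing K] {N : ℕ} (A : Matrix (Fin N) (Fin N) K⟦X⟧) :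
    Matrix (Fin N) (Fin N) K⟦X⟧ := A.map (PowerSeries.derivative K)

/-- The connection `H ↦ H' + H G`. -/
noncomputable def nab {K : Type} [CommRing K] {N : ℕ} (G H : Matrix (Fin N) (Fin N) K⟦X⟧) :
    Matrix (Fin N) (Fin N) K⟦X⟧ := dM H + H * G

/-- The exponent of `p` in `m !`. -/
def vf (p m : ℕ) : ℕ := (m !).factorization p

/-- The common denominator: `∏ p ^ (d p ⌊m / p ^ k p⌋ + v_p(⌊m / p ^ k p⌋!))` over the primes
`p ≤ m`. -/
noncomputable def wt (k d : ℕ → ℕ) (m : ℕ) : ℕ :=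
  ∏ p ∈ (Finset.range (m + 1)).filter Nat.Prime,
    p ^ (d p * (m / p ^ k p) + vf p (m / p ^ k p))

/-- The operator `Δ = F ∂² + (1/2) F' ∂`, where `F = 1 + 4 c xⁿ`; it is the square of `√F ∂`. -/
def delta {R : Type*} [CommRing R] (n : ℕ) (c : ℤ) (D : R → R) (x y : R) : R :=
  (1 + 4 * (c : R) * x ^ n) * D (D y) + 2 * (c : R) * (n : R) * x ^ (n - 1) * D y

/-- The operators `B_i`: `Δ ^ (i / 2)` for even `i` and `∂ Δ ^ ((i - 1) / 2)` for odd `i`. -/
def base {R : Type*} [CommRing R] (n : ℕ) (c : ℤ) (D : R → R) (x : R) (i : ℕ) (y : R) : R :=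
  if Even i then (delta n c D x)^[i / 2] y else D ((delta n c D x)^[i / 2] y)

/-- The operator `B_N + ∑_{i < N} M ^ (N - i) a_i(x) B_i`, where for even `N` the terms with odd
`i` are multiplied by `F = 1 + 4 c xⁿ`. -/
noncomputable def oper {R : Type*} [CommRing R] (n : ℕ) (c : ℤ) (N : ℕ) (M : ℤ) (a : Fin N → ℤ[X])
    (D : R → R) (x y : R) : R :=
  base n c D x N y + ∑ i : Fin N, (M : R) ^ (N - (i : ℕ)) * Polynomial.aeval x (a i) *
    (if Even N ∧ Odd (i : ℕ) then 1 + 4 * (c : R) * x ^ n else 1) * base n c D x i y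

/-- For some derivation `D` of the field `K` with `D x = 1` there are `N` solutions of `L D y = 0`
in `K` that are linearly independent over the constants. -/
def Full {K : Type*} [Field K] (N : ℕ) (L : (K → K) → K → K) (x : K) : Prop :=
  ∃ D : Derivation ℤ K K, D x = 1 ∧ ∃ y : Fin N → K, (∀ j, L (⇑D) (y j) = 0) ∧
    ∀ b : Fin N → K, (∀ j, D (b j) = 0) → ∑ j, b j * y j = 0 → ∀ j, b j = 0

/-- The reduction modulo `p` has a full basis of rational solutions. -/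
def FullMod (n : ℕ) (c : ℤ) (N : ℕ) (M : ℤ) (a : Fin N → ℤ[X]) (p : ℕ) : Prop :=
  ∃ _ : Fact p.Prime, Full N (fun D y => oper n c N M a D (RatFunc.X : RatFunc (ZMod p)) y)
    (RatFunc.X : RatFunc (ZMod p))

/-- A full basis of algebraic solutions. -/
def FullAlg (n : ℕ) (c : ℤ) (N : ℕ) (M : ℤ) (a : Fin N → ℤ[X]) : Prop :=
  Full N (fun D y => oper n c N M a D
      (algebraMap (RatFunc ℚ) (AlgebraicClosure (RatFunc ℚ)) RatFunc.X) y)
    (algebraMap (RatFunc ℚ) (AlgebraicClosure (RatFunc ℚ)) RatFunc.X)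

/-- `s` is the square root of `1 + 4 c xⁿ` and `w` its inverse, in `ℤ⟦x⟧`. -/
structure IsRt (n : ℕ) (c : ℤ) (s w : ℤ⟦X⟧) : Prop where
  const : PowerSeries.constantCoeff s = 1
  sq : s ^ 2 = 1 + 4 * (c : ℤ⟦X⟧) * PowerSeries.X ^ n
  inv : s * w = 1
  der : s * PowerSeries.derivative ℤ s = 2 * (c : ℤ⟦X⟧) * (n : ℤ⟦X⟧) * PowerSeries.X ^ (n - 1)
  cf : ∃ v : ℤ⟦X⟧, s = 1 + 2 * v

/-- The matrix of the system `∂ Y = M G Y` for the vectors `M ^ (-i) (s ∂) ^ i y`. -/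
noncomputable def GT (N : ℕ) (a : Fin N → ℤ[X]) (s w : ℤ⟦X⟧) : Matrix (Fin N) (Fin N) ℤ⟦X⟧ :=
  Matrix.of fun i j => w * (if (i : ℕ) + 1 < N then (if (j : ℕ) = (i : ℕ) + 1 then 1 else 0)
    else -((a j : ℤ⟦X⟧) * (if Even (N - (j : ℕ)) then 1 else s)))

end Pool.Agent.Y915
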