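import Pool.Agent.Y915.Uni5

set_option autoImplicit false

/-!
# Several functions
-/

namespace Pool.Agent.Y915.Uni

open scoped PowerSeries Polynomial
open Finset Pool.Agent.Y474.PC Pool.Agent.Y915.Mero

section den

variable {W : ℕ → ℕ} {E : ℕ}

/-- The denominators of `g` divide `E ^ e W`. -/
def Dn (W : ℕ → ℕ) (E : ℕ) (g : ℚ⟦X⟧) (e : ℕ) : Prop :=
  ∀ m : ℕ, ∃ z : ℤ, ((E ^ e * W m : ℕ) : ℚ) * PowerSeries.coeff m g = z

lemma Dn.one : Dn W E 1 0 := by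
  intro m
  rw [PowerSeries.coeff_one]
  split_ifs
  · exact ⟨(E ^ 0 * W m : ℕ), by push_cast; ring⟩
  · exact ⟨0, by simp⟩

lemma Dn.mul (hW : ∀ m l, W m * W l ∣ W (m + l)) {g h : ℚ⟦X⟧} {e e' : ℕ} (hg : Dn W E g e)
    (hh : Dn W E h e') : Dn W E (g * h) (e + e') := by
  intro m
  have key : ∀ x ∈ antidiagonal m, ∃ z : ℤ, ((E ^ (e + e') * W m : ℕ) : ℚ) *
      (PowerSeries.coeff x.1 g * PowerSeries.coeff x.2 h) = z := by
    intro x hx
    obtain ⟨z1, h1⟩ := hg x.1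
    obtain ⟨z2, h2⟩ := hh x.2
    obtain ⟨q, hq⟩ := hW x.1 x.2
    rw [mem_antidiagonal.1 hx] at hq
    refine ⟨z1 * z2 * q, ?_⟩
    push_cast
    rw [← h1, ← h2, hq, pow_add]
    push_cast
    ring
  choose! z hz using key
  refine ⟨∑ x ∈ antidiagonal m, z x, ?_⟩
  rw [PowerSeries.coeff_mul, mul_sum]
  push_cast
  refine sum_congr rfl fun x hx => ?_
  have := hz x hx
  push_cast at this
  exact this

lemma Dn.mono {g : ℚ⟦X⟧} {e e' : ℕ} (h : Dn W E g e) (he : e ≤ e') : Dn W E g e' := by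
  intro m
  obtain ⟨z, hz⟩ := h m
  obtain ⟨q, hq⟩ := pow_dvd_pow E he
  refine ⟨z * q, ?_⟩
  rw [hq]
  push_cast at hz ⊢
  rw [← hz]
  ring

lemma Dn.X_pow (hW : ∀ m l, W m * W l ∣ W (m + l)) {g : ℚ⟦X⟧} {e : ℕ} (h : Dn W E g e) (a : ℕ) :
    Dn W E (PowerSeries.X ^ a * g) e := by
  intro m
  rw [PowerSeries.coeff_X_pow_mul']
  split_ifs with ha
  · obtain ⟨z, hz⟩ := h (m - a)
    obtain ⟨q, hq⟩ := W_zero_dvd hW (show m - a ≤ m by omega)
    refine ⟨z * q, ?_⟩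
    rw [hq]
    push_cast at hz ⊢
    rw [← hz]
    ring
  · exact ⟨0, by simp⟩

lemma Dn.pow (hW : ∀ m l, W m * W l ∣ W (m + l)) {g : ℚ⟦X⟧} (h : Dn W E g 1) (b : ℕ) :
    Dn W E (g ^ b) b := by
  induction b with
  | zero => rw [pow_zero]; exact Dn.one
  | succ b ih => rw [pow_succ]; exact ih.mul hW h

lemma Dn.prod (hW : ∀ m l, W m * W l ∣ W (m + l)) {ι : Type} (s : Finset ι) (g : ι → ℚ⟦X⟧)
    (e : ℕ) (h : ∀ i, Dn W E (g i) e) : Dn W E (∏ i ∈ s, g i) (s.card * e) := by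
  classical
  induction s using Finset.induction_on with
  | empty => rw [prod_empty, card_empty, zero_mul]; exact Dn.one
  | insert a s ha ih =>
    rw [prod_insert ha, card_insert_of_notMem ha]
    exact ((h a).mul hW ih).mono (le_of_eq (by ring))

end den

lemma Bd_prod {ι : Type} (s : Finset ι) {r : ℝ} (hr : 0 ≤ r) (B : ι → ℝ) (g : ι → ℂ⟦X⟧)
    (h : ∀ i, Bd r (B i) (g i)) : Bd r (∏ i ∈ s, B i) (∏ i ∈ s, g i) := by
  classical
  induction s using Finset.induction_on with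
  | empty => rw [prod_empty, prod_empty]; exact Bd_one r
  | insert a s ha ih =>
    rw [prod_insert ha, prod_insert ha]
    exact Bd_mul hr (h a) ih

/-- The products. -/
noncomputable def mon {S T d : ℕ} (y : Fin d → ℚ⟦X⟧) (x : Fin (S + 1) × (Fin d → Fin (T + 1))) :
    ℚ⟦X⟧ := PowerSeries.X ^ (x.1 : ℕ) * ∏ i, y i ^ (x.2 i : ℕ)

lemma Dn_mon {W : ℕ → ℕ} {E : ℕ} (hW : ∀ m l, W m * W l ∣ W (m + l)) {S T d : ℕ}
    {y : Fin d → ℚ⟦X⟧} (hy : ∀ i, Dn W E (y i) 1) (x : Fin (S + 1) × (Fin d → Fin (T + 1))) :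
    Dn W E (mon y x) (d * T) := by
  unfold mon
  refine Dn.X_pow hW ?_ _
  have := Dn.prod hW (univ : Finset (Fin d)) (fun i => y i ^ (x.2 i : ℕ)) T fun i =>
    ((hy i).pow hW _).mono (by have := (x.2 i).2; omega)
  rwa [card_univ, Fintype.card_fin] at this

lemma Bd_monT (Ψ : ℚ⟦X⟧ →+* ℂ⟦X⟧) {S T d : ℕ} (y : Fin d → ℚ⟦X⟧)
    {B₁ B₂ r : ℝ} (hr : 0 ≤ r) {Q₁ : ℂ⟦X⟧} {Q : Fin d → ℂ⟦X⟧}
    (hQ₁ : Bd r B₁ Q₁) (h1 : Bd r B₁ (Q₁ * Ψ PowerSeries.X))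
    (hQ₂ : ∀ i, Bd r B₂ (Q i)) (h2 : ∀ i, Bd r B₂ (Q i * Ψ (y i)))
    (x : Fin (S + 1) × (Fin d → Fin (T + 1))) :
    Bd r (B₁ ^ S * ∏ _i : Fin d, B₂ ^ T) (Q₁ ^ S * (∏ i, Q i ^ T) * Ψ (mon y x)) := by
  have e2 : Q₁ ^ S * (∏ i, Q i ^ T) * Ψ (mon y x) =
      ((Q₁ * Ψ PowerSeries.X) ^ (x.1 : ℕ) * Q₁ ^ (S - (x.1 : ℕ))) *
        ∏ i, ((Q i * Ψ (y i)) ^ (x.2 i : ℕ) * Q i ^ (T - (x.2 i : ℕ))) := by
    have e3 : Q₁ ^ S = Q₁ ^ (x.1 : ℕ) * Q₁ ^ (S - (x.1 : ℕ)) := by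
      rw [← pow_add]
      congr 1
      have := x.1.2
      omega
    have e4 : (∏ i, Q i ^ T) * ∏ i, (Ψ (y i)) ^ (x.2 i : ℕ) =
        ∏ i, ((Q i * Ψ (y i)) ^ (x.2 i : ℕ) * Q i ^ (T - (x.2 i : ℕ))) := by
      rw [← prod_mul_distrib]
      refine prod_congr rfl fun i _ => ?_
      have e5 : Q i ^ T = Q i ^ (x.2 i : ℕ) * Q i ^ (T - (x.2 i : ℕ)) := by
        rw [← pow_add]
        congr 1
        have := (x.2 i).2
        omega
      rw [e5, mul_pow]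
      ring
    rw [← e4]
    unfold mon
    rw [map_mul, map_pow, map_prod]
    simp only [map_pow]
    rw [e3, mul_pow]
    ring
  rw [e2]
  have b2 := Bd_mul hr (Bd_mul hr (Bd_pow hr h1 (x.1 : ℕ)) (Bd_pow hr hQ₁ (S - (x.1 : ℕ))))
      (Bd_prod (univ : Finset (Fin d)) hr (fun i => B₂ ^ (x.2 i : ℕ) * B₂ ^ (T - (x.2 i : ℕ)))
        (fun i => (Q i * Ψ (y i)) ^ (x.2 i : ℕ) * Q i ^ (T - (x.2 i : ℕ)))
        fun i => Bd_mul hr (Bd_pow hr (h2 i) _) (Bd_pow hr (hQ₂ i) _))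
  refine Bd_mono b2 (le_of_eq ?_)
  rw [← pow_add]
  have e5 : (x.1 : ℕ) + (S - (x.1 : ℕ)) = S := by have := x.1.2; omega
  rw [e5]
  congr 1
  refine prod_congr rfl fun i _ => ?_
  rw [← pow_add]
  congr 1
  have := (x.2 i).2
  omega

/-- The tuple `(z, y_1, …, y_d)`. -/
noncomputable def tup {d : ℕ} (y : Fin d → ℚ⟦X⟧) : Option (Fin d) → ℚ⟦X⟧ :=
  fun o => Option.elim o PowerSeries.X y

lemma li_mon {S T d : ℕ} {y : Fin d → ℚ⟦X⟧} (h : AlgebraicIndependent ℚ (tup y)) :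
    LinearIndependent ℚ (fun x : Fin (S + 1) × (Fin d → Fin (T + 1)) => mon y x) := by
  classical
  have h1 := (MvPolynomial.basisMonomials (Option (Fin d)) ℚ).linearIndependent.map'
    (MvPolynomial.aeval (tup y)).toLinearMap (LinearMap.ker_eq_bot.2 h)
  let g : Fin (S + 1) × (Fin d → Fin (T + 1)) → (Option (Fin d) →₀ ℕ) := fun x =>
    Finsupp.equivFunOnFinite.symm fun o => Option.elim o (x.1 : ℕ) fun i => (x.2 i : ℕ)
  have hg : Function.Injective g := by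
    intro x x' hx
    have h2 := Finsupp.equivFunOnFinite.symm.injective hx
    have h3 := congrFun h2 none
    refine Prod.ext (Fin.ext h3) (funext fun i => Fin.ext ?_)
    exact congrFun h2 (some i)
  have h2 := h1.comp g hg
  have e : (fun x : Fin (S + 1) × (Fin d → Fin (T + 1)) => mon y x) =
      (⇑(MvPolynomial.aeval (tup y)).toLinearMap ∘
        ⇑(MvPolynomial.basisMonomials (Option (Fin d)) ℚ)) ∘ g := by
    funext x
    rw [Function.comp_apply, Function.comp_apply, MvPolynomial.coe_basisMonomials]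
    show mon y x = MvPolynomial.aeval (tup y) (MvPolynomial.monomial (g x) (1 : ℚ))
    rw [MvPolynomial.aeval_monomial, map_one, one_mul, Finsupp.prod_fintype _ _ (by simp),
      Fintype.prod_option]
    rfl
  rw [e]
  exact h2

/-- Algebraic dependence of functions uniformized by meromorphic functions of finite order. -/
theorem critT {d : ℕ} (hd : 0 < d) (y : Fin d → ℚ⟦X⟧) (W : ℕ → ℕ) (E : ℕ) (Ψ : ℚ⟦X⟧ →+* ℂ⟦X⟧)
    (hE : 0 < E) (hW0 : ∀ m, 0 < W m) (hW : ∀ m l, W m * W l ∣ W (m + l))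
    {ρ₁ ρ₂ : ℝ} (hρ₁ : 0 < ρ₁) (hρ₂ : 0 < ρ₂) (hρ : ρ₁ ≤ ρ₁ / d + ρ₂)
    (hτ : ∀ K : ℝ, ∃ C : ℝ, ∀ m : ℕ,
      Real.log (W m) ≤ 1 / (ρ₁ / d + ρ₂) * (m * Real.log m) - K * m + C)
    (hf : ∀ i, Dn W E (y i) 1)
    (hc : ∀ g : ℚ⟦X⟧, PowerSeries.constantCoeff (Ψ g) = ((PowerSeries.constantCoeff g : ℚ) : ℂ))
    (hM1 : MerOrd ρ₁ (Ψ PowerSeries.X)) (hM2 : ∀ i, MerOrd ρ₂ (Ψ (y i)))
    (hR : PowerSeries.coeff 1 (Ψ PowerSeries.X) ≠ 0) : ¬ AlgebraicIndependent ℚ (tup y) := by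
  classical
  intro hna
  have hdr : (0 : ℝ) < d := by exact_mod_cast hd
  have hd1 : (1 : ℝ) ≤ d := by exact_mod_cast hd
  obtain ⟨R, hRd⟩ : ∃ R, R = ‖PowerSeries.coeff 1 (Ψ PowerSeries.X)‖ := ⟨_, rfl⟩
  have hR0 : 0 < R := by rw [hRd]; exact norm_pos_iff.2 hR
  obtain ⟨s, hs⟩ : ∃ s, s = ρ₁ / d + ρ₂ := ⟨_, rfl⟩
  have hs0 : 0 < s := by rw [hs]; positivity
  obtain ⟨Q₁, hQ₁, o1, o2⟩ := hM1
  choose Q hQ o3 o4 using hM2
  obtain ⟨c1, hc1, b1⟩ := Bd_of_Ord hρ₁ o1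
  obtain ⟨c2, hc2, b2⟩ := Bd_of_Ord hρ₁ o2
  choose c3 hc3 b3 using fun i => Bd_of_Ord hρ₂ (o3 i)
  choose c4 hc4 b4 using fun i => Bd_of_Ord hρ₂ (o4 i)
  obtain ⟨c, hcd⟩ : ∃ c, c = c1 + c2 + ∑ i, c3 i + ∑ i, c4 i := ⟨_, rfl⟩
  have hs3 : ∀ i, c3 i ≤ ∑ i, c3 i := fun i =>
    single_le_sum (f := c3) (fun j _ => hc3 j) (mem_univ i)
  have hs4 : ∀ i, c4 i ≤ ∑ i, c4 i := fun i =>
    single_le_sum (f := c4) (fun j _ => hc4 j) (mem_univ i)
  have hs30 : 0 ≤ ∑ i, c3 i := sum_nonneg fun i _ => hc3 i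
  have hs40 : 0 ≤ ∑ i, c4 i := sum_nonneg fun i _ => hc4 i
  have hc0 : 0 ≤ c := by rw [hcd]; positivity
  have up : ∀ {r ρ c' : ℝ} {G : ℂ⟦X⟧}, 1 ≤ r → c' ≤ c → Bd r (Real.exp (c' * r ^ ρ)) G →
      Bd r (Real.exp (c * r ^ ρ)) G := by
    intro r ρ c' G hr hcc hb
    refine Bd_mono hb (Real.exp_le_exp.2 ?_)
    exact mul_le_mul_of_nonneg_right hcc (Real.rpow_nonneg (by linarith) _)
  obtain ⟨l, hl⟩ : ∃ l, l = Real.log E := ⟨_, rfl⟩
  have hl0 : 0 ≤ l := by rw [hl]; exact Real.log_natCast_nonneg _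
  obtain ⟨c', hc'⟩ : ∃ c', c' = 2 * c * (1 + d) := ⟨_, rfl⟩
  have hc'0 : 0 ≤ c' := by rw [hc']; positivity
  obtain ⟨K, hK⟩ : ∃ K, K = c' + 4 * (1 + c' + d * l) + 4 - Real.log R := ⟨_, rfl⟩
  obtain ⟨C0, hC0⟩ := hτ K
  obtain ⟨C, hC⟩ : ∃ C, C = max C0 0 := ⟨_, rfl⟩
  have hCp : 0 ≤ C := by rw [hC]; exact le_max_right _ _
  have hCC : C0 ≤ C := by rw [hC]; exact le_max_left _ _
  -- choose m
  obtain ⟨m, hm⟩ := exists_nat_gt (max 2 ((C + 2) ^ (1 / s)))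
  have hm2 : (2 : ℝ) < m := lt_of_le_of_lt (le_max_left _ _) hm
  have hm3 : (C + 2) ^ (1 / s) < m := lt_of_le_of_lt (le_max_right _ _) hm
  have hm0 : (0 : ℝ) < m := by linarith
  have hm1 : (1 : ℝ) ≤ m := by linarith
  have hms : C + 2 < (m : ℝ) ^ s := by
    have h1 := Real.rpow_lt_rpow (by positivity) hm3 hs0
    rwa [← Real.rpow_mul (by positivity), one_div_mul_cancel hs0.ne', Real.rpow_one] at h1
  have hσ1 : 0 ≤ s - ρ₁ := by rw [hs]; linarith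
  have hσ2 : 0 ≤ ρ₁ / d := by positivity
  obtain ⟨x, hx⟩ : ∃ x : ℕ, x = ⌈(m : ℝ) ^ (s - ρ₁)⌉₊ := ⟨_, rfl⟩
  obtain ⟨w, hw⟩ : ∃ w : ℕ, w = ⌈(m : ℝ) ^ (ρ₁ / d)⌉₊ := ⟨_, rfl⟩
  have hmx : (m : ℝ) ^ (s - ρ₁) ≤ x := by rw [hx]; exact Nat.le_ceil _
  have hmw : (m : ℝ) ^ (ρ₁ / d) ≤ w := by rw [hw]; exact Nat.le_ceil _
  have hx1 : (x : ℝ) ≤ 2 * (m : ℝ) ^ (s - ρ₁) := by
    have h1 : (x : ℝ) ≤ (m : ℝ) ^ (s - ρ₁) + 1 := by
      rw [hx]; exact (Nat.ceil_lt_add_one (by positivity)).le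
    have h2 := Real.one_le_rpow hm1 hσ1
    linarith
  have hw1 : (w : ℝ) ≤ 2 * (m : ℝ) ^ (ρ₁ / d) := by
    have h1 : (w : ℝ) ≤ (m : ℝ) ^ (ρ₁ / d) + 1 := by
      rw [hw]; exact (Nat.ceil_lt_add_one (by positivity)).le
    have h2 := Real.one_le_rpow hm1 hσ2
    linarith
  have hx0 : 0 < x := by
    have h1 : (0 : ℝ) < x := lt_of_lt_of_le (by positivity) hmx
    exact_mod_cast h1
  have hw0 : 0 < w := by
    have h1 : (0 : ℝ) < w := lt_of_lt_of_le (by positivity) hmw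
    exact_mod_cast h1
  obtain ⟨S, hS⟩ : ∃ S, S + 1 = x := ⟨x - 1, by omega⟩
  obtain ⟨T, hT⟩ : ∃ T, T + 1 = w := ⟨w - 1, by omega⟩
  obtain ⟨L, hL⟩ : ∃ L, L = (S + 1) * (T + 1) ^ d := ⟨_, rfl⟩
  have hLm : (m : ℝ) ^ s ≤ L := by
    rw [hL, hS, hT]
    push_cast
    have h1 : (m : ℝ) ^ s = (m : ℝ) ^ (s - ρ₁) * ((m : ℝ) ^ (ρ₁ / d)) ^ d := by
      rw [← Real.rpow_natCast ((m : ℝ) ^ (ρ₁ / d)) d, ← Real.rpow_mul hm0.le,
        div_mul_cancel₀ _ hdr.ne', ← Real.rpow_add hm0]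
      congr 1
      ring
    rw [h1]
    exact mul_le_mul hmx (pow_le_pow_left₀ (by positivity) hmw d) (by positivity) (by positivity)
  have hL2 : (2 : ℝ) ≤ L := by linarith
  have hL0 : (0 : ℝ) ≤ L := by linarith
  have hTL : (T : ℝ) ≤ L := by
    have h1 : T + 1 ≤ (T + 1) ^ d := Nat.le_self_pow hd.ne' _
    have : T ≤ L := by rw [hL]; nlinarith
    exact_mod_cast this
  -- the functions
  have hcard : Fintype.card (Fin (S + 1) × (Fin d → Fin (T + 1))) = L := by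
    rw [Fintype.card_prod, Fintype.card_fun, Fintype.card_fin, Fintype.card_fin,
      Fintype.card_fin, hL]
  have e0 : Fin L ≃ Fin (S + 1) × (Fin d → Fin (T + 1)) :=
    (Fintype.equivFinOfCardEq hcard).symm
  obtain ⟨F, hFd⟩ : ∃ F : Fin L → ℚ⟦X⟧, ∀ j, F j = mon y (e0 j) := ⟨_, fun _ => rfl⟩
  have hF : LinearIndependent ℚ F := by
    have h1 := (li_mon (S := S) (T := T) hna).comp e0 e0.injective
    have h2 : F = (fun x => mon y x) ∘ e0 := funext hFd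
    rw [h2]
    exact h1
  have hQQ : PowerSeries.constantCoeff (Q₁ ^ S * ∏ i, Q i ^ T) = 1 := by
    rw [map_mul, map_pow, hQ₁, one_pow, one_mul, map_prod]
    refine prod_eq_one fun i _ => ?_
    rw [map_pow, hQ, one_pow]
  obtain ⟨n, hn, hdet0, hdet⟩ := det_main hF Ψ hc hQQ
  -- the radii
  obtain ⟨r, hr⟩ : ∃ r : Fin L → ℝ, ∀ i, r i = max (m : ℝ) ((n i : ℝ) ^ (1 / s)) :=
    ⟨_, fun _ => rfl⟩
  have hmr : ∀ i, (m : ℝ) ≤ r i := fun i => by rw [hr]; exact le_max_left _ _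
  have hr1 : ∀ i, 1 ≤ r i := fun i => hm1.trans (hmr i)
  have hr0 : ∀ i, 0 < r i := fun i => by linarith [hr1 i]
  have hrs : ∀ i, r i ^ s ≤ (m : ℝ) ^ s + n i := by
    intro i
    rcases le_total ((n i : ℝ) ^ (1 / s)) (m : ℝ) with h | h
    · rw [hr, max_eq_left h]
      have : (0 : ℝ) ≤ n i := Nat.cast_nonneg _
      linarith
    · rw [hr, max_eq_right h, ← Real.rpow_mul (Nat.cast_nonneg _), one_div_mul_cancel hs0.ne',
        Real.rpow_one]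
      have : (0 : ℝ) ≤ (m : ℝ) ^ s := by positivity
      linarith
  have hrl : ∀ i, 1 / s * (n i * Real.log (n i)) ≤ n i * Real.log (r i) := by
    intro i
    rcases Nat.eq_zero_or_pos (n i) with h | h
    · rw [h]; simp
    · have h0 : (0 : ℝ) < n i := by exact_mod_cast h
      have h1 : (n i : ℝ) ^ (1 / s) ≤ r i := by rw [hr]; exact le_max_right _ _
      have h2 := Real.log_le_log (by positivity) h1
      rw [Real.log_rpow h0] at h2
      calc 1 / s * (n i * Real.log (n i)) = n i * (1 / s * Real.log (n i)) := by ring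
        _ ≤ _ := mul_le_mul_of_nonneg_left h2 h0.le
  -- the bounds
  obtain ⟨B, hB⟩ : ∃ B : Fin L → ℝ, ∀ i, B i =
      Real.exp (c * r i ^ ρ₁) ^ S * ∏ _j : Fin d, Real.exp (c * r i ^ ρ₂) ^ T :=
    ⟨_, fun _ => rfl⟩
  have hB0 : ∀ i, 0 < B i := fun i => by rw [hB]; positivity
  have hrow : ∀ i j, ‖PowerSeries.coeff (n i) (Q₁ ^ S * (∏ i, Q i ^ T) * Ψ (F j))‖ ≤
      B i / r i ^ n i := by
    intro i j
    have h1 : Bd (r i) (B i) (Q₁ ^ S * (∏ i, Q i ^ T) * Ψ (F j)) := by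
      rw [hB, hFd]
      exact Bd_monT Ψ y (hr0 i).le (up (hr1 i) (by linarith) (b1 _ (hr1 i)))
        (up (hr1 i) (by linarith) (b2 _ (hr1 i)))
        (fun j => up (hr1 i) (by linarith [hs3 j]) (b3 j _ (hr1 i)))
        (fun j => up (hr1 i) (by linarith [hs4 j]) (b4 j _ (hr1 i))) _
    have h2 := Bd_coeff (hr0 i).le h1 (n i)
    rw [le_div_iff₀ (pow_pos (hr0 i) _)]
    exact h2
  have hupper := det_le (Matrix.of fun i j => PowerSeries.coeff (n i)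
    (Q₁ ^ S * (∏ i, Q i ^ T) * Ψ (F j))) (fun i => B i / r i ^ n i) hrow
  have hEW : ∀ i, 0 < E ^ (d * T) * W (n i) := fun i => by
    have := hW0 (n i)
    positivity
  have hlower := le_det (Matrix.of fun i j => PowerSeries.coeff (n i) (F j))
    (fun i => E ^ (d * T) * W (n i)) hEW (fun i j => by
      rw [Matrix.of_apply, hFd]
      exact Dn_mon hW hf (e0 j) (n i)) hdet0
  rw [hdet, norm_mul, norm_pow, ← hRd] at hupper
  have hnr : ‖((((Matrix.of fun i j => PowerSeries.coeff (n i) (F j)).det : ℚ)) : ℂ)‖ =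
      |(((Matrix.of fun i j => PowerSeries.coeff (n i) (F j)).det : ℚ) : ℝ)| :=
    Complex.norm_ratCast _
  rw [hnr] at hupper
  obtain ⟨q, hq⟩ : ∃ q : ℝ, q =
      |(((Matrix.of fun i j => PowerSeries.coeff (n i) (F j)).det : ℚ) : ℝ)| := ⟨_, rfl⟩
  rw [← hq] at hupper hlower
  have hd0 : 0 < ∏ i, ((E ^ (d * T) * W (n i) : ℕ) : ℝ) := prod_pos fun i _ => by
    exact_mod_cast hEW i
  have hcomb : R ^ (∑ i, n i) ≤ (∏ i, ((E ^ (d * T) * W (n i) : ℕ) : ℝ)) *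
      (L.factorial * ∏ i, (B i / r i ^ n i)) := by
    calc R ^ (∑ i, n i) ≤ R ^ (∑ i, n i) * ((∏ i, ((E ^ (d * T) * W (n i) : ℕ) : ℝ)) * q) :=
          le_mul_of_one_le_right (by positivity) hlower
      _ = (∏ i, ((E ^ (d * T) * W (n i) : ℕ) : ℝ)) * (R ^ (∑ i, n i) * q) := by ring
      _ ≤ _ := mul_le_mul_of_nonneg_left hupper hd0.le
  have hlog := Real.log_le_log (by positivity) hcomb
  have hBr : ∀ i, 0 < B i / r i ^ n i := fun i => div_pos (hB0 i) (pow_pos (hr0 i) _)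
  have hfac : (0 : ℝ) < L.factorial := by exact_mod_cast Nat.factorial_pos L
  rw [Real.log_pow, Real.log_mul hd0.ne' (mul_pos hfac (prod_pos fun i _ => hBr i)).ne',
    Real.log_mul hfac.ne' (prod_pos fun i _ => hBr i).ne',
    Real.log_prod (fun i _ => by
      have := hEW i
      have h2 : (0 : ℝ) < ((E ^ (d * T) * W (n i) : ℕ) : ℝ) := by exact_mod_cast this
      exact h2.ne'),
    Real.log_prod (fun i _ => (hBr i).ne')] at hlog
  -- the terms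
  have u1 : ∀ i, Real.log ((E ^ (d * T) * W (n i) : ℕ) : ℝ) ≤
      L * (d * l) + (1 / s * (n i * Real.log (n i)) - K * n i + C) := by
    intro i
    have h1 : (0 : ℝ) < E := by exact_mod_cast hE
    have h2 : (0 : ℝ) < W (n i) := by exact_mod_cast hW0 (n i)
    rw [Nat.cast_mul, Nat.cast_pow, Real.log_mul (by positivity) h2.ne', Real.log_pow, ← hl]
    have h3 := hC0 (n i)
    rw [← hs] at h3
    have h4 : (T : ℝ) * (d * l) ≤ L * (d * l) := mul_le_mul_of_nonneg_right hTL (by positivity)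
    push_cast
    linarith
  have u2 : ∀ i, Real.log (B i / r i ^ n i) ≤
      c' * (L + n i) - 1 / s * (n i * Real.log (n i)) := by
    intro i
    rw [Real.log_div (hB0 i).ne' (pow_pos (hr0 i) _).ne', Real.log_pow, hB,
      Real.log_mul (by positivity) (by positivity), Real.log_pow, Real.log_exp,
      Real.log_prod (fun _ _ => by positivity)]
    simp only [Real.log_pow, Real.log_exp]
    rw [sum_const, card_univ, Fintype.card_fin, nsmul_eq_mul]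
    have h1 := hrl i
    have h2 := hrs i
    have h3 : (S : ℝ) ≤ 2 * r i ^ (s - ρ₁) := by
      have g1 : (S : ℝ) ≤ x := by
        have : S ≤ x := by omega
        exact_mod_cast this
      have g2 := Real.rpow_le_rpow hm0.le (hmr i) hσ1
      linarith
    have h4 : (T : ℝ) ≤ 2 * r i ^ (ρ₁ / d) := by
      have g1 : (T : ℝ) ≤ w := by
        have : T ≤ w := by omega
        exact_mod_cast this
      have g2 := Real.rpow_le_rpow hm0.le (hmr i) hσ2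
      linarith
    have h5 : (0 : ℝ) ≤ r i ^ ρ₁ := Real.rpow_nonneg (hr0 i).le _
    have h6 : (0 : ℝ) ≤ r i ^ ρ₂ := Real.rpow_nonneg (hr0 i).le _
    have g1 : r i ^ (s - ρ₁) * r i ^ ρ₁ = r i ^ s := by
      rw [← Real.rpow_add (hr0 i)]
      congr 1
      ring
    have g2 : r i ^ (ρ₁ / d) * r i ^ ρ₂ = r i ^ s := by
      rw [← Real.rpow_add (hr0 i), ← hs]
    have h7 : (S : ℝ) * (c * r i ^ ρ₁) ≤ 2 * c * r i ^ s := by
      calc (S : ℝ) * (c * r i ^ ρ₁) ≤ (2 * r i ^ (s - ρ₁)) * (c * r i ^ ρ₁) :=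
            mul_le_mul_of_nonneg_right h3 (by positivity)
        _ = 2 * c * (r i ^ (s - ρ₁) * r i ^ ρ₁) := by ring
        _ = _ := by rw [g1]
    have h8 : (T : ℝ) * (c * r i ^ ρ₂) ≤ 2 * c * r i ^ s := by
      calc (T : ℝ) * (c * r i ^ ρ₂) ≤ (2 * r i ^ (ρ₁ / d)) * (c * r i ^ ρ₂) :=
            mul_le_mul_of_nonneg_right h4 (by positivity)
        _ = 2 * c * (r i ^ (ρ₁ / d) * r i ^ ρ₂) := by ring
        _ = _ := by rw [g2]
    have h9 : c' * r i ^ s ≤ c' * (L + n i) :=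
      mul_le_mul_of_nonneg_left (by linarith) hc'0
    have h10 : (d : ℝ) * (T * (c * r i ^ ρ₂)) ≤ d * (2 * c * r i ^ s) :=
      mul_le_mul_of_nonneg_left h8 hdr.le
    have h11 : 2 * c * r i ^ s + d * (2 * c * r i ^ s) = c' * r i ^ s := by rw [hc']; ring
    linarith
  have u3 : Real.log (L.factorial : ℝ) ≤ L * L := by
    have h1 : ((L.factorial : ℕ) : ℝ) ≤ (L : ℝ) ^ L := by exact_mod_cast Nat.factorial_le_pow L
    have h2 := Real.log_le_log hfac h1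
    rw [Real.log_pow] at h2
    have h3 : Real.log L ≤ L := by
      have := Real.log_le_sub_one_of_pos (show (0 : ℝ) < L by linarith)
      linarith
    exact h2.trans (mul_le_mul_of_nonneg_left h3 hL0)
  obtain ⟨Sn, hSn⟩ : ∃ Sn : ℝ, Sn = ∑ i : Fin L, (n i : ℝ) := ⟨_, rfl⟩
  have v1 : ∑ i, Real.log ((E ^ (d * T) * W (n i) : ℕ) : ℝ) +
      ∑ i, Real.log (B i / r i ^ n i) ≤
      L * (L * (d * l)) + L * C + c' * (L * L) + (c' - K) * Sn := by
    rw [← sum_add_distrib]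
    calc ∑ i, (Real.log ((E ^ (d * T) * W (n i) : ℕ) : ℝ) + Real.log (B i / r i ^ n i))
        ≤ ∑ i : Fin L, (L * (d * l) + C + c' * L + (c' - K) * n i) := by
          refine sum_le_sum fun i _ => ?_
          have h1 := u1 i
          have h2 := u2 i
          have h3 : (c' - K) * (n i : ℝ) = c' * n i - K * n i := by ring
          have h4 : c' * ((L : ℝ) + n i) = c' * L + c' * n i := by ring
          linarith
      _ = _ := by
          rw [sum_add_distrib, sum_const, card_univ, Fintype.card_fin, nsmul_eq_mul,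
            ← mul_sum, ← hSn]
          ring
  have v2 : (L : ℝ) * L / 4 ≤ Sn := by
    have h1 : ∑ i ∈ range L, i ≤ ∑ i : Fin L, n i := by
      rw [← Fin.sum_univ_eq_sum_range (fun i => i) L]
      exact sum_le_sum fun i _ => le_of_strictMono hn i
    have h2 := Finset.sum_range_id_mul_two L
    have h3 : L * (L - 1) ≤ (∑ i : Fin L, n i) * 2 := by rw [← h2]; omega
    have hL1 : 1 ≤ L := by
      have : (1 : ℝ) ≤ L := by linarith
      exact_mod_cast this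
    have h4 : (L : ℝ) * (L - 1) ≤ Sn * 2 := by
      have h5 : (((L * (L - 1) : ℕ)) : ℝ) ≤ (((∑ i : Fin L, n i) * 2 : ℕ) : ℝ) := by
        exact_mod_cast h3
      rw [Nat.cast_mul, Nat.cast_sub hL1, Nat.cast_one, Nat.cast_mul, Nat.cast_sum] at h5
      rw [hSn]
      exact_mod_cast h5
    nlinarith
  have v3 : (((∑ i, n i : ℕ)) : ℝ) = Sn := by rw [hSn]; push_cast; rfl
  rw [v3] at hlog
  have v4 : Sn * Real.log R ≤ L * (L * (d * l)) + L * C + c' * (L * L) + (c' - K) * Sn +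
      L * L := by linarith
  have v5 : (4 * (1 + c' + d * l) + 4) * Sn ≤ (1 + c' + d * l) * (L * L) + L * C := by
    have e : (4 * (1 + c' + d * l) + 4) * Sn = Sn * Real.log R - (c' - K) * Sn := by
      rw [hK]; ring
    rw [e]
    linarith
  have v6 : (4 * (1 + c' + d * l) + 4) * ((L : ℝ) * L / 4) ≤
      (4 * (1 + c' + d * l) + 4) * Sn := mul_le_mul_of_nonneg_left v2 (by positivity)
  have v7 : (L : ℝ) * L ≤ L * C := by
    have e : (4 * (1 + c' + d * l) + 4) * ((L : ℝ) * L / 4) =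
        (1 + c' + d * l) * (L * L) + L * L := by ring
    rw [e] at v6
    linarith
  have v8 : (L : ℝ) ≤ C := le_of_mul_le_mul_left v7 (by linarith)
  linarith

end Pool.Agent.Y915.Uni
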