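import Pool.Agent.Y915.Mer2
import Pool.Agent.Y915.Uni6

set_option autoImplicit false

/-!
# Connections with meromorphic solutions of finite order and many primes with `p`-curvature zero
-/

namespace Pool.Agent.Y915.Dens

open scoped PowerSeries Polynomial
open Finset Pool.Agent.Y474.PC Pool.Agent.Y915.Cur Pool.Agent.Y915.Mero Pool.Agent.Y915.Uni

/-- The convergent sum. -/
theorem good_sum : ∃ c : ℝ, 0 ≤ c ∧ ∀ m : ℕ, ∑ p ∈ (range (m + 1)).filter Nat.Prime,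
    Real.log p / ((p : ℝ) * ((p : ℝ) - 1)) ≤ c := by
  have hs : Summable (fun n : ℕ => 4 * (1 / (n : ℝ) ^ (3 / 2 : ℝ))) :=
    (Real.summable_one_div_nat_rpow.2 (by norm_num)).mul_left 4
  refine ⟨∑' n : ℕ, 4 * (1 / (n : ℝ) ^ (3 / 2 : ℝ)), tsum_nonneg fun n => by positivity,
    fun m => ?_⟩
  refine le_trans (sum_le_sum ?_) (hs.sum_le_tsum ((range (m + 1)).filter Nat.Prime)
    fun n _ => by positivity)
  intro p hp
  have hp2 : (2 : ℝ) ≤ p := by exact_mod_cast (mem_filter.1 hp).2.two_le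
  have hp0 : (0 : ℝ) < p := by linarith
  have h1 : Real.log p ≤ (p : ℝ) ^ (1 / 2 : ℝ) / (1 / 2) :=
    Real.log_le_rpow_div hp0.le (by norm_num)
  have h2 : (p : ℝ) / 2 ≤ (p : ℝ) - 1 := by linarith
  rw [div_le_iff₀ (mul_pos hp0 (by linarith))]
  have h3 : (p : ℝ) ^ (1 / 2 : ℝ) * (p : ℝ) ^ (3 / 2 : ℝ) = p * p := by
    rw [← Real.rpow_add hp0]
    norm_num
    ring
  have h4 : 0 < (p : ℝ) ^ (3 / 2 : ℝ) := Real.rpow_pos_of_pos hp0 _
  have h5 : 4 * (1 / (p : ℝ) ^ (3 / 2 : ℝ)) * (p * (p / 2)) =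
      (p : ℝ) ^ (1 / 2 : ℝ) / (1 / 2) := by
    have : (p : ℝ) * (p / 2) = (p : ℝ) ^ (1 / 2 : ℝ) * (p : ℝ) ^ (3 / 2 : ℝ) / 2 := by
      rw [h3]; ring
    rw [this]
    field_simp
    ring
  calc Real.log p ≤ (p : ℝ) ^ (1 / 2 : ℝ) / (1 / 2) := h1
    _ = 4 * (1 / (p : ℝ) ^ (3 / 2 : ℝ)) * (p * (p / 2)) := h5.symm
    _ ≤ _ := mul_le_mul_of_nonneg_left (mul_le_mul_of_nonneg_left h2 hp0.le) (by positivity)

open Classical in
/-- The bound of the denominators. -/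
theorem wt_bound {B : ℕ → Prop} {t : ℝ}
    (hb : ∀ K : ℝ, ∃ x₀ : ℕ, ∀ x : ℕ, x₀ ≤ x →
      ∑ p ∈ (range (x + 1)).filter (fun p => p.Prime ∧ ¬ B p),
        Real.log p / ((p : ℝ) - 1) ≤ t * Real.log x - K) (K : ℝ) :
    ∃ C : ℝ, ∀ m : ℕ, Real.log (wt (fun p => if B p then 1 else 0) (fun _ => 0) m) ≤
      t * (m * Real.log m) - K * m + C := by
  obtain ⟨c, hc0, hc⟩ := good_sum
  obtain ⟨x₀, hx₀⟩ := hb (K + c)
  obtain ⟨S, hS⟩ : ∃ S : ℕ → ℝ, ∀ m, S m = ∑ p ∈ (range (m + 1)).filter Nat.Prime,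
    Real.log p * (((fun _ => 0 : ℕ → ℕ) p : ℝ) + 1 / ((p : ℝ) - 1)) /
      (p : ℝ) ^ (fun p => if B p then 1 else 0 : ℕ → ℕ) p :=
    ⟨_, fun _ => rfl⟩
  obtain ⟨g, hg⟩ : ∃ g : ℕ → ℝ, ∀ m : ℕ, g m =
      S m * m - (t * (m * Real.log m) - K * m) := ⟨_, fun _ => rfl⟩
  refine ⟨∑ m ∈ range x₀, |g m|, fun m => ?_⟩
  have key : g m ≤ ∑ m ∈ range x₀, |g m| := by
    by_cases hm : m < x₀
    · exact (le_abs_self _).trans
        (single_le_sum (f := fun m => |g m|) (fun i _ => abs_nonneg _) (mem_range.2 hm))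
    · have h2 := hx₀ m (by omega)
      have h3 : S m ≤
          ∑ p ∈ (range (m + 1)).filter (fun p => p.Prime ∧ ¬ B p),
            Real.log p / ((p : ℝ) - 1) + c := by
        rw [hS, ← sum_filter_add_sum_filter_not ((range (m + 1)).filter Nat.Prime)
          (fun p => ¬ B p), filter_filter]
        refine add_le_add (le_of_eq (sum_congr rfl fun p hp => ?_))
          (le_trans ?_ (hc m))
        · have h4 := (mem_filter.1 hp).2.2
          simp only [h4, if_false, Nat.cast_zero, zero_add, pow_zero, div_one]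
          rw [mul_one_div]
        · refine le_trans (sum_le_sum (g := fun p : ℕ =>
            Real.log p / ((p : ℝ) * ((p : ℝ) - 1))) ?_) ?_
          · intro p hp
            have h4 := (mem_filter.1 hp).2
            rw [not_not] at h4
            simp only [h4, if_true, Nat.cast_zero, zero_add, pow_one]
            rw [mul_one_div, div_div, mul_comm ((p : ℝ) - 1)]
          · refine sum_le_sum_of_subset_of_nonneg (filter_subset _ _) fun p hp _ => ?_
            have g1 : (1 : ℝ) < p := by exact_mod_cast (mem_filter.1 hp).2.one_lt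
            exact div_nonneg (Real.log_nonneg g1.le)
              (mul_nonneg (by linarith) (by linarith))
      have h5 : S m ≤ t * Real.log m - K := by linarith
      have h6 := mul_le_mul_of_nonneg_right h5 (Nat.cast_nonneg (α := ℝ) m)
      have h7 : (t * Real.log m - K) * (m : ℝ) =
          t * (m * Real.log m) - K * m := by ring
      rw [h7] at h6
      have h8 : g m ≤ 0 := by
        rw [hg]
        linarith
      exact h8.trans (sum_nonneg fun i _ => abs_nonneg _)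
  refine (Pool.Agent.Y536.PC.num2 _ _ m).trans ?_
  rw [hg, hS] at key
  linarith

section tay

variable {A : Type} [CommRing A] {D : A → A} {e : A →+* ℤ} {τ : A →+* ℤ⟦X⟧}

theorem tau_taylorQ (hτe : ∀ g, PowerSeries.constantCoeff (τ g) = e g)
    (hτD : ∀ g, τ (D g) = PowerSeries.derivative ℤ (τ g)) (g : A) :
    cst ℚ (τ g) = PowerSeries.mk fun m => ((e (D^[m] g) : ℤ) : ℚ) / (m.factorial : ℚ) := by
  ext m
  rw [PowerSeries.coeff_mk, PowerSeries.coeff_map, ← hτe, tau_iter hτD,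
    ← PowerSeries.coeff_zero_eq_constantCoeff_apply, PowerSeries.coeff_iterate_derivative]
  have h1 : (m.factorial : ℚ) ≠ 0 := by exact_mod_cast m.factorial_ne_zero
  rw [eq_div_iff h1, zero_add, Nat.one_ascFactorial]
  simp only [eq_intCast, zero_add]
  push_cast
  ring

end tay

open Classical in
/-- The criterion. -/
theorem main {A : Type} [CommRing A] [IsDomain A] [Algebra ℤ[X] A] [Algebra.Etale ℤ[X] A]
    {D : Derivation ℤ A A} {e : A →+* ℤ} {r : ℕ} {C : Matrix (Fin r) (Fin r) A}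
    (hDx : D (algebraMap ℤ[X] A Polynomial.X) = 1)
    (hex : e (algebraMap ℤ[X] A Polynomial.X) = 0)
    {Y : Matrix (Fin r) (Fin r) ℚ⟦X⟧} (hY0 : Y.map PowerSeries.constantCoeff = 1)
    (hYs : ∀ i j, PowerSeries.derivative ℚ (Y i j) = -∑ l, (PowerSeries.mk fun m =>
      ((e (D^[m] (C i l)) : ℤ) : ℚ) / (m.factorial : ℚ)) * Y l j)
    {φ : ℂ⟦X⟧} (hφ : PowerSeries.constantCoeff φ = 0) (h1 : PowerSeries.coeff 1 φ ≠ 0)
    {ρ₁ ρ₂ : ℝ} (hρ₁ : 0 < ρ₁) (hρ₂ : 0 < ρ₂) (mφ : MerOrd ρ₁ φ)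
    (mY : ∀ i j, MerOrd ρ₂ (Psi φ hφ (Y i j))) {n : ℕ} (hn : 0 < n) (hρ : ρ₁ ≤ ρ₁ / n + ρ₂)
    (hb : ∀ K : ℝ, ∃ x₀ : ℕ, ∀ x : ℕ, x₀ ≤ x →
      ∑ p ∈ (range (x + 1)).filter (fun p => p.Prime ∧ ¬ PCurvZero D C p),
        Real.log p / ((p : ℝ) - 1) ≤ 1 / (ρ₁ / n + ρ₂) * Real.log x - K) :
    (∀ s : Fin n → Fin r × Fin r,
      ¬ AlgebraicIndependent ℚ (tup fun i => Y (s i).1 (s i).2)) ∧ (n = 1 → AlgSol D C) := by
  obtain ⟨h0, D', hT, huniq⟩ := Pool.Agent.Y870.PC.etale A e hex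
  obtain rfl : D = D' := huniq D hDx
  obtain ⟨τ, hτi, hτx, hτe, hτD⟩ := Pool.Agent.Y68.PC.tay A D _ e hT
  have hY : dM Y = (-(C.map τ)).map (cst ℚ) * Y := by
    ext1 i j
    have h2 : dM Y i j = PowerSeries.derivative ℚ (Y i j) := rfl
    rw [h2, hYs i j, Matrix.mul_apply, ← sum_neg_distrib]
    refine sum_congr rfl fun l _ => ?_
    rw [Matrix.map_apply, Matrix.neg_apply, Matrix.map_apply, map_neg, tau_taylorQ hτe hτD,
      neg_mul]
  obtain ⟨k, hk⟩ : ∃ k : ℕ → ℕ, k = fun p => if PCurvZero D C p then 1 else 0 := ⟨_, rfl⟩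
  have hk1 : ∀ p, k p = 0 ∨ (k p = 1 ∧ PCurvZero D C p) := by
    intro p
    rw [hk]
    by_cases h : PCurvZero D C p
    · right
      exact ⟨by simp only [h, if_true], h⟩
    · left
      simp only [h, if_false]
  have hE' : ∀ p : ℕ, p.Prime → p ^ vf p (p ^ k p - 1) ∣ 1 := by
    intro p hp
    have hk2 : k p ≤ 1 := by
      rcases hk1 p with h | h
      · omega
      · omega
    have h1 : vf p (p ^ k p - 1) = 0 := by
      refine vf_lt ?_
      have h2 : p ^ k p ≤ p := (Nat.pow_le_pow_right hp.pos hk2).trans_eq (pow_one p)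
      have h3 := hp.pos
      omega
    rw [h1, pow_zero]
  have hdiv : ∀ p : ℕ, p.Prime → ∀ H : Matrix (Fin r) (Fin r) ℤ⟦X⟧,
      ∃ H' : Matrix (Fin r) (Fin r) ℤ⟦X⟧,
        (nab (-(C.map τ)))^[p ^ k p] H =
          ((p : ℤ) ^ (vf p (p ^ k p) - (fun _ => 0 : ℕ → ℕ) p)) • H' := by
    intro p hp H
    rcases hk1 p with hh | ⟨hh, hf⟩
    · rw [Nat.sub_zero]
      have h3 := Pool.Agent.Y79.PC.NAB.nab1 r (-(C.map τ)) 1 p (k p) hp (by
        rw [hh]
        simp [vf]) H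
      rwa [one_smul] at h3
    · obtain ⟨H', hH'⟩ := hdiv_good hT.add hT.mul hτD C hp hf H
      refine ⟨H', ?_⟩
      have h1 : vf p (p ^ k p) = 1 := by rw [vf_pow hp, hh]; simp
      rw [h1, hh]
      simpa using hH'
  have hW0 : ∀ m, 0 < wt k (fun _ => 0) m := by
    intro m
    unfold wt
    exact prod_pos fun p hp => pow_pos (mem_filter.1 hp).2.pos _
  have hW := Pool.Agent.Y536.PC.num1 k (fun _ => 0)
  have hf : ∀ i j, ∀ m : ℕ, ∃ z : ℤ,
      ((1 * wt k (fun _ => 0) m : ℕ) : ℚ) * PowerSeries.coeff m (Y i j) = z := fun i j m =>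
    Pool.Agent.Y79.PC.NAB.nab2 Pool.Agent.Y536.PC.num3 r (-(C.map τ)) k (fun _ => 0) 1 Y one_pos
      hE' hdiv hY hY0 m i j
  have hf' : ∀ i j, Dn (wt k (fun _ => 0)) 1 (Y i j) 1 := by
    intro i j m
    obtain ⟨z, hz⟩ := hf i j m
    refine ⟨z, ?_⟩
    rw [← hz, pow_one]
  have hτ : ∀ K : ℝ, ∃ C : ℝ, ∀ m : ℕ, Real.log (wt k (fun _ => 0) m) ≤
      1 / (ρ₁ / n + ρ₂) * (m * Real.log m) - K * m + C := by
    rw [hk]
    exact wt_bound hb
  have mφ' : MerOrd ρ₁ (Psi φ hφ PowerSeries.X) := by rw [Psi_X]; exact mφ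
  have h1' : PowerSeries.coeff 1 (Psi φ hφ PowerSeries.X) ≠ 0 := by rw [Psi_X]; exact h1
  refine ⟨fun s => ?_, ?_⟩
  · exact critT hn (fun i => Y (s i).1 (s i).2) (wt k (fun _ => 0)) 1 (Psi φ hφ) one_pos hW0 hW
      hρ₁ hρ₂ hρ hτ (fun i => hf' _ _) (Psi_const φ hφ) mφ' (fun i => mY _ _) h1'
  · rintro rfl
    refine transfer hT hτi hτx hτD (Y := Y) hY hY0 fun i j => ?_
    refine critV (Y i j) (wt k (fun _ => 0)) 1 (Psi φ hφ) one_pos hW0 hW hρ₁ hρ₂ ?_ (hf i j)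
      (Psi_const φ hφ) mφ' (mY i j) h1'
    have h3 : ρ₁ / ((1 : ℕ) : ℝ) + ρ₂ = ρ₁ + ρ₂ := by rw [Nat.cast_one, div_one]
    rw [h3] at hτ
    exact hτ

/-- `x` is transcendental. -/
lemma X_trans : Transcendental ℚ (PowerSeries.X : ℚ⟦X⟧) := by
  rw [transcendental_iff]
  intro p hp
  have h1 : Polynomial.aeval (PowerSeries.X : ℚ⟦X⟧) p = (p : ℚ⟦X⟧) := by
    rw [Polynomial.aeval_def, ← Polynomial.eval₂_C_X_eq_coe]
    rfl
  rw [h1] at hp
  exact_mod_cast hp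

/-- The transcendence degree of the ring generated by `x` and the entries of `Y`. -/
theorem trdeg_le {r d : ℕ} {Y : Matrix (Fin r) (Fin r) ℚ⟦X⟧}
    (h : ∀ t : Fin d → Fin r × Fin r,
      ¬ AlgebraicIndependent ℚ (tup fun i => Y (t i).1 (t i).2)) :
    Algebra.trdeg ℚ (Algebra.adjoin ℚ (insert (PowerSeries.X : ℚ⟦X⟧)
      (Set.range fun t : Fin r × Fin r => Y t.1 t.2))) ≤ d := by
  classical
  obtain ⟨S, hS⟩ : ∃ S : Set ℚ⟦X⟧, S = insert (PowerSeries.X : ℚ⟦X⟧)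
    (Set.range fun t : Fin r × Fin r => Y t.1 t.2) := ⟨_, rfl⟩
  rw [← hS]
  let B := Algebra.adjoin ℚ S
  let T : Set B := ((↑) : B → ℚ⟦X⟧) ⁻¹' S
  have hT : Algebra.adjoin ℚ T = ⊤ := Algebra.adjoin_adjoin_coe_preimage
  have hXS : (PowerSeries.X : ℚ⟦X⟧) ∈ S := by rw [hS]; exact Set.mem_insert _ _
  let xB : B := ⟨PowerSeries.X, Algebra.subset_adjoin hXS⟩
  have hx : AlgebraicIndepOn ℚ id ({xB} : Set B) := by
    show AlgebraicIndependent ℚ (fun i : ({xB} : Set B) => id (i : B))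
    rw [algebraicIndependent_singleton_iff ⟨xB, rfl⟩]
    intro hal
    apply X_trans
    have h2 := hal.algHom B.val
    exact h2
  have halg : Algebra.IsAlgebraic (Algebra.adjoin ℚ T) B := by
    refine ⟨fun b => ?_⟩
    have hb : b ∈ Algebra.adjoin ℚ T := by rw [hT]; trivial
    exact isAlgebraic_algebraMap (⟨b, hb⟩ : Algebra.adjoin ℚ T)
  obtain ⟨u, hu1, hu2, hu⟩ := exists_isTranscendenceBasis_between (R := ℚ) {xB} T (by
    rintro _ rfl; exact hXS) hx
  show Algebra.trdeg ℚ B ≤ d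
  rw [← hu.cardinalMk_eq_trdeg]
  by_contra hlt
  push Not at hlt
  have h1 : ((d + 1 : ℕ) : Cardinal) ≤ Cardinal.mk u := by
    rw [← Order.succ_le_iff, Cardinal.succ_natCast] at hlt
    exact_mod_cast hlt
  rw [← Cardinal.mk_fin (d + 1), Cardinal.le_def] at h1
  obtain ⟨g⟩ := h1
  -- choose the indices different from `x`
  obtain ⟨σ, hσ, hσx⟩ : ∃ σ : Fin d → Fin (d + 1), Function.Injective σ ∧
      ∀ i, ((g (σ i) : u) : B) ≠ xB := by
    by_cases hex : ∃ i₀, ((g i₀ : u) : B) = xB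
    · obtain ⟨i₀, hi₀⟩ := hex
      refine ⟨i₀.succAbove, Fin.succAbove_right_injective, fun i hi => ?_⟩
      have h2 : g (i₀.succAbove i) = g i₀ := Subtype.ext (hi.trans hi₀.symm)
      exact Fin.succAbove_ne i₀ i (g.injective h2)
    · push Not at hex
      exact ⟨Fin.castSucc, Fin.castSucc_injective d, fun i => hex _⟩
  have hmem : ∀ i, ∃ t : Fin r × Fin r, Y t.1 t.2 = (((g (σ i) : u) : B) : ℚ⟦X⟧) := by
    intro i
    have h2 : (((g (σ i) : u) : B) : ℚ⟦X⟧) ∈ S := hu2 (g (σ i)).2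
    rw [hS] at h2
    rcases h2 with h2 | h2
    · exact absurd (Subtype.ext h2) (hσx i)
    · exact h2
  choose t ht using hmem
  apply h t
  have hxu : xB ∈ u := hu1 rfl
  let F : Option (Fin d) → u := fun o => Option.elim o ⟨xB, hxu⟩ fun i => g (σ i)
  have hF : Function.Injective F := by
    intro a b hab
    rcases a with _ | a
    · rcases b with _ | b
      · rfl
      · exact absurd (congrArg (fun z : u => (z : B)) hab).symm (hσx b)
    · rcases b with _ | b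
      · exact absurd (congrArg (fun z : u => (z : B)) hab) (hσx a)
      · have h2 : g (σ a) = g (σ b) := hab
        rw [hσ (g.injective h2)]
  have h3 := (hu.1.comp F hF).map' (f := B.val) Subtype.val_injective
  have h4 : (tup fun i => Y (t i).1 (t i).2) = ⇑B.val ∘ ((↑) : u → B) ∘ F := by
    funext o
    rcases o with _ | i
    · rfl
    · exact ht i
  rw [h4]
  exact h3

end Pool.Agent.Y915.Dens
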