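import Pool.Agent.W603.PV.Ext
import Pool.Agent.Helper386.D5V.Helper386_FF_Loc7

set_option autoImplicit false

/-!
# Horizontality of sections of flat bundles with algebraic solutions on proper curves: the local part
-/

namespace Pool.Agent.Y915.GS

open FF Pool.Agent.W603.LV

section uniq

/-- Uniqueness of extensions of derivations to algebraic extensions. -/
theorem der_zero {K M N : Type*} [Field K] [Field M] [Field N] [Algebra K M] [CharZero K]
    [Algebra.IsAlgebraic K M] (j : M →+* N) (d : M → N) (hadd : ∀ a b, d (a + b) = d a + d b)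
    (hmul : ∀ a b, d (a * b) = j a * d b + j b * d a) (hK : ∀ c : K, d (algebraMap K M c) = 0)
    (y : M) : d y = 0 := by
  let _ : Algebra M N := j.toAlgebra
  let _ : Algebra K N := (j.comp (algebraMap K M)).toAlgebra
  have hst : IsScalarTower K M N := IsScalarTower.of_algebraMap_eq fun _ => rfl
  let l : M →ₗ[K] N :=
    { toFun := d
      map_add' := hadd
      map_smul' := fun c z => by
        rw [Algebra.smul_def, hmul, hK, mul_zero, add_zero, RingHom.id_apply, Algebra.smul_def]
        rfl }
  let δ : Derivation K M N := Derivation.mk' l fun a b => by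
    change d (a * b) = a • d b + b • d a
    rw [hmul, Algebra.smul_def, Algebra.smul_def]
    rfl
  have hy : IsIntegral K y := (Algebra.IsAlgebraic.isAlgebraic y).isIntegral
  have h1 := δ.map_aeval (minpoly K y) y
  rw [minpoly.aeval, map_zero] at h1
  have h2 : Polynomial.aeval y (Polynomial.derivative (minpoly K y)) ≠ 0 :=
    ((minpoly.irreducible hy).separable).aeval_derivative_ne_zero (minpoly.aeval K y)
  exact (smul_eq_zero.1 h1.symm).resolve_left h2

/-- A derivation of a field extends to algebraic extensions. -/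
theorem exists_ext {k F L : Type*} [Field k] [Field F] [Field L] [Algebra k F] [Algebra k L]
    [Algebra F L] [IsScalarTower k F L] [CharZero F] [Algebra.IsAlgebraic F L]
    (E : Derivation k F F) :
    ∃ E' : Derivation k L L, ∀ f, E' (algebraMap F L f) = algebraMap F L (E f) := by
  have hsep : Algebra.IsSeparable F L := inferInstance
  have h1 : Algebra.FormallyEtale F L := Algebra.FormallyEtale.of_isSeparable _ _
  let e := KaehlerDifferential.tensorKaehlerEquivOfFormallyEtale k F L
  let l : Ω[F⁄k] →ₗ[F] L := (Algebra.linearMap F L).comp E.liftKaehlerDifferential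
  let m : Ω[L⁄k] →ₗ[L] L := (LinearMap.liftBaseChange L l).comp e.symm.toLinearMap
  refine ⟨m.compDer (KaehlerDifferential.D k L), fun f => ?_⟩
  change LinearMap.liftBaseChange L l (e.symm (KaehlerDifferential.D k L (algebraMap F L f))) = _
  rw [KaehlerDifferential.tensorKaehlerEquivOfFormallyEtale_symm_D_algebraMap]
  simp [l]

end uniq

section loc

variable {k L : Type*} [Field k] [Field L] [Algebra k L] [CharZero k] [IsFF k L] [IsAlgClosed k]

/-- Solutions of regular equations have no poles. -/
theorem reg_sol (P : Place k L) {E : Derivation k L L} (hE : E ≠ 0) {r : ℕ}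
    {B : Matrix (Fin r) (Fin r) L} (hB : ∀ i j, Ge P (vo P E) (B i j)) {w : Fin r → L}
    (hw : ∀ i, E (w i) = ∑ j, B i j * w j) (i : Fin r) : Ge P 0 (w i) := by
  classical
  by_contra hcon
  have h1 : w i ≠ 0 ∧ P.ord (w i) < 0 := by
    unfold Ge at hcon
    push Not at hcon
    exact hcon
  obtain ⟨m, hm, hmin⟩ := Finset.exists_min_image (Finset.univ.filter fun j => w j ≠ 0)
    (fun j => P.ord (w j)) ⟨i, by simp [h1.1]⟩
  have hm0 : w m ≠ 0 := (Finset.mem_filter.1 hm).2
  have h2 : P.ord (w m) < 0 := lt_of_le_of_lt (hmin i (by simp [h1.1])) h1.2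
  obtain ⟨h3, h4⟩ := ord_der P hE (f := w m) h2.ne
  have h5 : Ge P (vo P E + P.ord (w m)) (E (w m)) := by
    rw [hw]
    refine Ge.sum _ _ fun j _ => ?_
    by_cases hj : w j = 0
    · rw [hj, mul_zero]
      exact Ge.zero
    · exact (hB m j).mul (Or.inr (hmin j (by simp [hj])))
  have h6 := h5.resolve_left h3
  omega

/-- Functions without poles are constant. -/
theorem const_of_reg {f : L} (h : ∀ P : Place k L, Ge P 0 f) : ∃ c : k, f = algebraMap k L c := by
  apply const_of_hgt
  unfold hgt
  have h1 : (fun P : Place k L => max (-P.ord f) 0) = fun _ => 0 := by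
    funext P
    rcases h P with h0 | h0
    · rw [h0, P.ord_zero]
      rfl
    · exact max_eq_right (by omega)
  rw [h1, finsum_zero]

end loc

section pull

variable {k F L : Type*} [Field k] [Field F] [Field L] [Algebra k F] [Algebra k L] [Algebra F L]
  [IsScalarTower k F L] [CharZero k] [IsFF k F] [IsFF k L] [IsAlgClosed k]

omit [IsScalarTower k F L] [IsFF k F] in
/-- Pull back of regular forms. -/
theorem ge_pull {E : Derivation k F F} (hE : E ≠ 0) {E' : Derivation k L L}
    (hEE : ∀ f, E' (algebraMap F L f) = algebraMap F L (E f)) {Q : Place k L} {v : Place k F}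
    {n : ℕ} (hov : Over Q v n) {b : F} (hb : Ge v (vo v E) b) :
    Ge Q (vo Q E') (algebraMap F L b) := by
  rcases hb with hb | hb
  · left
    rw [hb, map_zero]
  right
  have hE' : E' ≠ 0 := by
    rintro rfl
    apply hE
    ext f
    have h1 := hEE f
    rw [Derivation.coe_zero, Pi.zero_apply] at h1
    rw [Derivation.coe_zero, Pi.zero_apply]
    exact (map_eq_zero _).1 h1.symm
  have hn : (0 : ℤ) < n := by exact_mod_cast hov.1
  have he : Q.ord (algebraMap F L (unif v)) = n := by
    rw [hov.2, ord_unif, mul_one]
  obtain ⟨h1, h2⟩ := ord_der Q hE' (f := algebraMap F L (unif v)) (by rw [he]; omega)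
  rw [hEE, hov.2, he] at h2
  have h3 : v.ord (E (unif v)) = vo v E := rfl
  rw [h3] at h2
  rw [hov.2]
  have h5 : (n : ℤ) * vo v E ≤ n * v.ord b := mul_le_mul_of_nonneg_left hb hn.le
  omega

omit [IsScalarTower k F L] [CharZero k] [IsFF k F] [IsFF k L] [IsAlgClosed k] in
theorem ge_map {Q : Place k L} {v : Place k F} {n : ℕ} (hov : Over Q v n) {b : F}
    (hb : Ge v 0 b) : Ge Q 0 (algebraMap F L b) := by
  rcases hb with hb | hb
  · left
    rw [hb, map_zero]
  right
  rw [hov.2]
  exact mul_nonneg (by positivity) hb

end pull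

end Pool.Agent.Y915.GS
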