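import Pool.Agent.Y915.GS

set_option autoImplicit false

/-!
# Horizontality of homomorphisms between flat bundles with algebraic solutions on proper curves
-/

namespace Pool.Agent.Y915.GS

open FF Pool.Agent.W603.LV

section mat

variable {k L : Type*} [Field k] [Field L] [Algebra k L] (E : Derivation k L L)

theorem map_mul_der {a b c : ℕ} (X : Matrix (Fin a) (Fin b) L) (Y : Matrix (Fin b) (Fin c) L) :
    (X * Y).map E = X.map E * Y + X * Y.map E := by
  ext i j
  simp only [Matrix.map_apply, Matrix.mul_apply, Matrix.add_apply, map_sum, Derivation.leibniz,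
    smul_eq_mul]
  rw [← Finset.sum_add_distrib]
  refine Finset.sum_congr rfl fun l _ => ?_
  ring

theorem map_one_der {a : ℕ} : (1 : Matrix (Fin a) (Fin a) L).map E = 0 := by
  ext i j
  rw [Matrix.map_apply, Matrix.one_apply, Matrix.zero_apply]
  split_ifs <;> simp

theorem map_inv_der {a : ℕ} {X : Matrix (Fin a) (Fin a) L} (hX : IsUnit X) :
    (X⁻¹).map E = -(X⁻¹ * X.map E * X⁻¹) := by
  have hd : IsUnit X.det := (Matrix.isUnit_iff_isUnit_det _).1 hX
  have h1 := map_mul_der E X X⁻¹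
  rw [Matrix.mul_nonsing_inv _ hd, map_one_der] at h1
  have h2 : X⁻¹ * (X * (X⁻¹).map E) = (X⁻¹).map E := by
    rw [← Matrix.mul_assoc, Matrix.nonsing_inv_mul _ hd, Matrix.one_mul]
  have h3 : X * (X⁻¹).map E = -(X.map E * X⁻¹) := eq_neg_of_add_eq_zero_right h1.symm
  rw [← h2, h3, Matrix.mul_neg, Matrix.mul_assoc]

variable {E} [CharZero k] [IsFF k L] [IsAlgClosed k]

theorem reg_W (Q : Place k L) (hE : E ≠ 0) {r : ℕ} {g Z N : Matrix (Fin r) (Fin r) L}
    (hg : IsUnit g) (hZ : IsUnit Z)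
    (hB : ∀ i j, Ge Q (vo Q E) ((g⁻¹ * (N * g + g.map E)) i j)) (hsol : Z.map E = -(N * Z)) :
    (∀ i j, Ge Q 0 ((g⁻¹ * Z) i j)) ∧ (∀ i j, Ge Q 0 ((Z⁻¹ * g) i j)) := by
  have hgd : IsUnit g.det := (Matrix.isUnit_iff_isUnit_det _).1 hg
  have hZd : IsUnit Z.det := (Matrix.isUnit_iff_isUnit_det _).1 hZ
  obtain ⟨B, hBd⟩ : ∃ B, B = g⁻¹ * (N * g + g.map E) := ⟨_, rfl⟩
  rw [← hBd] at hB
  -- `B g⁻¹ = g⁻¹ N + g⁻¹ (E g) g⁻¹`
  have h1 : B * g⁻¹ = g⁻¹ * N + g⁻¹ * g.map E * g⁻¹ := by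
    rw [hBd, Matrix.mul_add, Matrix.add_mul, Matrix.mul_assoc g⁻¹ (N * g) g⁻¹,
      Matrix.mul_assoc N g g⁻¹, Matrix.mul_nonsing_inv _ hgd, Matrix.mul_one]
  have h2 : (g⁻¹ * Z).map E = -(B * (g⁻¹ * Z)) := by
    rw [map_mul_der, map_inv_der E hg, hsol, ← Matrix.mul_assoc B, h1, Matrix.add_mul,
      Matrix.neg_mul, Matrix.mul_neg, Matrix.mul_assoc g⁻¹ N Z]
    abel
  have hW : IsUnit (g⁻¹ * Z) := by
    rw [Matrix.isUnit_iff_isUnit_det, Matrix.det_mul]
    exact (Matrix.isUnit_nonsing_inv_det g hgd).mul hZd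
  have hWi : (g⁻¹ * Z)⁻¹ = Z⁻¹ * g := by
    rw [Matrix.mul_inv_rev, Matrix.nonsing_inv_nonsing_inv _ hgd]
  have hWd : IsUnit (g⁻¹ * Z).det := (Matrix.isUnit_iff_isUnit_det _).1 hW
  have h3 : (Z⁻¹ * g).map E = Z⁻¹ * g * B := by
    rw [← hWi, map_inv_der E hW, h2, Matrix.mul_neg, Matrix.neg_mul, neg_neg,
      Matrix.mul_assoc (g⁻¹ * Z)⁻¹, Matrix.mul_assoc B, Matrix.mul_nonsing_inv _ hWd,
      Matrix.mul_one]
  constructor
  · intro i c
    refine reg_sol Q hE (B := -B) (w := fun i => (g⁻¹ * Z) i c) (fun i j => (hB i j).neg) ?_ i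
    intro i
    have h4 := congrFun (congrFun h2 i) c
    rw [Matrix.map_apply] at h4
    rw [h4, ← Matrix.neg_mul, Matrix.mul_apply]
  · intro c i
    refine reg_sol Q hE (B := B.transpose) (w := fun i => (Z⁻¹ * g) c i) (fun i j => hB j i) ?_ i
    intro i
    have h4 := congrFun (congrFun h3 c) i
    rw [Matrix.map_apply] at h4
    rw [h4, Matrix.mul_apply]
    refine Finset.sum_congr rfl fun j _ => ?_
    rw [Matrix.transpose_apply, mul_comm]

omit [CharZero k] [IsFF k L] [IsAlgClosed k] in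
theorem ge_mul_mat {Q : Place k L} {a b c : ℕ} {X : Matrix (Fin a) (Fin b) L}
    {Y : Matrix (Fin b) (Fin c) L} (hX : ∀ i j, Ge Q 0 (X i j)) (hY : ∀ i j, Ge Q 0 (Y i j))
    (i : Fin a) (j : Fin c) : Ge Q 0 ((X * Y) i j) := by
  rw [Matrix.mul_apply]
  refine Ge.sum _ _ fun l _ => ?_
  have := (hX i l).mul (hY l j)
  simpa using this

end mat

section glob

variable {k F L : Type*} [Field k] [Field F] [Field L] [Algebra k F] [Algebra k L] [Algebra F L]
  [IsScalarTower k F L] [CharZero k] [IsFF k F] [IsFF k L] [IsAlgClosed k]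
  [Algebra.IsAlgebraic F L]

/-- The connection `E + N` is regular at `v` in the frame `g`. -/
def RegAt (E : Derivation k F F) (v : Place k F) {r : ℕ} (g N : Matrix (Fin r) (Fin r) F) : Prop :=
  IsUnit g ∧ ∀ i j, Ge v (vo v E) ((g⁻¹ * (N * g + g.map E)) i j)

omit [IsScalarTower k F L] [CharZero k] [IsFF k F] [IsFF k L] [IsAlgClosed k]
  [Algebra.IsAlgebraic F L] in
theorem map_alg_der {E : Derivation k F F} {E' : Derivation k L L}
    (hEE : ∀ f, E' (algebraMap F L f) = algebraMap F L (E f)) {a b : ℕ}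
    (X : Matrix (Fin a) (Fin b) F) :
    (X.map (algebraMap F L)).map E' = (X.map E).map (algebraMap F L) := by
  ext i j
  simp only [Matrix.map_apply, hEE]

omit [IsScalarTower k F L] [IsFF k F] [Algebra.IsAlgebraic F L] in
/-- Flat frames are frames of the pulled back bundle. -/
theorem reg_pull {E : Derivation k F F} (hE : E ≠ 0) {E' : Derivation k L L}
    (hEE : ∀ f, E' (algebraMap F L f) = algebraMap F L (E f)) {r : ℕ}
    {N : Matrix (Fin r) (Fin r) F} {Z : Matrix (Fin r) (Fin r) L} (hZ : IsUnit Z)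
    (hsol : Z.map E' = -(N.map (algebraMap F L) * Z)) {v : Place k F}
    {g : Matrix (Fin r) (Fin r) F} (hg : RegAt E v g N) {Q : Place k L} {n : ℕ}
    (hov : Over Q v n) :
    (∀ i j, Ge Q 0 (((g.map (algebraMap F L))⁻¹ * Z) i j)) ∧
      (∀ i j, Ge Q 0 ((Z⁻¹ * g.map (algebraMap F L)) i j)) := by
  have hE' : E' ≠ 0 := by
    rintro rfl
    apply hE
    ext f
    have h1 := hEE f
    rw [Derivation.coe_zero, Pi.zero_apply] at h1
    rw [Derivation.coe_zero, Pi.zero_apply]
    exact (map_eq_zero _).1 h1.symm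
  have hgu : IsUnit (g.map (algebraMap F L)) := by
    have h1 := hg.1.map (algebraMap F L).mapMatrix
    exact h1
  have hgi : (g.map (algebraMap F L))⁻¹ = g⁻¹.map (algebraMap F L) := by
    have hd : IsUnit g.det := (Matrix.isUnit_iff_isUnit_det _).1 hg.1
    apply Matrix.inv_eq_left_inv
    rw [← Matrix.map_mul, Matrix.nonsing_inv_mul _ hd, Matrix.map_one _ (map_zero _) (map_one _)]
  refine reg_W Q hE' hgu hZ ?_ hsol
  intro i j
  have h1 : (g.map (algebraMap F L))⁻¹ * (N.map (algebraMap F L) * g.map (algebraMap F L) +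
      (g.map (algebraMap F L)).map E') = (g⁻¹ * (N * g + g.map E)).map (algebraMap F L) := by
    rw [hgi, map_alg_der hEE, Matrix.map_mul, Matrix.map_add _ (map_add _), Matrix.map_mul]
  rw [h1, Matrix.map_apply]
  exact ge_pull hE hEE hov (hg.2 i j)

omit [IsFF k F] in
/-- **Homomorphisms between bundles with full sets of algebraic solutions are horizontal.** -/
theorem hom_flat {E : Derivation k F F} (hE : E ≠ 0) {E' : Derivation k L L}
    (hEE : ∀ f, E' (algebraMap F L f) = algebraMap F L (E f)) {r s : ℕ}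
    {N : Matrix (Fin r) (Fin r) F} {Z : Matrix (Fin r) (Fin r) L} (hZ : IsUnit Z)
    (hsol : Z.map E' = -(N.map (algebraMap F L) * Z))
    {N' : Matrix (Fin s) (Fin s) F} {Z' : Matrix (Fin s) (Fin s) L} (hZ' : IsUnit Z')
    (hsol' : Z'.map E' = -(N'.map (algebraMap F L) * Z'))
    {g : Place k F → Matrix (Fin r) (Fin r) F} (hg : ∀ v, RegAt E v (g v) N)
    {g' : Place k F → Matrix (Fin s) (Fin s) F} (hg' : ∀ v, RegAt E v (g' v) N')
    {H : Matrix (Fin s) (Fin r) F} (hH : ∀ v i j, Ge v 0 (((g' v)⁻¹ * H * g v) i j)) :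
    H.map E + N' * H = H * N := by
  have hZd : IsUnit Z.det := (Matrix.isUnit_iff_isUnit_det _).1 hZ
  have hZd' : IsUnit Z'.det := (Matrix.isUnit_iff_isUnit_det _).1 hZ'
  obtain ⟨U, hU⟩ : ∃ U, U = Z'⁻¹ * H.map (algebraMap F L) * Z := ⟨_, rfl⟩
  have hreg : ∀ i j, ∀ Q : Place k L, Ge Q 0 (U i j) := by
    intro i j Q
    obtain ⟨n, v, hov⟩ := exists_over_alg (K := F) Q
    obtain ⟨h1, -⟩ := reg_pull hE hEE hZ hsol (hg v) hov
    obtain ⟨-, h2⟩ := reg_pull hE hEE hZ' hsol' (hg' v) hov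
    have hgd : IsUnit (g v).det := (Matrix.isUnit_iff_isUnit_det _).1 (hg v).1
    have hgd' : IsUnit (g' v).det := (Matrix.isUnit_iff_isUnit_det _).1 (hg' v).1
    have hgi : (g v).map (algebraMap F L) * ((g v).map (algebraMap F L))⁻¹ = 1 := by
      apply Matrix.mul_nonsing_inv
      have h3 := (hg v).1.map (algebraMap F L).mapMatrix
      exact (Matrix.isUnit_iff_isUnit_det _).1 h3
    have hgi' : (g' v).map (algebraMap F L) * ((g' v)⁻¹).map (algebraMap F L) = 1 := by
      rw [← Matrix.map_mul, Matrix.mul_nonsing_inv _ hgd', Matrix.map_one _ (map_zero _) (map_one _)]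
    have h3 : U = (Z'⁻¹ * (g' v).map (algebraMap F L)) *
        ((g' v)⁻¹ * H * g v).map (algebraMap F L) * (((g v).map (algebraMap F L))⁻¹ * Z) := by
      rw [Matrix.map_mul, Matrix.map_mul]
      calc U = Z'⁻¹ * (1 : Matrix (Fin s) (Fin s) L) * H.map (algebraMap F L) *
            (1 : Matrix (Fin r) (Fin r) L) * Z := by
            rw [hU, Matrix.mul_one, Matrix.mul_one]
        _ = Z'⁻¹ * ((g' v).map (algebraMap F L) * ((g' v)⁻¹).map (algebraMap F L)) *
            H.map (algebraMap F L) *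
            ((g v).map (algebraMap F L) * ((g v).map (algebraMap F L))⁻¹) * Z := by
            rw [hgi, hgi']
        _ = _ := by simp only [Matrix.mul_assoc]
    rw [h3]
    refine ge_mul_mat (ge_mul_mat h2 fun i j => ?_) h1 i j
    rw [Matrix.map_apply]
    exact ge_map hov (hH v i j)
  have hUc : U.map E' = 0 := by
    ext i j
    obtain ⟨c, hc⟩ := const_of_reg (hreg i j)
    rw [Matrix.map_apply, hc, Derivation.map_algebraMap, Matrix.zero_apply]
  have h1 : H.map (algebraMap F L) * Z = Z' * U := by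
    rw [hU, Matrix.mul_assoc, ← Matrix.mul_assoc Z', Matrix.mul_nonsing_inv _ hZd', Matrix.one_mul]
  have h2 := congrArg (fun X : Matrix (Fin s) (Fin r) L => X.map E') h1
  simp only [map_mul_der, hUc, Matrix.mul_zero, add_zero, hsol, hsol', Matrix.neg_mul] at h2
  rw [Matrix.mul_assoc, ← h1, map_alg_der hEE, Matrix.mul_neg, ← Matrix.mul_assoc,
    ← Matrix.mul_assoc] at h2
  have h3 : ((H.map E).map (algebraMap F L) + N'.map (algebraMap F L) * H.map (algebraMap F L) -
      H.map (algebraMap F L) * N.map (algebraMap F L)) * Z = 0 := by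
    rw [Matrix.sub_mul, Matrix.add_mul]
    have h4 := eq_neg_iff_add_eq_zero.1 h2
    rw [← h4]
    abel
  have h4 : (H.map E).map (algebraMap F L) + N'.map (algebraMap F L) * H.map (algebraMap F L) -
      H.map (algebraMap F L) * N.map (algebraMap F L) = 0 := by
    have h5 := congrArg (fun X => X * Z⁻¹) h3
    simp only [Matrix.mul_assoc, Matrix.mul_nonsing_inv _ hZd, Matrix.mul_one,
      Matrix.zero_mul] at h5
    exact h5
  have h5 : (H.map E + N' * H - H * N).map (algebraMap F L) = 0 := by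
    rw [Matrix.map_sub _ (map_sub _), Matrix.map_add _ (map_add _), Matrix.map_mul, Matrix.map_mul]
    exact h4
  have h6 : H.map E + N' * H - H * N = 0 := by
    ext i j
    have h7 := congrFun (congrFun h5 i) j
    rw [Matrix.map_apply, Matrix.zero_apply] at h7
    exact (map_eq_zero _).1 h7
  exact sub_eq_zero.1 h6

end glob

end Pool.Agent.Y915.GS
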