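import Pool.Agent.Y915.GS2
import Pool.Agent.Y915.Cur4

set_option autoImplicit false

/-!
# Algebraic solutions over an algebraic closure, and finite extensions of function fields
-/

namespace Pool.Agent.Y915.GS

open FF Pool.Agent.W603.LV Pool.Agent.Y915.Cur

/-- The vanishing of a difference of derivations on a domain and its field of fractions. -/
theorem frac_zero {A K M N : Type*} [CommRing A] [IsDomain A] [Field K] [Algebra A K]
    [IsFractionRing A K] [Field M] [Field N] [Algebra K M] (j : M →+* N)
    (d : M → N) (hmul : ∀ a b, d (a * b) = j a * d b + j b * d a)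
    (hA : ∀ a : A, d (algebraMap K M (algebraMap A K a)) = 0) (c : K) :
    d (algebraMap K M c) = 0 := by
  obtain ⟨a, b, hb, rfl⟩ := IsFractionRing.div_surjective (A := A) c
  have hb0 : algebraMap A K b ≠ 0 := by
    intro h0
    have h1 : b = 0 := (IsFractionRing.injective A K) (by rw [h0, map_zero])
    exact (nonZeroDivisors.ne_zero hb) h1
  have h1 := hmul (algebraMap K M (algebraMap A K a / algebraMap A K b))
    (algebraMap K M (algebraMap A K b))
  rw [← map_mul, div_mul_cancel₀ _ hb0, hA, hA, mul_zero, zero_add] at h1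
  have h2 : j (algebraMap K M (algebraMap A K b)) ≠ 0 := by
    rw [Ne, map_eq_zero, map_eq_zero]
    exact hb0
  exact (mul_eq_zero.1 h1.symm).resolve_left h2

theorem embed {A : Type} [CommRing A] [IsDomain A] {k F : Type} [Field k] [CharZero k]
    [Field F] [Algebra k F] {D : A → A} {ι : A →+* F}
    (hι : Function.Injective ι) {E : Derivation k F F} (hE : ∀ a, E (ι a) = ι (D a)) {r s : ℕ}
    {N : Matrix (Fin r) (Fin r) A} {N' : Matrix (Fin s) (Fin s) A} (h : AlgSol D N)
    (h' : AlgSol D N') :
    ∃ (L : Type) (_ : Field L) (_ : Algebra k L) (_ : Algebra F L) (_ : IsScalarTower k F L)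
      (_ : FiniteDimensional F L) (E' : Derivation k L L) (Z : Matrix (Fin r) (Fin r) L)
      (Z' : Matrix (Fin s) (Fin s) L),
      (∀ f, E' (algebraMap F L f) = algebraMap F L (E f)) ∧ IsUnit Z ∧ IsUnit Z' ∧
      Z.map E' = -((N.map ι).map (algebraMap F L) * Z) ∧
      Z'.map E' = -((N'.map ι).map (algebraMap F L) * Z') := by
  classical
  obtain ⟨D₁, Z, hD1, hD2, hD3, hZ, hsol⟩ := h
  obtain ⟨D₂, Z', hD1', hD2', hD3', hZ', hsol'⟩ := h'
  have hchF : CharZero F := charZero_of_injective_algebraMap (algebraMap k F).injective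
  have hchA : CharZero A := ι.charZero
  have hchK : CharZero (FractionRing A) := inferInstance
  let j₀ : FractionRing A →+* AlgebraicClosure F :=
    (algebraMap F (AlgebraicClosure F)).comp (IsFractionRing.lift hι)
  let _ : Algebra (FractionRing A) (AlgebraicClosure F) := j₀.toAlgebra
  let σ : AlgebraicClosure (FractionRing A) →ₐ[FractionRing A] AlgebraicClosure F :=
    IsAlgClosed.lift
  have hσ : ∀ a : A, σ (algebraMap A (AlgebraicClosure (FractionRing A)) a) =
      algebraMap F (AlgebraicClosure F) (ι a) := by
    intro a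
    rw [IsScalarTower.algebraMap_apply A (FractionRing A), AlgHom.commutes]
    change j₀ (algebraMap A (FractionRing A) a) = _
    simp [j₀]
  obtain ⟨EΩ, hEΩ⟩ := exists_ext (L := AlgebraicClosure F) E
  -- compatibility
  have key : ∀ D' : AlgebraicClosure (FractionRing A) → AlgebraicClosure (FractionRing A),
      (∀ a b, D' (a + b) = D' a + D' b) → (∀ a b, D' (a * b) = a * D' b + b * D' a) →
      (∀ g : A, D' (algebraMap A (AlgebraicClosure (FractionRing A)) g) =
        algebraMap A (AlgebraicClosure (FractionRing A)) (D g)) →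
      ∀ z, EΩ (σ z) = σ (D' z) := by
    intro D' h1 h2 h3 z
    have hmul : ∀ a b, (EΩ (σ (a * b)) - σ (D' (a * b)) : AlgebraicClosure F) =
        (σ : AlgebraicClosure (FractionRing A) →+* AlgebraicClosure F) a *
          (EΩ (σ b) - σ (D' b)) +
        (σ : AlgebraicClosure (FractionRing A) →+* AlgebraicClosure F) b *
          (EΩ (σ a) - σ (D' a)) := by
      intro a b
      rw [h2, map_mul, Derivation.leibniz, map_add, map_mul, map_mul, smul_eq_mul, smul_eq_mul]
      simp only [RingHom.coe_coe]
      ring
    have h4 := der_zero (K := FractionRing A) (M := AlgebraicClosure (FractionRing A))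
      (N := AlgebraicClosure F)
      (σ : AlgebraicClosure (FractionRing A) →+* AlgebraicClosure F)
      (fun z => EΩ (σ z) - σ (D' z)) (fun a b => by
        rw [h1, map_add, map_add, map_add]
        ring) hmul
      (frac_zero (A := A) (σ : AlgebraicClosure (FractionRing A) →+* AlgebraicClosure F)
        (fun z => EΩ (σ z) - σ (D' z)) hmul (fun a => by
          rw [← IsScalarTower.algebraMap_apply A (FractionRing A), h3, hσ, hσ, hEΩ, hE, sub_self]))
      z
    exact sub_eq_zero.1 h4
  have k1 := key D₁ hD1 hD2 hD3
  have k2 := key D₂ hD1' hD2' hD3'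
  -- the finite extension
  let S : Set (AlgebraicClosure F) := Set.range (fun p : Fin r × Fin r => σ (Z p.1 p.2)) ∪
    Set.range (fun p : Fin s × Fin s => σ (Z' p.1 p.2))
  have hSf : Finite S := Set.toFinite S
  have hfd : FiniteDimensional F (IntermediateField.adjoin F S) :=
    IntermediateField.finiteDimensional_adjoin fun x _ =>
      (Algebra.IsAlgebraic.isAlgebraic (R := F) x).isIntegral
  obtain ⟨E', hE'⟩ := exists_ext (L := IntermediateField.adjoin F S) E
  have hcomp : ∀ y : IntermediateField.adjoin F S,
      EΩ (algebraMap _ (AlgebraicClosure F) y) = algebraMap _ (AlgebraicClosure F) (E' y) := by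
    intro y
    have h4 := der_zero (K := F) (M := IntermediateField.adjoin F S) (N := AlgebraicClosure F)
      (algebraMap (IntermediateField.adjoin F S) (AlgebraicClosure F))
      (fun y => EΩ (algebraMap _ (AlgebraicClosure F) y) -
        algebraMap _ (AlgebraicClosure F) (E' y)) (fun a b => by
        simp only [map_add]
        ring) (fun a b => by
        simp only [map_mul, Derivation.leibniz, smul_eq_mul, map_add]
        ring) (fun c => by
        rw [hE', ← IsScalarTower.algebraMap_apply F _ (AlgebraicClosure F),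
          ← IsScalarTower.algebraMap_apply F _ (AlgebraicClosure F), hEΩ, sub_self]) y
    exact sub_eq_zero.1 h4
  -- solutions
  have build : ∀ (t : ℕ) (M : Matrix (Fin t) (Fin t) A)
      (D' : AlgebraicClosure (FractionRing A) → AlgebraicClosure (FractionRing A))
      (Y : Matrix (Fin t) (Fin t) (AlgebraicClosure (FractionRing A))),
      (∀ z, EΩ (σ z) = σ (D' z)) → IsUnit Y →
      Y.map D' + M.map (algebraMap A (AlgebraicClosure (FractionRing A))) * Y = 0 →
      (∀ i j, σ (Y i j) ∈ IntermediateField.adjoin F S) →
      ∃ Y' : Matrix (Fin t) (Fin t) (IntermediateField.adjoin F S), IsUnit Y' ∧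
        Y'.map E' = -((M.map ι).map (algebraMap F (IntermediateField.adjoin F S)) * Y') := by
    intro t M D' Y hc hY hs hmem
    obtain ⟨W, hW⟩ : ∃ W : Matrix (Fin t) (Fin t) (IntermediateField.adjoin F S),
        ∀ i j, algebraMap (IntermediateField.adjoin F S) (AlgebraicClosure F) (W i j) =
          σ (Y i j) := ⟨Matrix.of fun i j => ⟨σ (Y i j), hmem i j⟩, fun _ _ => rfl⟩
    refine ⟨W, ?_, ?_⟩
    · rw [Matrix.isUnit_iff_isUnit_det, isUnit_iff_ne_zero]
      intro h0
      have h1 := congrArg (algebraMap (IntermediateField.adjoin F S) (AlgebraicClosure F)) h0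
      rw [map_zero, RingHom.map_det] at h1
      have h2 : (algebraMap (IntermediateField.adjoin F S) (AlgebraicClosure F)).mapMatrix W =
          (σ : AlgebraicClosure (FractionRing A) →+* AlgebraicClosure F).mapMatrix Y := by
        ext i j
        exact hW i j
      rw [h2, ← RingHom.map_det, map_eq_zero] at h1
      exact ((Matrix.isUnit_iff_isUnit_det _).1 hY).ne_zero h1
    · refine Matrix.ext fun i j => ?_
      apply (algebraMap (IntermediateField.adjoin F S) (AlgebraicClosure F)).injective
      have h1 := congrFun (congrFun hs i) j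
      rw [Matrix.add_apply, Matrix.map_apply, Matrix.mul_apply, Matrix.zero_apply] at h1
      have h2 := congrArg σ (eq_neg_of_add_eq_zero_left h1)
      rw [← hc, map_neg, map_sum] at h2
      rw [Matrix.map_apply, ← hcomp, hW, h2, Matrix.neg_apply, map_neg, Matrix.mul_apply, map_sum]
      congr 1
      refine Finset.sum_congr rfl fun x _ => ?_
      rw [map_mul, map_mul, Matrix.map_apply, Matrix.map_apply, Matrix.map_apply, hσ, hW,
        ← IsScalarTower.algebraMap_apply F _ (AlgebraicClosure F)]
  obtain ⟨Y, hY, hYs⟩ := build r N D₁ Z k1 hZ hsol fun i j =>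
    IntermediateField.subset_adjoin F S (Or.inl ⟨(i, j), rfl⟩)
  obtain ⟨Y', hY', hYs'⟩ := build s N' D₂ Z' k2 hZ' hsol' fun i j =>
    IntermediateField.subset_adjoin F S (Or.inr ⟨(i, j), rfl⟩)
  exact ⟨IntermediateField.adjoin F S, inferInstance, inferInstance, inferInstance, inferInstance,
    hfd, E', Y, Y', hE', hY, hY', hYs, hYs'⟩

end Pool.Agent.Y915.GS
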