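import Pool.Agent.Y915.GS3

set_option autoImplicit false

/-!
# Consequences of a full set of algebraic solutions for bundles on the proper curve
-/

namespace Pool.Agent.Y915.GS

open FF Pool.Agent.W603.LV Pool.Agent.Y915.Cur

section

variable {k F : Type} [Field k] [CharZero k] [IsAlgClosed k] [Field F] [Algebra k F] [IsFF k F]

theorem regAt_of {E : Derivation k F F} (hE : E ≠ 0) {P : Place k F} {r : ℕ}
    {g N : Matrix (Fin r) (Fin r) F} (hg : IsUnit g)
    (h : ∀ i j, ∀ π : F, P.ord π = 1 → P.Reg ((g⁻¹ * (N * g + g.map E)) i j / E π)) :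
    RegAt E P g N := by
  refine ⟨hg, fun i j => ?_⟩
  have h1 := h i j (unif P) (ord_unif P)
  have h0 := der_pi_ne_zero hE P (ord_unif P)
  by_cases hb : (g⁻¹ * (N * g + g.map E)) i j = 0
  · exact Or.inl hb
  · right
    rcases h1 with h1 | h1
    · exact absurd h1 (div_ne_zero hb h0)
    · rw [P.ord_div hb h0] at h1
      have h2 : P.ord (E (unif P)) = vo P E := rfl
      omega

theorem algSol_zero {A : Type} [CommRing A] [IsDomain A] {D : A → A} {r : ℕ}
    {N : Matrix (Fin r) (Fin r) A} (h : AlgSol D N) (s : ℕ) :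
    AlgSol D (0 : Matrix (Fin s) (Fin s) A) := by
  obtain ⟨D', Z, h1, h2, h3, -, -⟩ := h
  have h4 : D' 1 = 0 := by
    have h5 := h2 1 1
    rw [one_mul, one_mul] at h5
    exact left_eq_add.1 h5
  have h0 : D' 0 = 0 := by
    have h5 := h1 0 0
    rw [add_zero] at h5
    exact left_eq_add.1 h5
  refine ⟨D', 1, h1, h2, h3, isUnit_one, ?_⟩
  ext i j
  rw [Matrix.add_apply, Matrix.map_apply, Matrix.map_zero _ (map_zero _), Matrix.zero_mul,
    Matrix.zero_apply, add_zero, Matrix.one_apply]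
  split_ifs
  · exact h4
  · exact h0

theorem hom_flat' {A : Type} [CommRing A] [IsDomain A] {D : A → A} {ι : A →+* F}
    (hι : Function.Injective ι) {E : Derivation k F F} (hE0 : E ≠ 0)
    (hE : ∀ a, E (ι a) = ι (D a)) {r s : ℕ} {N : Matrix (Fin r) (Fin r) A}
    {N' : Matrix (Fin s) (Fin s) A} (h : AlgSol D N) (h' : AlgSol D N')
    {g : Place k F → Matrix (Fin r) (Fin r) F} (hg : ∀ v, RegAt E v (g v) (N.map ι))
    {g' : Place k F → Matrix (Fin s) (Fin s) F} (hg' : ∀ v, RegAt E v (g' v) (N'.map ι))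
    {H : Matrix (Fin s) (Fin r) F} (hH : ∀ v i j, Ge v 0 (((g' v)⁻¹ * H * g v) i j)) :
    H.map E + N'.map ι * H = H * N.map ι := by
  obtain ⟨L, _, _, _, _, _, E', Z, Z', hEE, hZ, hZ', hs, hs'⟩ := embed hι hE h h'
  have hL : IsFF k L := Pool.Agent.W603.PV.isFF_of_finite (F := F)
  exact hom_flat hE0 hEE hZ hs hZ' hs' hg hg' hH

theorem full {A : Type} [CommRing A] [IsDomain A] {D : A → A} {ι : A →+* F}
    (hι : Function.Injective ι) {E : Derivation k F F} (hE0 : E ≠ 0)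
    (hE : ∀ a, E (ι a) = ι (D a)) {r : ℕ} {N : Matrix (Fin r) (Fin r) A} (h : AlgSol D N)
    {g : Place k F → Matrix (Fin r) (Fin r) F} (hg : ∀ v, RegAt E v (g v) (N.map ι)) :
    ∃ (L : Type) (_ : Field L) (_ : Algebra k L) (_ : Algebra F L) (_ : IsScalarTower k F L)
      (_ : FiniteDimensional F L) (E' : Derivation k L L) (Z : Matrix (Fin r) (Fin r) L),
      (∀ f, E' (algebraMap F L f) = algebraMap F L (E f)) ∧ IsUnit Z ∧
      Z.map E' + (N.map ι).map (algebraMap F L) * Z = 0 ∧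
      ∀ (Q : Place k L) (P : Place k F) (n : ℕ), 0 < n →
        (∀ f, Q.ord (algebraMap F L f) = n * P.ord f) → ∀ i j,
        Q.Reg ((((g P).map (algebraMap F L))⁻¹ * Z) i j) ∧
        Q.Reg ((Z⁻¹ * (g P).map (algebraMap F L)) i j) := by
  obtain ⟨L, _, _, _, _, _, E', Z, Z', hEE, hZ, hZ', hs, hs'⟩ := embed hι hE h h
  have hL : IsFF k L := Pool.Agent.W603.PV.isFF_of_finite (F := F)
  refine ⟨L, inferInstance, inferInstance, inferInstance, inferInstance, inferInstance, E', Z, hEE,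
    hZ, ?_, ?_⟩
  · rw [hs, neg_add_cancel]
  · intro Q P n hn hQ i j
    obtain ⟨h1, h2⟩ := reg_pull hE0 hEE hZ hs (hg P) (Q := Q) (n := n) ⟨hn, hQ⟩
    exact ⟨h1 i j, h2 i j⟩

end

end Pool.Agent.Y915.GS
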