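import Pool.Agent.Y915.Stm

set_option autoImplicit false

/-!
# The class `Gd` is closed under sums, products and derivatives
-/

namespace Pool.Agent.Y915

open scoped PowerSeries
open Finset

lemma Gd.nonneg {r : ℝ} {f : ℂ⟦X⟧} (h : Gd r f) {ρ : ℝ} (h0 : 0 < ρ) (h1 : ρ < r) :
    ∃ B : ℝ, 0 ≤ B ∧ ∀ m : ℕ, ‖PowerSeries.coeff m f‖ * ρ ^ m ≤ B := by
  obtain ⟨B, hB⟩ := h ρ h0 h1
  exact ⟨B, le_trans (by positivity) (hB 0), hB⟩

lemma Gd.add {r : ℝ} {f g : ℂ⟦X⟧} (hf : Gd r f) (hg : Gd r g) : Gd r (f + g) := by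
  intro ρ h0 h1
  obtain ⟨A, hA⟩ := hf ρ h0 h1
  obtain ⟨B, hB⟩ := hg ρ h0 h1
  refine ⟨A + B, fun m => ?_⟩
  rw [map_add]
  calc ‖PowerSeries.coeff m f + PowerSeries.coeff m g‖ * ρ ^ m
      ≤ (‖PowerSeries.coeff m f‖ + ‖PowerSeries.coeff m g‖) * ρ ^ m := by
        gcongr; exact norm_add_le _ _
    _ ≤ A + B := by rw [add_mul]; exact add_le_add (hA m) (hB m)

/-- A polynomially growing factor is absorbed by a smaller radius. -/
lemma exists_mul_pow_le {q : ℝ} (h0 : 0 ≤ q) (h1 : q < 1) :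
    ∃ C : ℝ, ∀ m : ℕ, ((m : ℝ) + 1) * q ^ m ≤ C := by
  have h := tendsto_self_mul_const_pow_of_lt_one h0 h1
  have h2 : Filter.Tendsto (fun m : ℕ => ((m : ℝ) + 1) * q ^ m) Filter.atTop (nhds 0) := by
    have h3 := h.add (tendsto_pow_atTop_nhds_zero_of_lt_one h0 h1)
    simp only [add_zero] at h3
    refine h3.congr fun m => ?_
    ring
  obtain ⟨C, hC⟩ := h2.bddAbove_range
  exact ⟨C, fun m => hC ⟨m, rfl⟩⟩

lemma Gd.mul {r : ℝ} {f g : ℂ⟦X⟧} (hf : Gd r f) (hg : Gd r g) : Gd r (f * g) := by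
  intro ρ h0 h1
  obtain ⟨σ, hσ1, hσ2⟩ := exists_between h1
  have hσ0 : 0 < σ := h0.trans hσ1
  obtain ⟨A, hA0, hA⟩ := hf.nonneg hσ0 hσ2
  obtain ⟨B, hB0, hB⟩ := hg.nonneg hσ0 hσ2
  obtain ⟨C, hC⟩ := exists_mul_pow_le (q := ρ / σ) (by positivity) ((div_lt_one hσ0).2 hσ1)
  refine ⟨A * B * C, fun m => ?_⟩
  rw [PowerSeries.coeff_mul]
  have h3 : ‖∑ p ∈ antidiagonal m, PowerSeries.coeff p.1 f * PowerSeries.coeff p.2 g‖ * σ ^ m
      ≤ ((m : ℝ) + 1) * (A * B) := by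
    calc ‖∑ p ∈ antidiagonal m, PowerSeries.coeff p.1 f * PowerSeries.coeff p.2 g‖ * σ ^ m
        ≤ (∑ p ∈ antidiagonal m, ‖PowerSeries.coeff p.1 f * PowerSeries.coeff p.2 g‖) * σ ^ m := by
          gcongr; exact norm_sum_le _ _
      _ = ∑ p ∈ antidiagonal m, (‖PowerSeries.coeff p.1 f‖ * σ ^ p.1) *
            (‖PowerSeries.coeff p.2 g‖ * σ ^ p.2) := by
          rw [sum_mul]
          refine sum_congr rfl fun p hp => ?_
          rw [← mem_antidiagonal.1 hp, pow_add, norm_mul]; ring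
      _ ≤ ∑ p ∈ antidiagonal m, A * B := by
          refine sum_le_sum fun p _ => ?_
          have := hA p.1
          have := hB p.2
          gcongr
      _ = ((m : ℝ) + 1) * (A * B) := by simp
  have h4 : ρ ^ m = σ ^ m * (ρ / σ) ^ m := by
    rw [← mul_pow, mul_div_cancel₀ _ hσ0.ne']
  rw [h4, ← mul_assoc]
  calc _ ≤ ((m : ℝ) + 1) * (A * B) * (ρ / σ) ^ m := by gcongr
    _ = A * B * (((m : ℝ) + 1) * (ρ / σ) ^ m) := by ring
    _ ≤ A * B * C := by gcongr; exact hC m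

lemma Gd.const (r : ℝ) (a : ℂ) : Gd r (PowerSeries.C a) := by
  intro ρ h0 h1
  refine ⟨‖a‖, fun m => ?_⟩
  rw [PowerSeries.coeff_C]
  split_ifs with h
  · subst h; simp
  · simp

lemma Gd.X (r : ℝ) : Gd r (PowerSeries.X : ℂ⟦X⟧) := by
  intro ρ h0 h1
  refine ⟨ρ, fun m => ?_⟩
  rw [PowerSeries.coeff_X]
  split_ifs with h
  · subst h; simp
  · simp [h0.le]

lemma Gd.deriv {r : ℝ} {f : ℂ⟦X⟧} (hf : Gd r f) : Gd r (PowerSeries.derivative ℂ f) := by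
  intro ρ h0 h1
  obtain ⟨σ, hσ1, hσ2⟩ := exists_between h1
  have hσ0 : 0 < σ := h0.trans hσ1
  obtain ⟨A, hA0, hA⟩ := hf.nonneg hσ0 hσ2
  obtain ⟨C, hC⟩ := exists_mul_pow_le (q := ρ / σ) (by positivity) ((div_lt_one hσ0).2 hσ1)
  refine ⟨A / σ * C, fun m => ?_⟩
  rw [PowerSeries.coeff_derivative, norm_mul]
  have h2 : ‖(m : ℂ) + 1‖ = (m : ℝ) + 1 := by
    have : (m : ℂ) + 1 = ((m + 1 : ℕ) : ℂ) := by push_cast; ring
    rw [this, Complex.norm_natCast]; push_cast; ring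
  have h4 : ρ ^ m = σ ^ m * (ρ / σ) ^ m := by
    rw [← mul_pow, mul_div_cancel₀ _ hσ0.ne']
  rw [h2, h4]
  have h5 : ‖PowerSeries.coeff (m + 1) f‖ * σ ^ m ≤ A / σ := by
    rw [le_div_iff₀ hσ0, mul_assoc, ← pow_succ]; exact hA (m + 1)
  calc ‖PowerSeries.coeff (m + 1) f‖ * ((m : ℝ) + 1) * (σ ^ m * (ρ / σ) ^ m)
      = (‖PowerSeries.coeff (m + 1) f‖ * σ ^ m) * (((m : ℝ) + 1) * (ρ / σ) ^ m) := by ring
    _ ≤ A / σ * C := by
      gcongr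
      exact hC m

theorem gd : StGd := fun r =>
  ⟨fun _ _ hf hg => hf.add hg, fun _ _ hf hg => hf.mul hg, Gd.const r, Gd.X r,
    fun _ hf => hf.deriv⟩

lemma Gd.natCast (r : ℝ) (a : ℕ) : Gd r (a : ℂ⟦X⟧) := by
  have := Gd.const r (a : ℂ)
  rwa [map_natCast] at this

lemma Gd.intCast (r : ℝ) (a : ℤ) : Gd r (a : ℂ⟦X⟧) := by
  have := Gd.const r (a : ℂ)
  rwa [map_intCast] at this

lemma Gd.one (r : ℝ) : Gd r (1 : ℂ⟦X⟧) := by
  have := Gd.const r 1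
  rwa [map_one] at this

lemma Gd.zero (r : ℝ) : Gd r (0 : ℂ⟦X⟧) := by
  have := Gd.const r 0
  rwa [map_zero] at this

lemma Gd.neg {r : ℝ} {f : ℂ⟦X⟧} (hf : Gd r f) : Gd r (-f) := by
  intro ρ h0 h1
  obtain ⟨B, hB⟩ := hf ρ h0 h1
  exact ⟨B, fun m => by rw [map_neg, norm_neg]; exact hB m⟩

lemma Gd.sub {r : ℝ} {f g : ℂ⟦X⟧} (hf : Gd r f) (hg : Gd r g) : Gd r (f - g) := by
  rw [sub_eq_add_neg]; exact hf.add hg.neg

lemma Gd.pow {r : ℝ} {f : ℂ⟦X⟧} (hf : Gd r f) (n : ℕ) : Gd r (f ^ n) := by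
  induction n with
  | zero => rw [pow_zero]; exact Gd.one r
  | succ n ih => rw [pow_succ]; exact ih.mul hf

lemma Gd.sum {r : ℝ} {ι : Type*} (s : Finset ι) (f : ι → ℂ⟦X⟧) (h : ∀ i ∈ s, Gd r (f i)) :
    Gd r (∑ i ∈ s, f i) := by
  classical
  induction s using Finset.induction_on with
  | empty => rw [sum_empty]; exact Gd.zero r
  | insert a s ha ih =>
    rw [sum_insert ha]
    exact (h a (mem_insert_self a s)).add (ih fun i hi => h i (mem_insert_of_mem hi))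

lemma Gd.mono {r r' : ℝ} (h : r' ≤ r) {f : ℂ⟦X⟧} (hf : Gd r f) : Gd r' f :=
  fun ρ h0 h1 => hf ρ h0 (h1.trans_le h)

end Pool.Agent.Y915
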