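import Pool.Agent.Y915.HMain
import Pool.Agent.Y641.PC.ModP2

set_option autoImplicit false

/-!
# General hyperelliptic curves: conclusion
-/

namespace Pool.Agent.Y915.Hyp

open scoped PowerSeries Polynomial
open Finset

/-- The affine curve `s² = 1 + 4 f(x)` has radius at least `R` at the point `(0, 1)`. -/
def Radius (f : ℤ[X]) (R : ℝ) : Prop :=
  ∃ φ S g : ℂ⟦X⟧, Gd 1 φ ∧ Gd 1 S ∧ Gd 1 g ∧
    PowerSeries.constantCoeff φ = 0 ∧ PowerSeries.constantCoeff S = 1 ∧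
    S ^ 2 = 1 + 4 * f.eval₂ (Int.castRingHom ℂ⟦X⟧) φ ∧
    PowerSeries.derivative ℂ φ = S * g ∧ R ≤ ‖PowerSeries.coeff 1 φ‖

theorem part1 {f : ℤ[X]} {R τ : ℝ} (hf : f.coeff 0 = 0) (hR : Radius f R) (hR0 : 0 < R)
    (hτ : τ < Real.log R) {N : ℕ} {M : ℤ} {a : Fin N → ℤ[X]} {k : ℕ → ℕ}
    (hN : 1 ≤ N) (hM : M ≠ 0)
    (hk : ∀ p : ℕ, p.Prime → k p = 0 ∨ (k p = 1 ∧ FullMod f N M a p) ∨
      (p : ℤ) ^ (∑ i ∈ range (k p), p ^ i) ∣ M)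
    (hsum : ∀ m : ℕ, ∑ p ∈ (range (m + 1)).filter Nat.Prime,
      Real.log p / ((p : ℝ) ^ k p * ((p : ℝ) - 1)) ≤ τ) : FullAlg f N M a := by
  obtain ⟨φ, S, g, h1, h2, h3, h4, h5, h6, h7, h8⟩ := hR
  refine main Pool.Agent.Y641.PC.modP2 hf h4 h1 h2 h3 h5 (by rw [aevZ_eq]; exact h6) h7
    (τ := τ) ?_ hN hM hk hsum
  exact hτ.trans_le (Real.log_le_log hR0 h8)

theorem part2 {δ : ℝ} (hδ : 0 < δ) :
    ∃ M₀ : ℕ, 0 < M₀ ∧ ∀ (f : ℤ[X]) (R : ℝ), f.coeff 0 = 0 → Radius f R → 0 < R →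
      ∀ (N : ℕ) (M : ℤ) (a : Fin N → ℤ[X]), 1 ≤ N → M ≠ 0 → (M₀ : ℤ) ∣ M →
      (∀ T : Finset ℕ, (∀ p ∈ T, p.Prime ∧ ¬ (p : ℤ) ∣ M ∧ ¬ FullMod f N M a p) →
        ∑ p ∈ T, Real.log p / p ≤ Real.log R - δ) → FullAlg f N M a := by
  obtain ⟨M₀, hM₀, H⟩ := main0 Pool.Agent.Y641.PC.modP2 hδ
  refine ⟨M₀, hM₀, ?_⟩
  rintro f R hf ⟨φ, S, g, h1, h2, h3, h4, h5, h6, h7, h8⟩ hR0 N M a hN hM hdvd hT
  refine H f φ S g hf h4 h1 h2 h3 h5 (by rw [aevZ_eq]; exact h6) h7 N M a hN hM hdvd ?_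
  intro T hT'
  refine (hT T hT').trans ?_
  have := Real.log_le_log hR0 h8
  linarith

theorem part3 {n : ℕ} {c : ℤ} {R : ℝ} (hn : 1 ≤ n) (hc : c ≠ 0) (hR0 : 0 ≤ R)
    (hR : |(c : ℝ)| * R ^ n < 16) :
    Radius (Polynomial.C c * Polynomial.X ^ n) R := by
  obtain ⟨φ, S, g, gφ, gS, gg, hφ, hS0, hS, hd, hKφ⟩ :=
    Pool.Agent.Y79.PC.DOM.dom gd Pool.Agent.Y810.PC.ode2 Pool.Agent.Y810.PC.ode1
      Pool.Agent.Y810.PC.ode3 n c _ hn hc hR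
  refine ⟨φ, S, g, gφ, gS, gg, hφ, hS0, ?_, hd, ?_⟩
  · rw [hS, Polynomial.eval₂_mul, Polynomial.eval₂_C, Polynomial.eval₂_pow, Polynomial.eval₂_X]
    simp only [eq_intCast]
    ring
  · have hc0 : 0 < |(c : ℝ)| := abs_pos.2 (by exact_mod_cast hc)
    have h1 : R ^ n ≤ ‖PowerSeries.coeff 1 φ‖ ^ n := le_of_mul_le_mul_left hKφ hc0
    exact le_of_pow_le_pow_left₀ (by omega) (norm_nonneg _) h1

end Pool.Agent.Y915.Hyp
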