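import Pool.Agent.Y915.Gd

set_option autoImplicit false

/-!
# The square root of `1 + 4 c xⁿ` in `ℤ⟦x⟧`
-/

namespace Pool.Agent.Y915

open scoped PowerSeries
open Finset

lemma C_int (c : ℤ) : (PowerSeries.C c : ℤ⟦X⟧) = (c : ℤ⟦X⟧) := by
  simp

lemma exists_v (n : ℕ) (c : ℤ) (hn : 1 ≤ n) :
    ∃ v : ℤ⟦X⟧, PowerSeries.constantCoeff v = 0 ∧ v ^ 2 + v = (c : ℤ⟦X⟧) * PowerSeries.X ^ n := by
  set C₀ : ℤ⟦X⟧ := PowerSeries.map (Nat.castRingHom ℤ) PowerSeries.catalanSeries with hC₀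
  have h1 : C₀ ^ 2 * PowerSeries.X + 1 = C₀ := by
    have := congrArg (PowerSeries.map (Nat.castRingHom ℤ)) PowerSeries.catalanSeries_sq_mul_X_add_one
    simpa [hC₀] using this
  set y : ℤ⟦X⟧ := -((c : ℤ⟦X⟧) * PowerSeries.X ^ n) with hy
  have hn0 : n ≠ 0 := by omega
  have hy0 : PowerSeries.constantCoeff y = 0 := by
    simp [hy, hn0]
  have hs : PowerSeries.HasSubst y := PowerSeries.HasSubst.of_constantCoeff_zero' hy0
  have h2 : (C₀.subst y : ℤ⟦X⟧) ^ 2 * y + 1 = C₀.subst y := by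
    have h3 := congrArg (PowerSeries.substAlgHom (R := ℤ) hs) h1
    rw [map_add, map_mul, map_pow, map_one, PowerSeries.substAlgHom_X,
      PowerSeries.coe_substAlgHom] at h3
    exact h3
  refine ⟨(c : ℤ⟦X⟧) * PowerSeries.X ^ n * C₀.subst y, ?_, ?_⟩
  · simp [hn0]
  · have h4 : (c : ℤ⟦X⟧) * PowerSeries.X ^ n = -y := by rw [hy]; ring
    rw [h4]
    linear_combination y * h2

theorem rt : StRt := by
  intro n c hn
  obtain ⟨v, hv0, hv⟩ := exists_v n c hn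
  set s : ℤ⟦X⟧ := 1 + 2 * v with hs
  have hs0 : PowerSeries.constantCoeff s = 1 := by simp [hs, hv0]
  have hsq : s ^ 2 = 1 + 4 * (c : ℤ⟦X⟧) * PowerSeries.X ^ n := by
    rw [hs]; linear_combination 4 * hv
  have hu : IsUnit s := by
    rw [PowerSeries.isUnit_iff_constantCoeff, hs0]; exact isUnit_one
  obtain ⟨w, hw⟩ := hu.exists_right_inv
  refine ⟨s, w, hs0, hsq, hw, ?_, v, rfl⟩
  have h1 := congrArg (PowerSeries.derivative ℤ) hsq
  have h2 : PowerSeries.derivative ℤ (1 + 4 * (c : ℤ⟦X⟧) * PowerSeries.X ^ n) =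
      4 * (c : ℤ⟦X⟧) * ((n : ℤ⟦X⟧) * PowerSeries.X ^ (n - 1)) := by
    have h3 : (4 * (c : ℤ⟦X⟧)) = PowerSeries.C (4 * c) := by
      rw [C_int]; push_cast; ring
    rw [map_add, Derivation.map_one_eq_zero, zero_add, h3, Derivation.leibniz,
      PowerSeries.derivative_C, smul_zero, add_zero, PowerSeries.derivative_pow,
      PowerSeries.derivative_X, smul_eq_mul, mul_one]
  rw [h2, PowerSeries.derivative_pow] at h1
  have h4 : (2 : ℤ⟦X⟧) * (s * PowerSeries.derivative ℤ s) =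
      2 * (2 * (c : ℤ⟦X⟧) * (n : ℤ⟦X⟧) * PowerSeries.X ^ (n - 1)) := by
    have h5 : ((2 : ℕ) : ℤ⟦X⟧) * s ^ (2 - 1) * PowerSeries.derivative ℤ s =
        2 * (s * PowerSeries.derivative ℤ s) := by
      norm_num; ring
    rw [← h5, h1]; ring
  have h6 : (2 : ℤ⟦X⟧) ≠ 0 := by
    intro h
    have h7 : PowerSeries.constantCoeff (2 : ℤ⟦X⟧) = 2 := map_ofNat _ 2
    rw [h, map_zero] at h7
    exact absurd h7 (by norm_num)
  exact mul_left_cancel₀ h6 h4

end Pool.Agent.Y915
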