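import Pool.Agent.Y915.Core
import Pool.Agent.Y915.Alg
import Pool.Agent.Y915.Rt
import Pool.Agent.Y79.PC.DOM
import Pool.Agent.Y243.PC.ModP

set_option autoImplicit false

/-!
# Operators close to powers of `s ∂`: the main theorems
-/

namespace Pool.Agent.Y915

open scoped PowerSeries Polynomial
open Finset

lemma vf_pow {p : ℕ} (hp : p.Prime) (k : ℕ) : vf p (p ^ k) = ∑ i ∈ range k, p ^ i := by
  have : Fact p.Prime := ⟨hp⟩
  induction k with
  | zero => simp [vf]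
  | succ k ih =>
    rw [sum_range_succ, ← ih]
    unfold vf
    rw [Nat.factorization_def _ hp, Nat.factorization_def _ hp, pow_succ, mul_comm,
      padicValNat_factorial_mul]

lemma vf_lt {p m : ℕ} (hm : m < p) : vf p m = 0 := by
  unfold vf
  by_cases hp : p.Prime
  · exact Nat.factorization_factorial_eq_zero_of_lt hm
  · exact Nat.factorization_eq_zero_of_not_prime _ hp

theorem main {n : ℕ} {c : ℤ} {τ : ℝ} (hn : 1 ≤ n) (hc : c ≠ 0)
    (hτ : τ < Real.log (16 / |(c : ℝ)|) / n) {N : ℕ} {M : ℤ} {a : Fin N → ℤ[X]} (hN : 1 ≤ N)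
    (hM : M ≠ 0) {k : ℕ → ℕ}
    (hk : ∀ p : ℕ, p.Prime → k p = 0 ∨ (k p = 1 ∧ FullMod n c N M a p) ∨
      (p : ℤ) ^ (∑ i ∈ range (k p), p ^ i) ∣ M)
    (hsum : ∀ m : ℕ, ∑ p ∈ (range (m + 1)).filter Nat.Prime,
      Real.log p / ((p : ℝ) ^ k p * ((p : ℝ) - 1)) ≤ τ) : FullAlg n c N M a := by
  obtain ⟨s, w, hrt⟩ := rt n c hn
  obtain ⟨Y, hY, hY0⟩ := Pool.Agent.Y810.PC.ode1 ℚ N ((M • GT N a s w).map (cst ℚ))
  have hn0 : (0 : ℝ) < n := by exact_mod_cast hn
  have hc0 : 0 < |(c : ℝ)| := abs_pos.2 (by exact_mod_cast hc)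
  -- the domain map
  have hK0 : |(c : ℝ)| * Real.exp (τ * n) < 16 := by
    have h1 : τ * n < Real.log (16 / |(c : ℝ)|) := (lt_div_iff₀ hn0).1 hτ
    have h2 := Real.exp_lt_exp.2 h1
    rw [Real.exp_log (by positivity)] at h2
    rw [mul_comm]
    exact (lt_div_iff₀ hc0).1 h2
  obtain ⟨K, hK1, hK2⟩ := exists_between hK0
  obtain ⟨φ, S, g, gφ, gS, gg, hφ, hS0, hS, hd, hKφ⟩ :=
    Pool.Agent.Y79.PC.DOM.dom gd Pool.Agent.Y810.PC.ode2 Pool.Agent.Y810.PC.ode1
      Pool.Agent.Y810.PC.ode3 n c K hn hc hK2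
  have hlt : τ < Real.log ‖PowerSeries.coeff 1 φ‖ := by
    have h1 : Real.exp (τ * n) < ‖PowerSeries.coeff 1 φ‖ ^ n := by
      have := hK1.trans_le hKφ
      exact lt_of_mul_lt_mul_left this hc0.le
    have h2 : 0 < ‖PowerSeries.coeff 1 φ‖ := by
      rcases (norm_nonneg (PowerSeries.coeff 1 φ)).lt_or_eq with h | h
      · exact h
      · exfalso
        rw [← h, zero_pow (by omega)] at h1
        exact absurd h1 (not_lt.2 (Real.exp_pos _).le)
    have h3 := Real.log_lt_log (Real.exp_pos _) h1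
    rw [Real.log_exp, Real.log_pow] at h3
    have h4 : τ * n < Real.log ‖PowerSeries.coeff 1 φ‖ * n := by linarith
    exact lt_of_mul_lt_mul_right h4 hn0.le
  -- the constant `E`
  set E : ℕ := ∏ p ∈ M.natAbs.primeFactors, p ^ vf p (p ^ k p - 1) with hE
  have hE0 : 0 < E := prod_pos fun p hp => pow_pos (Nat.prime_of_mem_primeFactors hp).pos _
  have hE' : ∀ p : ℕ, p.Prime → p ^ vf p (p ^ k p - 1) ∣ E := by
    intro p hp
    by_cases hk2 : k p ≤ 1
    · have h1 : vf p (p ^ k p - 1) = 0 := by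
        refine vf_lt ?_
        have h2 : p ^ k p ≤ p := (Nat.pow_le_pow_right hp.pos hk2).trans_eq (pow_one p)
        have h3 := hp.pos
        omega
      rw [h1, pow_zero]; exact one_dvd _
    · have h1 : (p : ℤ) ^ (∑ i ∈ range (k p), p ^ i) ∣ M := by
        rcases hk p hp with h | h | h
        · omega
        · omega
        · exact h
      have h2 : (p : ℤ) ∣ M := by
        refine dvd_trans (dvd_pow_self _ ?_) h1
        obtain ⟨j, hj⟩ : ∃ j, k p = j + 1 := ⟨k p - 1, by omega⟩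
        rw [hj, sum_range_succ']
        simp
      have h3 : p ∈ M.natAbs.primeFactors := by
        rw [Nat.mem_primeFactors]
        exact ⟨hp, Int.natCast_dvd.1 h2, by simpa using hM⟩
      exact dvd_prod_of_mem _ h3
  have hdiv : ∀ p : ℕ, p.Prime → ∀ H : Matrix (Fin N) (Fin N) ℤ⟦X⟧,
      ∃ H' : Matrix (Fin N) (Fin N) ℤ⟦X⟧,
        (nab (M • GT N a s w))^[p ^ k p] H = ((p : ℤ) ^ (vf p (p ^ k p) - 0)) • H' := by
    intro p hp H
    have hdvd : (p : ℤ) ^ vf p (p ^ k p) ∣ M → ∃ H' : Matrix (Fin N) (Fin N) ℤ⟦X⟧,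
        (nab (M • GT N a s w))^[p ^ k p] H = ((p : ℤ) ^ (vf p (p ^ k p) - 0)) • H' := by
      intro h
      rw [Nat.sub_zero]
      exact Pool.Agent.Y79.PC.NAB.nab1 N (GT N a s w) M p (k p) hp h H
    rcases hk p hp with h | ⟨h, hf⟩ | h
    · apply hdvd
      rw [h]
      simp [vf]
    · by_cases hpM : (p : ℤ) ∣ M
      · apply hdvd
        rw [vf_pow hp, h]
        simpa using hpM
      · haveI : Fact p.Prime := ⟨hp⟩
        obtain ⟨Yp, hYp, hYp'⟩ := Pool.Agent.Y243.PC.modP n c N M a s w p hn hN hrt hpM hf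
        obtain ⟨H', hH'⟩ := Pool.Agent.Y79.PC.NAB.van N (M • GT N a s w) p Yp hYp hYp' H
        refine ⟨H', ?_⟩
        have h1 : vf p (p ^ k p) = 1 := by rw [vf_pow hp, h]; simp
        rw [h1, h]
        simpa using hH'
    · apply hdvd
      rw [vf_pow hp]; exact h
  -- positive radius of convergence
  have hsmall : ∃ r : ℝ, 0 < r ∧ ∀ i j, Gd r (cst ℂ ((M • GT N a s w) i j)) := by
    obtain ⟨gw, gs⟩ := gd_small Pool.Agent.Y810.PC.ode3 hrt hn
    refine ⟨1 / (4 * |(c : ℝ)| + 1), by positivity, fun i j => ?_⟩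
    have h3 : cst ℂ ((M • GT N a s w) i j) = ((M • GT N a s w).map (cst ℂ)) i j := rfl
    rw [h3, GT_map]
    refine Gd.mul (Gd.intCast _ M) (Gd.mul gw ?_)
    split_ifs
    · exact Gd.one _
    · exact Gd.zero _
    · refine Gd.neg ?_
      unfold al
      refine Gd.mul ((Gd.X _).aevZ _) ?_
      split_ifs
      · exact Gd.one _
      · exact gs
  have halg : ∀ i j, IsAlgebraic ℚ[X] (Y i j) := by
    intro i j
    refine core hY hY0 (k := k) (d := fun _ => 0) hE0 hE' hdiv (τ := τ) ?_ hsmall hφ gφ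
      (gd_GT hrt hφ gφ gS gg hS0 hS hd) hlt i j
    intro m
    refine le_trans (le_of_eq ?_) (hsum m)
    refine sum_congr rfl fun p _ => ?_
    push_cast
    rw [zero_add, mul_one_div, div_div, mul_comm ((p : ℝ) - 1)]
  exact fullAlg_of hY hY0 hrt hN hM fun j => halg _ j

theorem main0 {δ : ℝ} (hδ0 : 0 < δ) :
    ∃ M₀ : ℕ, 0 < M₀ ∧ ∀ (n : ℕ) (c : ℤ) (N : ℕ) (M : ℤ) (a : Fin N → ℤ[X]), 1 ≤ n → c ≠ 0 →
      1 ≤ N → M ≠ 0 → (M₀ : ℤ) ∣ M →
      (∀ S : Finset ℕ, (∀ p ∈ S, p.Prime ∧ ¬ (p : ℤ) ∣ M ∧ ¬ FullMod n c N M a p) →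
        ∑ p ∈ S, Real.log p / p ≤ Real.log (16 / |(c : ℝ)|) / n - δ) → FullAlg n c N M a := by
  classical
  obtain ⟨P, K, hPK⟩ := Pool.Agent.Y536.PC.num4 (δ / 2) (by linarith)
  refine ⟨∏ p ∈ (range (P + 1)).filter Nat.Prime, p ^ (∑ i ∈ range K, p ^ i),
    prod_pos fun p hp => pow_pos (mem_filter.1 hp).2.pos _, ?_⟩
  intro n c N M a hn hc hN hM hdvd hS
  obtain ⟨B, hB⟩ : ∃ B : Set ℕ, ∀ p, p ∈ B ↔ (¬ (p : ℤ) ∣ M ∧ ¬ FullMod n c N M a p) :=
    ⟨{p | ¬ (p : ℤ) ∣ M ∧ ¬ FullMod n c N M a p}, fun _ => Iff.rfl⟩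
  refine main (τ := Real.log (16 / |(c : ℝ)|) / n - δ / 2) hn hc (by linarith) hN hM
    (k := fun p => if p ≤ P then K else if p ∈ B then 0 else 1) ?_ ?_
  · intro p hp
    by_cases h1 : p ≤ P
    · right; right
      simp only [h1, if_true]
      refine dvd_trans ?_ hdvd
      have h2 : p ^ (∑ i ∈ range K, p ^ i) ∣
          ∏ p ∈ (range (P + 1)).filter Nat.Prime, p ^ (∑ i ∈ range K, p ^ i) :=
        dvd_prod_of_mem (fun p => p ^ (∑ i ∈ range K, p ^ i))
          (mem_filter.2 ⟨mem_range.2 (by omega), hp⟩)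
      exact_mod_cast h2
    · by_cases h2 : p ∈ B
      · left
        simp only [h1, if_false, h2, if_true]
      · right
        simp only [h1, if_false, h2]
        by_cases h3 : (p : ℤ) ∣ M
        · right
          simpa using h3
        · left
          refine ⟨trivial, ?_⟩
          by_contra h4
          exact h2 ((hB p).2 ⟨h3, h4⟩)
  · intro m
    refine (hPK B m).trans ?_
    have h1 := hS ((range (m + 1)).filter (fun p => p.Prime ∧ P < p ∧ p ∈ B)) (fun p hp => by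
      have h2 := (mem_filter.1 hp).2
      have h3 := (hB p).1 h2.2.2
      exact ⟨h2.1, h3.1, h3.2⟩)
    linarith

end Pool.Agent.Y915
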