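import Pool.Agent.Y915.HAlg
import Pool.Agent.Y915.Main
import Pool.Agent.Y809.PC.Hol

set_option autoImplicit false

/-!
# General hyperelliptic curves: the main theorems
-/

namespace Pool.Agent.Y915.Hyp

open scoped PowerSeries Polynomial
open Finset

variable {f : ℤ[X]}

theorem main (hmp : StModP2) (hf : f.coeff 0 = 0) {φ S g : ℂ⟦X⟧}
    (hφ : PowerSeries.constantCoeff φ = 0)
    (gφ : Gd 1 φ) (gS : Gd 1 S) (gg : Gd 1 g) (hS0 : PowerSeries.constantCoeff S = 1)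
    (hS : S ^ 2 = 1 + 4 * aevZ φ f) (hd : PowerSeries.derivative ℂ φ = S * g)
    {τ : ℝ} (hlt : τ < Real.log ‖PowerSeries.coeff 1 φ‖) {N : ℕ} {M : ℤ} {a : Fin N → ℤ[X]}
    (hN : 1 ≤ N) (hM : M ≠ 0) {k : ℕ → ℕ}
    (hk : ∀ p : ℕ, p.Prime → k p = 0 ∨ (k p = 1 ∧ FullMod f N M a p) ∨
      (p : ℤ) ^ (∑ i ∈ range (k p), p ^ i) ∣ M)
    (hsum : ∀ m : ℕ, ∑ p ∈ (range (m + 1)).filter Nat.Prime,
      Real.log p / ((p : ℝ) ^ k p * ((p : ℝ) - 1)) ≤ τ) : FullAlg f N M a := by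
  obtain ⟨s, w, hrt⟩ := rt f hf
  obtain ⟨Y, hY, hY0⟩ := Pool.Agent.Y810.PC.ode1 ℚ N ((M • GT N a s w).map (cst ℚ))
  -- the constant `E`
  set E : ℕ := ∏ p ∈ M.natAbs.primeFactors, p ^ vf p (p ^ k p - 1) with hE
  have hE0 : 0 < E := prod_pos fun p hp => pow_pos (Nat.prime_of_mem_primeFactors hp).pos _
  have hE' : ∀ p : ℕ, p.Prime → p ^ vf p (p ^ k p - 1) ∣ E := by
    intro p hp
    by_cases hk2 : k p ≤ 1
    · have h1 : vf p (p ^ k p - 1) = 0 := by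
        refine vf_lt ?_
        have h2 : p ^ k p ≤ p := (Nat.pow_le_pow_right hp.pos hk2).trans_eq (pow_one p)
        have h3 := hp.pos
        omega
      rw [h1, pow_zero]; exact one_dvd _
    · have h1 : (p : ℤ) ^ (∑ i ∈ range (k p), p ^ i) ∣ M := by
        rcases hk p hp with h | h | h
        · omega
        · omega
        · exact h
      have h2 : (p : ℤ) ∣ M := by
        refine dvd_trans (dvd_pow_self _ ?_) h1
        obtain ⟨j, hj⟩ : ∃ j, k p = j + 1 := ⟨k p - 1, by omega⟩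
        rw [hj, sum_range_succ']
        simp
      have h3 : p ∈ M.natAbs.primeFactors := by
        rw [Nat.mem_primeFactors]
        exact ⟨hp, Int.natCast_dvd.1 h2, by simpa using hM⟩
      exact dvd_prod_of_mem _ h3
  have hdiv : ∀ p : ℕ, p.Prime → ∀ H : Matrix (Fin N) (Fin N) ℤ⟦X⟧,
      ∃ H' : Matrix (Fin N) (Fin N) ℤ⟦X⟧,
        (nab (M • GT N a s w))^[p ^ k p] H = ((p : ℤ) ^ (vf p (p ^ k p) - 0)) • H' := by
    intro p hp H
    have hdvd : (p : ℤ) ^ vf p (p ^ k p) ∣ M → ∃ H' : Matrix (Fin N) (Fin N) ℤ⟦X⟧,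
        (nab (M • GT N a s w))^[p ^ k p] H = ((p : ℤ) ^ (vf p (p ^ k p) - 0)) • H' := by
      intro h
      rw [Nat.sub_zero]
      exact Pool.Agent.Y79.PC.NAB.nab1 N (GT N a s w) M p (k p) hp h H
    rcases hk p hp with h | ⟨h, hfm⟩ | h
    · apply hdvd
      rw [h]
      simp [vf]
    · by_cases hpM : (p : ℤ) ∣ M
      · apply hdvd
        rw [vf_pow hp, h]
        simpa using hpM
      · have : Fact p.Prime := ⟨hp⟩
        obtain ⟨Yp, hYp, hYp'⟩ := hmp f N M a s w p hf hN hrt hpM hfm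
        obtain ⟨H', hH'⟩ := Pool.Agent.Y79.PC.NAB.van N (M • GT N a s w) p Yp hYp hYp' H
        refine ⟨H', ?_⟩
        have h1 : vf p (p ^ k p) = 1 := by rw [vf_pow hp, h]; simp
        rw [h1, h]
        simpa using hH'
    · apply hdvd
      rw [vf_pow hp]; exact h
  -- positive radius of convergence
  have hsmall : ∃ r : ℝ, 0 < r ∧ ∀ i j, Gd r (cst ℂ ((M • GT N a s w) i j)) := by
    obtain ⟨r, hr, gw, gs⟩ := gd_small Pool.Agent.Y810.PC.ode3 hf hrt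
    refine ⟨r, hr, fun i j => ?_⟩
    have h3 : cst ℂ ((M • GT N a s w) i j) = ((M • GT N a s w).map (cst ℂ)) i j := rfl
    rw [h3, GT_map]
    refine Gd.mul (Gd.intCast _ M) (Gd.mul gw ?_)
    split_ifs
    · exact Gd.one _
    · exact Gd.zero _
    · refine Gd.neg ?_
      unfold al
      refine Gd.mul ((Gd.X _).aevZ _) ?_
      split_ifs
      · exact Gd.one _
      · exact gs
  have halg : ∀ i j, IsAlgebraic ℚ[X] (Y i j) := by
    intro i j
    refine core hY hY0 (k := k) (d := fun _ => 0) hE0 hE' hdiv (τ := τ) ?_ hsmall hφ gφ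
      (gd_GT hrt hφ gφ gS gg hS0 hS hd) hlt i j
    intro m
    refine le_trans (le_of_eq ?_) (hsum m)
    refine sum_congr rfl fun p _ => ?_
    push_cast
    rw [zero_add, mul_one_div, div_div, mul_comm ((p : ℝ) - 1)]
  exact fullAlg_of hY hY0 hrt hN hM fun j => halg _ j

/-- The version with a modulus `M₀` that depends on the gap `δ` only. -/
theorem main0 (hmp : StModP2) {δ : ℝ} (hδ0 : 0 < δ) :
    ∃ M₀ : ℕ, 0 < M₀ ∧ ∀ (f : ℤ[X]) (φ S g : ℂ⟦X⟧), f.coeff 0 = 0 →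
      PowerSeries.constantCoeff φ = 0 → Gd 1 φ → Gd 1 S → Gd 1 g →
      PowerSeries.constantCoeff S = 1 → S ^ 2 = 1 + 4 * aevZ φ f →
      PowerSeries.derivative ℂ φ = S * g →
      ∀ (N : ℕ) (M : ℤ) (a : Fin N → ℤ[X]), 1 ≤ N → M ≠ 0 → (M₀ : ℤ) ∣ M →
      (∀ T : Finset ℕ, (∀ p ∈ T, p.Prime ∧ ¬ (p : ℤ) ∣ M ∧ ¬ FullMod f N M a p) →
        ∑ p ∈ T, Real.log p / p ≤ Real.log ‖PowerSeries.coeff 1 φ‖ - δ) → FullAlg f N M a := by
  classical
  obtain ⟨P, K, hPK⟩ := Pool.Agent.Y536.PC.num4 (δ / 2) (by linarith)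
  refine ⟨∏ p ∈ (range (P + 1)).filter Nat.Prime, p ^ (∑ i ∈ range K, p ^ i),
    prod_pos fun p hp => pow_pos (mem_filter.1 hp).2.pos _, ?_⟩
  intro f φ S g hf hφ gφ gS gg hS0 hS hd N M a hN hM hdvd hT
  obtain ⟨B, hB⟩ : ∃ B : Set ℕ, ∀ p, p ∈ B ↔ (¬ (p : ℤ) ∣ M ∧ ¬ FullMod f N M a p) :=
    ⟨{p | ¬ (p : ℤ) ∣ M ∧ ¬ FullMod f N M a p}, fun _ => Iff.rfl⟩
  refine main hmp hf hφ gφ gS gg hS0 hS hd
    (τ := Real.log ‖PowerSeries.coeff 1 φ‖ - δ / 2) (by linarith) hN hM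
    (k := fun p => if p ≤ P then K else if p ∈ B then 0 else 1) ?_ ?_
  · intro p hp
    by_cases h1 : p ≤ P
    · right; right
      simp only [h1, if_true]
      refine dvd_trans ?_ hdvd
      have h2 : p ^ (∑ i ∈ range K, p ^ i) ∣
          ∏ p ∈ (range (P + 1)).filter Nat.Prime, p ^ (∑ i ∈ range K, p ^ i) :=
        dvd_prod_of_mem (fun p => p ^ (∑ i ∈ range K, p ^ i))
          (mem_filter.2 ⟨mem_range.2 (by omega), hp⟩)
      exact_mod_cast h2
    · by_cases h2 : p ∈ B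
      · left
        simp only [h1, if_false, h2, if_true]
      · right
        simp only [h1, if_false, h2]
        by_cases h3 : (p : ℤ) ∣ M
        · right
          simpa using h3
        · left
          refine ⟨trivial, ?_⟩
          by_contra h4
          exact h2 ((hB p).2 ⟨h3, h4⟩)
  · intro m
    refine (hPK B m).trans ?_
    have h1 := hT ((range (m + 1)).filter (fun p => p.Prime ∧ P < p ∧ p ∈ B)) (fun p hp => by
      have h2 := (mem_filter.1 hp).2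
      have h3 := (hB p).1 h2.2.2
      exact ⟨h2.1, h3.1, h3.2⟩)
    linarith

/-- A holomorphic map from the unit disc to the affine curve `s² = 1 + 4 f(x)`, in the
coordinates `(x, s) = (φ, S)`, that maps `0` to `(0, 1)`; `g` is the pull-back of `dx / s`. -/
def IsDisc (f : ℤ[X]) (φ S g : ℂ → ℂ) : Prop :=
  DifferentiableOn ℂ φ (Metric.ball 0 1) ∧ DifferentiableOn ℂ S (Metric.ball 0 1) ∧
  DifferentiableOn ℂ g (Metric.ball 0 1) ∧ φ 0 = 0 ∧ S 0 = 1 ∧
  ∀ z ∈ Metric.ball (0 : ℂ) 1, S z ^ 2 = 1 + 4 * Polynomial.aeval (φ z) f ∧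
    deriv φ z = S z * g z

lemma IsDisc.series {f : ℤ[X]} {φ S g : ℂ → ℂ} (h : IsDisc f φ S g) :
    ∃ φ' S' g' : ℂ⟦X⟧, PowerSeries.constantCoeff φ' = 0 ∧ Gd 1 φ' ∧ Gd 1 S' ∧ Gd 1 g' ∧
      PowerSeries.constantCoeff S' = 1 ∧ S' ^ 2 = 1 + 4 * aevZ φ' f ∧
      PowerSeries.derivative ℂ φ' = S' * g' ∧ PowerSeries.coeff 1 φ' = deriv φ 0 := by
  obtain ⟨h1, h2, h3, h4, h5, h6⟩ := h
  obtain ⟨T, t1, t2, t3, t4, t5, t6, t7, t8⟩ := Pool.Agent.Y809.PC.hol
  have hconst : ∀ a : ℂ, Hol (fun _ => a) := fun a => differentiableOn_const a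
  have hpow : ∀ n : ℕ, Hol (fun z => φ z ^ n) ∧ T (fun z => φ z ^ n) = T φ ^ n := by
    intro n
    induction n with
    | zero =>
      simp only [pow_zero]
      exact ⟨hconst 1, by rw [t7, map_one]⟩
    | succ n ih =>
      have hh : Hol (fun z => φ z ^ (n + 1)) := DifferentiableOn.pow h1 (n + 1)
      refine ⟨hh, ?_⟩
      have : (fun z => φ z ^ (n + 1)) = (fun z => (fun z => φ z ^ n) z * φ z) := by
        funext z; simp only [pow_succ]
      rw [this, t6 _ _ ih.1 h1, ih.2, pow_succ]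
  have hpoly : ∀ P : ℤ[X], Hol (fun z => P.eval₂ (Int.castRingHom ℂ) (φ z)) ∧
      T (fun z => P.eval₂ (Int.castRingHom ℂ) (φ z)) =
        P.eval₂ (Int.castRingHom ℂ⟦X⟧) (T φ) := by
    intro P
    induction P using Polynomial.induction_on' with
    | add P Q hP hQ =>
      simp only [Polynomial.eval₂_add]
      exact ⟨DifferentiableOn.add hP.1 hQ.1, by rw [t5 _ _ hP.1 hQ.1, hP.2, hQ.2]⟩
    | monomial m r =>
      simp only [Polynomial.eval₂_monomial]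
      have hc := hconst ((Int.castRingHom ℂ) r)
      refine ⟨DifferentiableOn.mul hc (hpow m).1, ?_⟩
      rw [t6 _ _ hc (hpow m).1, (hpow m).2, t7]
      congr 1
      simp
  refine ⟨T φ, T S, T g, ?_, t1 _ h1, t1 _ h2, t1 _ h3, ?_, ?_, ?_, t4 _ h1⟩
  · rw [t3 _ h1, h4]
  · rw [t3 _ h2, h5]
  · have e1 : T (fun z => S z * S z) = T S * T S := t6 _ _ h2 h2
    have h4P : Hol (fun z => (4 : ℂ) * f.eval₂ (Int.castRingHom ℂ) (φ z)) :=
      DifferentiableOn.mul (hconst 4) (hpoly f).1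
    have e3 : T (fun z => (4 : ℂ) * f.eval₂ (Int.castRingHom ℂ) (φ z)) =
        T (fun _ => 4) * T (fun z => f.eval₂ (Int.castRingHom ℂ) (φ z)) :=
      t6 _ _ (hconst 4) (hpoly f).1
    have e4 : T (fun z => (1 : ℂ) + 4 * f.eval₂ (Int.castRingHom ℂ) (φ z)) =
        T (fun _ => 1) + T (fun z => (4 : ℂ) * f.eval₂ (Int.castRingHom ℂ) (φ z)) :=
      t5 _ _ (hconst 1) h4P
    have e2 : T (fun z => (1 : ℂ) + 4 * f.eval₂ (Int.castRingHom ℂ) (φ z)) =
        1 + 4 * aevZ (T φ) f := by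
      rw [e4, e3, (hpoly f).2, t7, t7, map_one, aevZ_eq]
      congr 2
    rw [sq, ← e1, ← e2]
    refine t2 _ _ (DifferentiableOn.mul h2 h2) fun z hz => ?_
    have h7 := (h6 z hz).1
    have h8 : Polynomial.aeval (φ z) f = f.eval₂ (Int.castRingHom ℂ) (φ z) := by
      rw [Polynomial.aeval_def]; congr 1
    rw [h8] at h7
    show S z * S z = 1 + 4 * f.eval₂ (Int.castRingHom ℂ) (φ z)
    rw [← h7]; ring
  · rw [← (t8 _ h1).2, ← t6 _ _ h2 h3]
    exact t2 _ _ (t8 _ h1).1 fun z hz => (h6 z hz).2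

end Pool.Agent.Y915.Hyp
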