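import Pool.Agent.Y915.Stm2

set_option autoImplicit false

/-!
# The operators `B_i` and the iterates of `s ∂`, for `s² = 1 + 4 f(x)`
-/

namespace Pool.Agent.Y915.Hyp

open scoped PowerSeries Polynomial
open Finset

lemma map_aevalZ {R S : Type*} [CommRing R] [CommRing S] (σ : R →+* S) {x : R} {x' : S}
    (hx : σ x = x') (P : ℤ[X]) : σ (Polynomial.aeval x P) = Polynomial.aeval x' P := by
  have h2 : σ.toIntAlgHom (Polynomial.aeval x P) =
      Polynomial.aeval (σ.toIntAlgHom x) P := (Polynomial.aeval_algHom_apply _ _ _).symm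
  have h3 : σ.toIntAlgHom x = x' := hx
  rw [h3] at h2
  exact h2

section map

variable {R S : Type*} [CommRing R] [CommRing S] (σ : R →+* S) {D : R → R} {D' : S → S}
  (hD : ∀ f, σ (D f) = D' (σ f)) {x : R} {x' : S} (hx : σ x = x')

include hD hx

lemma map_delta (f : ℤ[X]) (y : R) : σ (delta f D x y) = delta f D' x' (σ y) := by
  unfold delta
  simp only [map_add, map_mul, map_one, map_ofNat, map_aevalZ σ hx, hD]

lemma map_delta_iter (f : ℤ[X]) (k : ℕ) (y : R) :
    σ ((delta f D x)^[k] y) = (delta f D' x')^[k] (σ y) := by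
  induction k generalizing y with
  | zero => rfl
  | succ k ih =>
    rw [Function.iterate_succ_apply, Function.iterate_succ_apply, ih, map_delta σ hD hx]

lemma map_base (f : ℤ[X]) (i : ℕ) (y : R) :
    σ (base f D x i y) = base f D' x' i (σ y) := by
  unfold base
  split_ifs
  · exact map_delta_iter σ hD hx f _ y
  · rw [hD, map_delta_iter σ hD hx]

lemma map_oper (f : ℤ[X]) (N : ℕ) (M : ℤ) (a : Fin N → ℤ[X]) (y : R) :
    σ (oper f N M a D x y) = oper f N M a D' x' (σ y) := by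
  unfold oper
  rw [map_add, map_base σ hD hx, map_sum]
  congr 1
  refine sum_congr rfl fun i _ => ?_
  rw [map_mul, map_mul, map_mul, map_pow, map_intCast, map_base σ hD hx, map_aevalZ σ hx]
  congr 2
  split_ifs
  · simp only [map_add, map_mul, map_one, map_ofNat, map_aevalZ σ hx]
  · rw [map_one]

end map

section thetaF

variable {R : Type*} [CommRing R] (D : R → R) (hL : ∀ a b, D (a * b) = a * D b + b * D a)
  (x s : R) (f : ℤ[X])
  (hs : s ^ 2 = 1 + 4 * Polynomial.aeval x f)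
  (hds : s * D s = 2 * Polynomial.aeval x (Polynomial.derivative f))

include hL hs hds

lemma theta_thetaF (y : R) : s * D (s * D y) = delta f D x y := by
  unfold delta
  rw [hL, ← hs, ← hds]
  ring

lemma theta_iter_twoF (k : ℕ) (y : R) :
    (fun y => s * D y)^[2 * k] y = (delta f D x)^[k] y := by
  rw [Function.iterate_mul]
  congr 1
  funext z
  show s * D (s * D z) = _
  exact theta_thetaF D hL x s f hs hds z

lemma theta_iterF (i : ℕ) (y : R) :
    (fun y => s * D y)^[i] y = (if Even i then 1 else s) * base f D x i y := by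
  unfold base
  rcases Nat.even_or_odd' i with ⟨k, rfl | rfl⟩
  · have h : Even (2 * k) := even_two_mul k
    rw [if_pos h, if_pos h, one_mul, theta_iter_twoF D hL x s f hs hds]
    congr 2
    omega
  · have h : ¬ Even (2 * k + 1) := by
      rw [Nat.not_even_iff_odd]; exact odd_two_mul_add_one k
    have h2 : (2 * k + 1) / 2 = k := by omega
    rw [if_neg h, if_neg h, Function.iterate_succ_apply', theta_iter_twoF D hL x s f hs hds, h2]

/-- The operator in terms of the iterates of `s ∂`. -/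
lemma oper_thetaF (N : ℕ) (M : ℤ) (a : Fin N → ℤ[X]) (y : R) :
    (if Even N then 1 else s) * oper f N M a D x y =
      (fun y => s * D y)^[N] y + ∑ i : Fin N, (M : R) ^ (N - (i : ℕ)) *
        (Polynomial.aeval x (a i) * (if Even (N - (i : ℕ)) then 1 else s)) *
        (fun y => s * D y)^[(i : ℕ)] y := by
  unfold oper
  rw [mul_add, theta_iterF D hL x s f hs hds, mul_sum]
  congr 1
  refine sum_congr rfl fun i _ => ?_
  rw [theta_iterF D hL x s f hs hds]
  have hi : (i : ℕ) < N := i.2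
  by_cases hN : Even N
  · by_cases hi2 : Even (i : ℕ)
    · have h1 : Even (N - (i : ℕ)) := by rw [Nat.even_sub hi.le]; tauto
      have h2 : ¬ (Even N ∧ Odd (i : ℕ)) := by
        rintro ⟨_, h⟩; exact (Nat.not_even_iff_odd.2 h) hi2
      rw [if_pos hN, if_neg h2, if_pos h1, if_pos hi2]; ring
    · have h1 : ¬ Even (N - (i : ℕ)) := by rw [Nat.even_sub hi.le]; tauto
      have h2 : Even N ∧ Odd (i : ℕ) := ⟨hN, Nat.not_even_iff_odd.1 hi2⟩
      rw [if_pos hN, if_pos h2, if_neg h1, if_neg hi2, ← hs]; ring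
  · by_cases hi2 : Even (i : ℕ)
    · have h1 : ¬ Even (N - (i : ℕ)) := by rw [Nat.even_sub hi.le]; tauto
      have h2 : ¬ (Even N ∧ Odd (i : ℕ)) := by tauto
      rw [if_neg hN, if_neg h2, if_neg h1, if_pos hi2]; ring
    · have h1 : Even (N - (i : ℕ)) := by rw [Nat.even_sub hi.le]; tauto
      have h2 : ¬ (Even N ∧ Odd (i : ℕ)) := by tauto
      rw [if_neg hN, if_neg h2, if_pos h1, if_neg hi2]; ring

end thetaF

/-! ### The square root over `ℤ` -/

lemma exists_v (f : ℤ[X]) (hf : f.coeff 0 = 0) :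
    ∃ v : ℤ⟦X⟧, PowerSeries.constantCoeff v = 0 ∧ v ^ 2 + v = (f : ℤ⟦X⟧) := by
  set C₀ : ℤ⟦X⟧ := PowerSeries.map (Nat.castRingHom ℤ) PowerSeries.catalanSeries with hC₀
  have h1 : C₀ ^ 2 * PowerSeries.X + 1 = C₀ := by
    have := congrArg (PowerSeries.map (Nat.castRingHom ℤ)) PowerSeries.catalanSeries_sq_mul_X_add_one
    simpa [hC₀] using this
  set y : ℤ⟦X⟧ := -(f : ℤ⟦X⟧) with hy
  have hf0 : PowerSeries.constantCoeff (f : ℤ⟦X⟧) = 0 := by
    rw [← PowerSeries.coeff_zero_eq_constantCoeff_apply, Polynomial.coeff_coe, hf]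
  have hy0 : PowerSeries.constantCoeff y = 0 := by
    rw [hy, map_neg, hf0, neg_zero]
  have hs : PowerSeries.HasSubst y := PowerSeries.HasSubst.of_constantCoeff_zero' hy0
  have h2 : (C₀.subst y : ℤ⟦X⟧) ^ 2 * y + 1 = C₀.subst y := by
    have h3 := congrArg (PowerSeries.substAlgHom (R := ℤ) hs) h1
    rw [map_add, map_mul, map_pow, map_one, PowerSeries.substAlgHom_X,
      PowerSeries.coe_substAlgHom] at h3
    exact h3
  refine ⟨(f : ℤ⟦X⟧) * C₀.subst y, ?_, ?_⟩
  · rw [map_mul, hf0, zero_mul]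
  · have h4 : (f : ℤ⟦X⟧) = -y := by rw [hy]; ring
    rw [h4]
    linear_combination y * h2

theorem rt (f : ℤ[X]) (hf : f.coeff 0 = 0) : ∃ s w : ℤ⟦X⟧, IsRt f s w := by
  obtain ⟨v, hv0, hv⟩ := exists_v f hf
  set s : ℤ⟦X⟧ := 1 + 2 * v with hs
  have hs0 : PowerSeries.constantCoeff s = 1 := by simp [hs, hv0]
  have hsq : s ^ 2 = 1 + 4 * (f : ℤ⟦X⟧) := by
    rw [hs]; linear_combination 4 * hv
  have hu : IsUnit s := by
    rw [PowerSeries.isUnit_iff_constantCoeff, hs0]; exact isUnit_one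
  obtain ⟨w, hw⟩ := hu.exists_right_inv
  refine ⟨s, w, hs0, hsq, hw, ?_, v, rfl⟩
  have h1 := congrArg (PowerSeries.derivative ℤ) hv
  rw [map_add, PowerSeries.derivative_pow, PowerSeries.derivative_coe] at h1
  have h2 : PowerSeries.derivative ℤ s = 2 * PowerSeries.derivative ℤ v := by
    rw [hs, map_add, Derivation.map_one_eq_zero, zero_add]
    have h3 : (2 : ℤ⟦X⟧) * v = v + v := by ring
    rw [h3, map_add]; ring
  rw [h2, hs]
  have h5 : ((2 : ℕ) : ℤ⟦X⟧) * v ^ (2 - 1) * PowerSeries.derivative ℤ v =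
      2 * v * PowerSeries.derivative ℤ v := by
    norm_num
  rw [h5] at h1
  linear_combination 2 * h1

/-! ### The system over `K⟦x⟧` -/

variable {f : ℤ[X]} {N : ℕ} {M : ℤ} {a : Fin N → ℤ[X]} {s w : ℤ⟦X⟧}

lemma IsRt.sq' (h : IsRt f s w) (K : Type) [CommRing K] :
    (cst K s) ^ 2 = 1 + 4 * aevZ (PowerSeries.X : K⟦X⟧) f := by
  have := congrArg (cst K) h.sq
  rwa [map_pow, map_add, map_one, map_mul, map_ofNat, cst_poly] at this

lemma IsRt.der' (h : IsRt f s w) (K : Type) [CommRing K] :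
    cst K s * dz K (cst K s) =
      2 * aevZ (PowerSeries.X : K⟦X⟧) (Polynomial.derivative f) := by
  have := congrArg (cst K) h.der
  rw [map_mul, ← derivative_cst, map_mul, map_ofNat, cst_poly] at this
  exact this

lemma IsRt.inv' (h : IsRt f s w) (K : Type) [CommRing K] :
    cst K s * cst K w = 1 := by
  have := congrArg (cst K) h.inv
  simpa using this

lemma row_lt {K : Type} [CommRing K] {Y : Matrix (Fin N) (Fin N) K⟦X⟧}
    (hY : dM Y = (M • GT N a s w).map (cst K) * Y) (hrt : IsRt f s w) {i : ℕ} (hi : i + 1 < N)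
    (j : Fin N) :
    cst K s * dz K (Y ⟨i, by omega⟩ j) = (M : K⟦X⟧) * Y ⟨i + 1, hi⟩ j := by
  have h1 := congrFun (congrFun hY ⟨i, by omega⟩) j
  have h2 : dM Y ⟨i, by omega⟩ j = dz K (Y ⟨i, by omega⟩ j) := rfl
  rw [h2, Matrix.mul_apply] at h1
  rw [h1, mul_sum, sum_eq_single (⟨i + 1, hi⟩ : Fin N)]
  · rw [GT_map]
    simp only [hi, if_true]
    linear_combination (M : K⟦X⟧) * Y ⟨i + 1, hi⟩ j * hrt.inv' K
  · intro l _ hl
    rw [GT_map]
    have h3 : (l : ℕ) ≠ i + 1 := fun h => hl (Fin.ext h)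
    simp only [hi, if_true, h3, if_false, mul_zero, zero_mul]
  · intro h; exact absurd (mem_univ _) h

lemma row_last {K : Type} [CommRing K] {Y : Matrix (Fin N) (Fin N) K⟦X⟧}
    (hY : dM Y = (M • GT N a s w).map (cst K) * Y) (hrt : IsRt f s w) (hN : 1 ≤ N)
    (j : Fin N) :
    cst K s * dz K (Y ⟨N - 1, by omega⟩ j) = - ((M : K⟦X⟧) * ∑ l, al K a s l * Y l j) := by
  have h1 := congrFun (congrFun hY ⟨N - 1, by omega⟩) j
  have h2 : dM Y ⟨N - 1, by omega⟩ j = dz K (Y ⟨N - 1, by omega⟩ j) := rfl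
  rw [h2, Matrix.mul_apply] at h1
  rw [h1, mul_sum, mul_sum, ← sum_neg_distrib]
  refine sum_congr rfl fun l _ => ?_
  rw [GT_map]
  have h3 : ¬ (((⟨N - 1, by omega⟩ : Fin N) : ℕ) + 1 < N) := by simp only []; omega
  rw [if_neg h3]
  linear_combination (- (M : K⟦X⟧) * al K a s l * Y l j) * hrt.inv' K

lemma theta_row {K : Type} [CommRing K] {Y : Matrix (Fin N) (Fin N) K⟦X⟧}
    (hY : dM Y = (M • GT N a s w).map (cst K) * Y) (hrt : IsRt f s w) (hN : 1 ≤ N)
    (j : Fin N) (i : ℕ) (hi : i < N) :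
    (fun y => cst K s * dz K y)^[i] (Y ⟨0, hN⟩ j) = (M : K⟦X⟧) ^ i * Y ⟨i, hi⟩ j := by
  induction i with
  | zero => simp
  | succ i ih =>
    rw [Function.iterate_succ_apply', ih (by omega)]
    show cst K s * dz K ((M : K⟦X⟧) ^ i * Y ⟨i, by omega⟩ j) = _
    have h1 : (M : K⟦X⟧) ^ i = ((M ^ i : ℤ) : K⟦X⟧) := by push_cast; ring
    rw [h1, dz_intMul]
    have h2 := row_lt hY hrt hi j
    push_cast
    linear_combination (M : K⟦X⟧) ^ i * h2

lemma theta_last {K : Type} [CommRing K] {Y : Matrix (Fin N) (Fin N) K⟦X⟧}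
    (hY : dM Y = (M • GT N a s w).map (cst K) * Y) (hrt : IsRt f s w) (hN : 1 ≤ N)
    (j : Fin N) :
    (fun y => cst K s * dz K y)^[N] (Y ⟨0, hN⟩ j) + ∑ i : Fin N, (M : K⟦X⟧) ^ (N - (i : ℕ)) *
        al K a s i * (fun y => cst K s * dz K y)^[(i : ℕ)] (Y ⟨0, hN⟩ j) = 0 := by
  have h0 : (fun y => cst K s * dz K y)^[N] (Y ⟨0, hN⟩ j) =
      -((M : K⟦X⟧) ^ N * ∑ l, al K a s l * Y l j) := by
    obtain ⟨N', rfl⟩ : ∃ N', N = N' + 1 := ⟨N - 1, by omega⟩
    rw [Function.iterate_succ_apply', theta_row hY hrt hN j N' (by omega)]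
    show cst K s * dz K ((M : K⟦X⟧) ^ N' * Y ⟨N', by omega⟩ j) = _
    have h1 : (M : K⟦X⟧) ^ N' = ((M ^ N' : ℤ) : K⟦X⟧) := by push_cast; ring
    rw [h1, dz_intMul]
    have h2 := row_last hY hrt hN j
    have h3 : (⟨N' + 1 - 1, by omega⟩ : Fin (N' + 1)) = ⟨N', by omega⟩ := by
      apply Fin.ext; simp
    rw [h3] at h2
    push_cast
    linear_combination (M : K⟦X⟧) ^ N' * h2
  rw [h0, mul_sum, neg_add_eq_zero]
  refine sum_congr rfl fun i _ => ?_
  rw [theta_row hY hrt hN j i i.2]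
  have h4 : (M : K⟦X⟧) ^ N = (M : K⟦X⟧) ^ (N - (i : ℕ)) * (M : K⟦X⟧) ^ (i : ℕ) := by
    rw [← pow_add]; congr 1; have := i.2; omega
  rw [h4]; ring

/-- The first row consists of solutions of the operator. -/
theorem oper_row {K : Type} [Field K] {Y : Matrix (Fin N) (Fin N) K⟦X⟧}
    (hY : dM Y = (M • GT N a s w).map (cst K) * Y) (hrt : IsRt f s w) (hN : 1 ≤ N)
    (j : Fin N) : oper f N M a (PowerSeries.derivative K) PowerSeries.X (Y ⟨0, hN⟩ j) = 0 := by
  have h1 := oper_thetaF (dz K) dz_mul PowerSeries.X (cst K s) f (hrt.sq' K) (hrt.der' K) N M a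
    (Y ⟨0, hN⟩ j)
  have h2 := theta_last hY hrt hN j
  replace h1 := h1.trans h2
  have h3 : (if Even N then 1 else cst K s) ≠ 0 := by
    split_ifs
    · exact one_ne_zero
    · intro h
      have := hrt.inv' K
      rw [h, zero_mul] at this
      exact zero_ne_one this
  exact (mul_eq_zero.1 h1).resolve_left h3

end Pool.Agent.Y915.Hyp
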