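import Pool.Agent.Y915.Cur3

set_option autoImplicit false

/-!
# The algebraicity criterion for meromorphic maps from the disc
-/

namespace Pool.Agent.Y915.Mero

open scoped PowerSeries Polynomial
open Finset Pool.Agent.Y474.PC Pool.Agent.Y915.Cur

/-- Quotients of functions holomorphic in the unit disc, with denominator `1` at the origin. -/
def Mer (f : ℂ⟦X⟧) : Prop :=
  ∃ Q : ℂ⟦X⟧, PowerSeries.constantCoeff Q = 1 ∧ Gd 1 Q ∧ Gd 1 (Q * f)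

/-- Bound of `Ψ gP`. -/
lemma Bd_gP' (f : ℚ⟦X⟧) (Ψ : ℚ⟦X⟧ →+* ℂ⟦X⟧) (T : ℕ) (P : Fin (T + 1) × Fin (T + 1) → ℤ)
    {H B ρ : ℝ} (hρ : 0 ≤ ρ) (hB : 1 ≤ B) {Q : ℂ⟦X⟧} (hQ : Bd ρ B Q)
    (h1 : Bd ρ B (Q * Ψ PowerSeries.X)) (h2 : Bd ρ B (Q * Ψ f))
    (hP : ∀ x, |(P x : ℝ)| ≤ H) :
    Bd ρ (((T : ℝ) + 1) ^ 2 * (H * B ^ (2 * T))) (Q ^ (2 * T) * Ψ (gP f T P)) := by
  have hH : 0 ≤ H := le_trans (abs_nonneg _) (hP (0, 0))
  have key : ∀ x ∈ (univ : Finset (Fin (T + 1) × Fin (T + 1))), Bd ρ (H * B ^ (2 * T))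
      (Q ^ (2 * T) *
        Ψ (PowerSeries.C ((P x : ℤ) : ℚ) * (PowerSeries.X ^ (x.1 : ℕ) * f ^ (x.2 : ℕ)))) := by
    intro x _
    have e1 : Ψ (PowerSeries.C ((P x : ℤ) : ℚ)) = PowerSeries.C ((P x : ℤ) : ℂ) := by
      have a1 : (PowerSeries.C ((P x : ℤ) : ℚ) : ℚ⟦X⟧) = ((P x : ℤ) : ℚ⟦X⟧) := by
        rw [map_intCast]
      have a2 : (PowerSeries.C ((P x : ℤ) : ℂ) : ℂ⟦X⟧) = ((P x : ℤ) : ℂ⟦X⟧) := by
        rw [map_intCast]
      rw [a1, a2, map_intCast]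
    have hx1 := x.1.2
    have hx2 := x.2.2
    have e2 : Q ^ (2 * T) * (PowerSeries.C ((P x : ℤ) : ℂ) *
        ((Ψ PowerSeries.X) ^ (x.1 : ℕ) * (Ψ f) ^ (x.2 : ℕ))) =
        PowerSeries.C ((P x : ℤ) : ℂ) * ((Q * Ψ PowerSeries.X) ^ (x.1 : ℕ) *
          ((Q * Ψ f) ^ (x.2 : ℕ) * Q ^ (2 * T - (x.1 : ℕ) - (x.2 : ℕ)))) := by
      have e3 : Q ^ (2 * T) = Q ^ (x.1 : ℕ) * (Q ^ (x.2 : ℕ) *
          Q ^ (2 * T - (x.1 : ℕ) - (x.2 : ℕ))) := by
        rw [← pow_add, ← pow_add]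
        congr 1
        omega
      rw [e3, mul_pow, mul_pow]
      ring
    rw [map_mul, map_mul, map_pow, map_pow, e1, e2]
    have b1 := Bd_C ρ ((P x : ℤ) : ℂ)
    have b2 := Bd_mul hρ b1 (Bd_mul hρ (Bd_pow hρ h1 (x.1 : ℕ))
      (Bd_mul hρ (Bd_pow hρ h2 (x.2 : ℕ)) (Bd_pow hρ hQ (2 * T - (x.1 : ℕ) - (x.2 : ℕ)))))
    refine Bd_mono b2 ?_
    have n1 : ‖((P x : ℤ) : ℂ)‖ = |(P x : ℝ)| := by
      rw [Complex.norm_intCast]
    rw [n1]
    refine mul_le_mul (hP x) ?_ (by positivity) hH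
    rw [← pow_add, ← pow_add]
    refine pow_le_pow_right₀ hB ?_
    omega
  have := Bd_sum univ hρ (fun _ => H * B ^ (2 * T)) _ key
  have e4 : ∑ x : Fin (T + 1) × Fin (T + 1), (Q ^ (2 * T) *
      Ψ (PowerSeries.C ((P x : ℤ) : ℚ) * (PowerSeries.X ^ (x.1 : ℕ) * f ^ (x.2 : ℕ)))) =
      Q ^ (2 * T) * Ψ (gP f T P) := by
    rw [gP, map_sum, mul_sum]
  rw [e4] at this
  refine Bd_mono this ?_
  rw [sum_const, card_univ]
  simp only [Fintype.card_prod, Fintype.card_fin, nsmul_eq_mul]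
  push_cast
  exact le_of_eq (by ring)

/-- The lowest coefficient of `Q' Ψ (X^N h)`. -/
lemma low_coeff' (Ψ : ℚ⟦X⟧ →+* ℂ⟦X⟧)
    (hc : ∀ g : ℚ⟦X⟧, PowerSeries.constantCoeff (Ψ g) = ((PowerSeries.constantCoeff g : ℚ) : ℂ))
    (N : ℕ) (g : ℚ⟦X⟧) (hg : ∀ m < N, PowerSeries.coeff m g = 0) {Q' : ℂ⟦X⟧}
    (hQ : PowerSeries.constantCoeff Q' = 1) :
    PowerSeries.coeff N (Q' * Ψ g) =
      (PowerSeries.coeff 1 (Ψ PowerSeries.X)) ^ N * ((PowerSeries.coeff N g : ℚ) : ℂ) := by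
  rw [← low_coeff Ψ hc N g hg]
  obtain ⟨h, rfl⟩ := PowerSeries.X_pow_dvd_iff.2 hg
  have hX : PowerSeries.constantCoeff (Ψ PowerSeries.X) = 0 := by rw [hc]; simp
  obtain ⟨φ, hφ⟩ := PowerSeries.X_dvd_iff.2 hX
  have e1 : Ψ (PowerSeries.X ^ N * h) = PowerSeries.X ^ N * (φ ^ N * Ψ h) := by
    rw [map_mul, map_pow, hφ]
    ring
  have e2 : Q' * Ψ (PowerSeries.X ^ N * h) = PowerSeries.X ^ N * (Q' * (φ ^ N * Ψ h)) := by
    rw [e1]; ring
  rw [e2, e1]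
  have h1 := PowerSeries.coeff_X_pow_mul (Q' * (φ ^ N * Ψ h)) N 0
  have h2 := PowerSeries.coeff_X_pow_mul (φ ^ N * Ψ h) N 0
  rw [zero_add] at h1 h2
  rw [h1, h2, PowerSeries.coeff_zero_eq_constantCoeff_apply,
    PowerSeries.coeff_zero_eq_constantCoeff_apply, map_mul, hQ, one_mul]

/-- The main inequality. -/
lemma main_ineq' (f : ℚ⟦X⟧) (W : ℕ → ℕ) (E : ℕ) (τ : ℝ) (Ψ : ℚ⟦X⟧ →+* ℂ⟦X⟧)
    (hE : 0 < E) (hW0 : ∀ m, 0 < W m) (hW : ∀ m l, W m * W l ∣ W (m + l))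
    (hτ : ∀ m : ℕ, Real.log (W m) ≤ τ * m)
    (hf : ∀ m : ℕ, ∃ z : ℤ, ((E * W m : ℕ) : ℚ) * PowerSeries.coeff m f = z)
    (hc : ∀ g : ℚ⟦X⟧, PowerSeries.constantCoeff (Ψ g) = ((PowerSeries.constantCoeff g : ℚ) : ℂ))
    {ρ B : ℝ} (hρ : 0 < ρ) (hB : 1 ≤ B) {Q : ℂ⟦X⟧} (hQ1 : PowerSeries.constantCoeff Q = 1)
    (hQ : Bd ρ B Q) (h1 : Bd ρ B (Q * Ψ PowerSeries.X)) (h2 : Bd ρ B (Q * Ψ f))
    (hR : 0 < ‖PowerSeries.coeff 1 (Ψ PowerSeries.X)‖)
    (T : ℕ) (P : Fin (T + 1) × Fin (T + 1) → ℤ) {H : ℝ} (hH : 1 ≤ H)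
    (hP : ∀ x, |(P x : ℝ)| ≤ H) (hg : gP f T P ≠ 0) :
    ∃ N : ℕ, PowerSeries.coeff N (gP f T P) ≠ 0 ∧
      (Real.log ‖PowerSeries.coeff 1 (Ψ PowerSeries.X)‖ + Real.log ρ - τ) * N ≤
      2 * Real.log (T + 1) + Real.log H + 2 * T * Real.log B + T * Real.log E := by
  classical
  have hex : ∃ n, PowerSeries.coeff n (gP f T P) ≠ 0 := by
    by_contra hcon
    push Not at hcon
    exact hg (PowerSeries.ext fun n => by simpa using hcon n)
  obtain ⟨N, hN, hmin⟩ : ∃ N, PowerSeries.coeff N (gP f T P) ≠ 0 ∧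
      ∀ m < N, PowerSeries.coeff m (gP f T P) = 0 :=
    ⟨Nat.find hex, Nat.find_spec hex, fun m hm => by
      have := Nat.find_min hex hm
      push Not at this
      exact this⟩
  refine ⟨N, hN, ?_⟩
  set R : ℝ := ‖PowerSeries.coeff 1 (Ψ PowerSeries.X)‖ with hRdef
  -- lower bound
  have hint : ∃ z : ℤ, ((E ^ T * W N : ℕ) : ℚ) * PowerSeries.coeff N (gP f T P) = z := by
    have key : ∀ x : Fin (T + 1) × Fin (T + 1), ∃ z : ℤ, ((E ^ T * W N : ℕ) : ℚ) *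
        PowerSeries.coeff N (PowerSeries.X ^ (x.1 : ℕ) * f ^ (x.2 : ℕ)) = z := fun x =>
      den f W E hW hf (x.1 : ℕ) (by have := x.2.2; omega) le_rfl
    choose z hz using key
    refine ⟨∑ x, P x * z x, ?_⟩
    rw [coeff_gP, mul_sum]
    push_cast
    refine sum_congr rfl fun x _ => ?_
    rw [← hz x]
    push_cast
    ring
  obtain ⟨z, hz⟩ := hint
  have hEW : (0 : ℚ) < ((E ^ T * W N : ℕ) : ℚ) := by
    have := hW0 N
    have : 0 < E ^ T * W N := by positivity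
    exact_mod_cast this
  have hz0 : z ≠ 0 := by
    intro h0
    rw [h0] at hz
    simp only [Int.cast_zero, mul_eq_zero] at hz
    rcases hz with hz | hz
    · exact hEW.ne' hz
    · exact hN hz
  have hz1 : (1 : ℝ) ≤ ((E ^ T * W N : ℕ) : ℝ) *
      |((PowerSeries.coeff N (gP f T P) : ℚ) : ℝ)| := by
    have a1 : (1 : ℤ) ≤ |z| := Int.one_le_abs hz0
    have a2 : ((|z| : ℤ) : ℝ) = ((E ^ T * W N : ℕ) : ℝ) *
      |((PowerSeries.coeff N (gP f T P) : ℚ) : ℝ)| := by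
      have : ((z : ℤ) : ℝ) = ((E ^ T * W N : ℕ) : ℝ) *
        ((PowerSeries.coeff N (gP f T P) : ℚ) : ℝ) := by
        exact_mod_cast hz.symm
      rw [Int.cast_abs, this, abs_mul, Nat.abs_cast]
    rw [← a2]
    exact_mod_cast a1
  -- upper bound
  have hQT : PowerSeries.constantCoeff (Q ^ (2 * T)) = 1 := by rw [map_pow, hQ1, one_pow]
  have hup := Bd_coeff hρ.le (Bd_gP' f Ψ T P hρ.le hB hQ h1 h2 hP) N
  rw [low_coeff' Ψ hc N _ hmin hQT, norm_mul, norm_pow, ← hRdef] at hup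
  have hn : ‖(((PowerSeries.coeff N (gP f T P) : ℚ) : ℂ))‖ =
      |((PowerSeries.coeff N (gP f T P) : ℚ) : ℝ)| := Complex.norm_ratCast _
  rw [hn] at hup
  set q : ℝ := |((PowerSeries.coeff N (gP f T P) : ℚ) : ℝ)| with hq
  have hEr : (0 : ℝ) < E := by exact_mod_cast hE
  have hWr : (0 : ℝ) < W N := by exact_mod_cast hW0 N
  have hcomb : R ^ N * ρ ^ N ≤ (E : ℝ) ^ T * W N * (((T : ℝ) + 1) ^ 2 * (H * B ^ (2 * T))) := by
    calc R ^ N * ρ ^ N ≤ R ^ N * ρ ^ N * (((E ^ T * W N : ℕ) : ℝ) * q) :=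
          le_mul_of_one_le_right (by positivity) hz1
      _ = (E : ℝ) ^ T * W N * (R ^ N * q * ρ ^ N) := by push_cast; ring
      _ ≤ _ := mul_le_mul_of_nonneg_left hup (by positivity)
  have hT1 : (0 : ℝ) < (T : ℝ) + 1 := by positivity
  have hH0 : 0 < H := by linarith
  have hB0 : 0 < B := by linarith
  have hlog := Real.log_le_log (by positivity) hcomb
  rw [Real.log_mul (by positivity) (by positivity), Real.log_pow, Real.log_pow,
    Real.log_mul (by positivity) (by positivity), Real.log_mul (by positivity) (by positivity),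
    Real.log_mul (by positivity) (by positivity), Real.log_mul (by positivity) (by positivity),
    Real.log_pow, Real.log_pow, Real.log_pow] at hlog
  push_cast at hlog
  have := hτ N
  linarith

/-- The criterion for meromorphic maps. -/
theorem crit' (f : ℚ⟦X⟧) (W : ℕ → ℕ) (E : ℕ) (τ A : ℝ) (Ψ : ℚ⟦X⟧ →+* ℂ⟦X⟧)
    (hE : 0 < E) (hW0 : ∀ m, 0 < W m) (hW : ∀ m l, W m * W l ∣ W (m + l))
    (hτ : ∀ m : ℕ, Real.log (W m) ≤ τ * m)
    (hf : ∀ m : ℕ, ∃ z : ℤ, ((E * W m : ℕ) : ℚ) * PowerSeries.coeff m f = z)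
    (hA : ∀ m : ℕ, |((PowerSeries.coeff m f : ℚ) : ℝ)| ≤ A ^ (m + 1))
    (hc : ∀ g : ℚ⟦X⟧, PowerSeries.constantCoeff (Ψ g) = ((PowerSeries.constantCoeff g : ℚ) : ℂ))
    (hM1 : Mer (Ψ PowerSeries.X)) (hM2 : Mer (Ψ f))
    (hlt : τ < Real.log ‖PowerSeries.coeff 1 (Ψ PowerSeries.X)‖) : IsAlgebraic ℚ[X] f := by
  by_contra hna
  set R : ℝ := ‖PowerSeries.coeff 1 (Ψ PowerSeries.X)‖ with hR
  have hτ0 : 0 ≤ τ := by
    have h1 := hτ 1
    have h2 : 0 ≤ Real.log (W 1) := Real.log_natCast_nonneg _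
    simpa using h2.trans h1
  have hlogR : 0 < Real.log R := lt_of_le_of_lt hτ0 hlt
  have hR0 : 0 < R := by
    by_contra h
    have : R = 0 := le_antisymm (not_lt.1 h) (norm_nonneg _)
    rw [this, Real.log_zero] at hlogR
    exact lt_irrefl _ hlogR
  -- choose rho
  set η : ℝ := (Real.log R - τ) / 2 with hη
  have hη0 : 0 < η := by rw [hη]; linarith
  set ρ : ℝ := Real.exp (-η) with hρ
  have hρ0 : 0 < ρ := Real.exp_pos _
  have hρ1 : ρ < 1 := by rw [hρ, Real.exp_lt_one_iff]; linarith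
  have hlogρ : Real.log ρ = -η := by rw [hρ, Real.log_exp]
  have hδ : Real.log R + Real.log ρ - τ = η := by rw [hlogρ, hη]; ring
  obtain ⟨Q1, hQ1, gQ1, gQ1'⟩ := hM1
  obtain ⟨Q2, hQ2, gQ2, gQ2'⟩ := hM2
  have hQc : PowerSeries.constantCoeff (Q1 * Q2) = 1 := by rw [map_mul, hQ1, hQ2, one_mul]
  have hG0 : Gd 1 (Q1 * Q2) := gQ1.mul gQ2
  have hG1 : Gd 1 (Q1 * Q2 * Ψ PowerSeries.X) := by
    have h3 := gQ2.mul gQ1'
    have e : Q2 * (Q1 * Ψ PowerSeries.X) = Q1 * Q2 * Ψ PowerSeries.X := by ring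
    rwa [e] at h3
  have hG2 : Gd 1 (Q1 * Q2 * Ψ f) := by
    have h3 := gQ1.mul gQ2'
    have e : Q1 * (Q2 * Ψ f) = Q1 * Q2 * Ψ f := by ring
    rwa [e] at h3
  obtain ⟨B0, hB0⟩ := Bd_of_Gd hρ0 hρ1 hG0
  obtain ⟨B1, hB1⟩ := Bd_of_Gd hρ0 hρ1 hG1
  obtain ⟨B2, hB2⟩ := Bd_of_Gd hρ0 hρ1 hG2
  set B : ℝ := max (max 1 B0) (max B1 B2) with hB
  have hB1' : 1 ≤ B := (le_max_left _ _).trans (le_max_left _ _)
  have h0 : Bd ρ B (Q1 * Q2) := Bd_mono hB0 ((le_max_right _ _).trans (le_max_left _ _))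
  have h1 : Bd ρ B (Q1 * Q2 * Ψ PowerSeries.X) :=
    Bd_mono hB1 ((le_max_left _ _).trans (le_max_right _ _))
  have h2 : Bd ρ B (Q1 * Q2 * Ψ f) := Bd_mono hB2 ((le_max_right _ _).trans (le_max_right _ _))
  set A' : ℝ := max 1 A with hA'
  have hA1 : 1 ≤ A' := le_max_left _ _
  have hAb : ∀ m : ℕ, |((PowerSeries.coeff m f : ℚ) : ℝ)| ≤ A' ^ (m + 1) := by
    intro m
    have hA0 : 0 ≤ A := by
      have := (abs_nonneg _).trans (hA 0)
      simpa using this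
    exact (hA m).trans (pow_le_pow_left₀ hA0 (le_max_right _ _) _)
  set D : ℝ := Real.log (2 * A') with hD
  have hD0 : 0 ≤ D := Real.log_nonneg (by linarith)
  have hlE : 0 ≤ Real.log E := Real.log_natCast_nonneg _
  have hlB : 0 ≤ Real.log B := Real.log_nonneg hB1'
  -- choose k
  obtain ⟨k, hk⟩ := exists_nat_gt (2 * (τ + D) / η + 2)
  have hkr : 2 * (τ + D) / η + 2 < k := hk
  have hk2 : 2 ≤ k := by
    have : (2 : ℝ) < k := lt_of_le_of_lt (by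
      have : 0 ≤ 2 * (τ + D) / η := by positivity
      linarith) hk
    exact_mod_cast this.le
  have hkm : 1 ≤ (k : ℝ) - 1 := by
    have : (2 : ℝ) ≤ k := by exact_mod_cast hk2
    linarith
  have hkC : (1 / ((k : ℝ) - 1)) * (τ + D) ≤ η / 2 := by
    have h3 : 2 * (τ + D) / η ≤ (k : ℝ) - 1 := by linarith
    rw [div_le_iff₀ hη0] at h3
    rw [one_div, inv_mul_le_iff₀ (by linarith)]
    linarith
  -- choose t
  set C4 : ℝ := 4 + 2 * Real.log E + 2 * Real.log B + D with hC4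
  have hC40 : 0 ≤ C4 := by positivity
  obtain ⟨t, ht⟩ := exists_nat_gt (2 * C4 / η + 1)
  have ht1 : (1 : ℝ) < t := lt_of_le_of_lt (by
      have : 0 ≤ 2 * C4 / η := by positivity
      linarith) ht
  have ht1' : 1 ≤ t := by exact_mod_cast ht1.le
  have hkt : 1 ≤ k * t := by nlinarith
  obtain ⟨T, hT⟩ : ∃ T, T + 1 = k * t := ⟨k * t - 1, by omega⟩
  obtain ⟨P, H, hP0, hH, hPH, hvan, hlogH⟩ := siegel f W E τ A' hE hW0 hW hτ hτ0 hf hA1 hAb
    k t T hk2 ht1' hT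
  have hg : gP f T P ≠ 0 := fun h => hna (alg_of_gP f T P hP0 h)
  obtain ⟨N, hN, hineq⟩ :=
    main_ineq' f W E τ Ψ hE hW0 hW hτ hf hc hρ0 hB1' hQc h0 h1 h2 hR0 T P hH hPH hg
  rw [← hR, hδ] at hineq
  have hNge : k * t ^ 2 ≤ N := by
    by_contra hcon
    exact hN (hvan N (by omega))
  have hNr : (k : ℝ) * t ^ 2 ≤ N := by exact_mod_cast hNge
  have hTr : (T : ℝ) + 1 = k * t := by exact_mod_cast hT
  have hTle : (T : ℝ) ≤ k * t := by linarith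
  have hT0 : (0 : ℝ) ≤ T := Nat.cast_nonneg _
  have hkt0 : (0 : ℝ) < k * t := by
    have : (0 : ℝ) < (k : ℝ) := by linarith
    have : (0 : ℝ) < (t : ℝ) := by linarith
    positivity
  have hlogkt : Real.log (k * t) ≤ k * t := by
    have := Real.log_le_sub_one_of_pos hkt0
    linarith
  have hlogkt0 : 0 ≤ Real.log (k * t) := Real.log_nonneg (by exact_mod_cast hkt)
  rw [hTr] at hineq
  -- the bound of log H
  have hbd : Real.log H ≤ (2 + Real.log E + D) * (k * t) + η / 2 * (k * t ^ 2) := by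
    rw [hlogH]
    push_cast
    rw [← hD]
    have e1 : (1 / ((k : ℝ) - 1)) * (2 * Real.log (k * t) + T * Real.log E +
        τ * (k * t ^ 2) + (k * t ^ 2 + T) * D) =
        (1 / ((k : ℝ) - 1)) * (2 * Real.log (k * t) + T * Real.log E + T * D) +
        ((1 / ((k : ℝ) - 1)) * (τ + D)) * (k * t ^ 2) := by ring
    rw [e1]
    refine add_le_add ?_ (mul_le_mul_of_nonneg_right hkC (by positivity))
    have e2 : 1 / ((k : ℝ) - 1) ≤ 1 := by
      rw [div_le_one (by linarith)]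
      exact hkm
    have e3 : 0 ≤ 2 * Real.log (k * t) + T * Real.log E + T * D := by positivity
    calc _ ≤ 1 * (2 * Real.log (k * t) + T * Real.log E + T * D) :=
          mul_le_mul_of_nonneg_right e2 e3
      _ ≤ _ := by
          have f1 : T * Real.log E ≤ (k * t) * Real.log E := mul_le_mul_of_nonneg_right hTle hlE
          have f2 : T * D ≤ (k * t) * D := mul_le_mul_of_nonneg_right hTle hD0
          linarith
  have hfin : η * (k * t ^ 2) ≤ C4 * (k * t) + η / 2 * (k * t ^ 2) := by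
    have g1 : η * (k * t ^ 2) ≤ η * N := mul_le_mul_of_nonneg_left hNr hη0.le
    have f1 : T * Real.log E ≤ (k * t) * Real.log E := mul_le_mul_of_nonneg_right hTle hlE
    have f3 : T * Real.log B ≤ (k * t) * Real.log B := mul_le_mul_of_nonneg_right hTle hlB
    rw [hC4]
    linarith
  have hfin2 : η / 2 * t ≤ C4 := by
    have e : η / 2 * (k * (t : ℝ) ^ 2) = (η / 2 * t) * (k * t) := by ring
    have : (η / 2 * t) * (k * t) ≤ C4 * (k * t) := by rw [← e]; linarith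
    exact le_of_mul_le_mul_right this hkt0
  have : 2 * C4 / η < t := by linarith
  rw [div_lt_iff₀ hη0] at this
  linarith

/-- Meromorphic functions have a positive radius of convergence. -/
lemma Mer.small {f : ℂ⟦X⟧} (hf : Mer f) : ∃ r : ℝ, 0 < r ∧ r ≤ 1 ∧ Gd r f := by
  obtain ⟨Q, hQ, gQ, gQf⟩ := hf
  have hu : Q * Q⁻¹ = 1 := PowerSeries.mul_inv_cancel Q (by rw [hQ]; exact one_ne_zero)
  obtain ⟨r, hr, gr⟩ := Gd.inv_small one_pos gQ hQ hu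
  refine ⟨min r 1, lt_min hr one_pos, min_le_right _ _, ?_⟩
  have h2 : f = Q⁻¹ * (Q * f) := by
    rw [← mul_assoc, mul_comm Q⁻¹ Q, hu, one_mul]
  rw [h2]
  exact Gd.mul (gr.mono (min_le_left _ _)) (gQf.mono (min_le_right _ _))

/-- Convergence of `f` near the origin if `f ∘ φ` is meromorphic. -/
theorem small_mer {φ : ℂ⟦X⟧} (hφ : PowerSeries.constantCoeff φ = 0) (mφ : Mer φ)
    (h1 : PowerSeries.coeff 1 φ ≠ 0) {f : ℂ⟦X⟧} (hf : Mer (sub φ hφ f)) :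
    ∃ r : ℝ, 0 < r ∧ Gd r f := by
  obtain ⟨r1, hr1, hr1', g1⟩ := mφ.small
  obtain ⟨r2, hr2, hr2', g2⟩ := hf.small
  obtain ⟨ρ, hρ⟩ : ∃ ρ, ρ = min r1 r2 := ⟨_, rfl⟩
  have hρ0 : 0 < ρ := by rw [hρ]; exact lt_min hr1 hr2
  have h4 : PowerSeries.constantCoeff (PowerSeries.rescale (ρ : ℂ) φ) = 0 := by
    rw [← PowerSeries.coeff_zero_eq_constantCoeff_apply, PowerSeries.coeff_rescale, pow_zero,
      one_mul, PowerSeries.coeff_zero_eq_constantCoeff_apply, hφ]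
  refine Pool.Agent.Y255.PC.small (PowerSeries.rescale (ρ : ℂ) φ) h4 f ?_ ?_ ?_
  · rw [PowerSeries.coeff_rescale, pow_one]
    refine mul_ne_zero ?_ h1
    exact_mod_cast hρ0.ne'
  · exact Gd.rescale hρ0 (g1.mono (by rw [hρ]; exact min_le_left _ _))
  · rw [← rescale_sub (ρ : ℂ) hφ h4]
    exact Gd.rescale hρ0 (g2.mono (by rw [hρ]; exact min_le_right _ _))

/-- Systems with a large adelic radius and meromorphic solutions on the disc have algebraic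
solutions. -/
theorem core' {N : ℕ} {G : Matrix (Fin N) (Fin N) ℤ⟦X⟧} {Y : Matrix (Fin N) (Fin N) ℚ⟦X⟧}
    (hY : dM Y = G.map (cst ℚ) * Y) (hY0 : Y.map PowerSeries.constantCoeff = 1)
    {k d : ℕ → ℕ} {E : ℕ} (hE : 0 < E) (hE' : ∀ p : ℕ, p.Prime → p ^ vf p (p ^ k p - 1) ∣ E)
    (hdiv : ∀ p : ℕ, p.Prime → ∀ H : Matrix (Fin N) (Fin N) ℤ⟦X⟧,
      ∃ H' : Matrix (Fin N) (Fin N) ℤ⟦X⟧,
        (nab G)^[p ^ k p] H = ((p : ℤ) ^ (vf p (p ^ k p) - d p)) • H')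
    {τ : ℝ} (hτ : ∀ m : ℕ, ∑ p ∈ (range (m + 1)).filter Nat.Prime,
      Real.log p * (d p + 1 / ((p : ℝ) - 1)) / (p : ℝ) ^ k p ≤ τ)
    {φ : ℂ⟦X⟧} (hφ : PowerSeries.constantCoeff φ = 0) (mφ : Mer φ)
    (h1 : PowerSeries.coeff 1 φ ≠ 0) {V : Matrix (Fin N) (Fin N) ℂ⟦X⟧}
    (hV : ∀ i j, Mer (V i j)) (hV0 : V.map PowerSeries.constantCoeff = 1)
    (hVs : dM V = (Matrix.of fun i j => PowerSeries.derivative ℂ φ * sub φ hφ (cst ℂ (G i j))) * V)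
    (hlt : τ < Real.log ‖PowerSeries.coeff 1 φ‖) (i j : Fin N) :
    IsAlgebraic ℚ[X] (Y i j) := by
  have hPV : Y.map (Psi φ hφ) = V := by
    refine Pool.Agent.Y810.PC.ode2 ℂ N _ _ _ (Psi_sys hY φ hφ) hVs ?_
    rw [hV0]
    ext i j
    have h2 := congrFun (congrFun hY0 i) j
    rw [Matrix.map_apply] at h2
    rw [Matrix.map_apply, Matrix.map_apply, Psi_const, h2, Matrix.one_apply, Matrix.one_apply]
    split_ifs <;> simp
  have hMer : Mer (Psi φ hφ (Y i j)) := by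
    have h2 := hV i j
    rw [← hPV] at h2
    exact h2
  -- growth
  obtain ⟨r, hr, hgr⟩ := small_mer hφ mφ h1 (f := PowerSeries.map (algebraMap ℚ ℂ) (Y i j)) hMer
  obtain ⟨A, hA⟩ := exists_pow_bound hr hgr
  refine crit' (Y i j) (wt k d) E τ A (Psi φ hφ) hE ?_
    (Pool.Agent.Y536.PC.num1 k d) ?_ ?_ ?_ (Psi_const φ hφ) ?_ hMer ?_
  · intro m
    unfold wt
    exact prod_pos fun p hp => pow_pos (mem_filter.1 hp).2.pos _
  · intro m
    refine (Pool.Agent.Y536.PC.num2 k d m).trans ?_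
    exact mul_le_mul_of_nonneg_right (hτ m) (Nat.cast_nonneg m)
  · intro m
    exact Pool.Agent.Y79.PC.NAB.nab2 Pool.Agent.Y536.PC.num3 N G k d E Y hE hE' hdiv hY hY0 m i j
  · intro m
    have h1 := hA m
    rw [PowerSeries.coeff_map] at h1
    have h2 : ‖(algebraMap ℚ ℂ) (PowerSeries.coeff m (Y i j))‖ =
        |((PowerSeries.coeff m (Y i j) : ℚ) : ℝ)| := by
      have : (algebraMap ℚ ℂ) (PowerSeries.coeff m (Y i j)) =
          (((PowerSeries.coeff m (Y i j) : ℚ) : ℝ) : ℂ) := by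
        rw [eq_ratCast]; push_cast; rfl
      rw [this, Complex.norm_real, Real.norm_eq_abs]
    rwa [h2] at h1
  · rw [Psi_X]; exact mφ
  · rw [Psi_X]; exact hlt

end Pool.Agent.Y915.Mero
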