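import Pool.Agent.Y915.Gd

set_option autoImplicit false

/-!
# The operators `B_i` and the iterates of `s ∂`
-/

namespace Pool.Agent.Y915

open scoped PowerSeries Polynomial
open Finset

section map

variable {R S : Type*} [CommRing R] [CommRing S] (σ : R →+* S) {D : R → R} {D' : S → S}
  (hD : ∀ f, σ (D f) = D' (σ f)) {x : R} {x' : S} (hx : σ x = x')

include hD hx

lemma map_delta (n : ℕ) (c : ℤ) (y : R) : σ (delta n c D x y) = delta n c D' x' (σ y) := by
  unfold delta
  simp only [map_add, map_mul, map_one, map_ofNat, map_intCast, map_natCast, map_pow, hD, hx]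

lemma map_delta_iter (n : ℕ) (c : ℤ) (k : ℕ) (y : R) :
    σ ((delta n c D x)^[k] y) = (delta n c D' x')^[k] (σ y) := by
  induction k generalizing y with
  | zero => rfl
  | succ k ih =>
    rw [Function.iterate_succ_apply, Function.iterate_succ_apply, ih, map_delta σ hD hx]

lemma map_base (n : ℕ) (c : ℤ) (i : ℕ) (y : R) :
    σ (base n c D x i y) = base n c D' x' i (σ y) := by
  unfold base
  split_ifs
  · exact map_delta_iter σ hD hx n c _ y
  · rw [hD, map_delta_iter σ hD hx]

lemma map_oper (n : ℕ) (c : ℤ) (N : ℕ) (M : ℤ) (a : Fin N → ℤ[X]) (y : R) :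
    σ (oper n c N M a D x y) = oper n c N M a D' x' (σ y) := by
  unfold oper
  rw [map_add, map_base σ hD hx, map_sum]
  congr 1
  refine sum_congr rfl fun i _ => ?_
  rw [map_mul, map_mul, map_mul, map_pow, map_intCast, map_base σ hD hx]
  have h1 : σ (Polynomial.aeval x (a i)) = Polynomial.aeval x' (a i) := by
    have h2 : σ.toIntAlgHom (Polynomial.aeval x (a i)) =
        Polynomial.aeval (σ.toIntAlgHom x) (a i) := (Polynomial.aeval_algHom_apply _ _ _).symm
    have h3 : σ.toIntAlgHom x = x' := hx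
    rw [h3] at h2
    exact h2
  rw [h1]
  congr 2
  split_ifs
  · simp only [map_add, map_mul, map_one, map_ofNat, map_intCast, map_pow, hx]
  · rw [map_one]

end map

section theta

variable {R : Type*} [CommRing R] (D : Derivation ℤ R R) (x s : R) (n : ℕ) (c : ℤ)
  (hs : s ^ 2 = 1 + 4 * (c : R) * x ^ n)
  (hds : s * D s = 2 * (c : R) * (n : R) * x ^ (n - 1))

include hs hds

lemma theta_theta (y : R) : s * D (s * D y) = delta n c D x y := by
  unfold delta
  rw [D.leibniz, smul_eq_mul, smul_eq_mul, ← hs, ← hds]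
  ring

lemma theta_iter_two (k : ℕ) (y : R) :
    (fun y => s * D y)^[2 * k] y = (delta n c D x)^[k] y := by
  rw [Function.iterate_mul]
  congr 1
  funext z
  show s * D (s * D z) = _
  exact theta_theta D x s n c hs hds z

lemma theta_iter (i : ℕ) (y : R) :
    (fun y => s * D y)^[i] y = (if Even i then 1 else s) * base n c D x i y := by
  unfold base
  rcases Nat.even_or_odd' i with ⟨k, rfl | rfl⟩
  · have h : Even (2 * k) := even_two_mul k
    rw [if_pos h, if_pos h, one_mul, theta_iter_two D x s n c hs hds]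
    congr 2
    omega
  · have h : ¬ Even (2 * k + 1) := by
      rw [Nat.not_even_iff_odd]; exact odd_two_mul_add_one k
    have h2 : (2 * k + 1) / 2 = k := by omega
    rw [if_neg h, if_neg h, Function.iterate_succ_apply', theta_iter_two D x s n c hs hds, h2]

/-- The operator in terms of the iterates of `s ∂`. -/
lemma oper_theta (N : ℕ) (M : ℤ) (a : Fin N → ℤ[X]) (y : R) :
    (if Even N then 1 else s) * oper n c N M a D x y =
      (fun y => s * D y)^[N] y + ∑ i : Fin N, (M : R) ^ (N - (i : ℕ)) *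
        (Polynomial.aeval x (a i) * (if Even (N - (i : ℕ)) then 1 else s)) *
        (fun y => s * D y)^[(i : ℕ)] y := by
  unfold oper
  rw [mul_add, theta_iter D x s n c hs hds, mul_sum]
  congr 1
  refine sum_congr rfl fun i _ => ?_
  rw [theta_iter D x s n c hs hds]
  have hi : (i : ℕ) < N := i.2
  by_cases hN : Even N
  · by_cases hi2 : Even (i : ℕ)
    · have h1 : Even (N - (i : ℕ)) := by rw [Nat.even_sub hi.le]; tauto
      have h2 : ¬ (Even N ∧ Odd (i : ℕ)) := by
        rintro ⟨_, h⟩; exact (Nat.not_even_iff_odd.2 h) hi2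
      rw [if_pos hN, if_neg h2, if_pos h1, if_pos hi2]; ring
    · have h1 : ¬ Even (N - (i : ℕ)) := by rw [Nat.even_sub hi.le]; tauto
      have h2 : Even N ∧ Odd (i : ℕ) := ⟨hN, Nat.not_even_iff_odd.1 hi2⟩
      rw [if_pos hN, if_pos h2, if_neg h1, if_neg hi2, ← hs]; ring
  · by_cases hi2 : Even (i : ℕ)
    · have h1 : ¬ Even (N - (i : ℕ)) := by rw [Nat.even_sub hi.le]; tauto
      have h2 : ¬ (Even N ∧ Odd (i : ℕ)) := by tauto
      rw [if_neg hN, if_neg h2, if_neg h1, if_pos hi2]; ring
    · have h1 : Even (N - (i : ℕ)) := by rw [Nat.even_sub hi.le]; tauto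
      have h2 : ¬ (Even N ∧ Odd (i : ℕ)) := by tauto
      rw [if_neg hN, if_neg h2, if_pos h1, if_neg hi2]; ring

end theta

section thetaF

variable {R : Type*} [CommRing R] (D : R → R) (hL : ∀ a b, D (a * b) = a * D b + b * D a) (x s : R) (n : ℕ) (c : ℤ)
  (hs : s ^ 2 = 1 + 4 * (c : R) * x ^ n)
  (hds : s * D s = 2 * (c : R) * (n : R) * x ^ (n - 1))

include hL hs hds

lemma theta_thetaF (y : R) : s * D (s * D y) = delta n c D x y := by
  unfold delta
  rw [hL, ← hs, ← hds]
  ring

lemma theta_iter_twoF (k : ℕ) (y : R) :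
    (fun y => s * D y)^[2 * k] y = (delta n c D x)^[k] y := by
  rw [Function.iterate_mul]
  congr 1
  funext z
  show s * D (s * D z) = _
  exact theta_thetaF D hL x s n c hs hds z

lemma theta_iterF (i : ℕ) (y : R) :
    (fun y => s * D y)^[i] y = (if Even i then 1 else s) * base n c D x i y := by
  unfold base
  rcases Nat.even_or_odd' i with ⟨k, rfl | rfl⟩
  · have h : Even (2 * k) := even_two_mul k
    rw [if_pos h, if_pos h, one_mul, theta_iter_twoF D hL x s n c hs hds]
    congr 2
    omega
  · have h : ¬ Even (2 * k + 1) := by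
      rw [Nat.not_even_iff_odd]; exact odd_two_mul_add_one k
    have h2 : (2 * k + 1) / 2 = k := by omega
    rw [if_neg h, if_neg h, Function.iterate_succ_apply', theta_iter_twoF D hL x s n c hs hds, h2]

/-- The operator in terms of the iterates of `s ∂`. -/
lemma oper_thetaF (N : ℕ) (M : ℤ) (a : Fin N → ℤ[X]) (y : R) :
    (if Even N then 1 else s) * oper n c N M a D x y =
      (fun y => s * D y)^[N] y + ∑ i : Fin N, (M : R) ^ (N - (i : ℕ)) *
        (Polynomial.aeval x (a i) * (if Even (N - (i : ℕ)) then 1 else s)) *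
        (fun y => s * D y)^[(i : ℕ)] y := by
  unfold oper
  rw [mul_add, theta_iterF D hL x s n c hs hds, mul_sum]
  congr 1
  refine sum_congr rfl fun i _ => ?_
  rw [theta_iterF D hL x s n c hs hds]
  have hi : (i : ℕ) < N := i.2
  by_cases hN : Even N
  · by_cases hi2 : Even (i : ℕ)
    · have h1 : Even (N - (i : ℕ)) := by rw [Nat.even_sub hi.le]; tauto
      have h2 : ¬ (Even N ∧ Odd (i : ℕ)) := by
        rintro ⟨_, h⟩; exact (Nat.not_even_iff_odd.2 h) hi2
      rw [if_pos hN, if_neg h2, if_pos h1, if_pos hi2]; ring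
    · have h1 : ¬ Even (N - (i : ℕ)) := by rw [Nat.even_sub hi.le]; tauto
      have h2 : Even N ∧ Odd (i : ℕ) := ⟨hN, Nat.not_even_iff_odd.1 hi2⟩
      rw [if_pos hN, if_pos h2, if_neg h1, if_neg hi2, ← hs]; ring
  · by_cases hi2 : Even (i : ℕ)
    · have h1 : ¬ Even (N - (i : ℕ)) := by rw [Nat.even_sub hi.le]; tauto
      have h2 : ¬ (Even N ∧ Odd (i : ℕ)) := by tauto
      rw [if_neg hN, if_neg h2, if_neg h1, if_pos hi2]; ring
    · have h1 : Even (N - (i : ℕ)) := by rw [Nat.even_sub hi.le]; tauto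
      have h2 : ¬ (Even N ∧ Odd (i : ℕ)) := by tauto
      rw [if_neg hN, if_neg h2, if_pos h1, if_neg hi2]; ring

end thetaF

end Pool.Agent.Y915
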