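import Pool.Agent.Y915.Sys

set_option autoImplicit false

/-!
# Pulling the system back to the disc
-/

namespace Pool.Agent.Y915

open scoped PowerSeries Polynomial
open Finset

/-- Substitution of a power series without constant term. -/
noncomputable def sub (φ : ℂ⟦X⟧) (hφ : PowerSeries.constantCoeff φ = 0) : ℂ⟦X⟧ →+* ℂ⟦X⟧ :=
  (PowerSeries.substAlgHom (R := ℂ) (PowerSeries.HasSubst.of_constantCoeff_zero' hφ)).toRingHom

section

variable (φ : ℂ⟦X⟧) (hφ : PowerSeries.constantCoeff φ = 0)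

lemma sub_apply (f : ℂ⟦X⟧) : sub φ hφ f = f.subst φ := by
  show (PowerSeries.substAlgHom (R := ℂ) (PowerSeries.HasSubst.of_constantCoeff_zero' hφ)) f = _
  rw [PowerSeries.coe_substAlgHom]

lemma sub_X : sub φ hφ PowerSeries.X = φ := by
  rw [sub_apply]
  exact PowerSeries.subst_X (PowerSeries.HasSubst.of_constantCoeff_zero' hφ)

lemma sub_C (a : ℂ) : sub φ hφ (PowerSeries.C a) = PowerSeries.C a := by
  rw [sub_apply]
  exact PowerSeries.subst_C a

lemma sub_deriv (f : ℂ⟦X⟧) : PowerSeries.derivative ℂ (sub φ hφ f) =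
    sub φ hφ (PowerSeries.derivative ℂ f) * PowerSeries.derivative ℂ φ := by
  rw [sub_apply, sub_apply]
  exact PowerSeries.derivative_subst (PowerSeries.HasSubst.of_constantCoeff_zero' hφ)

lemma sub_const (f : ℂ⟦X⟧) :
    PowerSeries.constantCoeff (sub φ hφ f) = PowerSeries.constantCoeff f := by
  have h := PowerSeries.eq_X_mul_shift_add_const f
  conv_lhs => rw [h]
  rw [map_add, map_mul, sub_X, sub_C, map_add, map_mul, hφ, zero_mul, zero_add]
  simp

/-- Substitution in series with rational coefficients. -/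
noncomputable def Psi : ℚ⟦X⟧ →+* ℂ⟦X⟧ :=
  (sub φ hφ).comp (PowerSeries.map (algebraMap ℚ ℂ))

lemma Psi_const (g : ℚ⟦X⟧) : PowerSeries.constantCoeff (Psi φ hφ g) =
    ((PowerSeries.constantCoeff g : ℚ) : ℂ) := by
  show PowerSeries.constantCoeff (sub φ hφ (PowerSeries.map (algebraMap ℚ ℂ) g)) = _
  rw [sub_const, ← PowerSeries.coeff_zero_eq_constantCoeff_apply, PowerSeries.coeff_map,
    PowerSeries.coeff_zero_eq_constantCoeff_apply]
  rfl

lemma Psi_X : Psi φ hφ PowerSeries.X = φ := by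
  show sub φ hφ (PowerSeries.map (algebraMap ℚ ℂ) PowerSeries.X) = _
  rw [PowerSeries.map_X, sub_X]

lemma derivative_map {K L : Type} [CommRing K] [CommRing L] (σ : K →+* L) (f : K⟦X⟧) :
    PowerSeries.derivative L (PowerSeries.map σ f) =
      PowerSeries.map σ (PowerSeries.derivative K f) := by
  ext m
  rw [PowerSeries.coeff_derivative, PowerSeries.coeff_map, PowerSeries.coeff_map,
    PowerSeries.coeff_derivative, map_mul, map_add, map_natCast, map_one]

lemma Psi_deriv (g : ℚ⟦X⟧) : PowerSeries.derivative ℂ (Psi φ hφ g) =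
    Psi φ hφ (PowerSeries.derivative ℚ g) * PowerSeries.derivative ℂ φ := by
  show PowerSeries.derivative ℂ (sub φ hφ (PowerSeries.map (algebraMap ℚ ℂ) g)) = _
  rw [sub_deriv, derivative_map]
  rfl

lemma Psi_cst (g : ℤ⟦X⟧) : Psi φ hφ (cst ℚ g) = sub φ hφ (cst ℂ g) := by
  show sub φ hφ (PowerSeries.map (algebraMap ℚ ℂ) (cst ℚ g)) = _
  congr 1

end

/-- The pulled back system. -/
theorem Psi_sys {N : ℕ} {G : Matrix (Fin N) (Fin N) ℤ⟦X⟧} {Y : Matrix (Fin N) (Fin N) ℚ⟦X⟧}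
    (hY : dM Y = G.map (cst ℚ) * Y) (φ : ℂ⟦X⟧) (hφ : PowerSeries.constantCoeff φ = 0) :
    dM (Y.map (Psi φ hφ)) =
      (Matrix.of fun i j => PowerSeries.derivative ℂ φ * sub φ hφ (cst ℂ (G i j))) *
        Y.map (Psi φ hφ) := by
  ext1 i j
  have h1 := congrFun (congrFun hY i) j
  have h2 : dM Y i j = PowerSeries.derivative ℚ (Y i j) := rfl
  have h3 : dM (Y.map (Psi φ hφ)) i j = PowerSeries.derivative ℂ (Psi φ hφ (Y i j)) := rfl
  rw [h2, Matrix.mul_apply] at h1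
  rw [h3, Psi_deriv, h1, map_sum, sum_mul, Matrix.mul_apply]
  refine sum_congr rfl fun l _ => ?_
  rw [map_mul, Matrix.map_apply, Psi_cst, Matrix.of_apply, Matrix.map_apply]
  ring

section gt

variable {n : ℕ} {c : ℤ} {N : ℕ} {M : ℤ} {a : Fin N → ℤ[X]} {s w : ℤ⟦X⟧}

lemma sub_poly (φ : ℂ⟦X⟧) (hφ : PowerSeries.constantCoeff φ = 0) (P : ℤ[X]) :
    sub φ hφ (cst ℂ (P : ℤ⟦X⟧)) = aevZ φ P := by
  rw [cst_poly, aevZ_eq, aevZ_eq, Polynomial.hom_eval₂, sub_X]
  congr 1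
  exact RingHom.ext_int _ _

lemma Gd.aevZ {r : ℝ} {φ : ℂ⟦X⟧} (h : Gd r φ) (P : ℤ[X]) : Gd r (aevZ φ P) := by
  rw [aevZ_eq, Polynomial.eval₂_eq_sum_range]
  refine Gd.sum _ _ fun i _ => ?_
  refine Gd.mul ?_ (h.pow i)
  have := Gd.intCast r (P.coeff i)
  simpa using this

/-- The matrix of the pulled back system has entries in `Gd 1`. -/
theorem gd_GT (hrt : IsRt n c s w) {φ S g : ℂ⟦X⟧} (hφ : PowerSeries.constantCoeff φ = 0)
    (gφ : Gd 1 φ) (gS : Gd 1 S) (gg : Gd 1 g) (hS0 : PowerSeries.constantCoeff S = 1)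
    (hS : S ^ 2 = 1 + 4 * (c : ℂ⟦X⟧) * φ ^ n) (hd : PowerSeries.derivative ℂ φ = S * g)
    (i j : Fin N) :
    Gd 1 (PowerSeries.derivative ℂ φ * sub φ hφ (cst ℂ ((M • GT N a s w) i j))) := by
  have h1 : sub φ hφ (cst ℂ s) = S := by
    have h2 : (sub φ hφ (cst ℂ s)) ^ 2 = S ^ 2 := by
      rw [← map_pow, hrt.sq', hS, map_add, map_one, map_mul, map_mul, map_ofNat, map_intCast,
        map_pow, sub_X]
    have h3 : (sub φ hφ (cst ℂ s) - S) * (sub φ hφ (cst ℂ s) + S) = 0 := by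
      linear_combination h2
    rcases mul_eq_zero.1 h3 with h4 | h4
    · exact sub_eq_zero.1 h4
    · exfalso
      have h5 := congrArg PowerSeries.constantCoeff h4
      rw [map_add, sub_const, hS0, map_zero] at h5
      have h6 : PowerSeries.constantCoeff (cst ℂ s) = 1 := by
        rw [← PowerSeries.coeff_zero_eq_constantCoeff_apply, PowerSeries.coeff_map,
          PowerSeries.coeff_zero_eq_constantCoeff_apply, hrt.const, map_one]
      rw [h6] at h5
      norm_num at h5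
  have h2 : S * sub φ hφ (cst ℂ w) = 1 := by
    rw [← h1, ← map_mul, hrt.inv', map_one]
  have h3 : cst ℂ ((M • GT N a s w) i j) = ((M • GT N a s w).map (cst ℂ)) i j := rfl
  rw [h3, GT_map]
  have h4 : PowerSeries.derivative ℂ φ * sub φ hφ ((M : ℂ⟦X⟧) * (cst ℂ w *
      (if (i : ℕ) + 1 < N then (if (j : ℕ) = (i : ℕ) + 1 then 1 else 0)
        else - al ℂ a s j))) = (M : ℂ⟦X⟧) * g * sub φ hφ
      (if (i : ℕ) + 1 < N then (if (j : ℕ) = (i : ℕ) + 1 then 1 else 0)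
        else - al ℂ a s j) := by
    rw [map_mul, map_mul, map_intCast, hd]
    linear_combination (g * (M : ℂ⟦X⟧) * sub φ hφ
      (if (i : ℕ) + 1 < N then (if (j : ℕ) = (i : ℕ) + 1 then 1 else 0)
        else - al ℂ a s j)) * h2
  rw [h4]
  refine Gd.mul (Gd.mul (Gd.intCast 1 M) gg) ?_
  split_ifs
  · rw [map_one]; exact Gd.one 1
  · rw [map_zero]; exact Gd.zero 1
  · rw [map_neg]
    refine Gd.neg ?_
    unfold al
    rw [map_mul, ← cst_poly, sub_poly]
    refine Gd.mul (gφ.aevZ _) ?_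
    split_ifs
    · rw [map_one]; exact Gd.one 1
    · rw [h1]; exact gS

/-! ### A positive radius of convergence over the base -/

lemma gd_F_inv {c : ℤ} {n : ℕ} (hn : 1 ≤ n) {J : ℂ⟦X⟧}
    (hJ : (1 + 4 * (c : ℂ⟦X⟧) * PowerSeries.X ^ n) * J = 1) :
    Gd (1 / (4 * |(c : ℝ)| + 1)) J := by
  set A : ℝ := 4 * |(c : ℝ)| + 1 with hA
  have hA1 : 1 ≤ A := by rw [hA]; have := abs_nonneg (c : ℝ); linarith
  have hA0 : 0 < A := by linarith
  have key : ∀ m : ℕ, ‖PowerSeries.coeff m J‖ ≤ A ^ m := by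
    intro m
    induction m using Nat.strong_induction_on with
    | _ m ih =>
      have h1 := congrArg (PowerSeries.coeff m) hJ
      have h2 : (1 + 4 * (c : ℂ⟦X⟧) * PowerSeries.X ^ n) * J =
          J + PowerSeries.C (4 * (c : ℂ)) * (PowerSeries.X ^ n * J) := by
        rw [map_mul, map_intCast, map_ofNat]; ring
      rw [h2, map_add, PowerSeries.coeff_C_mul, PowerSeries.coeff_X_pow_mul'] at h1
      by_cases hm : n ≤ m
      · have hm0 : m ≠ 0 := by omega
        rw [if_pos hm, PowerSeries.coeff_one, if_neg hm0] at h1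
        have h3 : PowerSeries.coeff m J = -(4 * (c : ℂ) * PowerSeries.coeff (m - n) J) := by
          linear_combination h1
        rw [h3, norm_neg, norm_mul]
        have h4 : ‖(4 : ℂ) * (c : ℂ)‖ ≤ A := by
          rw [norm_mul, Complex.norm_intCast]
          have : ‖(4 : ℂ)‖ = 4 := by simp
          rw [this, hA]; linarith
        calc _ ≤ A * A ^ (m - n) := by
              gcongr
              exact ih (m - n) (by omega)
          _ = A ^ (m - n + 1) := by rw [pow_succ]; ring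
          _ ≤ A ^ m := pow_le_pow_right₀ hA1 (by omega)
      · rw [if_neg hm, mul_zero, add_zero] at h1
        rw [h1, PowerSeries.coeff_one]
        split_ifs
        · rw [norm_one]; exact one_le_pow₀ hA1
        · rw [norm_zero]; positivity
  intro ρ h0 h1
  refine ⟨1, fun m => ?_⟩
  have h2 : A * ρ ≤ 1 := by
    have := (lt_div_iff₀ hA0).1 h1
    linarith
  calc ‖PowerSeries.coeff m J‖ * ρ ^ m ≤ A ^ m * ρ ^ m := by gcongr; exact key m
    _ = (A * ρ) ^ m := by rw [mul_pow]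
    _ ≤ 1 := pow_le_one₀ (by positivity) h2

theorem gd_small (h3 : StOde3) (hrt : IsRt n c s w) (hn : 1 ≤ n) :
    Gd (1 / (4 * |(c : ℝ)| + 1)) (cst ℂ w) ∧ Gd (1 / (4 * |(c : ℝ)| + 1)) (cst ℂ s) := by
  set r : ℝ := 1 / (4 * |(c : ℝ)| + 1) with hr
  have hsw := hrt.inv' ℂ
  have hsq := hrt.sq' ℂ
  have hJ : (1 + 4 * (c : ℂ⟦X⟧) * PowerSeries.X ^ n) * (cst ℂ w) ^ 2 = 1 := by
    rw [← hsq]; linear_combination (cst ℂ s * cst ℂ w + 1) * hsw
  have hG := gd_F_inv hn hJ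
  have gw : Gd r (cst ℂ w) := by
    set Y : Matrix (Fin 1) (Fin 1) ℂ⟦X⟧ := Matrix.of fun _ _ => cst ℂ w with hY
    set G : Matrix (Fin 1) (Fin 1) ℂ⟦X⟧ := Matrix.of fun _ _ =>
      -(2 * (c : ℂ⟦X⟧) * (n : ℂ⟦X⟧) * PowerSeries.X ^ (n - 1) * (cst ℂ w) ^ 2) with hGd
    have h1 : dM Y = G * Y := by
      ext1 i j
      have h2 : dM Y i j = dz ℂ (cst ℂ w) := rfl
      rw [h2, Matrix.mul_apply, Fin.sum_univ_one]
      show dz ℂ (cst ℂ w) = -(2 * (c : ℂ⟦X⟧) * (n : ℂ⟦X⟧) * PowerSeries.X ^ (n - 1) *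
        (cst ℂ w) ^ 2) * cst ℂ w
      have h4 : dz ℂ (cst ℂ s * cst ℂ w) = 0 := by
        rw [hsw]
        exact (PowerSeries.derivative ℂ).map_one_eq_zero
      rw [dz_mul] at h4
      have h5 := hrt.der' ℂ
      linear_combination (cst ℂ w) * h4 - (cst ℂ w) ^ 2 * (cst ℂ w) * h5 +
        ((cst ℂ w) ^ 2 * dz ℂ (cst ℂ s) - dz ℂ (cst ℂ w)) * hsw
    have h2 := h3 1 r G Y (fun i j => by
      show Gd r (-(2 * (c : ℂ⟦X⟧) * (n : ℂ⟦X⟧) * PowerSeries.X ^ (n - 1) * (cst ℂ w) ^ 2))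
      refine Gd.neg (Gd.mul (Gd.mul (Gd.mul (Gd.mul ?_ (Gd.intCast r c)) (Gd.natCast r n))
        ((Gd.X r).pow _)) hG)
      exact_mod_cast Gd.natCast r 2) h1 0 0
    exact h2
  refine ⟨gw, ?_⟩
  have h1 : cst ℂ s = (1 + 4 * (c : ℂ⟦X⟧) * PowerSeries.X ^ n) * cst ℂ w := by
    rw [← hsq]; linear_combination (-cst ℂ s) * hsw
  rw [h1]
  refine Gd.mul (Gd.add (Gd.one r) (Gd.mul (Gd.mul ?_ (Gd.intCast r c)) ((Gd.X r).pow n))) gw
  exact_mod_cast Gd.natCast r 4

end gt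

end Pool.Agent.Y915
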