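import Pool.Agent.Y915.Defs

set_option autoImplicit false

/-!
# Operators close to powers of `s ∂`: statements of the steps
-/

namespace Pool.Agent.Y915

open scoped PowerSeries Polynomial Nat
open Matrix

/-! ### GD: the class `Gd` -/

def StGd : Prop := ∀ r : ℝ,
  (∀ f g : ℂ⟦X⟧, Gd r f → Gd r g → Gd r (f + g)) ∧
  (∀ f g : ℂ⟦X⟧, Gd r f → Gd r g → Gd r (f * g)) ∧
  (∀ a : ℂ, Gd r (PowerSeries.C a)) ∧ Gd r PowerSeries.X ∧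
  (∀ f : ℂ⟦X⟧, Gd r f → Gd r (PowerSeries.derivative ℂ f))

/-! ### ODE: formal linear differential systems -/

def StOde1 : Prop := ∀ (K : Type) [Field K] [CharZero K] (N : ℕ)
  (G : Matrix (Fin N) (Fin N) K⟦X⟧),
  ∃ Y : Matrix (Fin N) (Fin N) K⟦X⟧, dM Y = G * Y ∧ Y.map PowerSeries.constantCoeff = 1

def StOde2 : Prop := ∀ (K : Type) [Field K] [CharZero K] (N : ℕ)
  (G Y Z : Matrix (Fin N) (Fin N) K⟦X⟧), dM Y = G * Y → dM Z = G * Z →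
  Y.map PowerSeries.constantCoeff = Z.map PowerSeries.constantCoeff → Y = Z

def StOde3 : Prop := ∀ (N : ℕ) (r : ℝ) (G Y : Matrix (Fin N) (Fin N) ℂ⟦X⟧),
  (∀ i j, Gd r (G i j)) → dM Y = G * Y → ∀ i j, Gd r (Y i j)

/-! ### CRIT: the criterion for algebraicity -/

def StCrit : Prop := ∀ (f : ℚ⟦X⟧) (W : ℕ → ℕ) (E : ℕ) (τ A : ℝ) (Ψ : ℚ⟦X⟧ →+* ℂ⟦X⟧),
  0 < E → (∀ m, 0 < W m) → (∀ m l, W m * W l ∣ W (m + l)) →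
  (∀ m : ℕ, Real.log (W m) ≤ τ * m) →
  (∀ m : ℕ, ∃ z : ℤ, ((E * W m : ℕ) : ℚ) * PowerSeries.coeff m f = z) →
  (∀ m : ℕ, |((PowerSeries.coeff m f : ℚ) : ℝ)| ≤ A ^ (m + 1)) →
  (∀ g : ℚ⟦X⟧, PowerSeries.constantCoeff (Ψ g) = ((PowerSeries.constantCoeff g : ℚ) : ℂ)) →
  Gd 1 (Ψ PowerSeries.X) → Gd 1 (Ψ f) →
  τ < Real.log ‖PowerSeries.coeff 1 (Ψ PowerSeries.X)‖ →
  IsAlgebraic ℚ[X] f

/-! ### NUM: the weights -/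

def StNum1 : Prop := ∀ (k d : ℕ → ℕ) (m l : ℕ), wt k d m * wt k d l ∣ wt k d (m + l)

def StNum2 : Prop := ∀ (k d : ℕ → ℕ) (m : ℕ), Real.log (wt k d m) ≤
  (∑ p ∈ (Finset.range (m + 1)).filter Nat.Prime,
    Real.log p * (d p + 1 / ((p : ℝ) - 1)) / (p : ℝ) ^ k p) * m

def StNum3 : Prop := ∀ (k d : ℕ → ℕ) (E m : ℕ) (g : ℤ), 0 < E →
  (∀ p : ℕ, p.Prime → p ^ vf p (p ^ k p - 1) ∣ E) →
  (∀ p : ℕ, p.Prime → (p : ℤ) ^ ((vf p (p ^ k p) - d p) * (m / p ^ k p)) ∣ g) →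
  ((m ! : ℕ) : ℤ) ∣ (E : ℤ) * wt k d m * g

open Classical in
def StNum4 : Prop := ∀ δ : ℝ, 0 < δ → ∃ P K : ℕ, ∀ (B : Set ℕ) (m : ℕ),
  ∑ p ∈ (Finset.range (m + 1)).filter Nat.Prime,
    Real.log p / ((p : ℝ) ^ (if p ≤ P then K else if p ∈ B then 0 else 1) * ((p : ℝ) - 1)) ≤
  δ + ∑ p ∈ (Finset.range (m + 1)).filter (fun p => p.Prime ∧ P < p ∧ p ∈ B), Real.log p / p

/-! ### NAB: the connection over `ℤ⟦x⟧` -/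

/-- `∇ ^ (p ^ k)` is divisible by `p ^ v_p((p ^ k)!)` if the matrix is. -/
def StNab1 : Prop := ∀ (N : ℕ) (G : Matrix (Fin N) (Fin N) ℤ⟦X⟧) (M : ℤ) (p k : ℕ), p.Prime →
  (p : ℤ) ^ vf p (p ^ k) ∣ M → ∀ H : Matrix (Fin N) (Fin N) ℤ⟦X⟧,
  ∃ H' : Matrix (Fin N) (Fin N) ℤ⟦X⟧, (nab (M • G))^[p ^ k] H = ((p : ℤ) ^ vf p (p ^ k)) • H'

/-- Denominators of the solution. -/
def StNab2 : Prop := ∀ (N : ℕ) (G : Matrix (Fin N) (Fin N) ℤ⟦X⟧) (k d : ℕ → ℕ) (E : ℕ)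
  (Y : Matrix (Fin N) (Fin N) ℚ⟦X⟧), 0 < E →
  (∀ p : ℕ, p.Prime → p ^ vf p (p ^ k p - 1) ∣ E) →
  (∀ p : ℕ, p.Prime → ∀ H : Matrix (Fin N) (Fin N) ℤ⟦X⟧, ∃ H' : Matrix (Fin N) (Fin N) ℤ⟦X⟧,
    (nab G)^[p ^ k p] H = ((p : ℤ) ^ (vf p (p ^ k p) - d p)) • H') →
  dM Y = G.map (PowerSeries.map (Int.castRingHom ℚ)) * Y →
  Y.map PowerSeries.constantCoeff = 1 →
  ∀ (m : ℕ) (i j : Fin N), ∃ z : ℤ,
    ((E * wt k d m : ℕ) : ℚ) * PowerSeries.coeff m (Y i j) = z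

/-- A nondegenerate matrix of solutions modulo `p` makes `∇ ^ p` divisible by `p`. -/
def StVan : Prop := ∀ (N : ℕ) (G : Matrix (Fin N) (Fin N) ℤ⟦X⟧) (p : ℕ) [Fact p.Prime]
  (Y : Matrix (Fin N) (Fin N) (ZMod p)⟦X⟧), Y.det ≠ 0 →
  dM Y = G.map (PowerSeries.map (Int.castRingHom (ZMod p))) * Y →
  ∀ H : Matrix (Fin N) (Fin N) ℤ⟦X⟧, ∃ H' : Matrix (Fin N) (Fin N) ℤ⟦X⟧,
    (nab G)^[p] H = (p : ℤ) • H'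

/-! ### MODP: from rational solutions modulo `p` to a matrix of power series -/

def StModP : Prop := ∀ (n : ℕ) (c : ℤ) (N : ℕ) (M : ℤ) (a : Fin N → ℤ[X]) (s w : ℤ⟦X⟧) (p : ℕ)
  [Fact p.Prime], 1 ≤ n → 1 ≤ N → IsRt n c s w → ¬ (p : ℤ) ∣ M → FullMod n c N M a p →
  ∃ Y : Matrix (Fin N) (Fin N) (ZMod p)⟦X⟧, Y.det ≠ 0 ∧
    dM Y = (M • GT N a s w).map (PowerSeries.map (Int.castRingHom (ZMod p))) * Y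

/-! ### DOM: the map from the disc -/

def StDom : Prop := ∀ (n : ℕ) (c : ℤ) (K : ℝ), 1 ≤ n → c ≠ 0 → K < 16 →
  ∃ f S g : ℂ⟦X⟧, Gd 1 f ∧ Gd 1 S ∧ Gd 1 g ∧
    PowerSeries.constantCoeff f = 0 ∧ PowerSeries.constantCoeff S = 1 ∧
    S ^ 2 = 1 + 4 * (c : ℂ⟦X⟧) * f ^ n ∧ PowerSeries.derivative ℂ f = S * g ∧
    K ≤ |(c : ℝ)| * ‖PowerSeries.coeff 1 f‖ ^ n

/-! ### RT: the square root over `ℤ` -/

def StRt : Prop := ∀ (n : ℕ) (c : ℤ), 1 ≤ n → ∃ s w : ℤ⟦X⟧, IsRt n c s w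

/-! ### TR: transfer to the algebraic closure of `ℚ(x)` -/

def StTr1 : Prop := ∀ f : ℚ⟦X⟧, IsAlgebraic ℚ[X] f → IsAlgebraic ℚ[X] (PowerSeries.derivative ℚ f)

def StTr2 : Prop :=
  ∃ (D : Derivation ℤ (AlgebraicClosure (RatFunc ℚ)) (AlgebraicClosure (RatFunc ℚ)))
    (σ : Subalgebra.algebraicClosure ℚ[X] ℚ⟦X⟧ →+* AlgebraicClosure (RatFunc ℚ)),
    D (algebraMap (RatFunc ℚ) (AlgebraicClosure (RatFunc ℚ)) RatFunc.X) = 1 ∧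
    Function.Injective σ ∧
    (∀ P : ℚ[X], σ (algebraMap ℚ[X] (Subalgebra.algebraicClosure ℚ[X] ℚ⟦X⟧) P) =
      algebraMap (RatFunc ℚ) (AlgebraicClosure (RatFunc ℚ)) (algebraMap ℚ[X] (RatFunc ℚ) P)) ∧
    ∀ f g : Subalgebra.algebraicClosure ℚ[X] ℚ⟦X⟧,
      (g : ℚ⟦X⟧) = PowerSeries.derivative ℚ (f : ℚ⟦X⟧) → σ g = D (σ f)

end Pool.Agent.Y915
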