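import Pool.Agent.Y915.Pull

set_option autoImplicit false

/-!
# Second part: general hyperelliptic curves, curves étale over the line
-/

namespace Pool.Agent.Y915

open scoped PowerSeries Polynomial Nat
open Matrix

/-! ### HOL: Taylor series of holomorphic functions on the unit disc -/

/-- Holomorphic on the open unit disc. -/
def Hol (h : ℂ → ℂ) : Prop := DifferentiableOn ℂ h (Metric.ball 0 1)

def StHol : Prop := ∃ T : (ℂ → ℂ) → ℂ⟦X⟧,
  (∀ h, Hol h → Gd 1 (T h)) ∧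
  (∀ h k, Hol h → Set.EqOn h k (Metric.ball 0 1) → T h = T k) ∧
  (∀ h, Hol h → PowerSeries.constantCoeff (T h) = h 0) ∧
  (∀ h, Hol h → PowerSeries.coeff 1 (T h) = deriv h 0) ∧
  (∀ h k, Hol h → Hol k → T (fun z => h z + k z) = T h + T k) ∧
  (∀ h k, Hol h → Hol k → T (fun z => h z * k z) = T h * T k) ∧
  (∀ a : ℂ, T (fun _ => a) = PowerSeries.C a) ∧
  (∀ h, Hol h → Hol (deriv h) ∧ T (deriv h) = PowerSeries.derivative ℂ (T h))

/-! ### SMALL: a series whose composite with a local coordinate converges has a positive radius -/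

def StSmall : Prop := ∀ (u : ℂ⟦X⟧) (hu : PowerSeries.constantCoeff u = 0) (f : ℂ⟦X⟧),
  PowerSeries.coeff 1 u ≠ 0 → Gd 1 u → Gd 1 (sub u hu f) → ∃ r : ℝ, 0 < r ∧ Gd r f

/-! ### General hyperelliptic curves `s² = 1 + 4 f(x)` -/

namespace Hyp

/-- The operator `Δ = F ∂² + (1/2) F' ∂`, where `F = 1 + 4 f`; it is the square of `√F ∂`. -/
noncomputable def delta {R : Type*} [CommRing R] (f : ℤ[X]) (D : R → R) (x y : R) : R :=
  (1 + 4 * Polynomial.aeval x f) * D (D y) +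
    2 * Polynomial.aeval x (Polynomial.derivative f) * D y

/-- The operators `B_i`: `Δ ^ (i / 2)` for even `i` and `∂ Δ ^ ((i - 1) / 2)` for odd `i`. -/
noncomputable def base {R : Type*} [CommRing R] (f : ℤ[X]) (D : R → R) (x : R) (i : ℕ) (y : R) : R :=
  if Even i then (delta f D x)^[i / 2] y else D ((delta f D x)^[i / 2] y)

/-- The operator `B_N + ∑_{i < N} M ^ (N - i) a_i(x) B_i`, where for even `N` the terms with odd
`i` are multiplied by `F = 1 + 4 f`. -/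
noncomputable def oper {R : Type*} [CommRing R] (f : ℤ[X]) (N : ℕ) (M : ℤ) (a : Fin N → ℤ[X])
    (D : R → R) (x y : R) : R :=
  base f D x N y + ∑ i : Fin N, (M : R) ^ (N - (i : ℕ)) * Polynomial.aeval x (a i) *
    (if Even N ∧ Odd (i : ℕ) then 1 + 4 * Polynomial.aeval x f else 1) * base f D x i y

/-- The reduction modulo `p` has a full basis of rational solutions. -/
def FullMod (f : ℤ[X]) (N : ℕ) (M : ℤ) (a : Fin N → ℤ[X]) (p : ℕ) : Prop :=
  ∃ _ : Fact p.Prime, Full N (fun D y => oper f N M a D (RatFunc.X : RatFunc (ZMod p)) y)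
    (RatFunc.X : RatFunc (ZMod p))

/-- A full basis of algebraic solutions. -/
def FullAlg (f : ℤ[X]) (N : ℕ) (M : ℤ) (a : Fin N → ℤ[X]) : Prop :=
  Full N (fun D y => oper f N M a D
      (algebraMap (RatFunc ℚ) (AlgebraicClosure (RatFunc ℚ)) RatFunc.X) y)
    (algebraMap (RatFunc ℚ) (AlgebraicClosure (RatFunc ℚ)) RatFunc.X)

/-- `s` is the square root of `1 + 4 f` and `w` its inverse, in `ℤ⟦x⟧`. -/
structure IsRt (f : ℤ[X]) (s w : ℤ⟦X⟧) : Prop where
  const : PowerSeries.constantCoeff s = 1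
  sq : s ^ 2 = 1 + 4 * (f : ℤ⟦X⟧)
  inv : s * w = 1
  der : s * PowerSeries.derivative ℤ s = 2 * ((Polynomial.derivative f : ℤ[X]) : ℤ⟦X⟧)
  cf : ∃ v : ℤ⟦X⟧, s = 1 + 2 * v

/-- MODP2: from rational solutions modulo `p` to a matrix of power series. -/
def StModP2 : Prop := ∀ (f : ℤ[X]) (N : ℕ) (M : ℤ) (a : Fin N → ℤ[X]) (s w : ℤ⟦X⟧) (p : ℕ)
  [Fact p.Prime], f.coeff 0 = 0 → 1 ≤ N → IsRt f s w → ¬ (p : ℤ) ∣ M → FullMod f N M a p →
  ∃ Y : Matrix (Fin N) (Fin N) (ZMod p)⟦X⟧, Y.det ≠ 0 ∧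
    dM Y = (M • GT N a s w).map (PowerSeries.map (Int.castRingHom (ZMod p))) * Y

end Hyp

/-! ### Curves étale over the line -/

/-- A domain `A` with a derivation `d` whose iterates are divisible by factorials, `d x = 1`,
a retraction `e` to `ℤ` at `x = 0`, algebraic over `ℤ[x]`. -/
structure IsTay (A : Type) [CommRing A] (d : A → A) (x : A) (e : A →+* ℤ) : Prop where
  add : ∀ a b, d (a + b) = d a + d b
  mul : ∀ a b, d (a * b) = a * d b + b * d a
  dx : d x = 1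
  ex : e x = 0
  hdp : ∀ (m : ℕ) (g : A), ((m ! : ℕ) : A) ∣ d^[m] g
  alg : ∀ g : A, ∃ P : ℤ[X][X], P ≠ 0 ∧
    P.eval₂ (Polynomial.eval₂RingHom (Int.castRingHom A) x) g = 0

/-- ETALE. -/
def StEtale : Prop := ∀ (A : Type) [CommRing A] [IsDomain A] [Algebra ℤ[X] A]
  [Algebra.Etale ℤ[X] A] (e : A →+* ℤ), e (algebraMap ℤ[X] A Polynomial.X) = 0 →
  CharZero A ∧ ∃ D : Derivation ℤ A A, IsTay A D (algebraMap ℤ[X] A Polynomial.X) e ∧
    ∀ D' : Derivation ℤ A A, D' (algebraMap ℤ[X] A Polynomial.X) = 1 → D' = D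

/-- TAYLOR. -/
def StTay : Prop := ∀ (A : Type) [CommRing A] [IsDomain A] [CharZero A] (d : A → A) (x : A)
  (e : A →+* ℤ), IsTay A d x e → ∃ τ : A →+* ℤ⟦X⟧, Function.Injective τ ∧
    τ x = PowerSeries.X ∧ (∀ g, PowerSeries.constantCoeff (τ g) = e g) ∧
    ∀ g, τ (d g) = PowerSeries.derivative ℤ (τ g)

/-- TRO: transfer to an algebraic closure. -/
def StTrO : Prop := ∀ (A : Type) [CommRing A] [IsDomain A] [CharZero A] (d : A → A) (x : A)
  (e : A →+* ℤ) (τ : A →+* ℤ⟦X⟧), IsTay A d x e → Function.Injective τ → τ x = PowerSeries.X →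
  (∀ g, τ (d g) = PowerSeries.derivative ℤ (τ g)) →
  ∃ (D : AlgebraicClosure (FractionRing A) → AlgebraicClosure (FractionRing A))
    (σ : Subalgebra.algebraicClosure ℚ[X] ℚ⟦X⟧ →+* AlgebraicClosure (FractionRing A)),
    (∀ a b, D (a + b) = D a + D b) ∧ (∀ a b, D (a * b) = a * D b + b * D a) ∧
    (∀ g : A, D (algebraMap A (AlgebraicClosure (FractionRing A)) g) =
      algebraMap A (AlgebraicClosure (FractionRing A)) (d g)) ∧
    Function.Injective σ ∧
    (∀ (g : A) (h : Subalgebra.algebraicClosure ℚ[X] ℚ⟦X⟧),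
      (h : ℚ⟦X⟧) = cst ℚ (τ g) → σ h = algebraMap A (AlgebraicClosure (FractionRing A)) g) ∧
    ∀ f g : Subalgebra.algebraicClosure ℚ[X] ℚ⟦X⟧,
      (g : ℚ⟦X⟧) = PowerSeries.derivative ℚ (f : ℚ⟦X⟧) → σ g = D (σ f)

end Pool.Agent.Y915
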