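import Pool.Agent.Y915.Op

set_option autoImplicit false

/-!
# The system attached to the operator, over `ℚ⟦x⟧`
-/

namespace Pool.Agent.Y915

open scoped PowerSeries Polynomial
open Finset

variable {n : ℕ} {c : ℤ} {N : ℕ} {M : ℤ} {a : Fin N → ℤ[X]} {s w : ℤ⟦X⟧}

/-- Reduction of power series with integer coefficients. -/
noncomputable abbrev cst (K : Type) [CommRing K] : ℤ⟦X⟧ →+* K⟦X⟧ :=
  PowerSeries.map (Int.castRingHom K)

lemma derivative_cst {K : Type} [CommRing K] (f : ℤ⟦X⟧) :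
    PowerSeries.derivative K (cst K f) = cst K (PowerSeries.derivative ℤ f) := by
  ext m
  rw [PowerSeries.coeff_derivative, PowerSeries.coeff_map, PowerSeries.coeff_map,
    PowerSeries.coeff_derivative]
  simp

/-- Evaluation of an integer polynomial. -/
noncomputable def aevZ {R : Type*} [CommRing R] (x : R) (P : ℤ[X]) : R := Polynomial.aeval x P

lemma aevZ_eq {R : Type*} [CommRing R] (x : R) (P : ℤ[X]) :
    aevZ x P = P.eval₂ (Int.castRingHom R) x := by
  unfold aevZ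
  rw [Polynomial.aeval_def]
  congr 1

lemma cst_poly {K : Type} [CommRing K] (P : ℤ[X]) :
    cst K (P : ℤ⟦X⟧) = aevZ (PowerSeries.X : K⟦X⟧) P := by
  have h1 : cst K (P : ℤ⟦X⟧) = ((P.map (Int.castRingHom K) : K[X]) : K⟦X⟧) := by
    ext m
    simp
  rw [h1]
  have h2 : aevZ (PowerSeries.X : K⟦X⟧) P =
      (P.map (Int.castRingHom K)).eval₂ (PowerSeries.C (R := K)) PowerSeries.X := by
    rw [aevZ_eq, Polynomial.eval₂_map]
    congr 1
    exact RingHom.ext_int _ _
  rw [h2]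
  induction P.map (Int.castRingHom K) using Polynomial.induction_on' with
  | add p q hp hq => rw [Polynomial.coe_add, Polynomial.eval₂_add, hp, hq]
  | monomial m r =>
    rw [← Polynomial.C_mul_X_pow_eq_monomial, Polynomial.coe_mul, Polynomial.coe_C,
      Polynomial.coe_pow, Polynomial.coe_X, Polynomial.eval₂_mul, Polynomial.eval₂_C,
      Polynomial.eval₂_pow, Polynomial.eval₂_X]

/-- The derivation `d/dx` as a function. -/
noncomputable def dz (K : Type) [CommRing K] (f : K⟦X⟧) : K⟦X⟧ := PowerSeries.derivative K f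

lemma dz_mul {K : Type} [CommRing K] (f g : K⟦X⟧) : dz K (f * g) = f * dz K g + g * dz K f :=
  (PowerSeries.derivative K).leibniz f g

lemma dz_intMul {K : Type} [CommRing K] (z : ℤ) (f : K⟦X⟧) :
    dz K ((z : K⟦X⟧) * f) = (z : K⟦X⟧) * dz K f := by
  rw [dz_mul]
  have : dz K (z : K⟦X⟧) = 0 := by
    unfold dz
    rw [← map_intCast (PowerSeries.C (R := K)), PowerSeries.derivative_C]
  rw [this, mul_zero, add_zero]

lemma IsRt.sq' (h : IsRt n c s w) (K : Type) [CommRing K] :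
    (cst K s) ^ 2 = 1 + 4 * (c : K⟦X⟧) * PowerSeries.X ^ n := by
  have := congrArg (cst K) h.sq
  rwa [map_pow, map_add, map_one, map_mul, map_mul, map_ofNat, map_intCast, map_pow,
    PowerSeries.map_X] at this

lemma IsRt.der' (h : IsRt n c s w) (K : Type) [CommRing K] :
    cst K s * dz K (cst K s) =
      2 * (c : K⟦X⟧) * (n : K⟦X⟧) * PowerSeries.X ^ (n - 1) := by
  have := congrArg (cst K) h.der
  rw [map_mul, ← derivative_cst, map_mul, map_mul, map_mul, map_ofNat, map_intCast, map_natCast,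
    map_pow, PowerSeries.map_X] at this
  exact this

lemma IsRt.inv' (h : IsRt n c s w) (K : Type) [CommRing K] :
    cst K s * cst K w = 1 := by
  have := congrArg (cst K) h.inv
  simpa using this

/-- The coefficients of the last row. -/
noncomputable def al (K : Type) [CommRing K] (a : Fin N → ℤ[X]) (s : ℤ⟦X⟧) (j : Fin N) : K⟦X⟧ :=
  aevZ (PowerSeries.X : K⟦X⟧) (a j) * (if Even (N - (j : ℕ)) then 1 else cst K s)

lemma GT_map (K : Type) [CommRing K] (i j : Fin N) :
    ((M • GT N a s w).map (cst K)) i j =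
      (M : K⟦X⟧) * (cst K w * (if (i : ℕ) + 1 < N then (if (j : ℕ) = (i : ℕ) + 1 then 1 else 0)
        else - al K a s j)) := by
  rw [Matrix.map_apply, Matrix.smul_apply, zsmul_eq_mul, map_mul, map_intCast]
  congr 1
  unfold GT al
  rw [Matrix.of_apply, map_mul]
  congr 1
  split_ifs <;> simp only [map_one, map_zero, map_neg, map_mul, cst_poly]

lemma row_lt {K : Type} [CommRing K] {Y : Matrix (Fin N) (Fin N) K⟦X⟧}
    (hY : dM Y = (M • GT N a s w).map (cst K) * Y) (hrt : IsRt n c s w) {i : ℕ} (hi : i + 1 < N)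
    (j : Fin N) :
    cst K s * dz K (Y ⟨i, by omega⟩ j) = (M : K⟦X⟧) * Y ⟨i + 1, hi⟩ j := by
  have h1 := congrFun (congrFun hY ⟨i, by omega⟩) j
  have h2 : dM Y ⟨i, by omega⟩ j = dz K (Y ⟨i, by omega⟩ j) := rfl
  rw [h2, Matrix.mul_apply] at h1
  rw [h1, mul_sum, sum_eq_single (⟨i + 1, hi⟩ : Fin N)]
  · rw [GT_map]
    simp only [hi, if_true]
    linear_combination (M : K⟦X⟧) * Y ⟨i + 1, hi⟩ j * hrt.inv' K
  · intro l _ hl
    rw [GT_map]
    have h3 : (l : ℕ) ≠ i + 1 := fun h => hl (Fin.ext h)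
    simp only [hi, if_true, h3, if_false, mul_zero, zero_mul]
  · intro h; exact absurd (mem_univ _) h

lemma row_last {K : Type} [CommRing K] {Y : Matrix (Fin N) (Fin N) K⟦X⟧}
    (hY : dM Y = (M • GT N a s w).map (cst K) * Y) (hrt : IsRt n c s w) (hN : 1 ≤ N)
    (j : Fin N) :
    cst K s * dz K (Y ⟨N - 1, by omega⟩ j) = - ((M : K⟦X⟧) * ∑ l, al K a s l * Y l j) := by
  have h1 := congrFun (congrFun hY ⟨N - 1, by omega⟩) j
  have h2 : dM Y ⟨N - 1, by omega⟩ j = dz K (Y ⟨N - 1, by omega⟩ j) := rfl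
  rw [h2, Matrix.mul_apply] at h1
  rw [h1, mul_sum, mul_sum, ← sum_neg_distrib]
  refine sum_congr rfl fun l _ => ?_
  rw [GT_map]
  have h3 : ¬ (((⟨N - 1, by omega⟩ : Fin N) : ℕ) + 1 < N) := by simp only []; omega
  rw [if_neg h3]
  linear_combination (- (M : K⟦X⟧) * al K a s l * Y l j) * hrt.inv' K

lemma theta_row {K : Type} [CommRing K] {Y : Matrix (Fin N) (Fin N) K⟦X⟧}
    (hY : dM Y = (M • GT N a s w).map (cst K) * Y) (hrt : IsRt n c s w) (hN : 1 ≤ N)
    (j : Fin N) (i : ℕ) (hi : i < N) :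
    (fun y => cst K s * dz K y)^[i] (Y ⟨0, hN⟩ j) = (M : K⟦X⟧) ^ i * Y ⟨i, hi⟩ j := by
  induction i with
  | zero => simp
  | succ i ih =>
    rw [Function.iterate_succ_apply', ih (by omega)]
    show cst K s * dz K ((M : K⟦X⟧) ^ i * Y ⟨i, by omega⟩ j) = _
    have h1 : (M : K⟦X⟧) ^ i = ((M ^ i : ℤ) : K⟦X⟧) := by push_cast; ring
    rw [h1, dz_intMul]
    have h2 := row_lt hY hrt hi j
    push_cast
    linear_combination (M : K⟦X⟧) ^ i * h2

lemma theta_last {K : Type} [CommRing K] {Y : Matrix (Fin N) (Fin N) K⟦X⟧}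
    (hY : dM Y = (M • GT N a s w).map (cst K) * Y) (hrt : IsRt n c s w) (hN : 1 ≤ N)
    (j : Fin N) :
    (fun y => cst K s * dz K y)^[N] (Y ⟨0, hN⟩ j) + ∑ i : Fin N, (M : K⟦X⟧) ^ (N - (i : ℕ)) *
        al K a s i * (fun y => cst K s * dz K y)^[(i : ℕ)] (Y ⟨0, hN⟩ j) = 0 := by
  have h0 : (fun y => cst K s * dz K y)^[N] (Y ⟨0, hN⟩ j) =
      -((M : K⟦X⟧) ^ N * ∑ l, al K a s l * Y l j) := by
    obtain ⟨N', rfl⟩ : ∃ N', N = N' + 1 := ⟨N - 1, by omega⟩
    rw [Function.iterate_succ_apply', theta_row hY hrt hN j N' (by omega)]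
    show cst K s * dz K ((M : K⟦X⟧) ^ N' * Y ⟨N', by omega⟩ j) = _
    have h1 : (M : K⟦X⟧) ^ N' = ((M ^ N' : ℤ) : K⟦X⟧) := by push_cast; ring
    rw [h1, dz_intMul]
    have h2 := row_last hY hrt hN j
    have h3 : (⟨N' + 1 - 1, by omega⟩ : Fin (N' + 1)) = ⟨N', by omega⟩ := by
      apply Fin.ext; simp
    rw [h3] at h2
    push_cast
    linear_combination (M : K⟦X⟧) ^ N' * h2
  rw [h0, mul_sum, neg_add_eq_zero]
  refine sum_congr rfl fun i _ => ?_
  rw [theta_row hY hrt hN j i i.2]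
  have h4 : (M : K⟦X⟧) ^ N = (M : K⟦X⟧) ^ (N - (i : ℕ)) * (M : K⟦X⟧) ^ (i : ℕ) := by
    rw [← pow_add]; congr 1; have := i.2; omega
  rw [h4]; ring

/-- The first row consists of solutions of the operator. -/
theorem oper_row {K : Type} [Field K] {Y : Matrix (Fin N) (Fin N) K⟦X⟧}
    (hY : dM Y = (M • GT N a s w).map (cst K) * Y) (hrt : IsRt n c s w) (hN : 1 ≤ N)
    (j : Fin N) : oper n c N M a (PowerSeries.derivative K) PowerSeries.X (Y ⟨0, hN⟩ j) = 0 := by
  have h1 := oper_thetaF (dz K) dz_mul PowerSeries.X (cst K s) n c (hrt.sq' K) (hrt.der' K) N M a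
    (Y ⟨0, hN⟩ j)
  have h2 := theta_last hY hrt hN j
  replace h1 := h1.trans h2
  have h3 : (if Even N then 1 else cst K s) ≠ 0 := by
    split_ifs
    · exact one_ne_zero
    · intro h
      have := hrt.inv' K
      rw [h, zero_mul] at this
      exact zero_ne_one this
  exact (mul_eq_zero.1 h1).resolve_left h3

end Pool.Agent.Y915
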