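import Pool.Agent.Y915.Mer

set_option autoImplicit false

/-!
# Auxiliary functions of unequal degrees for functions uniformized by the plane
-/

namespace Pool.Agent.Y915.Uni

open scoped PowerSeries Polynomial
open Finset Pool.Agent.Y474.PC Pool.Agent.Y915.Mero

attribute [local instance] Matrix.seminormedAddCommGroup

/-- The series `∑ P(a,b) X^a f^b`, `a ≤ S`, `b ≤ T`. -/
noncomputable def gU (f : ℚ⟦X⟧) (S T : ℕ) (P : Fin (S + 1) × Fin (T + 1) → ℤ) : ℚ⟦X⟧ :=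
  ∑ x : Fin (S + 1) × Fin (T + 1),
    PowerSeries.C ((P x : ℤ) : ℚ) * (PowerSeries.X ^ (x.1 : ℕ) * f ^ (x.2 : ℕ))

lemma coeff_gU (f : ℚ⟦X⟧) (S T : ℕ) (P : Fin (S + 1) × Fin (T + 1) → ℤ) (l : ℕ) :
    PowerSeries.coeff l (gU f S T P) = ∑ x : Fin (S + 1) × Fin (T + 1),
      (P x : ℚ) * PowerSeries.coeff l (PowerSeries.X ^ (x.1 : ℕ) * f ^ (x.2 : ℕ)) := by
  rw [gU, map_sum]
  refine sum_congr rfl fun x _ => ?_
  rw [PowerSeries.coeff_C_mul]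

/-- If some `gU` vanishes then `f` is algebraic. -/
lemma alg_of_gU (f : ℚ⟦X⟧) (S T : ℕ) (P : Fin (S + 1) × Fin (T + 1) → ℤ) (hP : P ≠ 0)
    (h : gU f S T P = 0) : IsAlgebraic ℚ[X] f := by
  classical
  let p : Polynomial ℚ[X] := ∑ x : Fin (S + 1) × Fin (T + 1),
    Polynomial.C (Polynomial.C ((P x : ℤ) : ℚ) * Polynomial.X ^ (x.1 : ℕ)) *
      Polynomial.X ^ (x.2 : ℕ)
  refine ⟨p, ?_, ?_⟩
  · intro hp
    apply hP
    funext y
    have h1 : (p.coeff (y.2 : ℕ)).coeff (y.1 : ℕ) = (P y : ℚ) := by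
      simp only [p, Polynomial.finsetSum_coeff, Polynomial.coeff_C_mul, Polynomial.coeff_X_pow]
      rw [sum_eq_single y]
      · simp
      · intro b _ hb
        by_cases h2 : (y.2 : ℕ) = (b.2 : ℕ)
        · by_cases h1 : (y.1 : ℕ) = (b.1 : ℕ)
          · exact absurd (Prod.ext (Fin.ext h1.symm) (Fin.ext h2.symm)) hb
          · simp [h1, h2]
        · simp [h2]
      · intro h; exact absurd (mem_univ _) h
    rw [hp] at h1
    simp only [Polynomial.coeff_zero] at h1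
    have : (P y : ℚ) = 0 := h1.symm
    exact_mod_cast this
  · rw [← h, gU]
    simp only [p, map_sum, map_mul, Polynomial.aeval_C, map_pow, Polynomial.aeval_X]
    refine sum_congr rfl fun x _ => ?_
    have e1 : (algebraMap ℚ[X] ℚ⟦X⟧) (Polynomial.C ((P x : ℤ) : ℚ)) =
        PowerSeries.C ((P x : ℤ) : ℚ) := by
      rw [PowerSeries.algebraMap_apply', Polynomial.coe_C, PowerSeries.map_C]
      rfl
    have e2 : (algebraMap ℚ[X] ℚ⟦X⟧) Polynomial.X = PowerSeries.X := by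
      rw [PowerSeries.algebraMap_apply']
      simp
    rw [e1, e2]
    ring

/-- Siegel's lemma. -/
lemma siegelU (f : ℚ⟦X⟧) (W : ℕ → ℕ) (E : ℕ) (A : ℝ)
    (hE : 0 < E) (hW0 : ∀ m, 0 < W m) (hW : ∀ m l, W m * W l ∣ W (m + l))
    (hf : ∀ m : ℕ, ∃ z : ℤ, ((E * W m : ℕ) : ℚ) * PowerSeries.coeff m f = z)
    (hA : 1 ≤ A) (hA' : ∀ m : ℕ, |((PowerSeries.coeff m f : ℚ) : ℝ)| ≤ A ^ (m + 1))
    (k n S T : ℕ) (hk : 2 ≤ k) (hn0 : 0 < n) (hST : (S + 1) * (T + 1) = k * n) :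
    ∃ (P : Fin (S + 1) × Fin (T + 1) → ℤ) (H : ℝ), P ≠ 0 ∧ 1 ≤ H ∧ (∀ x, |(P x : ℝ)| ≤ H) ∧
      (∀ l < n, PowerSeries.coeff l (gU f S T P) = 0) ∧
      Real.log H = (1 / ((k : ℝ) - 1)) *
        (Real.log (k * n) + (T * Real.log E + Real.log (W n) +
          ((n : ℝ) + T) * Real.log (2 * A))) := by
  classical
  have key : ∀ (l : Fin n) (x : Fin (S + 1) × Fin (T + 1)), ∃ z : ℤ, ((E ^ T * W n : ℕ) : ℚ) *
        PowerSeries.coeff (l : ℕ) (PowerSeries.X ^ (x.1 : ℕ) * f ^ (x.2 : ℕ)) = z := fun l x =>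
      den f W E hW hf (x.1 : ℕ) (by have := x.2.2; omega) l.2.le
  choose M hM using key
  let Mt : Matrix (Fin n) (Fin (S + 1) × Fin (T + 1)) ℤ := fun l x => M l x
  have hcard0 : Fintype.card (Fin (S + 1) × Fin (T + 1)) = k * n := by
    simp only [Fintype.card_prod, Fintype.card_fin, hST]
  have hcard : Fintype.card (Fin n) < Fintype.card (Fin (S + 1) × Fin (T + 1)) := by
    rw [hcard0, Fintype.card_fin]
    nlinarith
  obtain ⟨P, hP0, hP1, hP2⟩ := Int.Matrix.exists_ne_zero_int_vec_norm_le Mt hcard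
    (by simpa using hn0)
  have hEr : (0 : ℝ) < E := by exact_mod_cast hE
  have hE1 : (1 : ℝ) ≤ E := by exact_mod_cast hE
  have hWr : (0 : ℝ) < W n := by exact_mod_cast hW0 n
  have hWr1 : (1 : ℝ) ≤ W n := by exact_mod_cast hW0 n
  set K : ℝ := (E : ℝ) ^ T * W n * (2 * A) ^ (n + T) with hK
  have hK1 : 1 ≤ K := by
    have h1 : 1 ≤ (E : ℝ) ^ T := one_le_pow₀ hE1
    have h3 : 1 ≤ (2 * A) ^ (n + T) := one_le_pow₀ (by linarith)
    exact one_le_mul_of_one_le_of_one_le (one_le_mul_of_one_le_of_one_le h1 hWr1) h3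
  have hMt : max 1 ‖Mt‖ ≤ K := by
    refine max_le hK1 ?_
    rw [Matrix.norm_le_iff (by linarith)]
    intro l x
    rw [Int.norm_eq_abs]
    have e1 : ((M l x : ℤ) : ℝ) = ((E ^ T * W n : ℕ) : ℝ) * ((PowerSeries.coeff (l : ℕ)
        (PowerSeries.X ^ (x.1 : ℕ) * f ^ (x.2 : ℕ)) : ℚ) : ℝ) := by
      exact_mod_cast (hM l x).symm
    change |((M l x : ℤ) : ℝ)| ≤ K
    rw [e1, abs_mul, Nat.abs_cast, hK]
    refine mul_le_mul ?_ (crude f A hA hA' (x.1 : ℕ) (by have := x.2.2; omega) l.2.le)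
      (abs_nonneg _) (by positivity)
    push_cast
    exact le_rfl
  have hkr : (2 : ℝ) ≤ k := by exact_mod_cast hk
  have hnr : (1 : ℝ) ≤ n := by exact_mod_cast hn0
  have hc1 : ((Fintype.card (Fin (S + 1) × Fin (T + 1)) : ℕ) : ℝ) = (k : ℝ) * n := by
    rw [hcard0]; push_cast; ring
  have hc2 : ((Fintype.card (Fin n) : ℕ) : ℝ) = (n : ℝ) := by
    simp only [Fintype.card_fin]
  have hexp : ((Fintype.card (Fin n) : ℕ) : ℝ) /
      (((Fintype.card (Fin (S + 1) × Fin (T + 1)) : ℕ) : ℝ) - ((Fintype.card (Fin n) : ℕ) : ℝ)) =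
      1 / ((k : ℝ) - 1) := by
    rw [hc1, hc2]
    have h1 : (k : ℝ) - 1 ≠ 0 := by linarith
    have h2 : (k : ℝ) * n - n = ((k : ℝ) - 1) * n := by ring
    rw [h2]
    have h3 : (n : ℝ) ≠ 0 := by linarith
    field_simp
  rw [hexp, hc1] at hP2
  have hkm : 0 < (k : ℝ) - 1 := by linarith
  have hkn1 : 1 ≤ (k : ℝ) * n := by nlinarith
  have hbase : 1 ≤ (k : ℝ) * n * K := one_le_mul_of_one_le_of_one_le hkn1 hK1
  refine ⟨P, ((k : ℝ) * n * K) ^ (1 / ((k : ℝ) - 1)), hP0, ?_, ?_, ?_, ?_⟩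
  · exact Real.one_le_rpow hbase (by positivity)
  · intro x
    have h1 : ‖P x‖ ≤ ‖P‖ := norm_le_pi_norm P x
    rw [Int.norm_eq_abs] at h1
    refine h1.trans (hP2.trans ?_)
    refine Real.rpow_le_rpow (by positivity) ?_ (by positivity)
    exact mul_le_mul_of_nonneg_left hMt (by positivity)
  · intro l hl
    have h1 := congrFun hP1 ⟨l, hl⟩
    rw [Matrix.mulVec, dotProduct] at h1
    simp only [Pi.zero_apply] at h1
    have h2 : ((E ^ T * W n : ℕ) : ℚ) * PowerSeries.coeff l (gU f S T P) = 0 := by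
      rw [coeff_gU, mul_sum]
      have h3 : ((∑ x, Mt ⟨l, hl⟩ x * P x : ℤ) : ℚ) = 0 := by rw [h1]; rfl
      rw [← h3]
      push_cast
      refine sum_congr rfl fun x _ => ?_
      change _ = ((M ⟨l, hl⟩ x : ℤ) : ℚ) * _
      rw [← hM]
      push_cast
      ring
    rcases mul_eq_zero.1 h2 with h | h
    · exfalso
      have h5 : E ^ T * W n ≠ 0 := by
        have := hW0 n
        positivity
      exact h5 (by exact_mod_cast h)
    · exact h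
  · have hA0 : 0 < 2 * A := by linarith
    have hlK : Real.log K = T * Real.log E + Real.log (W n) +
        ((n : ℝ) + T) * Real.log (2 * A) := by
      rw [hK, Real.log_mul (by positivity) (by positivity),
        Real.log_mul (by positivity) (by positivity), Real.log_pow, Real.log_pow]
      push_cast
      ring
    have hkt0 : 0 < (k : ℝ) * n := by positivity
    rw [Real.log_rpow (by positivity), Real.log_mul (by positivity) (by positivity), hlK]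

/-- Bound of `Ψ gU`. -/
lemma Bd_gU (f : ℚ⟦X⟧) (Ψ : ℚ⟦X⟧ →+* ℂ⟦X⟧) (S T : ℕ) (P : Fin (S + 1) × Fin (T + 1) → ℤ)
    {H B₁ B₂ r : ℝ} (hr : 0 ≤ r) (hB₁ : 1 ≤ B₁) (hB₂ : 1 ≤ B₂) {Q₁ Q₂ : ℂ⟦X⟧}
    (hQ₁ : Bd r B₁ Q₁) (h1 : Bd r B₁ (Q₁ * Ψ PowerSeries.X))
    (hQ₂ : Bd r B₂ Q₂) (h2 : Bd r B₂ (Q₂ * Ψ f)) (hP : ∀ x, |(P x : ℝ)| ≤ H) :
    Bd r ((((S : ℝ) + 1) * ((T : ℝ) + 1)) * (H * (B₁ ^ S * B₂ ^ T)))
      (Q₁ ^ S * Q₂ ^ T * Ψ (gU f S T P)) := by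
  have hH : 0 ≤ H := le_trans (abs_nonneg _) (hP (0, 0))
  have key : ∀ x ∈ (univ : Finset (Fin (S + 1) × Fin (T + 1))), Bd r (H * (B₁ ^ S * B₂ ^ T))
      (Q₁ ^ S * Q₂ ^ T *
        Ψ (PowerSeries.C ((P x : ℤ) : ℚ) * (PowerSeries.X ^ (x.1 : ℕ) * f ^ (x.2 : ℕ)))) := by
    intro x _
    have e1 : Ψ (PowerSeries.C ((P x : ℤ) : ℚ)) = PowerSeries.C ((P x : ℤ) : ℂ) := by
      have a1 : (PowerSeries.C ((P x : ℤ) : ℚ) : ℚ⟦X⟧) = ((P x : ℤ) : ℚ⟦X⟧) := by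
        rw [map_intCast]
      have a2 : (PowerSeries.C ((P x : ℤ) : ℂ) : ℂ⟦X⟧) = ((P x : ℤ) : ℂ⟦X⟧) := by
        rw [map_intCast]
      rw [a1, a2, map_intCast]
    have hx1 : (x.1 : ℕ) ≤ S := by have := x.1.2; omega
    have hx2 : (x.2 : ℕ) ≤ T := by have := x.2.2; omega
    have e2 : Q₁ ^ S * Q₂ ^ T * (PowerSeries.C ((P x : ℤ) : ℂ) *
        ((Ψ PowerSeries.X) ^ (x.1 : ℕ) * (Ψ f) ^ (x.2 : ℕ))) =
        PowerSeries.C ((P x : ℤ) : ℂ) *
          (((Q₁ * Ψ PowerSeries.X) ^ (x.1 : ℕ) * Q₁ ^ (S - (x.1 : ℕ))) *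
          ((Q₂ * Ψ f) ^ (x.2 : ℕ) * Q₂ ^ (T - (x.2 : ℕ)))) := by
      have e3 : Q₁ ^ S = Q₁ ^ (x.1 : ℕ) * Q₁ ^ (S - (x.1 : ℕ)) := by
        rw [← pow_add]
        congr 1
        omega
      have e4 : Q₂ ^ T = Q₂ ^ (x.2 : ℕ) * Q₂ ^ (T - (x.2 : ℕ)) := by
        rw [← pow_add]
        congr 1
        omega
      rw [e3, e4, mul_pow, mul_pow]
      ring
    rw [map_mul, map_mul, map_pow, map_pow, e1, e2]
    have b1 := Bd_C r ((P x : ℤ) : ℂ)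
    have b2 := Bd_mul hr b1 (Bd_mul hr
      (Bd_mul hr (Bd_pow hr h1 (x.1 : ℕ)) (Bd_pow hr hQ₁ (S - (x.1 : ℕ))))
      (Bd_mul hr (Bd_pow hr h2 (x.2 : ℕ)) (Bd_pow hr hQ₂ (T - (x.2 : ℕ)))))
    refine Bd_mono b2 ?_
    have n1 : ‖((P x : ℤ) : ℂ)‖ = |(P x : ℝ)| := by
      rw [Complex.norm_intCast]
    rw [n1, ← pow_add, ← pow_add]
    have e5 : (x.1 : ℕ) + (S - (x.1 : ℕ)) = S := by omega
    have e6 : (x.2 : ℕ) + (T - (x.2 : ℕ)) = T := by omega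
    rw [e5, e6]
    exact mul_le_mul_of_nonneg_right (hP x) (by positivity)
  have := Bd_sum univ hr (fun _ => H * (B₁ ^ S * B₂ ^ T)) _ key
  have e4 : ∑ x : Fin (S + 1) × Fin (T + 1), (Q₁ ^ S * Q₂ ^ T *
      Ψ (PowerSeries.C ((P x : ℤ) : ℚ) * (PowerSeries.X ^ (x.1 : ℕ) * f ^ (x.2 : ℕ)))) =
      Q₁ ^ S * Q₂ ^ T * Ψ (gU f S T P) := by
    rw [gU, map_sum, mul_sum]
  rw [e4] at this
  refine Bd_mono this ?_
  rw [sum_const, card_univ]
  simp only [Fintype.card_prod, Fintype.card_fin, nsmul_eq_mul]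
  push_cast
  exact le_of_eq (by ring)

/-- The main inequality. -/
lemma main_ineqU (f : ℚ⟦X⟧) (W : ℕ → ℕ) (E : ℕ) (Ψ : ℚ⟦X⟧ →+* ℂ⟦X⟧)
    (hE : 0 < E) (hW0 : ∀ m, 0 < W m) (hW : ∀ m l, W m * W l ∣ W (m + l))
    (hf : ∀ m : ℕ, ∃ z : ℤ, ((E * W m : ℕ) : ℚ) * PowerSeries.coeff m f = z)
    (hc : ∀ g : ℚ⟦X⟧, PowerSeries.constantCoeff (Ψ g) = ((PowerSeries.constantCoeff g : ℚ) : ℂ))
    {Q₁ Q₂ : ℂ⟦X⟧} (hQ₁ : PowerSeries.constantCoeff Q₁ = 1)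
    (hQ₂ : PowerSeries.constantCoeff Q₂ = 1)
    (hR : 0 < ‖PowerSeries.coeff 1 (Ψ PowerSeries.X)‖)
    (S T : ℕ) (P : Fin (S + 1) × Fin (T + 1) → ℤ) {H : ℝ} (hH : 1 ≤ H)
    (hP : ∀ x, |(P x : ℝ)| ≤ H) (hg : gU f S T P ≠ 0) :
    ∃ N : ℕ, PowerSeries.coeff N (gU f S T P) ≠ 0 ∧ ∀ (r B₁ B₂ : ℝ), 0 < r → 1 ≤ B₁ → 1 ≤ B₂ →
      Bd r B₁ Q₁ → Bd r B₁ (Q₁ * Ψ PowerSeries.X) → Bd r B₂ Q₂ → Bd r B₂ (Q₂ * Ψ f) →
      (Real.log ‖PowerSeries.coeff 1 (Ψ PowerSeries.X)‖ + Real.log r) * N ≤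
      Real.log (((S : ℝ) + 1) * ((T : ℝ) + 1)) + Real.log H + S * Real.log B₁ +
        T * Real.log B₂ + T * Real.log E + Real.log (W N) := by
  classical
  have hex : ∃ n, PowerSeries.coeff n (gU f S T P) ≠ 0 := by
    by_contra hcon
    push Not at hcon
    exact hg (PowerSeries.ext fun n => by simpa using hcon n)
  obtain ⟨N, hN, hmin⟩ : ∃ N, PowerSeries.coeff N (gU f S T P) ≠ 0 ∧
      ∀ m < N, PowerSeries.coeff m (gU f S T P) = 0 :=
    ⟨Nat.find hex, Nat.find_spec hex, fun m hm => by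
      have := Nat.find_min hex hm
      push Not at this
      exact this⟩
  refine ⟨N, hN, ?_⟩
  intro r B₁ B₂ hr hB₁ hB₂ b1 b2 b3 b4
  set R : ℝ := ‖PowerSeries.coeff 1 (Ψ PowerSeries.X)‖ with hRdef
  -- lower bound
  have hint : ∃ z : ℤ, ((E ^ T * W N : ℕ) : ℚ) * PowerSeries.coeff N (gU f S T P) = z := by
    have key : ∀ x : Fin (S + 1) × Fin (T + 1), ∃ z : ℤ, ((E ^ T * W N : ℕ) : ℚ) *
        PowerSeries.coeff N (PowerSeries.X ^ (x.1 : ℕ) * f ^ (x.2 : ℕ)) = z := fun x =>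
      den f W E hW hf (x.1 : ℕ) (by have := x.2.2; omega) le_rfl
    choose z hz using key
    refine ⟨∑ x, P x * z x, ?_⟩
    rw [coeff_gU, mul_sum]
    push_cast
    refine sum_congr rfl fun x _ => ?_
    rw [← hz x]
    push_cast
    ring
  obtain ⟨z, hz⟩ := hint
  have hEW : (0 : ℚ) < ((E ^ T * W N : ℕ) : ℚ) := by
    have := hW0 N
    have : 0 < E ^ T * W N := by positivity
    exact_mod_cast this
  have hz0 : z ≠ 0 := by
    intro h0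
    rw [h0] at hz
    simp only [Int.cast_zero, mul_eq_zero] at hz
    rcases hz with hz | hz
    · exact hEW.ne' hz
    · exact hN hz
  have hz1 : (1 : ℝ) ≤ ((E ^ T * W N : ℕ) : ℝ) *
      |((PowerSeries.coeff N (gU f S T P) : ℚ) : ℝ)| := by
    have a1 : (1 : ℤ) ≤ |z| := Int.one_le_abs hz0
    have a2 : ((|z| : ℤ) : ℝ) = ((E ^ T * W N : ℕ) : ℝ) *
      |((PowerSeries.coeff N (gU f S T P) : ℚ) : ℝ)| := by
      have : ((z : ℤ) : ℝ) = ((E ^ T * W N : ℕ) : ℝ) *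
        ((PowerSeries.coeff N (gU f S T P) : ℚ) : ℝ) := by
        exact_mod_cast hz.symm
      rw [Int.cast_abs, this, abs_mul, Nat.abs_cast]
    rw [← a2]
    exact_mod_cast a1
  -- upper bound
  have hQT : PowerSeries.constantCoeff (Q₁ ^ S * Q₂ ^ T) = 1 := by
    rw [map_mul, map_pow, map_pow, hQ₁, hQ₂, one_pow, one_pow, one_mul]
  have hup := Bd_coeff hr.le (Bd_gU f Ψ S T P hr.le hB₁ hB₂ b1 b2 b3 b4 hP) N
  rw [low_coeff' Ψ hc N _ hmin hQT, norm_mul, norm_pow, ← hRdef] at hup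
  have hn : ‖(((PowerSeries.coeff N (gU f S T P) : ℚ) : ℂ))‖ =
      |((PowerSeries.coeff N (gU f S T P) : ℚ) : ℝ)| := Complex.norm_ratCast _
  rw [hn] at hup
  set q : ℝ := |((PowerSeries.coeff N (gU f S T P) : ℚ) : ℝ)| with hq
  have hEr : (0 : ℝ) < E := by exact_mod_cast hE
  have hWr : (0 : ℝ) < W N := by exact_mod_cast hW0 N
  have hcomb : R ^ N * r ^ N ≤ (E : ℝ) ^ T * W N *
      ((((S : ℝ) + 1) * ((T : ℝ) + 1)) * (H * (B₁ ^ S * B₂ ^ T))) := by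
    calc R ^ N * r ^ N ≤ R ^ N * r ^ N * (((E ^ T * W N : ℕ) : ℝ) * q) :=
          le_mul_of_one_le_right (by positivity) hz1
      _ = (E : ℝ) ^ T * W N * (R ^ N * q * r ^ N) := by push_cast; ring
      _ ≤ _ := mul_le_mul_of_nonneg_left hup (by positivity)
  have hT1 : (0 : ℝ) < (T : ℝ) + 1 := by positivity
  have hS1 : (0 : ℝ) < (S : ℝ) + 1 := by positivity
  have hH0 : 0 < H := by linarith
  have hB0 : 0 < B₁ := by linarith
  have hB0' : 0 < B₂ := by linarith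
  have hlog := Real.log_le_log (by positivity) hcomb
  rw [Real.log_mul (by positivity) (by positivity), Real.log_pow, Real.log_pow,
    Real.log_mul (by positivity) (by positivity),
    Real.log_mul (show (E : ℝ) ^ T ≠ 0 by positivity) (by positivity),
    Real.log_mul (show ((S : ℝ) + 1) * ((T : ℝ) + 1) ≠ 0 by positivity) (by positivity),
    Real.log_mul (show H ≠ 0 by positivity) (by positivity),
    Real.log_mul (show B₁ ^ S ≠ 0 by positivity) (by positivity),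
    Real.log_pow, Real.log_pow, Real.log_pow] at hlog
  linarith

end Pool.Agent.Y915.Uni
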