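import Pool.Agent.Y915.Uni

set_option autoImplicit false

/-!
# Algebraicity of functions uniformized by meromorphic functions of finite order
-/

namespace Pool.Agent.Y915.Uni

open scoped PowerSeries Polynomial
open Finset Pool.Agent.Y474.PC Pool.Agent.Y915.Mero

/-- The coefficients satisfy `|a_m| r^m ≤ exp (c r^ρ)` for all `r ≥ 1`. -/
def Ord (ρ : ℝ) (G : ℂ⟦X⟧) : Prop :=
  ∃ c : ℝ, ∀ r : ℝ, 1 ≤ r → ∀ m : ℕ, ‖PowerSeries.coeff m G‖ * r ^ m ≤ Real.exp (c * r ^ ρ)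

/-- Quotients of such functions, with denominator `1` at the origin. -/
def MerOrd (ρ : ℝ) (h : ℂ⟦X⟧) : Prop :=
  ∃ Q : ℂ⟦X⟧, PowerSeries.constantCoeff Q = 1 ∧ Ord ρ Q ∧ Ord ρ (Q * h)

lemma Bd_of_Ord {ρ : ℝ} (hρ : 0 < ρ) {G : ℂ⟦X⟧} (h : Ord ρ G) :
    ∃ c : ℝ, 0 ≤ c ∧ ∀ r : ℝ, 1 ≤ r → Bd r (Real.exp (c * r ^ ρ)) G := by
  obtain ⟨c, hc⟩ := h
  refine ⟨|c| * 2 ^ ρ + 1, by positivity, fun r hr n => ?_⟩
  have hr0 : 0 < r := by linarith
  have hrρ : 1 ≤ r ^ ρ := Real.one_le_rpow hr hρ.le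
  calc ∑ m ∈ range n, ‖PowerSeries.coeff m G‖ * r ^ m
      ≤ ∑ m ∈ range n, Real.exp (c * (2 * r) ^ ρ) * (1 / 2) ^ m := by
        refine sum_le_sum fun m _ => ?_
        have h1 := hc (2 * r) (by linarith) m
        have h2 : r ^ m = (2 * r) ^ m * (1 / 2) ^ m := by
          rw [← mul_pow]; congr 1; ring
        rw [h2, ← mul_assoc]
        exact mul_le_mul_of_nonneg_right h1 (by positivity)
    _ = Real.exp (c * (2 * r) ^ ρ) * ∑ m ∈ range n, (1 / 2 : ℝ) ^ m := by rw [mul_sum]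
    _ ≤ Real.exp (c * (2 * r) ^ ρ) * 2 := by
        refine mul_le_mul_of_nonneg_left ?_ (Real.exp_pos _).le
        rw [geom_sum_eq (by norm_num)]
        have : (0 : ℝ) ≤ (1 / 2) ^ n := by positivity
        have h3 : ((1 / 2 : ℝ) ^ n - 1) / (1 / 2 - 1) = 2 * (1 - (1 / 2) ^ n) := by
          field_simp
          ring
        rw [h3]
        linarith
    _ ≤ Real.exp (|c| * 2 ^ ρ * r ^ ρ) * Real.exp (1 * r ^ ρ) := by
        refine mul_le_mul ?_ ?_ (by norm_num) (Real.exp_pos _).le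
        · rw [Real.exp_le_exp, Real.mul_rpow (by norm_num) hr0.le, mul_assoc]
          exact mul_le_mul_of_nonneg_right (le_abs_self c) (by positivity)
        · have h4 : (1 : ℝ) + 1 ≤ Real.exp 1 := Real.add_one_le_exp 1
          have h5 : Real.exp 1 ≤ Real.exp (1 * r ^ ρ) := by
            rw [Real.exp_le_exp, one_mul]; exact hrρ
          linarith
    _ = Real.exp ((|c| * 2 ^ ρ + 1) * r ^ ρ) := by rw [← Real.exp_add]; congr 1; ring

/-- Algebraicity of functions uniformized by meromorphic functions of finite order. -/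
theorem critU (f : ℚ⟦X⟧) (W : ℕ → ℕ) (E : ℕ) (α τ A : ℝ) (Ψ : ℚ⟦X⟧ →+* ℂ⟦X⟧)
    (hE : 0 < E) (hW0 : ∀ m, 0 < W m) (hW : ∀ m l, W m * W l ∣ W (m + l))
    (hα0 : 0 ≤ α) (hτ0 : 0 ≤ τ)
    (hτ : ∀ m : ℕ, 1 ≤ m → Real.log (W m) ≤ α * (m * Real.log m) + τ * m)
    (hf : ∀ m : ℕ, ∃ z : ℤ, ((E * W m : ℕ) : ℚ) * PowerSeries.coeff m f = z)
    (hA : ∀ m : ℕ, |((PowerSeries.coeff m f : ℚ) : ℝ)| ≤ A ^ (m + 1))
    (hc : ∀ g : ℚ⟦X⟧, PowerSeries.constantCoeff (Ψ g) = ((PowerSeries.constantCoeff g : ℚ) : ℂ))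
    {ρ₁ ρ₂ : ℝ} (hρ₁ : 0 < ρ₁) (hρ₂ : 0 < ρ₂)
    (hM1 : MerOrd ρ₁ (Ψ PowerSeries.X)) (hM2 : MerOrd ρ₂ (Ψ f))
    (hR : PowerSeries.coeff 1 (Ψ PowerSeries.X) ≠ 0)
    (hlt : α * (ρ₁ + ρ₂) < 1) : IsAlgebraic ℚ[X] f := by
  by_contra hna
  set R : ℝ := ‖PowerSeries.coeff 1 (Ψ PowerSeries.X)‖ with hRd
  have hR0 : 0 < R := norm_pos_iff.2 hR
  obtain ⟨s, hs⟩ : ∃ s, s = ρ₁ + ρ₂ := ⟨_, rfl⟩
  have hs0 : 0 < s := by rw [hs]; linarith
  obtain ⟨δ, hδ⟩ : ∃ δ, δ = 1 / s - α := ⟨_, rfl⟩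
  have hδ0 : 0 < δ := by
    rw [hδ, sub_pos, lt_div_iff₀ hs0, hs]
    exact hlt
  obtain ⟨k, hk⟩ := exists_nat_gt (2 * α / δ + 2)
  have hk0 : 0 ≤ 2 * α / δ := by positivity
  have hk2r : (2 : ℝ) < k := by linarith
  have hk2 : 2 ≤ k := by exact_mod_cast hk2r.le
  have hkα : 1 / ((k : ℝ) - 1) * α ≤ δ / 2 := by
    have h3 : 2 * α / δ ≤ (k : ℝ) - 1 := by linarith
    rw [div_le_iff₀ hδ0] at h3
    rw [one_div, inv_mul_le_iff₀ (by linarith)]
    linarith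
  have hk1 : 1 / ((k : ℝ) - 1) ≤ 1 := by
    rw [div_le_one (by linarith)]
    linarith
  have hk1' : 0 ≤ 1 / ((k : ℝ) - 1) := by
    have : (0 : ℝ) < (k : ℝ) - 1 := by linarith
    positivity
  obtain ⟨Q₁, hQ₁, o1, o2⟩ := hM1
  obtain ⟨Q₂, hQ₂, o3, o4⟩ := hM2
  obtain ⟨c1, hc1, b1⟩ := Bd_of_Ord hρ₁ o1
  obtain ⟨c2, hc2, b2⟩ := Bd_of_Ord hρ₁ o2
  obtain ⟨c3, hc3, b3⟩ := Bd_of_Ord hρ₂ o3
  obtain ⟨c4, hc4, b4⟩ := Bd_of_Ord hρ₂ o4
  obtain ⟨c, hcd⟩ : ∃ c, c = c1 + c2 + c3 + c4 := ⟨_, rfl⟩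
  have hc0 : 0 ≤ c := by rw [hcd]; positivity
  have up : ∀ {r ρ c' : ℝ} {G : ℂ⟦X⟧}, 1 ≤ r → c' ≤ c → Bd r (Real.exp (c' * r ^ ρ)) G →
      Bd r (Real.exp (c * r ^ ρ)) G := by
    intro r ρ c' G hr hcc hb
    refine Bd_mono hb (Real.exp_le_exp.2 ?_)
    exact mul_le_mul_of_nonneg_right hcc (Real.rpow_nonneg (by linarith) _)
  set A' : ℝ := max 1 A with hA'
  have hA1 : 1 ≤ A' := le_max_left _ _
  have hAb : ∀ m : ℕ, |((PowerSeries.coeff m f : ℚ) : ℝ)| ≤ A' ^ (m + 1) := by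
    intro m
    have hA0 : 0 ≤ A := by
      have := (abs_nonneg _).trans (hA 0)
      simpa using this
    exact (hA m).trans (pow_le_pow_left₀ hA0 (le_max_right _ _) _)
  obtain ⟨D, hD⟩ : ∃ D, D = Real.log (2 * A') := ⟨_, rfl⟩
  have hD0 : 0 ≤ D := by rw [hD]; exact Real.log_nonneg (by linarith)
  obtain ⟨l, hl⟩ : ∃ l, l = Real.log E := ⟨_, rfl⟩
  have hl0 : 0 ≤ l := by rw [hl]; exact Real.log_natCast_nonneg _
  obtain ⟨C, hC⟩ : ∃ C, C = 2 * k + 2 * l + 2 * D + 2 * τ + 2 * k * c + 2 * c - Real.log R :=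
    ⟨_, rfl⟩
  -- choose m
  obtain ⟨m, hm⟩ := exists_nat_gt (max 1 (Real.exp (2 * C / (δ * s))))
  have hm1 : (1 : ℝ) < m := lt_of_le_of_lt (le_max_left _ _) hm
  have hm2 : Real.exp (2 * C / (δ * s)) < m := lt_of_le_of_lt (le_max_right _ _) hm
  have hm0 : (0 : ℝ) < m := by linarith
  obtain ⟨x, hx⟩ : ∃ x : ℕ, x = ⌈(m : ℝ) ^ ρ₂⌉₊ := ⟨_, rfl⟩
  obtain ⟨y, hy⟩ : ∃ y : ℕ, y = ⌈(m : ℝ) ^ ρ₁⌉₊ := ⟨_, rfl⟩
  have hmx : (m : ℝ) ^ ρ₂ ≤ x := by rw [hx]; exact Nat.le_ceil _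
  have hmy : (m : ℝ) ^ ρ₁ ≤ y := by rw [hy]; exact Nat.le_ceil _
  have hx1 : (x : ℝ) ≤ (m : ℝ) ^ ρ₂ + 1 := by
    rw [hx]; exact (Nat.ceil_lt_add_one (by positivity)).le
  have hy1 : (y : ℝ) ≤ (m : ℝ) ^ ρ₁ + 1 := by
    rw [hy]; exact (Nat.ceil_lt_add_one (by positivity)).le
  have hx0 : 0 < x := by
    have h1 : (0 : ℝ) < x := lt_of_lt_of_le (by positivity) hmx
    exact_mod_cast h1
  have hy0 : 0 < y := by
    have h1 : (0 : ℝ) < y := lt_of_lt_of_le (by positivity) hmy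
    exact_mod_cast h1
  have hkx : 0 < k * x := by positivity
  obtain ⟨S, hS⟩ : ∃ S, S + 1 = k * x := ⟨k * x - 1, by omega⟩
  obtain ⟨T, hT⟩ : ∃ T, T + 1 = y := ⟨y - 1, by omega⟩
  obtain ⟨n, hn⟩ : ∃ n, n = x * y := ⟨_, rfl⟩
  have hn0 : 0 < n := by rw [hn]; positivity
  have hST : (S + 1) * (T + 1) = k * n := by rw [hS, hT, hn]; ring
  obtain ⟨P, H, hP0, hH, hPH, hvan, hlogH⟩ := siegelU f W E A' hE hW0 hW hf hA1 hAb
    k n S T hk2 hn0 hST
  have hg : gU f S T P ≠ 0 := fun h => hna (alg_of_gU f S T P hP0 h)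
  obtain ⟨N, hN, hineq⟩ :=
    main_ineqU f W E Ψ hE hW0 hW hf hc hQ₁ hQ₂ hR0 S T P hH hPH hg
  have hNn : n ≤ N := by
    by_contra hcon
    exact hN (hvan N (by omega))
  have hnNr : (n : ℝ) ≤ N := by exact_mod_cast hNn
  have hn1 : (1 : ℝ) ≤ n := by exact_mod_cast hn0
  have hN1 : (1 : ℝ) ≤ N := by linarith
  have hN0 : (0 : ℝ) < N := by linarith
  have hNs : (m : ℝ) ^ s ≤ N := by
    refine le_trans ?_ hnNr
    rw [hn, hs, add_comm, Real.rpow_add hm0]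
    push_cast
    exact mul_le_mul hmx hmy (by positivity) (by positivity)
  obtain ⟨r, hr⟩ : ∃ r : ℝ, r = (N : ℝ) ^ (1 / s) := ⟨_, rfl⟩
  have hr1 : 1 ≤ r := by rw [hr]; exact Real.one_le_rpow hN1 (by positivity)
  have hr0 : 0 < r := by linarith
  have hmr : (m : ℝ) ≤ r := by
    rw [hr]
    have h1 := Real.rpow_le_rpow (by positivity) hNs (show (0 : ℝ) ≤ 1 / s by positivity)
    rwa [← Real.rpow_mul hm0.le, mul_one_div_cancel hs0.ne', Real.rpow_one] at h1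
  have hrs : r ^ ρ₁ * r ^ ρ₂ = N := by
    rw [← Real.rpow_add hr0, ← hs, hr, ← Real.rpow_mul hN0.le, one_div_mul_cancel hs0.ne',
      Real.rpow_one]
  have hlr : Real.log r = Real.log N / s := by
    rw [hr, Real.log_rpow hN0]; ring
  have hr1a : 1 ≤ r ^ ρ₁ := Real.one_le_rpow hr1 hρ₁.le
  have hr1b : 1 ≤ r ^ ρ₂ := Real.one_le_rpow hr1 hρ₂.le
  have hxr : (x : ℝ) ≤ 2 * r ^ ρ₂ := by
    have := Real.rpow_le_rpow hm0.le hmr hρ₂.le
    linarith
  have hyr : (y : ℝ) ≤ 2 * r ^ ρ₁ := by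
    have := Real.rpow_le_rpow hm0.le hmr hρ₁.le
    linarith
  have hSr : (S : ℝ) ≤ k * x := by
    have : S ≤ k * x := by omega
    exact_mod_cast this
  have hTr : (T : ℝ) ≤ y := by
    have : T ≤ y := by omega
    exact_mod_cast this
  have hT0 : (0 : ℝ) ≤ T := Nat.cast_nonneg _
  have hS0 : (0 : ℝ) ≤ S := Nat.cast_nonneg _
  have hkk : (0 : ℝ) ≤ k := Nat.cast_nonneg _
  have hTN : (T : ℝ) ≤ N := by
    have h1 : y ≤ n := by rw [hn]; exact Nat.le_mul_of_pos_left y hx0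
    have h2 : (y : ℝ) ≤ n := by exact_mod_cast h1
    linarith
  have hi := hineq r (Real.exp (c * r ^ ρ₁)) (Real.exp (c * r ^ ρ₂)) hr0
    (Real.one_le_exp (by positivity)) (Real.one_le_exp (by positivity))
    (up hr1 (by linarith) (b1 r hr1)) (up hr1 (by linarith) (b2 r hr1))
    (up hr1 (by linarith) (b3 r hr1)) (up hr1 (by linarith) (b4 r hr1))
  rw [Real.log_exp, Real.log_exp, hlr, ← hRd, ← hl] at hi
  -- the terms
  have t0 : ((S : ℝ) + 1) * ((T : ℝ) + 1) = k * n := by exact_mod_cast hST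
  have hkn0 : (0 : ℝ) < k * n := by
    have : (0 : ℝ) < k := by linarith
    positivity
  have t1 : Real.log (k * n) ≤ k * N := by
    have h1 := Real.log_le_sub_one_of_pos hkn0
    have h2 : (k : ℝ) * n ≤ k * N := mul_le_mul_of_nonneg_left hnNr hkk
    linarith
  have t1' : 0 ≤ Real.log (k * n) := by
    refine Real.log_nonneg ?_
    nlinarith
  have t2 : (S : ℝ) * (c * r ^ ρ₁) ≤ 2 * k * c * N := by
    calc (S : ℝ) * (c * r ^ ρ₁) ≤ (k * (2 * r ^ ρ₂)) * (c * r ^ ρ₁) := by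
          refine mul_le_mul_of_nonneg_right ?_ (by positivity)
          exact hSr.trans (mul_le_mul_of_nonneg_left hxr hkk)
      _ = 2 * k * c * (r ^ ρ₁ * r ^ ρ₂) := by ring
      _ = _ := by rw [hrs]
  have t3 : (T : ℝ) * (c * r ^ ρ₂) ≤ 2 * c * N := by
    calc (T : ℝ) * (c * r ^ ρ₂) ≤ (2 * r ^ ρ₁) * (c * r ^ ρ₂) := by
          refine mul_le_mul_of_nonneg_right ?_ (by positivity)
          exact hTr.trans hyr
      _ = 2 * c * (r ^ ρ₁ * r ^ ρ₂) := by ring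
      _ = _ := by rw [hrs]
  have t4 : (T : ℝ) * l ≤ l * N := by
    rw [mul_comm]
    exact mul_le_mul_of_nonneg_left hTN hl0
  have hLN : 0 ≤ Real.log N := Real.log_nonneg hN1
  have t5 : Real.log (W N) ≤ α * (N * Real.log N) + τ * N :=
    hτ N (hn0.trans_le hNn)
  have t6 : Real.log (W n) ≤ α * (N * Real.log N) + τ * N := by
    refine (hτ n hn0).trans (add_le_add ?_ (mul_le_mul_of_nonneg_left hnNr hτ0))
    refine mul_le_mul_of_nonneg_left ?_ hα0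
    refine mul_le_mul hnNr ?_ (Real.log_nonneg hn1) hN0.le
    exact Real.log_le_log (by linarith) hnNr
  have t6' : 0 ≤ Real.log (W n) := Real.log_natCast_nonneg _
  have t7 : Real.log H ≤ k * N + l * N + 2 * D * N + δ / 2 * (N * Real.log N) + τ * N := by
    rw [hlogH, ← hl, ← hD]
    have e1 : 1 / ((k : ℝ) - 1) * (Real.log (k * n) + (T * l + Real.log (W n) +
        ((n : ℝ) + T) * D)) = 1 / ((k : ℝ) - 1) * (Real.log (k * n) + T * l + (n + T) * D) +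
        1 / ((k : ℝ) - 1) * Real.log (W n) := by ring
    rw [e1]
    have e2 : 1 / ((k : ℝ) - 1) * (Real.log (k * n) + T * l + (n + T) * D) ≤
        Real.log (k * n) + T * l + (n + T) * D := by
      refine mul_le_of_le_one_left ?_ hk1
      positivity
    have e3 : 1 / ((k : ℝ) - 1) * Real.log (W n) ≤ δ / 2 * (N * Real.log N) + τ * N := by
      calc 1 / ((k : ℝ) - 1) * Real.log (W n)
          ≤ 1 / ((k : ℝ) - 1) * (α * (N * Real.log N) + τ * N) :=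
            mul_le_mul_of_nonneg_left t6 hk1'
        _ = (1 / ((k : ℝ) - 1) * α) * (N * Real.log N) + 1 / ((k : ℝ) - 1) * (τ * N) := by ring
        _ ≤ _ := by
            refine add_le_add (mul_le_mul_of_nonneg_right hkα (by positivity)) ?_
            exact mul_le_of_le_one_left (by positivity) hk1
    have e4 : ((n : ℝ) + T) * D ≤ 2 * D * N := by
      have : (n : ℝ) + T ≤ 2 * N := by linarith
      calc ((n : ℝ) + T) * D ≤ (2 * N) * D := mul_le_mul_of_nonneg_right this hD0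
        _ = _ := by ring
    linarith
  rw [t0] at hi
  have hfin : (Real.log R + Real.log N / s) * N ≤
      k * N + (k * N + l * N + 2 * D * N + δ / 2 * (N * Real.log N) + τ * N) +
      2 * k * c * N + 2 * c * N + l * N + (α * (N * Real.log N) + τ * N) := by
    linarith
  have hfin2 : δ / 2 * (N * Real.log N) ≤ C * N := by
    have e1 : (Real.log R + Real.log N / s) * N = Real.log R * N + (1 / s) * (N * Real.log N) := by
      ring
    have e2 : (1 / s) * (N * Real.log N) = δ * (N * Real.log N) + α * (N * Real.log N) := by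
      rw [hδ]; ring
    rw [e1, e2] at hfin
    rw [hC]
    linarith
  have hfin3 : δ / 2 * Real.log N ≤ C := by
    have e : δ / 2 * (N * Real.log N) = (δ / 2 * Real.log N) * N := by ring
    rw [e] at hfin2
    exact le_of_mul_le_mul_right hfin2 hN0
  have hfin4 : 2 * C / (δ * s) < Real.log m := by
    rw [Real.lt_log_iff_exp_lt hm0]
    exact hm2
  have hfin5 : s * Real.log m ≤ Real.log N := by
    have h1 := Real.log_le_log (by positivity) hNs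
    rwa [Real.log_rpow hm0] at h1
  rw [div_lt_iff₀ (by positivity)] at hfin4
  have h9 : δ * (s * Real.log m) ≤ δ * Real.log N := mul_le_mul_of_nonneg_left hfin5 hδ0.le
  have h10 : Real.log m * (δ * s) = δ * (s * Real.log m) := by ring
  rw [h10] at hfin4
  linarith

end Pool.Agent.Y915.Uni
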