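import Pool.Agent.Y915.Uni2
import Pool.Agent.TH252.ExpT.Fin

set_option autoImplicit false

/-!
# Denominators of solutions of algebraic differential equations and bad primes
-/

namespace Pool.Agent.Y915.Uni

open scoped PowerSeries Polynomial
open Finset Pool.Agent.TH252.ExpT

section arith

open scoped Nat

open Classical in
/-- The primes `p ≤ m` such that some `a_k`, `k ≤ m`, is not `p`-integral. -/
noncomputable def bd (a : ℕ → ℚ) (m : ℕ) : Finset ℕ :=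
  (range (m + 1)).filter fun p => p.Prime ∧ ∃ k ≤ m, p ∣ (a k).den

lemma mem_bd {a : ℕ → ℚ} {m p : ℕ} :
    p ∈ bd a m ↔ p ≤ m ∧ p.Prime ∧ ∃ k ≤ m, p ∣ (a k).den := by
  unfold bd
  rw [mem_filter, mem_range, Nat.lt_succ_iff]

lemma bd_mono {a : ℕ → ℚ} {m l p : ℕ} (h : m ≤ l) (hp : p ∈ bd a m) : p ∈ bd a l := by
  rw [mem_bd] at hp ⊢
  obtain ⟨h1, h2, k, h3, h4⟩ := hp
  exact ⟨h1.trans h, h2, k, h3.trans h, h4⟩

/-- `∏ p ^ v_p(m!)` over the bad primes. -/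
noncomputable def wb (a : ℕ → ℚ) (m : ℕ) : ℕ :=
  ∏ p ∈ bd a m, p ^ (m !).factorization p

lemma wb_ne (a : ℕ → ℚ) (m : ℕ) : wb a m ≠ 0 :=
  prod_ne_zero_iff.2 fun _ hp => pow_ne_zero _ (mem_bd.1 hp).2.1.ne_zero

lemma wb_pos (a : ℕ → ℚ) (m : ℕ) : 0 < wb a m := Nat.pos_of_ne_zero (wb_ne a m)

open Classical in
lemma wb_fact (a : ℕ → ℚ) (m p : ℕ) (_hp : p.Prime) :
    (wb a m).factorization p = if p ∈ bd a m then (m !).factorization p else 0 := by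
  unfold wb
  rw [Nat.factorization_prod (fun q hq => pow_ne_zero _ (mem_bd.1 hq).2.1.ne_zero),
    Finsupp.finsetSum_apply]
  have h1 : ∀ q ∈ bd a m, (q ^ (m !).factorization q).factorization p =
      if q = p then (m !).factorization p else 0 := by
    intro q hq
    rw [(mem_bd.1 hq).2.1.factorization_pow]
    by_cases h : q = p
    · subst h
      rw [Finsupp.single_eq_same, if_pos rfl]
    · rw [Finsupp.single_eq_of_ne (fun h' => h h'.symm), if_neg h]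
  rw [sum_congr rfl h1, sum_ite_eq']

lemma wb_mul (a : ℕ → ℚ) (m l : ℕ) : wb a m * wb a l ∣ wb a (m + l) := by
  classical
  rw [← Nat.factorization_prime_le_iff_dvd (mul_ne_zero (wb_ne a m) (wb_ne a l)) (wb_ne a (m + l))]
  intro p hp
  rw [Nat.factorization_mul (wb_ne a m) (wb_ne a l), Finsupp.add_apply, wb_fact a m p hp,
    wb_fact a l p hp, wb_fact a (m + l) p hp]
  have h1 : (m !).factorization p + (l !).factorization p ≤ ((m + l)!).factorization p := by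
    rw [← Finsupp.add_apply, ← Nat.factorization_mul (Nat.factorial_ne_zero m)
      (Nat.factorial_ne_zero l)]
    exact (Nat.factorization_le_iff_dvd (mul_ne_zero (Nat.factorial_ne_zero m)
      (Nat.factorial_ne_zero l)) (Nat.factorial_ne_zero _)).2
      (Nat.factorial_mul_factorial_dvd_factorial_add m l) p
  have h2 : p ∈ bd a m → p ∈ bd a (m + l) := bd_mono (by omega)
  have h3 : p ∈ bd a l → p ∈ bd a (m + l) := bd_mono (by omega)
  split_ifs <;> first | omega | tauto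

/-- The logarithm of `wb`. -/
lemma log_wb (a : ℕ → ℚ) (m : ℕ) :
    Real.log (wb a m) ≤ m * ∑ p ∈ bd a m, Real.log p / ((p : ℝ) - 1) := by
  unfold wb
  rw [Nat.cast_prod, Real.log_prod (fun p hp => by
    have := (mem_bd.1 hp).2.1.ne_zero
    push_cast
    positivity), mul_sum]
  refine sum_le_sum fun p hp => ?_
  have hpp := (mem_bd.1 hp).2.1
  have h1 : (1 : ℝ) < p := by exact_mod_cast hpp.one_lt
  have h2 := legendre_le hpp m
  have h3 : ((p : ℝ) - 1) * ((m !).factorization p : ℝ) ≤ m := by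
    have : (((p - 1) * (m !).factorization p : ℕ) : ℝ) ≤ m := by exact_mod_cast h2
    rwa [Nat.cast_mul, Nat.cast_sub hpp.one_lt.le, Nat.cast_one] at this
  rw [Nat.cast_pow, Real.log_pow, ← mul_div_assoc, le_div_iff₀ (by linarith)]
  calc ((m !).factorization p : ℝ) * Real.log p * ((p : ℝ) - 1)
      = (((p : ℝ) - 1) * ((m !).factorization p : ℝ)) * Real.log p := by ring
    _ ≤ _ := mul_le_mul_of_nonneg_right h3 (Real.log_nonneg h1.le)

/-- The common denominators. -/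
lemma den_wb (a : ℕ → ℚ) (N : ℕ) (hN : 1 ≤ N)
    (hH : ∀ k : ℕ, ∃ z : ℤ, (N : ℚ) ^ (k + 1) * ((k.factorial : ℚ) * a k) = z) (m : ℕ) :
    ∃ z : ℤ, ((N * (N ^ m * wb a m) : ℕ) : ℚ) * a m = z := by
  classical
  apply int_of_den_dvd
  have hNm : N ^ (m + 1) ≠ 0 := pow_ne_zero _ (by omega)
  have e : N * (N ^ m * wb a m) = N ^ (m + 1) * wb a m := by ring
  rw [e, ← Nat.factorization_prime_le_iff_dvd (a m).den_ne_zero (mul_ne_zero hNm (wb_ne a m))]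
  intro p hp
  rw [Nat.factorization_mul hNm (wb_ne a m), Finsupp.add_apply, wb_fact a m p hp]
  obtain ⟨z, hz⟩ := hH m
  have h1 : (a m).den ∣ N ^ (m + 1) * m ! := by
    refine den_dvd_of_mul (a m) _ z ?_
    rw [← hz]
    push_cast
    ring
  have h2 := (Nat.factorization_le_iff_dvd (a m).den_ne_zero
    (mul_ne_zero hNm (Nat.factorial_ne_zero m))).2 h1 p
  rw [Nat.factorization_mul hNm (Nat.factorial_ne_zero m), Finsupp.add_apply] at h2
  split_ifs with h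
  · exact h2
  · by_cases hpm : p ≤ m
    · have h3 : ¬ p ∣ (a m).den := fun h3 => h (mem_bd.2 ⟨hpm, hp, m, le_rfl, h3⟩)
      rw [Nat.factorization_eq_zero_of_not_dvd h3]
      exact Nat.zero_le _
    · have h3 : (m !).factorization p = 0 := by
        apply Nat.factorization_eq_zero_of_not_dvd
        rw [hp.dvd_factorial]
        exact hpm
      rw [h3] at h2
      exact h2

end arith

/-! ### Solutions of differential equations -/

open Pool.Agent.Y474.PC Pool.Agent.Y915.Mero Pool.Agent.Y915.Cur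

/-- Growth of the coefficients. -/
lemma growth {f : ℚ⟦X⟧} {φ : ℂ⟦X⟧} (hφ : PowerSeries.constantCoeff φ = 0)
    (h1 : PowerSeries.coeff 1 φ ≠ 0) (mφ : Mer φ) (mf : Mer (Psi φ hφ f)) :
    ∃ A : ℝ, ∀ m : ℕ, |((PowerSeries.coeff m f : ℚ) : ℝ)| ≤ A ^ (m + 1) := by
  obtain ⟨r, hr, hgr⟩ := small_mer hφ mφ h1 (f := PowerSeries.map (algebraMap ℚ ℂ) f) mf
  obtain ⟨A, hA⟩ := exists_pow_bound hr hgr
  refine ⟨A, fun m => ?_⟩
  have h1 := hA m
  rw [PowerSeries.coeff_map] at h1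
  have h2 : ‖(algebraMap ℚ ℂ) (PowerSeries.coeff m f)‖ =
      |((PowerSeries.coeff m f : ℚ) : ℝ)| := by
    have : (algebraMap ℚ ℂ) (PowerSeries.coeff m f) =
        (((PowerSeries.coeff m f : ℚ) : ℝ) : ℂ) := by
      rw [eq_ratCast]; push_cast; rfl
    rw [this, Complex.norm_real, Real.norm_eq_abs]
  rwa [h2] at h1

/-- The weight. -/
lemma log_W (a : ℕ → ℚ) {N : ℕ} (hN : 1 ≤ N) (m : ℕ) :
    Real.log ((N ^ m * wb a m : ℕ) : ℝ) ≤
      m * Real.log N + m * ∑ p ∈ bd a m, Real.log p / ((p : ℝ) - 1) := by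
  have h1 : (0 : ℝ) < N := by exact_mod_cast hN
  have h2 : (0 : ℝ) < wb a m := by exact_mod_cast wb_pos a m
  rw [Nat.cast_mul, Nat.cast_pow, Real.log_mul (by positivity) (by positivity), Real.log_pow]
  exact add_le_add_right (log_wb a m) _

lemma W_mul (a : ℕ → ℚ) (N m l : ℕ) :
    (N ^ m * wb a m) * (N ^ l * wb a l) ∣ N ^ (m + l) * wb a (m + l) := by
  have e : (N ^ m * wb a m) * (N ^ l * wb a l) = N ^ (m + l) * (wb a m * wb a l) := by ring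
  rw [e]
  exact mul_dvd_mul_left _ (wb_mul a m l)

/-- The disc. -/
theorem disc {f : ℚ⟦X⟧} {N : ℕ} (hN : 1 ≤ N)
    (hH : ∀ k : ℕ, ∃ z : ℤ, (N : ℚ) ^ (k + 1) * ((k.factorial : ℚ) * PowerSeries.coeff k f) = z)
    {Ψ : ℚ⟦X⟧ →+* ℂ⟦X⟧} {A : ℝ}
    (hA : ∀ m : ℕ, |((PowerSeries.coeff m f : ℚ) : ℝ)| ≤ A ^ (m + 1))
    (hc : ∀ g : ℚ⟦X⟧, PowerSeries.constantCoeff (Ψ g) = ((PowerSeries.constantCoeff g : ℚ) : ℂ))
    (hM1 : Mer (Ψ PowerSeries.X)) (hM2 : Mer (Ψ f)) {C : ℝ}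
    (hb : ∀ m : ℕ, ∑ p ∈ bd (fun k => PowerSeries.coeff k f) m,
      Real.log p / ((p : ℝ) - 1) ≤ C)
    (hlt : Real.log N + C < Real.log ‖PowerSeries.coeff 1 (Ψ PowerSeries.X)‖) :
    IsAlgebraic ℚ[X] f := by
  refine crit' f (fun m => N ^ m * wb (fun k => PowerSeries.coeff k f) m) N (Real.log N + C) A Ψ
    (by omega) ?_ ?_ ?_ (den_wb _ N hN hH) hA hc hM1 hM2 hlt
  · intro m
    have := wb_pos (fun k => PowerSeries.coeff k f) m
    positivity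
  · exact fun m l => W_mul _ N m l
  · intro m
    refine (log_W _ hN m).trans ?_
    have h1 := mul_le_mul_of_nonneg_left (hb m) (Nat.cast_nonneg (α := ℝ) m)
    linarith

/-- Finite order. -/
theorem order {f : ℚ⟦X⟧} {N : ℕ} (hN : 1 ≤ N)
    (hH : ∀ k : ℕ, ∃ z : ℤ, (N : ℚ) ^ (k + 1) * ((k.factorial : ℚ) * PowerSeries.coeff k f) = z)
    {Ψ : ℚ⟦X⟧ →+* ℂ⟦X⟧} {A : ℝ}
    (hA : ∀ m : ℕ, |((PowerSeries.coeff m f : ℚ) : ℝ)| ≤ A ^ (m + 1))
    (hc : ∀ g : ℚ⟦X⟧, PowerSeries.constantCoeff (Ψ g) = ((PowerSeries.constantCoeff g : ℚ) : ℂ))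
    {ρ₁ ρ₂ : ℝ} (hρ₁ : 0 < ρ₁) (hρ₂ : 0 < ρ₂)
    (hM1 : MerOrd ρ₁ (Ψ PowerSeries.X)) (hM2 : MerOrd ρ₂ (Ψ f))
    (hR : PowerSeries.coeff 1 (Ψ PowerSeries.X) ≠ 0) {α C : ℝ} (hα0 : 0 ≤ α)
    (hb : ∀ m : ℕ, 1 ≤ m → ∑ p ∈ bd (fun k => PowerSeries.coeff k f) m,
      Real.log p / ((p : ℝ) - 1) ≤ α * Real.log m + C)
    (hlt : α * (ρ₁ + ρ₂) < 1) : IsAlgebraic ℚ[X] f := by
  refine critU f (fun m => N ^ m * wb (fun k => PowerSeries.coeff k f) m) N α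
    (Real.log N + max C 0) A Ψ (by omega) ?_ ?_ hα0 ?_ ?_ (den_wb _ N hN hH) hA hc hρ₁ hρ₂
    hM1 hM2 hR hlt
  · intro m
    have := wb_pos (fun k => PowerSeries.coeff k f) m
    positivity
  · exact fun m l => W_mul _ N m l
  · have h1 : 0 ≤ Real.log N := Real.log_natCast_nonneg N
    have h2 : 0 ≤ max C 0 := le_max_right _ _
    linarith
  · intro m hm
    refine (log_W _ hN m).trans ?_
    have h1 := mul_le_mul_of_nonneg_left (hb m hm) (Nat.cast_nonneg (α := ℝ) m)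
    have h2 : (m : ℝ) * C ≤ m * max C 0 :=
      mul_le_mul_of_nonneg_left (le_max_left _ _) (Nat.cast_nonneg (α := ℝ) m)
    have h3 : (m : ℝ) * (α * Real.log m + C) = α * (m * Real.log m) + m * C := by ring
    rw [h3] at h1
    linarith

/-- Entire functions. -/
def Ent (G : ℂ⟦X⟧) : Prop :=
  ∀ r : ℝ, 0 < r → ∃ B : ℝ, ∀ m : ℕ, ‖PowerSeries.coeff m G‖ * r ^ m ≤ B

/-- Meromorphic functions. -/
def MerEnt (h : ℂ⟦X⟧) : Prop :=
  ∃ Q : ℂ⟦X⟧, PowerSeries.constantCoeff Q = 1 ∧ Ent Q ∧ Ent (Q * h)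

lemma Ent.gd {G : ℂ⟦X⟧} (h : Ent G) (r : ℝ) : Gd r G := fun ρ h0 _ => h ρ h0

lemma Ord.ent {ρ : ℝ} {G : ℂ⟦X⟧} (h : Ord ρ G) : Ent G := by
  obtain ⟨c, hc⟩ := h
  intro r hr
  refine ⟨Real.exp (c * (max 1 r) ^ ρ), fun m => ?_⟩
  refine le_trans ?_ (hc (max 1 r) (le_max_left _ _) m)
  exact mul_le_mul_of_nonneg_left (pow_le_pow_left₀ hr.le (le_max_right _ _) m) (norm_nonneg _)

lemma MerOrd.mer {ρ : ℝ} {h : ℂ⟦X⟧} (hh : MerOrd ρ h) : MerEnt h := by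
  obtain ⟨Q, h1, h2, h3⟩ := hh
  exact ⟨Q, h1, h2.ent, h3.ent⟩

lemma MerEnt.mer {h : ℂ⟦X⟧} (hh : MerEnt h) : Mer h := by
  obtain ⟨Q, h1, h2, h3⟩ := hh
  exact ⟨Q, h1, h2.gd 1, h3.gd 1⟩

lemma MerEnt.rescale {h : ℂ⟦X⟧} (hh : MerEnt h) {s : ℝ} (hs : 0 < s) :
    Mer (PowerSeries.rescale (s : ℂ) h) := by
  obtain ⟨Q, h1, h2, h3⟩ := hh
  refine ⟨PowerSeries.rescale (s : ℂ) Q, ?_, Gd.rescale hs (h2.gd s), ?_⟩
  · rw [← PowerSeries.coeff_zero_eq_constantCoeff_apply, PowerSeries.coeff_rescale, pow_zero,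
      one_mul, PowerSeries.coeff_zero_eq_constantCoeff_apply, h1]
  · rw [← map_mul]
    exact Gd.rescale hs (h3.gd s)

/-- The plane. -/
theorem plane {f : ℚ⟦X⟧} {N : ℕ} (hN : 1 ≤ N)
    (hH : ∀ k : ℕ, ∃ z : ℤ, (N : ℚ) ^ (k + 1) * ((k.factorial : ℚ) * PowerSeries.coeff k f) = z)
    {Ψ : ℚ⟦X⟧ →+* ℂ⟦X⟧} {A : ℝ}
    (hA : ∀ m : ℕ, |((PowerSeries.coeff m f : ℚ) : ℝ)| ≤ A ^ (m + 1))
    (hc : ∀ g : ℚ⟦X⟧, PowerSeries.constantCoeff (Ψ g) = ((PowerSeries.constantCoeff g : ℚ) : ℂ))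
    (hM1 : MerEnt (Ψ PowerSeries.X)) (hM2 : MerEnt (Ψ f))
    (hR : PowerSeries.coeff 1 (Ψ PowerSeries.X) ≠ 0) {C : ℝ}
    (hb : ∀ m : ℕ, ∑ p ∈ bd (fun k => PowerSeries.coeff k f) m,
      Real.log p / ((p : ℝ) - 1) ≤ C) :
    IsAlgebraic ℚ[X] f := by
  set R : ℝ := ‖PowerSeries.coeff 1 (Ψ PowerSeries.X)‖ with hRd
  have hR0 : 0 < R := norm_pos_iff.2 hR
  obtain ⟨s, hs⟩ : ∃ s, s = Real.exp (Real.log N + C - Real.log R + 1) := ⟨_, rfl⟩
  have hs0 : 0 < s := by rw [hs]; exact Real.exp_pos _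
  refine disc hN hH (Ψ := (PowerSeries.rescale (s : ℂ)).comp Ψ) hA ?_ ?_ ?_ hb ?_
  · intro g
    rw [RingHom.comp_apply, ← PowerSeries.coeff_zero_eq_constantCoeff_apply,
      PowerSeries.coeff_rescale, pow_zero, one_mul, PowerSeries.coeff_zero_eq_constantCoeff_apply,
      hc]
  · exact hM1.rescale hs0
  · exact hM2.rescale hs0
  · rw [RingHom.comp_apply, PowerSeries.coeff_rescale, pow_one, norm_mul, ← hRd,
      Complex.norm_real, Real.norm_of_nonneg hs0.le, Real.log_mul hs0.ne' hR0.ne', hs,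
      Real.log_exp]
    linarith

/-- All primes. -/
lemma bd_all (a : ℕ → ℚ) (m : ℕ) (hm : 1 ≤ m) :
    ∑ p ∈ bd a m, Real.log p / ((p : ℝ) - 1) ≤ 1 * Real.log m + 2 * (Real.log 4 + 4) := by
  rw [one_mul]
  exact mertens hm _ fun p hp => ⟨(mem_bd.1 hp).2.1, (mem_bd.1 hp).1⟩

/-- Integrality up to `p ^ σ`. -/
lemma bd_pow (a : ℕ → ℚ) {σ : ℝ} (hσ : 0 < σ) {B : ℕ}
    (hB : ∀ p : ℕ, p.Prime → B ≤ p → ∀ k : ℕ, (k : ℝ) ≤ (p : ℝ) ^ σ → ¬ p ∣ (a k).den)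
    (m : ℕ) (hm : 1 ≤ m) :
    ∑ p ∈ bd a m, Real.log p / ((p : ℝ) - 1) ≤
      1 / σ * Real.log m + (Real.log ((B : ℝ) + 2) + 2 * (Real.log 4 + 4)) := by
  have hm1 : (1 : ℝ) ≤ m := by exact_mod_cast hm
  obtain ⟨x, hx⟩ : ∃ x : ℝ, x = (m : ℝ) ^ (1 / σ) := ⟨_, rfl⟩
  have hx1 : 1 ≤ x := by rw [hx]; exact Real.one_le_rpow hm1 (by positivity)
  have hBx : 0 < ((B : ℝ) + 1) * x := by positivity
  obtain ⟨y, hy⟩ : ∃ y : ℕ, y = ⌈((B : ℝ) + 1) * x⌉₊ := ⟨_, rfl⟩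
  have hy1 : ((B : ℝ) + 1) * x ≤ y := by rw [hy]; exact Nat.le_ceil _
  have hy2 : (y : ℝ) ≤ ((B : ℝ) + 1) * x + 1 := by
    rw [hy]; exact (Nat.ceil_lt_add_one hBx.le).le
  have hy0 : 1 ≤ y := by
    have : (0 : ℝ) < y := lt_of_lt_of_le hBx hy1
    exact_mod_cast this
  have h1 := mertens hy0 (bd a m) (fun p hp => by
    obtain ⟨hpm, hpp, k, hk, hd⟩ := mem_bd.1 hp
    refine ⟨hpp, ?_⟩
    have hB0 : (0 : ℝ) ≤ B := Nat.cast_nonneg _
    have hpy : (p : ℝ) ≤ y := by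
      refine le_trans ?_ hy1
      by_cases hBp : B ≤ p
      · have h2 : ¬ (k : ℝ) ≤ (p : ℝ) ^ σ := fun h3 => hB p hpp hBp k h3 hd
        have h3 : (p : ℝ) ^ σ ≤ m := by
          have : (k : ℝ) ≤ m := by exact_mod_cast hk
          linarith
        have h4 : (p : ℝ) ≤ x := by
          have h5 := Real.rpow_le_rpow (by positivity) h3 (show (0 : ℝ) ≤ 1 / σ by positivity)
          rwa [← Real.rpow_mul (by positivity), mul_one_div_cancel hσ.ne', Real.rpow_one,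
            ← hx] at h5
        nlinarith
      · have h2 : (p : ℝ) ≤ B := by
          have : p ≤ B := by omega
          exact_mod_cast this
        nlinarith
    exact_mod_cast hpy)
  have h2 : Real.log y ≤ Real.log ((B : ℝ) + 2) + 1 / σ * Real.log m := by
    have h3 : (y : ℝ) ≤ ((B : ℝ) + 2) * x := by
      have : ((B : ℝ) + 2) * x = ((B : ℝ) + 1) * x + x := by ring
      linarith
    have h4 := Real.log_le_log (by exact_mod_cast hy0) h3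
    rw [Real.log_mul (by positivity) (by positivity), hx,
      Real.log_rpow (by linarith)] at h4
    exact h4
  linarith

end Pool.Agent.Y915.Uni
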