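import Pool.Agent.Y915.Uni3

set_option autoImplicit false

/-!
# Interpolation determinants
-/

namespace Pool.Agent.Y915.Uni

open scoped PowerSeries Polynomial
open Finset Pool.Agent.Y474.PC Pool.Agent.Y915.Mero

/-- An echelon basis of a finite dimensional space of power series. -/
lemma echelon {K : Type} [Field K] (L : ℕ) : ∀ V : Submodule K K⟦X⟧, Module.finrank K V = L →
    ∃ (G : Fin L → K⟦X⟧) (n : Fin L → ℕ), StrictMono n ∧ ∀ j, G j ∈ V ∧
      (∀ l < n j, PowerSeries.coeff l (G j) = 0) ∧ PowerSeries.coeff (n j) (G j) ≠ 0 := by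
  classical
  induction L with
  | zero => exact fun V _ => ⟨fun i => i.elim0, fun i => i.elim0, fun i => i.elim0,
      fun i => i.elim0⟩
  | succ L ih =>
    intro V hV
    have : FiniteDimensional K V := FiniteDimensional.of_finrank_pos (by omega)
    have hex : ∃ m, ∃ g ∈ V, PowerSeries.coeff m g ≠ 0 := by
      by_contra hcon
      push Not at hcon
      have : V = ⊥ := by
        rw [eq_bot_iff]
        intro g hg
        rw [Submodule.mem_bot]
        exact PowerSeries.ext fun m => by simpa using hcon m g hg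
      rw [this, finrank_bot] at hV
      omega
    obtain ⟨m, ⟨g, hg, hgm⟩, hmin⟩ : ∃ m, (∃ g ∈ V, PowerSeries.coeff m g ≠ 0) ∧
        ∀ l < m, ∀ g ∈ V, PowerSeries.coeff l g = 0 :=
      ⟨Nat.find hex, Nat.find_spec hex, fun l hl => by
        have := Nat.find_min hex hl
        push Not at this
        exact this⟩
    let ψ : V →ₗ[K] K := (PowerSeries.coeff m).comp V.subtype
    have hψ : Function.Surjective ψ := by
      intro a
      refine ⟨(a * (PowerSeries.coeff m g)⁻¹) • ⟨g, hg⟩, ?_⟩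
      show PowerSeries.coeff m ((a * (PowerSeries.coeff m g)⁻¹) • g) = a
      rw [map_smul, smul_eq_mul, mul_assoc, inv_mul_cancel₀ hgm, mul_one]
    have h1 := LinearMap.finrank_range_add_finrank_ker ψ
    rw [LinearMap.range_eq_top.2 hψ, finrank_top, Module.finrank_self, hV] at h1
    have h2 : Module.finrank K ((LinearMap.ker ψ).map V.subtype) = L := by
      rw [Submodule.finrank_map_subtype_eq]
      omega
    obtain ⟨G, n, hn, hG⟩ := ih _ h2
    have hmem : ∀ j, G j ∈ V ∧ PowerSeries.coeff m (G j) = 0 := by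
      intro j
      obtain ⟨v, hv, hv2⟩ := Submodule.mem_map.1 (hG j).1
      rw [← hv2]
      exact ⟨v.2, hv⟩
    have hlt : ∀ j, m < n j := by
      intro j
      by_contra hle
      push Not at hle
      rcases hle.lt_or_eq with h | h
      · exact (hG j).2.2 (hmin _ h _ (hmem j).1)
      · apply (hG j).2.2
        rw [h]
        exact (hmem j).2
    refine ⟨Fin.cons g G, Fin.cons m n, ?_, ?_⟩
    · intro a b
      refine Fin.cases ?_ (fun a => ?_) a
      · refine Fin.cases ?_ (fun b => ?_) b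
        · intro h; exact absurd h (lt_irrefl _)
        · intro _
          rw [Fin.cons_zero, Fin.cons_succ]
          exact hlt b
      · refine Fin.cases ?_ (fun b => ?_) b
        · intro h
          exact absurd h (by simp)
        · intro h
          rw [Fin.cons_succ, Fin.cons_succ]
          exact hn (Fin.succ_lt_succ_iff.1 h)
    · intro j
      refine Fin.cases ?_ (fun j => ?_) j
      · rw [Fin.cons_zero, Fin.cons_zero]
        exact ⟨hg, fun l hl => hmin l hl g hg, hgm⟩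
      · rw [Fin.cons_succ, Fin.cons_succ]
        exact ⟨(hmem j).1, (hG j).2⟩

/-- Triangular matrices of coefficients. -/
lemma det_tri {K : Type} [Field K] {L : ℕ} {G : Fin L → K⟦X⟧} {n : Fin L → ℕ} (hn : StrictMono n)
    (hG : ∀ j, ∀ l < n j, PowerSeries.coeff l (G j) = 0) :
    (Matrix.of fun i j => PowerSeries.coeff (n i) (G j)).det =
      ∏ j, PowerSeries.coeff (n j) (G j) := by
  rw [Matrix.det_of_isLowerTriangular]
  · rfl
  · intro i j hij
    exact hG j _ (hn (OrderDual.toDual_lt_toDual.1 hij))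

/-- The determinant of the coefficients of linearly independent series, and its image. -/
lemma det_main {L : ℕ} {F : Fin L → ℚ⟦X⟧} (hF : LinearIndependent ℚ F)
    (Ψ : ℚ⟦X⟧ →+* ℂ⟦X⟧)
    (hc : ∀ g : ℚ⟦X⟧, PowerSeries.constantCoeff (Ψ g) = ((PowerSeries.constantCoeff g : ℚ) : ℂ))
    {Q : ℂ⟦X⟧} (hQ : PowerSeries.constantCoeff Q = 1) :
    ∃ n : Fin L → ℕ, StrictMono n ∧
      (Matrix.of fun i j => PowerSeries.coeff (n i) (F j)).det ≠ 0 ∧
      (Matrix.of fun i j => PowerSeries.coeff (n i) (Q * Ψ (F j))).det =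
        (PowerSeries.coeff 1 (Ψ PowerSeries.X)) ^ (∑ i, n i) *
          (((Matrix.of fun i j => PowerSeries.coeff (n i) (F j)).det : ℚ) : ℂ) := by
  classical
  obtain ⟨G, n, hn, hG⟩ := echelon L (Submodule.span ℚ (Set.range F)) (by
    rw [finrank_span_eq_card hF, Fintype.card_fin])
  have hA : ∀ j, ∃ c : Fin L → ℚ, ∑ i, c i • F i = G j := fun j =>
    (Submodule.mem_span_range_iff_exists_fun ℚ).1 (hG j).1
  choose A hA using hA
  -- the coefficient matrices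
  have e1 : (Matrix.of fun i j => PowerSeries.coeff (n i) (G j)) =
      (Matrix.of fun i j => PowerSeries.coeff (n i) (F j)) * (Matrix.of fun i j => A j i) := by
    ext i j
    rw [Matrix.mul_apply, Matrix.of_apply, ← hA j, map_sum]
    refine sum_congr rfl fun l _ => ?_
    rw [Matrix.of_apply, Matrix.of_apply, map_smul, smul_eq_mul, mul_comm]
  have hsm : ∀ (a : ℚ) (g : ℚ⟦X⟧), Ψ (a • g) = PowerSeries.C (a : ℂ) * Ψ g := by
    intro a g
    rw [PowerSeries.smul_eq_C_mul, map_mul]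
    congr 1
    have h1 : (Ψ.comp (PowerSeries.C (R := ℚ))) = (PowerSeries.C (R := ℂ)).comp
        (algebraMap ℚ ℂ) := Subsingleton.elim _ _
    have h2 := congrArg (fun φ : ℚ →+* ℂ⟦X⟧ => φ a) h1
    simpa using h2
  have e2 : (Matrix.of fun i j => PowerSeries.coeff (n i) (Q * Ψ (G j))) =
      (Matrix.of fun i j => PowerSeries.coeff (n i) (Q * Ψ (F j))) *
        ((Matrix.of fun i j => A j i).map (algebraMap ℚ ℂ)) := by
    ext i j
    rw [Matrix.mul_apply, Matrix.of_apply, ← hA j, map_sum, mul_sum, map_sum]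
    refine sum_congr rfl fun l _ => ?_
    rw [Matrix.of_apply, Matrix.map_apply, Matrix.of_apply, hsm]
    have h3 : Q * (PowerSeries.C ((A j l : ℚ) : ℂ) * Ψ (F l)) =
        PowerSeries.C ((A j l : ℚ) : ℂ) * (Q * Ψ (F l)) := by ring
    rw [h3, PowerSeries.coeff_C_mul, mul_comm]
    rfl
  have hlow : ∀ j, ∀ l < n j, PowerSeries.coeff l (Q * Ψ (G j)) = 0 := by
    intro j l hl
    obtain ⟨h, hh⟩ := PowerSeries.X_pow_dvd_iff.2 (hG j).2.1
    have hX : PowerSeries.constantCoeff (Ψ PowerSeries.X) = 0 := by rw [hc]; simp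
    obtain ⟨φ, hφ⟩ := PowerSeries.X_dvd_iff.2 hX
    have h2 : PowerSeries.X ^ n j ∣ Q * Ψ (G j) := by
      refine ⟨Q * (φ ^ n j * Ψ h), ?_⟩
      rw [hh, map_mul, map_pow, hφ]
      ring
    exact PowerSeries.X_pow_dvd_iff.1 h2 l hl
  have d1 := det_tri hn fun j => (hG j).2.1
  have d2 := det_tri (G := fun j => Q * Ψ (G j)) hn hlow
  have d3 : ∏ j, PowerSeries.coeff (n j) (Q * Ψ (G j)) =
      (PowerSeries.coeff 1 (Ψ PowerSeries.X)) ^ (∑ i, n i) *
        ((∏ j, PowerSeries.coeff (n j) (G j) : ℚ) : ℂ) := by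
    rw [← prod_pow_eq_pow_sum]
    push_cast
    rw [← prod_mul_distrib]
    refine prod_congr rfl fun j _ => ?_
    exact low_coeff' Ψ hc (n j) (G j) (hG j).2.1 hQ
  rw [e1, Matrix.det_mul] at d1
  rw [e2, Matrix.det_mul, d3, ← d1] at d2
  have hne : (Matrix.of fun i j => PowerSeries.coeff (n i) (F j)).det *
      (Matrix.of fun i j => A j i).det ≠ 0 := by
    rw [d1]
    exact prod_ne_zero_iff.2 fun j _ => (hG j).2.2
  have hdA : ((Matrix.of fun i j => A j i).map (algebraMap ℚ ℂ)).det =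
      (((Matrix.of fun i j => A j i).det : ℚ) : ℂ) := by
    have := RingHom.map_det (algebraMap ℚ ℂ) (Matrix.of fun i j => A j i)
    rw [RingHom.mapMatrix_apply] at this
    rw [← this]
    rfl
  refine ⟨n, hn, left_ne_zero_of_mul hne, ?_⟩
  have hA0 : (((Matrix.of fun i j => A j i).det : ℚ) : ℂ) ≠ 0 := by
    exact_mod_cast right_ne_zero_of_mul hne
  rw [hdA, Rat.cast_mul] at d2
  apply mul_right_cancel₀ hA0
  rw [d2]
  ring

/-- The upper bound of a determinant by bounds of the rows. -/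
lemma det_le {L : ℕ} (M : Matrix (Fin L) (Fin L) ℂ) (b : Fin L → ℝ)
    (h : ∀ i j, ‖M i j‖ ≤ b i) : ‖M.det‖ ≤ L.factorial * ∏ i, b i := by
  rw [Matrix.det_apply]
  refine (norm_sum_le _ _).trans ?_
  have h1 : ∀ σ ∈ (univ : Finset (Equiv.Perm (Fin L))),
      ‖Equiv.Perm.sign σ • ∏ i, M (σ i) i‖ ≤ ∏ i, b i := by
    intro σ _
    have h2 : ‖Equiv.Perm.sign σ • ∏ i, M (σ i) i‖ = ‖∏ i, M (σ i) i‖ := by
      rcases Int.units_eq_one_or (Equiv.Perm.sign σ) with h | h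
      · rw [h, one_smul]
      · rw [h, Units.neg_smul, one_smul, norm_neg]
    rw [h2, norm_prod, ← Equiv.prod_comp σ b]
    exact prod_le_prod (fun _ _ => norm_nonneg _) fun i _ => h _ _
  refine (sum_le_sum h1).trans ?_
  rw [sum_const, card_univ, Fintype.card_perm, Fintype.card_fin, nsmul_eq_mul]

/-- The lower bound of a nonzero rational determinant by denominators of the rows. -/
lemma le_det {L : ℕ} (M : Matrix (Fin L) (Fin L) ℚ) (d : Fin L → ℕ) (hd : ∀ i, 0 < d i)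
    (h : ∀ i j, ∃ z : ℤ, (d i : ℚ) * M i j = z) (h0 : M.det ≠ 0) :
    1 ≤ (∏ i, (d i : ℝ)) * |((M.det : ℚ) : ℝ)| := by
  choose z hz using h
  have e1 : (Matrix.of fun i j => (d i : ℚ) * M i j) = (Matrix.of fun i j => z i j).map
      (Int.castRingHom ℚ) := by
    ext i j
    rw [Matrix.of_apply, Matrix.map_apply, Matrix.of_apply, hz]
    rfl
  have e2 : (Matrix.of fun i j => (d i : ℚ) * M i j).det = (∏ i, (d i : ℚ)) * M.det :=
    Matrix.det_mul_column _ _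
  have e3 : ((Matrix.of fun i j => z i j).map (Int.castRingHom ℚ)).det =
      (((Matrix.of fun i j => z i j).det : ℤ) : ℚ) := by
    have := RingHom.map_det (Int.castRingHom ℚ) (Matrix.of fun i j => z i j)
    rw [RingHom.mapMatrix_apply] at this
    rw [← this]
    rfl
  rw [← e1, e2] at e3
  have hp : (∏ i, (d i : ℚ)) ≠ 0 := prod_ne_zero_iff.2 fun i _ => by
    have := hd i
    positivity
  have hz0 : (Matrix.of fun i j => z i j).det ≠ 0 := by
    intro h1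
    rw [h1, Int.cast_zero] at e3
    exact mul_ne_zero hp h0 e3
  have h1 : (1 : ℤ) ≤ |(Matrix.of fun i j => z i j).det| := Int.one_le_abs hz0
  have h2 : ((|(Matrix.of fun i j => z i j).det| : ℤ) : ℝ) =
      (∏ i, (d i : ℝ)) * |((M.det : ℚ) : ℝ)| := by
    have h3 : (((Matrix.of fun i j => z i j).det : ℤ) : ℝ) =
        (∏ i, (d i : ℝ)) * ((M.det : ℚ) : ℝ) := by
      have h4 : ((((Matrix.of fun i j => z i j).det : ℤ) : ℚ) : ℝ) =
          (((∏ i, (d i : ℚ)) * M.det : ℚ) : ℝ) := by rw [← e3]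
      rw [Rat.cast_intCast] at h4
      rw [h4, Rat.cast_mul, Rat.cast_prod]
      simp only [Rat.cast_natCast]
    rw [Int.cast_abs, h3, abs_mul, abs_of_nonneg (prod_nonneg fun i _ => Nat.cast_nonneg _)]
  rw [← h2]
  exact_mod_cast h1

/-- If the products `X^a f^b` are linearly dependent then `f` is algebraic. -/
lemma alg_of_rel (f : ℚ⟦X⟧) (S T : ℕ) (P : Fin (S + 1) × Fin (T + 1) → ℚ) (hP : P ≠ 0)
    (h : ∑ x : Fin (S + 1) × Fin (T + 1), P x • (PowerSeries.X ^ (x.1 : ℕ) * f ^ (x.2 : ℕ)) = 0) :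
    IsAlgebraic ℚ[X] f := by
  classical
  let p : Polynomial ℚ[X] := ∑ x : Fin (S + 1) × Fin (T + 1),
    Polynomial.C (Polynomial.C (P x) * Polynomial.X ^ (x.1 : ℕ)) *
      Polynomial.X ^ (x.2 : ℕ)
  refine ⟨p, ?_, ?_⟩
  · intro hp
    apply hP
    funext y
    have h1 : (p.coeff (y.2 : ℕ)).coeff (y.1 : ℕ) = P y := by
      simp only [p, Polynomial.finsetSum_coeff, Polynomial.coeff_C_mul, Polynomial.coeff_X_pow]
      rw [sum_eq_single y]
      · simp
      · intro b _ hb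
        by_cases h2 : (y.2 : ℕ) = (b.2 : ℕ)
        · by_cases h1 : (y.1 : ℕ) = (b.1 : ℕ)
          · exact absurd (Prod.ext (Fin.ext h1.symm) (Fin.ext h2.symm)) hb
          · simp [h1, h2]
        · simp [h2]
      · intro h; exact absurd (mem_univ _) h
    rw [hp] at h1
    simp only [Polynomial.coeff_zero] at h1
    exact h1.symm
  · rw [← h]
    simp only [p, map_sum, map_mul, Polynomial.aeval_C, map_pow, Polynomial.aeval_X]
    refine sum_congr rfl fun x _ => ?_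
    have e1 : (algebraMap ℚ[X] ℚ⟦X⟧) (Polynomial.C (P x)) =
        PowerSeries.C (P x) := by
      rw [PowerSeries.algebraMap_apply', Polynomial.coe_C, PowerSeries.map_C]
      rfl
    have e2 : (algebraMap ℚ[X] ℚ⟦X⟧) Polynomial.X = PowerSeries.X := by
      rw [PowerSeries.algebraMap_apply']
      simp
    rw [e1, e2, PowerSeries.smul_eq_C_mul]
    ring

/-- Bound of `Ψ (X^a f^b)`. -/
lemma Bd_mon (f : ℚ⟦X⟧) (Ψ : ℚ⟦X⟧ →+* ℂ⟦X⟧) (S T : ℕ)
    {B₁ B₂ r : ℝ} (hr : 0 ≤ r) {Q₁ Q₂ : ℂ⟦X⟧}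
    (hQ₁ : Bd r B₁ Q₁) (h1 : Bd r B₁ (Q₁ * Ψ PowerSeries.X))
    (hQ₂ : Bd r B₂ Q₂) (h2 : Bd r B₂ (Q₂ * Ψ f)) {a b : ℕ} (ha : a ≤ S) (hb : b ≤ T) :
    Bd r (B₁ ^ S * B₂ ^ T) (Q₁ ^ S * Q₂ ^ T * Ψ (PowerSeries.X ^ a * f ^ b)) := by
  have e2 : Q₁ ^ S * Q₂ ^ T * Ψ (PowerSeries.X ^ a * f ^ b) =
      ((Q₁ * Ψ PowerSeries.X) ^ a * Q₁ ^ (S - a)) * ((Q₂ * Ψ f) ^ b * Q₂ ^ (T - b)) := by
    have e3 : Q₁ ^ S = Q₁ ^ a * Q₁ ^ (S - a) := by
      rw [← pow_add]
      congr 1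
      omega
    have e4 : Q₂ ^ T = Q₂ ^ b * Q₂ ^ (T - b) := by
      rw [← pow_add]
      congr 1
      omega
    rw [e3, e4, mul_pow, mul_pow, map_mul, map_pow, map_pow]
    ring
  rw [e2]
  have b2 := Bd_mul hr (Bd_mul hr (Bd_pow hr h1 a) (Bd_pow hr hQ₁ (S - a)))
      (Bd_mul hr (Bd_pow hr h2 b) (Bd_pow hr hQ₂ (T - b)))
  refine Bd_mono b2 (le_of_eq ?_)
  rw [← pow_add, ← pow_add]
  have e5 : a + (S - a) = S := by omega
  have e6 : b + (T - b) = T := by omega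
  rw [e5, e6]

lemma le_of_strictMono {L : ℕ} {n : Fin L → ℕ} (hn : StrictMono n) (i : Fin L) :
    (i : ℕ) ≤ n i := by
  obtain ⟨i, hi⟩ := i
  induction i with
  | zero => exact Nat.zero_le _
  | succ i ih =>
    have h1 := ih (by omega)
    have h2 : n ⟨i, by omega⟩ < n ⟨i + 1, hi⟩ := hn (by simp)
    simp only at h1 ⊢
    omega

/-- Algebraicity of functions uniformized by meromorphic functions of finite order, sharp form. -/
theorem critV (f : ℚ⟦X⟧) (W : ℕ → ℕ) (E : ℕ) (Ψ : ℚ⟦X⟧ →+* ℂ⟦X⟧)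
    (hE : 0 < E) (hW0 : ∀ m, 0 < W m) (hW : ∀ m l, W m * W l ∣ W (m + l))
    {ρ₁ ρ₂ : ℝ} (hρ₁ : 0 < ρ₁) (hρ₂ : 0 < ρ₂)
    (hτ : ∀ K : ℝ, ∃ C : ℝ, ∀ m : ℕ,
      Real.log (W m) ≤ 1 / (ρ₁ + ρ₂) * (m * Real.log m) - K * m + C)
    (hf : ∀ m : ℕ, ∃ z : ℤ, ((E * W m : ℕ) : ℚ) * PowerSeries.coeff m f = z)
    (hc : ∀ g : ℚ⟦X⟧, PowerSeries.constantCoeff (Ψ g) = ((PowerSeries.constantCoeff g : ℚ) : ℂ))
    (hM1 : MerOrd ρ₁ (Ψ PowerSeries.X)) (hM2 : MerOrd ρ₂ (Ψ f))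
    (hR : PowerSeries.coeff 1 (Ψ PowerSeries.X) ≠ 0) : IsAlgebraic ℚ[X] f := by
  classical
  by_contra hna
  obtain ⟨R, hRd⟩ : ∃ R, R = ‖PowerSeries.coeff 1 (Ψ PowerSeries.X)‖ := ⟨_, rfl⟩
  have hR0 : 0 < R := by rw [hRd]; exact norm_pos_iff.2 hR
  obtain ⟨s, hs⟩ : ∃ s, s = ρ₁ + ρ₂ := ⟨_, rfl⟩
  have hs0 : 0 < s := by rw [hs]; linarith
  obtain ⟨Q₁, hQ₁, o1, o2⟩ := hM1
  obtain ⟨Q₂, hQ₂, o3, o4⟩ := hM2
  obtain ⟨c1, hc1, b1⟩ := Bd_of_Ord hρ₁ o1
  obtain ⟨c2, hc2, b2⟩ := Bd_of_Ord hρ₁ o2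
  obtain ⟨c3, hc3, b3⟩ := Bd_of_Ord hρ₂ o3
  obtain ⟨c4, hc4, b4⟩ := Bd_of_Ord hρ₂ o4
  obtain ⟨c, hcd⟩ : ∃ c, c = c1 + c2 + c3 + c4 := ⟨_, rfl⟩
  have hc0 : 0 ≤ c := by rw [hcd]; positivity
  have up : ∀ {r ρ c' : ℝ} {G : ℂ⟦X⟧}, 1 ≤ r → c' ≤ c → Bd r (Real.exp (c' * r ^ ρ)) G →
      Bd r (Real.exp (c * r ^ ρ)) G := by
    intro r ρ c' G hr hcc hb
    refine Bd_mono hb (Real.exp_le_exp.2 ?_)
    exact mul_le_mul_of_nonneg_right hcc (Real.rpow_nonneg (by linarith) _)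
  obtain ⟨l, hl⟩ : ∃ l, l = Real.log E := ⟨_, rfl⟩
  have hl0 : 0 ≤ l := by rw [hl]; exact Real.log_natCast_nonneg _
  obtain ⟨K, hK⟩ : ∃ K, K = 4 * c + 4 * (1 + 4 * c + l) + 4 - Real.log R := ⟨_, rfl⟩
  obtain ⟨C0, hC0⟩ := hτ K
  obtain ⟨C, hC⟩ : ∃ C, C = max C0 0 := ⟨_, rfl⟩
  have hCp : 0 ≤ C := by rw [hC]; exact le_max_right _ _
  have hCC : C0 ≤ C := by rw [hC]; exact le_max_left _ _
  -- choose m
  obtain ⟨m, hm⟩ := exists_nat_gt (max 2 ((C + 2) ^ (1 / s)))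
  have hm2 : (2 : ℝ) < m := lt_of_le_of_lt (le_max_left _ _) hm
  have hm3 : (C + 2) ^ (1 / s) < m := lt_of_le_of_lt (le_max_right _ _) hm
  have hm0 : (0 : ℝ) < m := by linarith
  have hm1 : (1 : ℝ) ≤ m := by linarith
  have hms : C + 2 < (m : ℝ) ^ s := by
    have h1 := Real.rpow_lt_rpow (by positivity) hm3 hs0
    rwa [← Real.rpow_mul (by positivity), one_div_mul_cancel hs0.ne', Real.rpow_one] at h1
  obtain ⟨x, hx⟩ : ∃ x : ℕ, x = ⌈(m : ℝ) ^ ρ₂⌉₊ := ⟨_, rfl⟩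
  obtain ⟨y, hy⟩ : ∃ y : ℕ, y = ⌈(m : ℝ) ^ ρ₁⌉₊ := ⟨_, rfl⟩
  have hmx : (m : ℝ) ^ ρ₂ ≤ x := by rw [hx]; exact Nat.le_ceil _
  have hmy : (m : ℝ) ^ ρ₁ ≤ y := by rw [hy]; exact Nat.le_ceil _
  have hx1 : (x : ℝ) ≤ 2 * (m : ℝ) ^ ρ₂ := by
    have h1 : (x : ℝ) ≤ (m : ℝ) ^ ρ₂ + 1 := by
      rw [hx]; exact (Nat.ceil_lt_add_one (by positivity)).le
    have h2 := Real.one_le_rpow hm1 hρ₂.le
    linarith
  have hy1 : (y : ℝ) ≤ 2 * (m : ℝ) ^ ρ₁ := by
    have h1 : (y : ℝ) ≤ (m : ℝ) ^ ρ₁ + 1 := by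
      rw [hy]; exact (Nat.ceil_lt_add_one (by positivity)).le
    have h2 := Real.one_le_rpow hm1 hρ₁.le
    linarith
  have hx0 : 0 < x := by
    have h1 : (0 : ℝ) < x := lt_of_lt_of_le (by positivity) hmx
    exact_mod_cast h1
  have hy0 : 0 < y := by
    have h1 : (0 : ℝ) < y := lt_of_lt_of_le (by positivity) hmy
    exact_mod_cast h1
  obtain ⟨S, hS⟩ : ∃ S, S + 1 = x := ⟨x - 1, by omega⟩
  obtain ⟨T, hT⟩ : ∃ T, T + 1 = y := ⟨y - 1, by omega⟩
  obtain ⟨L, hL⟩ : ∃ L, L = (S + 1) * (T + 1) := ⟨_, rfl⟩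
  have hLm : (m : ℝ) ^ s ≤ L := by
    rw [hL, hS, hT, hs, add_comm, Real.rpow_add hm0]
    push_cast
    exact mul_le_mul hmx hmy (by positivity) (by positivity)
  have hL2 : (2 : ℝ) ≤ L := by linarith
  have hL0 : (0 : ℝ) ≤ L := by linarith
  have hTL : (T : ℝ) ≤ L := by
    have : T ≤ L := by rw [hL]; nlinarith
    exact_mod_cast this
  -- the functions
  have e0 : Fin L ≃ Fin (S + 1) × Fin (T + 1) := (finCongr hL).trans finProdFinEquiv.symm
  obtain ⟨F, hFd⟩ : ∃ F : Fin L → ℚ⟦X⟧, ∀ j, F j =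
      PowerSeries.X ^ ((e0 j).1 : ℕ) * f ^ ((e0 j).2 : ℕ) := ⟨_, fun _ => rfl⟩
  have hF : LinearIndependent ℚ F := by
    rw [Fintype.linearIndependent_iff]
    intro g hg
    by_contra hcon
    push Not at hcon
    obtain ⟨i, hi⟩ := hcon
    refine hna (alg_of_rel f S T (fun x => g (e0.symm x)) ?_ ?_)
    · intro h0
      apply hi
      have := congrFun h0 (e0 i)
      simpa using this
    · rw [← hg, ← Equiv.sum_comp e0]
      refine sum_congr rfl fun j _ => ?_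
      rw [Equiv.symm_apply_apply, hFd]
  have hQQ : PowerSeries.constantCoeff (Q₁ ^ S * Q₂ ^ T) = 1 := by
    rw [map_mul, map_pow, map_pow, hQ₁, hQ₂, one_pow, one_pow, one_mul]
  obtain ⟨n, hn, hdet0, hdet⟩ := det_main hF Ψ hc hQQ
  -- the radii
  obtain ⟨r, hr⟩ : ∃ r : Fin L → ℝ, ∀ i, r i = max (m : ℝ) ((n i : ℝ) ^ (1 / s)) :=
    ⟨_, fun _ => rfl⟩
  have hmr : ∀ i, (m : ℝ) ≤ r i := fun i => by rw [hr]; exact le_max_left _ _
  have hr1 : ∀ i, 1 ≤ r i := fun i => hm1.trans (hmr i)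
  have hr0 : ∀ i, 0 < r i := fun i => by linarith [hr1 i]
  have hrs : ∀ i, r i ^ ρ₁ * r i ^ ρ₂ ≤ (m : ℝ) ^ s + n i := by
    intro i
    rw [← Real.rpow_add (hr0 i), ← hs]
    rcases le_total ((n i : ℝ) ^ (1 / s)) (m : ℝ) with h | h
    · rw [hr, max_eq_left h]
      have : (0 : ℝ) ≤ n i := Nat.cast_nonneg _
      linarith
    · rw [hr, max_eq_right h, ← Real.rpow_mul (Nat.cast_nonneg _), one_div_mul_cancel hs0.ne',
        Real.rpow_one]
      have : (0 : ℝ) ≤ (m : ℝ) ^ s := by positivity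
      linarith
  have hrl : ∀ i, 1 / s * (n i * Real.log (n i)) ≤ n i * Real.log (r i) := by
    intro i
    rcases Nat.eq_zero_or_pos (n i) with h | h
    · rw [h]; simp
    · have h0 : (0 : ℝ) < n i := by exact_mod_cast h
      have h1 : (n i : ℝ) ^ (1 / s) ≤ r i := by rw [hr]; exact le_max_right _ _
      have h2 := Real.log_le_log (by positivity) h1
      rw [Real.log_rpow h0] at h2
      calc 1 / s * (n i * Real.log (n i)) = n i * (1 / s * Real.log (n i)) := by ring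
        _ ≤ _ := mul_le_mul_of_nonneg_left h2 h0.le
  -- the bounds
  obtain ⟨B, hB⟩ : ∃ B : Fin L → ℝ, ∀ i, B i =
      Real.exp (c * r i ^ ρ₁) ^ S * Real.exp (c * r i ^ ρ₂) ^ T := ⟨_, fun _ => rfl⟩
  have hB0 : ∀ i, 0 < B i := fun i => by rw [hB]; positivity
  have hrow : ∀ i j, ‖PowerSeries.coeff (n i) (Q₁ ^ S * Q₂ ^ T * Ψ (F j))‖ ≤
      B i / r i ^ n i := by
    intro i j
    have h1 : Bd (r i) (B i) (Q₁ ^ S * Q₂ ^ T * Ψ (F j)) := by
      rw [hB, hFd]
      exact Bd_mon f Ψ S T (hr0 i).le (up (hr1 i) (by linarith) (b1 _ (hr1 i)))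
        (up (hr1 i) (by linarith) (b2 _ (hr1 i))) (up (hr1 i) (by linarith) (b3 _ (hr1 i)))
        (up (hr1 i) (by linarith) (b4 _ (hr1 i))) (by have := (e0 j).1.2; omega)
        (by have := (e0 j).2.2; omega)
    have h2 := Bd_coeff (hr0 i).le h1 (n i)
    rw [le_div_iff₀ (pow_pos (hr0 i) _)]
    exact h2
  have hupper := det_le (Matrix.of fun i j => PowerSeries.coeff (n i)
    (Q₁ ^ S * Q₂ ^ T * Ψ (F j))) (fun i => B i / r i ^ n i) hrow
  have hEW : ∀ i, 0 < E ^ T * W (n i) := fun i => by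
    have := hW0 (n i)
    positivity
  have hlower := le_det (Matrix.of fun i j => PowerSeries.coeff (n i) (F j))
    (fun i => E ^ T * W (n i)) hEW (fun i j => by
      rw [Matrix.of_apply, hFd]
      exact den f W E hW hf _ (by have := (e0 j).2.2; omega) le_rfl) hdet0
  rw [hdet, norm_mul, norm_pow, ← hRd] at hupper
  have hnr : ‖((((Matrix.of fun i j => PowerSeries.coeff (n i) (F j)).det : ℚ)) : ℂ)‖ =
      |(((Matrix.of fun i j => PowerSeries.coeff (n i) (F j)).det : ℚ) : ℝ)| :=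
    Complex.norm_ratCast _
  rw [hnr] at hupper
  obtain ⟨q, hq⟩ : ∃ q : ℝ, q =
      |(((Matrix.of fun i j => PowerSeries.coeff (n i) (F j)).det : ℚ) : ℝ)| := ⟨_, rfl⟩
  rw [← hq] at hupper hlower
  have hd0 : 0 < ∏ i, ((E ^ T * W (n i) : ℕ) : ℝ) := prod_pos fun i _ => by
    exact_mod_cast hEW i
  have hcomb : R ^ (∑ i, n i) ≤ (∏ i, ((E ^ T * W (n i) : ℕ) : ℝ)) *
      (L.factorial * ∏ i, (B i / r i ^ n i)) := by
    calc R ^ (∑ i, n i) ≤ R ^ (∑ i, n i) * ((∏ i, ((E ^ T * W (n i) : ℕ) : ℝ)) * q) :=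
          le_mul_of_one_le_right (by positivity) hlower
      _ = (∏ i, ((E ^ T * W (n i) : ℕ) : ℝ)) * (R ^ (∑ i, n i) * q) := by ring
      _ ≤ _ := mul_le_mul_of_nonneg_left hupper hd0.le
  have hlog := Real.log_le_log (by positivity) hcomb
  have hBr : ∀ i, 0 < B i / r i ^ n i := fun i => div_pos (hB0 i) (pow_pos (hr0 i) _)
  have hfac : (0 : ℝ) < L.factorial := by exact_mod_cast Nat.factorial_pos L
  rw [Real.log_pow, Real.log_mul hd0.ne' (mul_pos hfac (prod_pos fun i _ => hBr i)).ne',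
    Real.log_mul hfac.ne' (prod_pos fun i _ => hBr i).ne',
    Real.log_prod (fun i _ => by
      have := hEW i
      have h2 : (0 : ℝ) < ((E ^ T * W (n i) : ℕ) : ℝ) := by exact_mod_cast this
      exact h2.ne'),
    Real.log_prod (fun i _ => (hBr i).ne')] at hlog
  -- the terms
  have u1 : ∀ i, Real.log ((E ^ T * W (n i) : ℕ) : ℝ) ≤
      L * l + (1 / s * (n i * Real.log (n i)) - K * n i + C) := by
    intro i
    have h1 : (0 : ℝ) < E := by exact_mod_cast hE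
    have h2 : (0 : ℝ) < W (n i) := by exact_mod_cast hW0 (n i)
    rw [Nat.cast_mul, Nat.cast_pow, Real.log_mul (by positivity) h2.ne', Real.log_pow, ← hl]
    have h3 := hC0 (n i)
    rw [← hs] at h3
    have h4 : (T : ℝ) * l ≤ L * l := mul_le_mul_of_nonneg_right hTL hl0
    linarith
  have u2 : ∀ i, Real.log (B i / r i ^ n i) ≤
      4 * c * (L + n i) - 1 / s * (n i * Real.log (n i)) := by
    intro i
    rw [Real.log_div (hB0 i).ne' (pow_pos (hr0 i) _).ne', Real.log_pow, hB,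
      Real.log_mul (by positivity) (by positivity), Real.log_pow, Real.log_pow, Real.log_exp,
      Real.log_exp]
    have h1 := hrl i
    have h2 := hrs i
    have h3 : (S : ℝ) ≤ 2 * r i ^ ρ₂ := by
      have g1 : (S : ℝ) ≤ x := by
        have : S ≤ x := by omega
        exact_mod_cast this
      have g2 := Real.rpow_le_rpow hm0.le (hmr i) hρ₂.le
      linarith
    have h4 : (T : ℝ) ≤ 2 * r i ^ ρ₁ := by
      have g1 : (T : ℝ) ≤ y := by
        have : T ≤ y := by omega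
        exact_mod_cast this
      have g2 := Real.rpow_le_rpow hm0.le (hmr i) hρ₁.le
      linarith
    have h5 : (0 : ℝ) ≤ r i ^ ρ₁ := Real.rpow_nonneg (hr0 i).le _
    have h6 : (0 : ℝ) ≤ r i ^ ρ₂ := Real.rpow_nonneg (hr0 i).le _
    have h7 : (S : ℝ) * (c * r i ^ ρ₁) ≤ 2 * c * (r i ^ ρ₁ * r i ^ ρ₂) := by
      calc (S : ℝ) * (c * r i ^ ρ₁) ≤ (2 * r i ^ ρ₂) * (c * r i ^ ρ₁) :=
            mul_le_mul_of_nonneg_right h3 (by positivity)
        _ = _ := by ring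
    have h8 : (T : ℝ) * (c * r i ^ ρ₂) ≤ 2 * c * (r i ^ ρ₁ * r i ^ ρ₂) := by
      calc (T : ℝ) * (c * r i ^ ρ₂) ≤ (2 * r i ^ ρ₁) * (c * r i ^ ρ₂) :=
            mul_le_mul_of_nonneg_right h4 (by positivity)
        _ = _ := by ring
    have h9 : 4 * c * (r i ^ ρ₁ * r i ^ ρ₂) ≤ 4 * c * (L + n i) :=
      mul_le_mul_of_nonneg_left (by linarith) (by positivity)
    linarith
  have u3 : Real.log (L.factorial : ℝ) ≤ L * L := by
    have h1 : ((L.factorial : ℕ) : ℝ) ≤ (L : ℝ) ^ L := by exact_mod_cast Nat.factorial_le_pow L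
    have h2 := Real.log_le_log hfac h1
    rw [Real.log_pow] at h2
    have h3 : Real.log L ≤ L := by
      have := Real.log_le_sub_one_of_pos (show (0 : ℝ) < L by linarith)
      linarith
    exact h2.trans (mul_le_mul_of_nonneg_left h3 hL0)
  obtain ⟨Sn, hSn⟩ : ∃ Sn : ℝ, Sn = ∑ i : Fin L, (n i : ℝ) := ⟨_, rfl⟩
  have v1 : ∑ i, Real.log ((E ^ T * W (n i) : ℕ) : ℝ) + ∑ i, Real.log (B i / r i ^ n i) ≤
      L * (L * l) + L * C + 4 * c * (L * L) + (4 * c - K) * Sn := by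
    rw [← sum_add_distrib]
    calc ∑ i, (Real.log ((E ^ T * W (n i) : ℕ) : ℝ) + Real.log (B i / r i ^ n i))
        ≤ ∑ i : Fin L, (L * l + C + 4 * c * L + (4 * c - K) * n i) := by
          refine sum_le_sum fun i _ => ?_
          have h1 := u1 i
          have h2 := u2 i
          have h3 : (4 * c - K) * (n i : ℝ) = 4 * c * n i - K * n i := by ring
          have h4 : 4 * c * ((L : ℝ) + n i) = 4 * c * L + 4 * c * n i := by ring
          linarith
      _ = _ := by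
          rw [sum_add_distrib, sum_const, card_univ, Fintype.card_fin, nsmul_eq_mul,
            ← mul_sum, ← hSn]
          ring
  have v2 : (L : ℝ) * L / 4 ≤ Sn := by
    have h1 : ∑ i ∈ range L, i ≤ ∑ i : Fin L, n i := by
      rw [← Fin.sum_univ_eq_sum_range (fun i => i) L]
      exact sum_le_sum fun i _ => le_of_strictMono hn i
    have h2 := Finset.sum_range_id_mul_two L
    have h3 : L * (L - 1) ≤ (∑ i : Fin L, n i) * 2 := by rw [← h2]; omega
    have hL1 : 1 ≤ L := by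
      have : (1 : ℝ) ≤ L := by linarith
      exact_mod_cast this
    have h4 : (L : ℝ) * (L - 1) ≤ Sn * 2 := by
      have h5 : (((L * (L - 1) : ℕ)) : ℝ) ≤ (((∑ i : Fin L, n i) * 2 : ℕ) : ℝ) := by
        exact_mod_cast h3
      rw [Nat.cast_mul, Nat.cast_sub hL1, Nat.cast_one, Nat.cast_mul, Nat.cast_sum] at h5
      rw [hSn]
      exact_mod_cast h5
    nlinarith
  have v3 : (((∑ i, n i : ℕ)) : ℝ) = Sn := by rw [hSn]; push_cast; rfl
  rw [v3] at hlog
  have v4 : Sn * Real.log R ≤ L * (L * l) + L * C + 4 * c * (L * L) + (4 * c - K) * Sn +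
      L * L := by linarith
  have v5 : (4 * (1 + 4 * c + l) + 4) * Sn ≤ (1 + 4 * c + l) * (L * L) + L * C := by
    have e : (4 * (1 + 4 * c + l) + 4) * Sn = Sn * Real.log R - (4 * c - K) * Sn := by
      rw [hK]; ring
    rw [e]
    linarith
  have v6 : (4 * (1 + 4 * c + l) + 4) * ((L : ℝ) * L / 4) ≤
      (4 * (1 + 4 * c + l) + 4) * Sn := mul_le_mul_of_nonneg_left v2 (by positivity)
  have v7 : (L : ℝ) * L ≤ L * C := by
    have e : (4 * (1 + 4 * c + l) + 4) * ((L : ℝ) * L / 4) =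
        (1 + 4 * c + l) * (L * L) + L * L := by ring
    rw [e] at v6
    linarith
  have v8 : (L : ℝ) ≤ C := le_of_mul_le_mul_left v7 (by linarith)
  linarith

end Pool.Agent.Y915.Uni
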