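import Pool.Agent.Y915.Uni4

set_option autoImplicit false

/-!
# Sharp form for solutions of algebraic differential equations
-/

namespace Pool.Agent.Y915.Uni

open scoped PowerSeries Polynomial
open Finset Pool.Agent.TH252.ExpT Pool.Agent.Y474.PC Pool.Agent.Y915.Mero Pool.Agent.Y915.Cur

/-- Finite order, sharp form. -/
theorem order' {f : ℚ⟦X⟧} {N : ℕ} (hN : 1 ≤ N)
    (hH : ∀ k : ℕ, ∃ z : ℤ, (N : ℚ) ^ (k + 1) * ((k.factorial : ℚ) * PowerSeries.coeff k f) = z)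
    {Ψ : ℚ⟦X⟧ →+* ℂ⟦X⟧}
    (hc : ∀ g : ℚ⟦X⟧, PowerSeries.constantCoeff (Ψ g) = ((PowerSeries.constantCoeff g : ℚ) : ℂ))
    {ρ₁ ρ₂ : ℝ} (hρ₁ : 0 < ρ₁) (hρ₂ : 0 < ρ₂)
    (hM1 : MerOrd ρ₁ (Ψ PowerSeries.X)) (hM2 : MerOrd ρ₂ (Ψ f))
    (hR : PowerSeries.coeff 1 (Ψ PowerSeries.X) ≠ 0)
    (hb : ∀ C : ℝ, ∃ x₀ : ℕ, ∀ m : ℕ, x₀ ≤ m →
      ∑ p ∈ bd (fun k => PowerSeries.coeff k f) m, Real.log p / ((p : ℝ) - 1) ≤
        1 / (ρ₁ + ρ₂) * Real.log m - C) : IsAlgebraic ℚ[X] f := by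
  refine critV f (fun m => N ^ m * wb (fun k => PowerSeries.coeff k f) m) N Ψ (by omega) ?_ ?_
    hρ₁ hρ₂ ?_ (den_wb _ N hN hH) hc hM1 hM2 hR
  · intro m
    have := wb_pos (fun k => PowerSeries.coeff k f) m
    positivity
  · exact fun m l => W_mul _ N m l
  · intro K
    obtain ⟨x₀, hx₀⟩ := hb (K + Real.log N)
    obtain ⟨g, hg⟩ : ∃ g : ℕ → ℝ, ∀ m, g m =
        Real.log ((N ^ m * wb (fun k => PowerSeries.coeff k f) m : ℕ) : ℝ) -
          (1 / (ρ₁ + ρ₂) * (m * Real.log m) - K * m) := ⟨_, fun _ => rfl⟩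
    refine ⟨∑ m ∈ range x₀, |g m|, fun m => ?_⟩
    have key : g m ≤ ∑ m ∈ range x₀, |g m| := by
      by_cases hm : m < x₀
      · exact (le_abs_self _).trans
          (single_le_sum (f := fun m => |g m|) (fun i _ => abs_nonneg _) (mem_range.2 hm))
      · have h1 := log_W (fun k => PowerSeries.coeff k f) hN m
        have h2 := mul_le_mul_of_nonneg_left (hx₀ m (by omega)) (Nat.cast_nonneg (α := ℝ) m)
        have h3 : (m : ℝ) * (1 / (ρ₁ + ρ₂) * Real.log m - (K + Real.log N)) =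
            1 / (ρ₁ + ρ₂) * (m * Real.log m) - K * m - m * Real.log N := by ring
        rw [h3] at h2
        have h4 : g m ≤ 0 := by
          rw [hg]
          linarith
        exact h4.trans (sum_nonneg fun i _ => abs_nonneg _)
    rw [hg] at key
    show Real.log ((N ^ m * wb (fun k => PowerSeries.coeff k f) m : ℕ) : ℝ) ≤ _
    linarith

/-- Integrality up to large multiples of `p ^ s`. -/
lemma bd_prop (a : ℕ → ℚ) {s : ℝ} (hs : 0 < s)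
    (hB : ∀ M : ℝ, ∃ B : ℕ, ∀ p : ℕ, p.Prime → B ≤ p → ∀ k : ℕ,
      (k : ℝ) ≤ M * (p : ℝ) ^ s → ¬ p ∣ (a k).den) (C : ℝ) :
    ∃ x₀ : ℕ, ∀ m : ℕ, x₀ ≤ m → ∑ p ∈ bd a m, Real.log p / ((p : ℝ) - 1) ≤
      1 / s * Real.log m - C := by
  obtain ⟨C₁, hC₁⟩ : ∃ C₁, C₁ = C + Real.log 2 + 2 * (Real.log 4 + 4) := ⟨_, rfl⟩
  obtain ⟨M, hM⟩ : ∃ M, M = Real.exp (s * C₁) := ⟨_, rfl⟩
  have hM0 : 0 < M := by rw [hM]; exact Real.exp_pos _
  obtain ⟨B, hB⟩ := hB M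
  obtain ⟨x₀, hx₀⟩ := exists_nat_gt (M * (max (B : ℝ) 1) ^ s)
  refine ⟨x₀, fun m hm => ?_⟩
  have hmr : M * (max (B : ℝ) 1) ^ s ≤ m := by
    have : (x₀ : ℝ) ≤ m := by exact_mod_cast hm
    linarith
  have hB1 : (1 : ℝ) ≤ max (B : ℝ) 1 := le_max_right _ _
  have hB1' : (0 : ℝ) < max (B : ℝ) 1 := by linarith
  have hm0 : (0 : ℝ) < m := lt_of_lt_of_le (by positivity) hmr
  obtain ⟨x, hx⟩ : ∃ x : ℝ, x = ((m : ℝ) / M) ^ (1 / s) := ⟨_, rfl⟩
  have hdiv : 0 < (m : ℝ) / M := by positivity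
  have hxB : max (B : ℝ) 1 ≤ x := by
    have h1 : (max (B : ℝ) 1) ^ s ≤ (m : ℝ) / M := by
      rw [le_div_iff₀ hM0, mul_comm]
      exact hmr
    have h2 := Real.rpow_le_rpow (by positivity) h1 (show (0 : ℝ) ≤ 1 / s by positivity)
    rwa [← Real.rpow_mul hB1'.le, mul_one_div_cancel hs.ne', Real.rpow_one, ← hx] at h2
  have hx1 : 1 ≤ x := hB1.trans hxB
  have hx0 : 0 < x := by linarith
  have hxs : x ^ s = (m : ℝ) / M := by
    rw [hx, ← Real.rpow_mul hdiv.le, one_div_mul_cancel hs.ne', Real.rpow_one]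
  obtain ⟨y, hy⟩ : ∃ y : ℕ, y = ⌈x⌉₊ := ⟨_, rfl⟩
  have hy1 : x ≤ y := by rw [hy]; exact Nat.le_ceil _
  have hy2 : (y : ℝ) ≤ 2 * x := by
    have h1 : (y : ℝ) ≤ x + 1 := by rw [hy]; exact (Nat.ceil_lt_add_one hx0.le).le
    linarith
  have hy0 : 1 ≤ y := by
    have : (1 : ℝ) ≤ y := hx1.trans hy1
    exact_mod_cast this
  have h1 := mertens hy0 (bd a m) (fun p hp => by
    obtain ⟨hpm, hpp, k, hk, hd⟩ := mem_bd.1 hp
    refine ⟨hpp, ?_⟩
    by_contra hlt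
    push Not at hlt
    have hpy : (y : ℝ) ≤ p := by exact_mod_cast hlt.le
    have hBp : B ≤ p := by
      have : (B : ℝ) ≤ p := (le_max_left _ _).trans (hxB.trans (hy1.trans hpy))
      exact_mod_cast this
    refine hB p hpp hBp k ?_ hd
    have h2 : x ^ s ≤ (p : ℝ) ^ s := Real.rpow_le_rpow hx0.le (hy1.trans hpy) hs.le
    rw [hxs, div_le_iff₀ hM0] at h2
    have h3 : (k : ℝ) ≤ m := by exact_mod_cast hk
    linarith)
  have h2 : Real.log y ≤ Real.log 2 + 1 / s * (Real.log m - Real.log M) := by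
    have h4 := Real.log_le_log (by exact_mod_cast hy0) hy2
    rw [Real.log_mul (by norm_num) hx0.ne', hx, Real.log_rpow hdiv,
      Real.log_div hm0.ne' hM0.ne'] at h4
    exact h4
  have h3 : 1 / s * (Real.log m - Real.log M) = 1 / s * Real.log m - C₁ := by
    rw [hM, Real.log_exp]
    field_simp
  rw [h3, hC₁] at h2
  linarith

/-- All primes. -/
lemma bd_less (a : ℕ → ℚ) {s : ℝ} (hs : 0 < s) (hs1 : s < 1) (C : ℝ) :
    ∃ x₀ : ℕ, ∀ m : ℕ, x₀ ≤ m → ∑ p ∈ bd a m, Real.log p / ((p : ℝ) - 1) ≤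
      1 / s * Real.log m - C := by
  have h0 : 0 < 1 / s - 1 := by
    rw [sub_pos, lt_div_iff₀ hs]
    linarith
  obtain ⟨x₀, hx₀⟩ := exists_nat_gt
    (Real.exp ((C + 2 * (Real.log 4 + 4)) / (1 / s - 1)))
  refine ⟨max x₀ 1, fun m hm => ?_⟩
  have hm1 : 1 ≤ m := (le_max_right _ _).trans hm
  have hm0 : (0 : ℝ) < m := by exact_mod_cast hm1
  have h1 := bd_all a m hm1
  have h2 : (C + 2 * (Real.log 4 + 4)) / (1 / s - 1) ≤ Real.log m := by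
    rw [Real.le_log_iff_exp_le hm0]
    have : (x₀ : ℝ) ≤ m := by exact_mod_cast (le_max_left _ _).trans hm
    linarith
  rw [div_le_iff₀ h0] at h2
  have h3 : Real.log m * (1 / s - 1) = 1 / s * Real.log m - Real.log m := by ring
  rw [h3] at h2
  linarith

end Pool.Agent.Y915.Uni
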